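import Pool.Agent.Lib_helper18.Eis

/-!
# Primes of the Eisenstein integers and the cubic residue symbol
-/

namespace Pool.Agent.Lib_helper18

namespace Eis

/-- the prime above 3 -/
def lam : Eis := ⟨1, -1⟩

@[simp] theorem lam_re : lam.re = 1 := rfl
@[simp] theorem lam_im : lam.im = -1 := rfl
theorem lam_eq : lam = 1 - w := by ext <;> simp
@[simp] theorem norm_lam : lam.norm = 3 := by simp [norm]

theorem intCast_dvd_iff {n : ℤ} {x : Eis} : (n : Eis) ∣ x ↔ n ∣ x.re ∧ n ∣ x.im := by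
  constructor
  · rintro ⟨y, rfl⟩
    simp
  · rintro ⟨⟨a, ha⟩, ⟨b, hb⟩⟩
    exact ⟨⟨a, b⟩, by ext <;> simp [ha, hb]⟩

theorem natCast_dvd_iff {n : ℕ} {x : Eis} : (n : Eis) ∣ x ↔ (n : ℤ) ∣ x.re ∧ (n : ℤ) ∣ x.im := by
  have := intCast_dvd_iff (n := (n : ℤ)) (x := x)
  simpa using this

theorem intCast_dvd_intCast {m n : ℤ} : (m : Eis) ∣ (n : Eis) ↔ m ∣ n := by
  rw [intCast_dvd_iff]; simp

theorem three_eq_cast : (3 : Eis) = ((3 : ℤ) : Eis) := by ext <;> simp

theorem three_dvd_iff {x : Eis} : (3 : Eis) ∣ x ↔ (3 : ℤ) ∣ x.re ∧ (3 : ℤ) ∣ x.im := by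
  rw [three_eq_cast, intCast_dvd_iff]

theorem lam_dvd_iff {x : Eis} : lam ∣ x ↔ (3 : ℤ) ∣ x.re + x.im := by
  constructor
  · rintro ⟨y, rfl⟩
    refine ⟨y.im, ?_⟩
    simp; ring
  · rintro ⟨k, hk⟩
    refine ⟨⟨x.re - k, k⟩, ?_⟩
    ext
    · simp
    · simp; linarith

theorem norm_emod_three (x : Eis) : x.norm % 3 = 0 ∨ x.norm % 3 = 1 := by
  have h : x.norm = (x.re + x.im) ^ 2 - 3 * (x.re * x.im) := by rw [norm_def]; ring
  rw [h]
  generalize x.re + x.im = s
  generalize x.re * x.im = t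
  have : s % 3 = 0 ∨ s % 3 = 1 ∨ s % 3 = 2 := by omega
  rcases this with h | h | h <;> simp [pow_two, Int.sub_emod, Int.mul_emod, h]

theorem norm_emod_three_of_not_lam_dvd {x : Eis} (hx : ¬ lam ∣ x) : x.norm % 3 = 1 := by
  rw [lam_dvd_iff] at hx
  have h : x.norm = (x.re + x.im) ^ 2 - 3 * (x.re * x.im) := by rw [norm_def]; ring
  rw [h]
  revert hx
  generalize x.re + x.im = s
  generalize x.re * x.im = t
  intro hx
  have : s % 3 = 1 ∨ s % 3 = 2 := by omega
  rcases this with h | h <;> simp [pow_two, Int.sub_emod, Int.mul_emod, h]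

theorem lam_dvd_iff_norm {x : Eis} : lam ∣ x ↔ (3 : ℤ) ∣ x.norm := by
  constructor
  · rintro ⟨y, rfl⟩
    simp
  · intro h
    by_contra hx
    have := norm_emod_three_of_not_lam_dvd hx
    omega

/-- if the norm is a rational prime then the element is prime -/
theorem prime_of_norm_prime {x : Eis} (h : Prime x.norm) : Prime x := by
  rw [← irreducible_iff_prime]
  have h1 : Irreducible x.norm := h.irreducible
  have hnu : ∀ y : Eis, IsUnit y ↔ IsUnit y.norm := by
    intro y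
    rw [isUnit_iff_norm, Int.isUnit_iff]
    have := norm_nonneg y
    constructor
    · intro h; left; exact h
    · rintro (h | h)
      · exact h
      · omega
  refine ⟨fun hu => h1.not_isUnit ((hnu x).mp hu), ?_⟩
  intro a b hab
  have := h1.isUnit_or_isUnit (a := a.norm) (b := b.norm) (by rw [hab, norm_mul])
  rwa [← hnu, ← hnu] at this

theorem prime_lam : Prime lam := prime_of_norm_prime (by rw [norm_lam]; exact Int.prime_three)

theorem three_eq : (3 : Eis) = -w ^ 2 * lam ^ 2 := by decide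

theorem lam_dvd_three : lam ∣ 3 := ⟨-w ^ 2 * lam, by rw [three_eq]; ring⟩

theorem dvd_three_iff {l : Eis} (hl : Prime l) : l ∣ 3 ↔ Associated l lam := by
  constructor
  · intro h
    rw [three_eq] at h
    have h1 : l ∣ lam ^ 2 := by
      have h2 : l ∣ (-w ^ 2 * lam ^ 2) * (-w) := dvd_mul_of_dvd_left h _
      have h3 : (-w ^ 2 * lam ^ 2) * (-w) = lam ^ 2 := by
        have := w_cube; linear_combination lam ^ 2 * this
      rwa [h3] at h2
    exact (hl.associated_of_dvd prime_lam (hl.dvd_of_dvd_pow h1))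
  · intro h
    exact h.dvd.trans lam_dvd_three

/-- Every prime divides a rational prime. -/
theorem exists_rational_prime {l : Eis} (hl : Prime l) :
    ∃ q : ℕ, q.Prime ∧ l ∣ (q : Eis) ∧ (l.norm = q ∨ l.norm = q ^ 2) := by
  have h0 : l ≠ 0 := hl.ne_zero
  have hn := norm_pos h0
  have hn1 : l.norm ≠ 1 := fun h => hl.not_isUnit (isUnit_iff_norm.mpr h)
  -- l divides its norm
  have h1 : l ∣ ((l.norm.natAbs : ℕ) : Eis) := by
    have : ((l.norm.natAbs : ℕ) : Eis) = ((l.norm : ℤ) : Eis) := by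
      rw [← Int.cast_natCast, Int.natAbs_of_nonneg hn.le]
    rw [this, ← mul_conj]
    exact dvd_mul_right _ _
  -- find a prime factor
  have key : ∀ n : ℕ, n ≠ 0 → l ∣ (n : Eis) → ∃ q : ℕ, q.Prime ∧ l ∣ (q : Eis) := by
    intro n
    induction n using Nat.recOnMul with
    | zero => intro h; exact absurd rfl h
    | one => intro _ h; rw [Nat.cast_one] at h; exact absurd (isUnit_of_dvd_one h) hl.not_isUnit
    | prime p hp => intro _ h; exact ⟨p, hp, h⟩
    | mul a b iha ihb =>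
      intro hab h
      rw [Nat.cast_mul] at h
      rcases hl.dvd_or_dvd h with h | h
      · exact iha (by rintro rfl; simp at hab) h
      · exact ihb (by rintro rfl; simp at hab) h
  obtain ⟨q, hq, hlq⟩ := key l.norm.natAbs (by omega) h1
  refine ⟨q, hq, hlq, ?_⟩
  obtain ⟨m, hm⟩ := hlq
  have h2 : (q : ℤ) ^ 2 = l.norm * m.norm := by rw [← norm_mul, ← hm, norm_natCast]
  have h3 : l.norm.natAbs ∣ q ^ 2 := by
    have : l.norm ∣ (q : ℤ) ^ 2 := ⟨_, h2⟩
    have := Int.natAbs_dvd_natAbs.mpr this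
    simpa [Int.natAbs_pow] using this
  rw [Nat.dvd_prime_pow hq] at h3
  obtain ⟨k, hk, hk2⟩ := h3
  interval_cases k
  · simp at hk2; omega
  · left; simp at hk2; omega
  · right
    have : (l.norm.natAbs : ℤ) = ((q ^ 2 : ℕ) : ℤ) := by exact_mod_cast hk2
    rw [Int.natCast_natAbs, abs_of_pos hn] at this
    rw [this]; push_cast; ring

/-- size of the residue field -/
def N (l : Eis) : ℕ := l.norm.natAbs

theorem N_cast (l : Eis) : (N l : ℤ) = l.norm := by
  rw [N, Int.natCast_natAbs, abs_of_nonneg (norm_nonneg l)]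

theorem N_mul (l m : Eis) : N (l * m) = N l * N m := by
  simp [N, Int.natAbs_mul]

@[simp] theorem N_conj (l : Eis) : N (conj l) = N l := by simp [N]

theorem N_unit {u : Eis} (hu : IsUnit u) : N u = 1 := by
  rw [N, isUnit_iff_norm.mp hu]; rfl

theorem N_mod_three {x : Eis} (hx : ¬ lam ∣ x) : N x % 3 = 1 := by
  have := norm_emod_three_of_not_lam_dvd hx
  have h2 := N_cast x
  omega

/-- Frobenius congruence. -/
theorem frob {q : ℕ} (hq : q.Prime) (x : Eis) :
    (q : Eis) ∣ x ^ q - ((x.re : Eis) + (x.im : Eis) * w ^ q) := by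
  have := Fact.mk hq
  obtain ⟨r, hr⟩ := exists_add_pow_prime_eq hq (x.re : Eis) ((x.im : Eis) * w)
  have h1 : ∀ a : ℤ, ((q : ℤ) : Eis) ∣ (a : Eis) ^ q - a := by
    intro a
    have : (q : ℤ) ∣ a ^ q - a := by
      rw [← ZMod.intCast_zmod_eq_zero_iff_dvd]
      push_cast
      rw [ZMod.pow_card]; ring
    have h2 := intCast_dvd_intCast.mpr this
    push_cast at h2 ⊢
    exact h2
  have h2 := h1 x.re
  have h3 := h1 x.im
  rw [Int.cast_natCast] at h2 h3
  have hx : x ^ q = ((x.re : Eis) + (x.im : Eis) * w) ^ q := by rw [← eq_re_add_im]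
  rw [hx, hr]
  have e : (x.re : Eis) ^ q + ((x.im : Eis) * w) ^ q + q * (x.re : Eis) * ((x.im : Eis) * w) * r -
      ((x.re : Eis) + (x.im : Eis) * w ^ q) =
      ((x.re : Eis) ^ q - x.re) + ((x.im : Eis) ^ q - x.im) * w ^ q +
      q * ((x.re : Eis) * ((x.im : Eis) * w) * r) := by
    rw [mul_pow]; ring
  rw [e]
  exact dvd_add (dvd_add h2 (dvd_mul_of_dvd_left h3 _)) (dvd_mul_right _ _)

theorem w_pow_mod (n : ℕ) : w ^ n = w ^ (n % 3) := by
  conv_lhs => rw [← Nat.mod_add_div n 3]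
  rw [pow_add, pow_mul, w_cube, one_pow, mul_one]

theorem frob_one {q : ℕ} (hq : q.Prime) (h : q % 3 = 1) (x : Eis) :
    (q : Eis) ∣ x ^ q - x := by
  have := frob hq x
  rw [w_pow_mod q, h, pow_one, ← eq_re_add_im] at this
  exact this

theorem frob_two {q : ℕ} (hq : q.Prime) (h : q % 3 = 2) (x : Eis) :
    (q : Eis) ∣ x ^ q - conj x := by
  have := frob hq x
  rw [w_pow_mod q, h] at this
  have e : conj x = (x.re : Eis) + (x.im : Eis) * w ^ 2 := by
    conv_lhs => rw [eq_re_add_im x]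
    rw [map_add, map_mul, conj_w, conj_intCast, conj_intCast]
  rw [e]
  exact this

theorem dvd_pow_sub {l x : Eis} (hl : Prime l) (h3 : ¬ l ∣ 3) : l ∣ x ^ (N l) - x := by
  obtain ⟨q, hq, hlq, hn⟩ := exists_rational_prime hl
  have hq3 : q ≠ 3 := by
    rintro rfl
    exact h3 (by simpa using hlq)
  have hqm : q % 3 = 1 ∨ q % 3 = 2 := by
    have : q % 3 ≠ 0 := by
      intro h
      have : 3 ∣ q := Nat.dvd_of_mod_eq_zero h
      rw [Nat.prime_dvd_prime_iff_eq Nat.prime_three hq] at this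
      omega
    omega
  have hNN := N_cast l
  rcases hqm with hm | hm
  · have h1 := hlq.trans (frob_one hq hm x)
    rcases hn with hn | hn
    · have : N l = q := by
        have : (N l : ℤ) = q := by rw [hNN, hn]
        exact_mod_cast this
      rw [this]; exact h1
    · have : N l = q * q := by
        have : (N l : ℤ) = q * q := by rw [hNN, hn]; ring
        exact_mod_cast this
      rw [this, pow_mul]
      have h2 : l ∣ (x ^ q) ^ q - x ^ q := hlq.trans (frob_one hq hm (x ^ q))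
      have := dvd_add h2 h1
      simpa using this
  · -- q = 2 mod 3 : then norm is q^2
    have hn' : l.norm = q ^ 2 := by
      rcases hn with hn | hn
      · exfalso
        have := norm_emod_three l
        rw [hn] at this
        omega
      · exact hn
    have : N l = q * q := by
      have : (N l : ℤ) = q * q := by rw [hNN, hn']; ring
      exact_mod_cast this
    rw [this, pow_mul]
    have h1 : l ∣ x ^ q - conj x := hlq.trans (frob_two hq hm x)
    have h2 : l ∣ (conj x) ^ q - x := by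
      have := hlq.trans (frob_two hq hm (conj x))
      rwa [conj_conj] at this
    have h4 : l ∣ (x ^ q) ^ q - (conj x) ^ q := h1.trans (sub_dvd_pow_sub_pow _ _ _)
    have := dvd_add h4 h2
    simpa using this

theorem not_lam_dvd_of_prime {l : Eis} (hl : Prime l) (h3 : ¬ l ∣ 3) : ¬ lam ∣ l := by
  intro h
  exact h3 ((prime_lam.associated_of_dvd hl h).symm.dvd.trans lam_dvd_three)

theorem three_mul_div {l : Eis} (hl : Prime l) (h3 : ¬ l ∣ 3) : 3 * ((N l - 1) / 3) + 1 = N l := by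
  have := N_mod_three (not_lam_dvd_of_prime hl h3)
  omega

theorem dvd_pow_sub_one {l x : Eis} (hl : Prime l) (h3 : ¬ l ∣ 3) (hx : ¬ l ∣ x) :
    l ∣ (x ^ ((N l - 1) / 3)) ^ 3 - 1 := by
  have h := dvd_pow_sub (x := x) hl h3
  have e : x ^ (N l) - x = x * ((x ^ ((N l - 1) / 3)) ^ 3 - 1) := by
    conv_lhs => rw [← three_mul_div hl h3]
    rw [pow_add, mul_comm 3, pow_mul]; ring
  rw [e] at h
  exact (hl.dvd_or_dvd h).resolve_left hx

/-- the cubic residue symbol, as an exponent of `w` -/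
noncomputable def sym (l x : Eis) : ZMod 3 :=
  open Classical in
  if l ∣ x ^ ((N l - 1) / 3) - 1 then 0 else if l ∣ x ^ ((N l - 1) / 3) - w then 1 else 2

theorem w_pow_sub_dvd {l : Eis} (h3 : ¬ l ∣ 3) {m n : ℕ} (h : l ∣ w ^ m - w ^ n) :
    (m : ZMod 3) = n := by
  rw [w_pow_mod m, w_pow_mod n] at h
  rw [ZMod.natCast_eq_natCast_iff']
  have hm : m % 3 < 3 := Nat.mod_lt _ (by norm_num)
  have hn : n % 3 < 3 := Nat.mod_lt _ (by norm_num)
  generalize m % 3 = a at *
  generalize n % 3 = b at *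
  by_contra hab
  apply h3
  refine h.trans ?_
  interval_cases a <;> interval_cases b <;> simp at hab
  · exact ⟨1 - w ^ 2, by decide⟩
  · exact ⟨1 - w, by decide⟩
  · exact ⟨w ^ 2 - 1, by decide⟩
  · exact ⟨w ^ 2 * (1 - w ^ 2), by decide⟩
  · exact ⟨w - 1, by decide⟩
  · exact ⟨w ^ 2 * (w ^ 2 - 1), by decide⟩

theorem sym_spec {l x : Eis} (hl : Prime l) (h3 : ¬ l ∣ 3) (hx : ¬ l ∣ x) :
    l ∣ x ^ ((N l - 1) / 3) - w ^ (sym l x).val := by
  have h := dvd_pow_sub_one hl h3 hx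
  rw [sym]
  split_ifs with h1 h2
  · simpa using h1
  · have : (1 : ZMod 3).val = 1 := rfl
    rw [this, pow_one]; exact h2
  · have e : (x ^ ((N l - 1) / 3)) ^ 3 - 1 =
      (x ^ ((N l - 1) / 3) - 1) * ((x ^ ((N l - 1) / 3) - w) * (x ^ ((N l - 1) / 3) - w ^ 2)) := by
      generalize x ^ ((N l - 1) / 3) = y
      have := w_rel
      have h3 := w_cube
      linear_combination (-y + y ^ 2) * this + (1 - y) * h3
    rw [e] at h
    have := ((hl.dvd_or_dvd h).resolve_left h1)
    have := (hl.dvd_or_dvd this).resolve_left h2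
    have hv : (2 : ZMod 3).val = 2 := rfl
    rw [hv]; exact this

theorem sym_eq_of_dvd {l x : Eis} (hl : Prime l) (h3 : ¬ l ∣ 3) (hx : ¬ l ∣ x) {n : ℕ}
    (h : l ∣ x ^ ((N l - 1) / 3) - w ^ n) : sym l x = n := by
  have h1 := sym_spec hl h3 hx
  have h2 : l ∣ w ^ (sym l x).val - w ^ n := by
    have := dvd_sub h h1
    have e : x ^ ((N l - 1) / 3) - w ^ n - (x ^ ((N l - 1) / 3) - w ^ (sym l x).val) =
      w ^ (sym l x).val - w ^ n := by ring
    rwa [e] at this
  have := w_pow_sub_dvd h3 h2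
  rwa [ZMod.natCast_val, ZMod.cast_id', id] at this

theorem sym_mul {l x y : Eis} (hl : Prime l) (h3 : ¬ l ∣ 3) (hx : ¬ l ∣ x) (hy : ¬ l ∣ y) :
    sym l (x * y) = sym l x + sym l y := by
  have h1 := sym_spec hl h3 hx
  have h2 := sym_spec hl h3 hy
  have hxy : ¬ l ∣ x * y := fun h => (hl.dvd_or_dvd h).elim hx hy
  have h4 : l ∣ (x * y) ^ ((N l - 1) / 3) - w ^ ((sym l x).val + (sym l y).val) := by
    rw [mul_pow, pow_add]
    generalize x ^ ((N l - 1) / 3) = X at *
    generalize y ^ ((N l - 1) / 3) = Y at *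
    have e : X * Y - w ^ (sym l x).val * w ^ (sym l y).val =
      (X - w ^ (sym l x).val) * Y + w ^ (sym l x).val * (Y - w ^ (sym l y).val) := by ring
    rw [e]
    exact dvd_add (dvd_mul_of_dvd_left h1 _) (dvd_mul_of_dvd_right h2 _)
  rw [sym_eq_of_dvd hl h3 hxy h4]
  push_cast
  simp [ZMod.natCast_val]

theorem sym_one {l : Eis} (hl : Prime l) (h3 : ¬ l ∣ 3) : sym l 1 = 0 := by
  have : ¬ l ∣ 1 := fun h => hl.not_isUnit (isUnit_of_dvd_one h)
  simpa using sym_eq_of_dvd (n := 0) hl h3 this (by simp)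

theorem sym_pow {l x : Eis} (hl : Prime l) (h3 : ¬ l ∣ 3) (hx : ¬ l ∣ x) (n : ℕ) :
    sym l (x ^ n) = n * sym l x := by
  induction n with
  | zero => simp [sym_one hl h3]
  | succ n ih =>
    have : ¬ l ∣ x ^ n := fun h => hx (hl.dvd_of_dvd_pow h)
    rw [pow_succ, sym_mul hl h3 this hx, ih]; push_cast; ring

theorem sym_cube {l x : Eis} (hl : Prime l) (h3 : ¬ l ∣ 3) (hx : ¬ l ∣ x) :
    sym l (x ^ 3) = 0 := by
  rw [sym_pow hl h3 hx]
  have : ((3 : ℕ) : ZMod 3) = 0 := by decide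
  rw [this, zero_mul]

theorem sym_congr {l x y : Eis} (h : l ∣ x - y) : sym l x = sym l y := by
  have key : ∀ z : Eis, l ∣ x ^ ((N l - 1) / 3) - z ↔ l ∣ y ^ ((N l - 1) / 3) - z := by
    intro z
    have h1 : l ∣ x ^ ((N l - 1) / 3) - y ^ ((N l - 1) / 3) := h.trans (sub_dvd_pow_sub_pow _ _ _)
    constructor
    · intro h2
      have := dvd_sub h2 h1
      simpa using this
    · intro h2
      have := dvd_add h2 h1
      simpa using this
  by_cases h1 : l ∣ x ^ ((N l - 1) / 3) - 1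
  · simp [sym, h1, (key 1).mp h1]
  · by_cases h2 : l ∣ x ^ ((N l - 1) / 3) - w
    · simp [sym, h1, mt (key 1).mpr h1, h2, (key w).mp h2]
    · simp [sym, h1, mt (key 1).mpr h1, h2, mt (key w).mpr h2]

theorem not_dvd_of_isUnit {l u : Eis} (hl : Prime l) (hu : IsUnit u) : ¬ l ∣ u :=
  fun h => hl.not_isUnit (isUnit_of_dvd_unit h hu)

theorem isUnit_w : IsUnit w := isUnit_iff_norm.mpr norm_w

theorem sym_neg_one {l : Eis} (hl : Prime l) (h3 : ¬ l ∣ 3) : sym l (-1) = 0 := by
  have h1 : ¬ l ∣ (-1 : Eis) := not_dvd_of_isUnit hl (by simp)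
  have := sym_cube hl h3 h1
  have e : (-1 : Eis) ^ 3 = -1 := by norm_num
  rwa [e] at this

theorem sym_neg {l x : Eis} (hl : Prime l) (h3 : ¬ l ∣ 3) (hx : ¬ l ∣ x) :
    sym l (-x) = sym l x := by
  have h1 : ¬ l ∣ (-1 : Eis) := not_dvd_of_isUnit hl (by simp)
  have e : -x = (-1) * x := by ring
  rw [e, sym_mul hl h3 h1 hx, sym_neg_one hl h3, zero_add]

theorem sym_w {l : Eis} (hl : Prime l) (h3 : ¬ l ∣ 3) : sym l w = ((N l - 1) / 3 : ℕ) :=
  sym_eq_of_dvd hl h3 (not_dvd_of_isUnit hl isUnit_w) (by simp)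

theorem sym_conj {l x : Eis} (hl : Prime l) (h3 : ¬ l ∣ 3) (hx : ¬ l ∣ x) :
    sym (conj l) (conj x) = - sym l x := by
  have h1 := sym_spec hl h3 hx
  have h2 := conj_dvd h1
  have hl' := prime_conj hl
  have h3' : ¬ conj l ∣ 3 := fun h => h3 (by
    have := conj_dvd h
    rw [conj_conj] at this
    have e : conj 3 = 3 := conj_natCast 3
    rwa [e] at this)
  have hx' : ¬ conj l ∣ conj x := fun h => hx (conj_dvd_iff.mp h)
  rw [map_sub, map_pow, map_pow, conj_w, ← pow_mul, ← N_conj l] at h2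
  rw [sym_eq_of_dvd hl' h3' hx' h2]
  push_cast
  rw [ZMod.natCast_val, ZMod.cast_id', id]
  have : (2 : ZMod 3) = -1 := by decide
  rw [this]; ring

theorem sym_associated {l m x : Eis} (h : Associated l m) : sym l x = sym m x := by
  have h1 : N l = N m := by
    obtain ⟨u, rfl⟩ := h
    rw [N_mul, N_unit u.isUnit, mul_one]
  have key : ∀ z : Eis, l ∣ z ↔ m ∣ z := fun z => h.dvd_iff_dvd_left
  by_cases h2 : m ∣ x ^ ((N m - 1) / 3) - 1
  · simp [sym, h1, key, h2]
  · by_cases h3 : m ∣ x ^ ((N m - 1) / 3) - w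
    · simp [sym, h1, key, h2, h3]
    · simp [sym, h1, key, h2, h3]

/-- compatibility with a ring homomorphism to a field with kernel generated by `l` -/
theorem map_pow_eq {F : Type*} [Field F] {l x : Eis} (hl : Prime l) (h3 : ¬ l ∣ 3)
    (hx : ¬ l ∣ x) (φ : Eis →+* F) (hφ : φ l = 0) :
    (φ x) ^ ((N l - 1) / 3) = (φ w) ^ (sym l x).val := by
  obtain ⟨c, hc⟩ := sym_spec hl h3 hx
  have := congrArg φ hc
  rw [map_mul, hφ, zero_mul, map_sub, map_pow, map_pow, sub_eq_zero] at this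
  exact this

end Eis

end Pool.Agent.Lib_helper18
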