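import Pool.Agent.Lib_helper18.IIb5

/-!
# Rational points on `X^3 + Y^3 = p^e`
-/

namespace Pool.Agent.Lib_helper18

open Eis

/-- from rational to integral solutions -/
theorem integral_solution {A : ℤ} {X Y : ℚ} (h : X ^ 3 + Y ^ 3 = (A : ℚ)) :
    ∃ x y z : ℤ, z ≠ 0 ∧ x ^ 3 + y ^ 3 = A * z ^ 3 := by
  refine ⟨X.num * Y.den, Y.num * X.den, X.den * Y.den, ?_, ?_⟩
  · have h1 := X.den_ne_zero
    have h2 := Y.den_ne_zero
    exact mul_ne_zero (by exact_mod_cast h1) (by exact_mod_cast h2)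
  · have h1 : (X.den : ℚ) ≠ 0 := by exact_mod_cast X.den_ne_zero
    have h2 : (Y.den : ℚ) ≠ 0 := by exact_mod_cast Y.den_ne_zero
    have hX : X = X.num / X.den := (Rat.num_div_den X).symm
    have hY : Y = Y.num / Y.den := (Rat.num_div_den Y).symm
    have h3 : ((X.num : ℚ) / X.den) ^ 3 + ((Y.num : ℚ) / Y.den) ^ 3 = A := by
      rw [← hX, ← hY]; exact h
    have h4 : ((X.num : ℚ) * Y.den) ^ 3 + ((Y.num : ℚ) * X.den) ^ 3 =
        A * ((X.den : ℚ) * Y.den) ^ 3 := by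
      rw [← h3]; field_simp
    exact_mod_cast h4

/-- The ninth power criterion, for `A = p` and `A = p^2`. -/
theorem main (p : ℕ) (hp : p.Prime) (h9 : p % 9 = 1) (L M : ℤ)
    (hLM : 4 * (p : ℤ) = L ^ 2 + 27 * M ^ 2) {e : ℕ} (he : e = 1 ∨ e = 2) {X Y : ℚ}
    (h : X ^ 3 + Y ^ 3 = (p : ℚ) ^ e) : Concl p e M := by
  have : Fact p.Prime := ⟨hp⟩
  have hpar : ∃ a : ℤ, L = 2 * a - 3 * M := by
    have h1 : (L ^ 2 + 27 * M ^ 2) % 2 = 0 := by rw [← hLM]; omega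
    have h2 : L % 2 = 0 ∨ L % 2 = 1 := by omega
    have h3 : M % 2 = 0 ∨ M % 2 = 1 := by omega
    refine ⟨(L + 3 * M) / 2, ?_⟩
    rcases h2 with h2 | h2 <;> rcases h3 with h3 | h3
    · omega
    · exfalso
      simp [pow_two, Int.add_emod, Int.mul_emod, h2, h3] at h1
    · exfalso
      simp [pow_two, Int.add_emod, Int.mul_emod, h2, h3] at h1
    · omega
  obtain ⟨a, ha⟩ := hpar
  have hπ : (⟨a, 3 * M⟩ : Eis).norm = p := by
    rw [norm_def]
    simp only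
    rw [ha] at hLM
    have h4 : (4 : ℤ) ≠ 0 := by norm_num
    apply mul_left_cancel₀ h4
    linear_combination -hLM
  have hA : X ^ 3 + Y ^ 3 = (((p : ℤ) ^ e : ℤ) : ℚ) := by rw [h]; push_cast; rfl
  obtain ⟨x, y, z, hz, hxyz⟩ := integral_solution hA
  exact first_descent h9 hπ rfl he
    (fun ξ γ s h1 h2 h3 _ h5 => caseIIb h9 hπ rfl he ξ γ s h1 h2 h3 h5)
    z.natAbs x y z rfl hz hxyz

end Pool.Agent.Lib_helper18
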