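import Pool.Agent.Lib_helper18.FD12
import Pool.Agent.Lib_helper18.Main
import Pool.Agent.Lib_helper84.Cub.Defs

/-!
# The first descent for products of primes `= 2, 5 mod 9`
-/

set_option linter.unusedSectionVars false

namespace Pool.Agent.Lib_helper18.CubStep0

open Finset Pool.Agent.Lib_helper18 Pool.Agent.Lib_helper18.Eis Pool.Agent.Lib_helper84.Cub

variable {m : ℕ} (p e : Fin m → ℕ)

/-- product of the prime powers with index in `S` -/
def PP (S : Finset (Fin m)) : ℤ := ∏ j ∈ S, (p j : ℤ) ^ e j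

/-- position function of two disjoint sets -/
def posOf (J J' : Finset (Fin m)) (j : Fin m) : Fin 3 :=
  if j ∈ J then 0 else if j ∈ J' then 1 else 2

theorem cell_eq (pos : Fin m → Fin 3) (k : Fin 3) :
    cell p e pos k = PP p e (univ.filter (fun j => pos j = k)) := by
  unfold cell PP
  rw [prod_filter]

theorem filter_pos_zero (J J' : Finset (Fin m)) :
    univ.filter (fun j => posOf J J' j = 0) = J := by
  ext j
  rw [mem_filter]
  simp only [mem_univ, true_and]
  unfold posOf
  split_ifs with h1 h2 <;> simp [h1]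

theorem filter_pos_one {J J' : Finset (Fin m)} (h : J' ⊆ univ \ J) :
    univ.filter (fun j => posOf J J' j = 1) = J' := by
  ext j
  rw [mem_filter]
  simp only [mem_univ, true_and]
  unfold posOf
  by_cases h1 : j ∈ J
  · have h2 : j ∉ J' := fun h3 => (mem_sdiff.mp (h h3)).2 h1
    simp [h1, h2]
  · by_cases h2 : j ∈ J'
    · simp [h1, h2]
    · simp [h1, h2]

theorem filter_pos_two (J J' : Finset (Fin m)) :
    univ.filter (fun j => posOf J J' j = 2) = (univ \ J) \ J' := by
  ext j
  rw [mem_filter]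
  simp only [mem_univ, true_and, mem_sdiff]
  unfold posOf
  by_cases h1 : j ∈ J
  · simp [h1]
  · by_cases h2 : j ∈ J'
    · simp [h1, h2]
    · simp [h1, h2]

/-- the conclusion of Step 0 -/
def Concl0 : Prop :=
  ∃ (pos : Fin m → Fin 3) (x : Fin 3 → ℤ), (∀ k, ∃ j, pos j ≠ k) ∧ IsPt p e pos x ∧
    ((∏ i, (p i : ℤ) ^ e i) % 9 = 1 ∨ (∏ i, (p i : ℤ) ^ e i) % 9 = 8 →
      ∀ k k', wq (cell p e pos k) = wq (cell p e pos k'))

variable {p e}

theorem three_not_dvd_PP (hp : ∀ i, p i % 9 = 2 ∨ p i % 9 = 5) (S : Finset (Fin m)) :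
    ¬ (3 : ℤ) ∣ PP p e S := by
  intro h
  rw [PP, Int.prime_three.dvd_finsetProd_iff] at h
  obtain ⟨j, -, h⟩ := h
  have h1 := Int.prime_three.dvd_of_dvd_pow h
  have := hp j
  omega

/-- three coprime integers with sum `0` and product `A s^3` give the conclusion or a smaller
solution. -/
theorem three_split (hp : ∀ i, (p i).Prime) (hp9 : ∀ i, p i % 9 = 2 ∨ p i % 9 = 5)
    (he : ∀ i, e i = 1 ∨ e i = 2) (hnot : ¬ Concl0 p e) {u v t s : ℤ} (hs0 : s ≠ 0)
    (huv : IsCoprime u v) (hut : IsCoprime u t) (hvt : IsCoprime v t) (hsum : u + v + t = 0)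
    (hprod : u * v * t = PP p e univ * s ^ 3) :
    ∃ a b c : ℤ, a ^ 3 + b ^ 3 = PP p e univ * c ^ 3 ∧
      s.natAbs = a.natAbs * b.natAbs * c.natAbs := by
  have he0 : ∀ i, e i ≠ 0 := fun i => by have := he i; omega
  obtain ⟨J, -, a, w, hu, hw, hs1⟩ := split_two p e hp he0 univ u (v * t) s (huv.mul_right hut)
    (by rw [← mul_assoc]; exact hprod)
  obtain ⟨J', hJ', b, c, hv, ht, hs2⟩ := split_two p e hp he0 (univ \ J) v t w hvt hw
  change u = PP p e J * a ^ 3 at hu
  change v = PP p e J' * b ^ 3 at hv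
  change t = PP p e ((univ \ J) \ J') * c ^ 3 at ht
  have hs : s = a * b * c := by rw [hs1, hs2]; ring
  have ha0 : a ≠ 0 := by rintro rfl; apply hs0; rw [hs]; ring
  have hb0 : b ≠ 0 := by rintro rfl; apply hs0; rw [hs]; ring
  have hc0 : c ≠ 0 := by rintro rfl; apply hs0; rw [hs]; ring
  have hPd : PP p e J * PP p e J' * PP p e ((univ \ J) \ J') = PP p e univ := by
    rw [mul_assoc]
    unfold PP
    rw [mul_comm (∏ j ∈ J', _), prod_sdiff hJ', mul_comm, prod_sdiff (subset_univ J)]
  have hn3 := three_not_dvd_PP (e := e) hp9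
  by_cases hcon : ∀ k, ∃ j, posOf J J' j ≠ k
  · exfalso
    apply hnot
    have c0 : cell p e (posOf J J') 0 = PP p e J := by rw [cell_eq, filter_pos_zero]
    have c1 : cell p e (posOf J J') 1 = PP p e J' := by rw [cell_eq, filter_pos_one hJ']
    have c2 : cell p e (posOf J J') 2 = PP p e ((univ \ J) \ J') := by
      rw [cell_eq, filter_pos_two]
    refine ⟨posOf J J', ![a, b, c], hcon, ⟨?_, ?_, ?_⟩, ?_⟩
    · intro k
      fin_cases k
      · exact ha0
      · exact hb0
      · exact hc0
    · rw [Fin.sum_univ_three, c0, c1, c2]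
      show PP p e J * a ^ 3 + PP p e J' * b ^ 3 + PP p e ((univ \ J) \ J') * c ^ 3 = 0
      rw [← hu, ← hv, ← ht]; exact hsum
    · have d0 : cell p e (posOf J J') 0 * a ∣ u := ⟨a ^ 2, by rw [c0, hu]; ring⟩
      have d1 : cell p e (posOf J J') 1 * b ∣ v := ⟨b ^ 2, by rw [c1, hv]; ring⟩
      have d2 : cell p e (posOf J J') 2 * c ∣ t := ⟨c ^ 2, by rw [c2, ht]; ring⟩
      have h01 := huv.of_isCoprime_of_dvd_left d0 |>.of_isCoprime_of_dvd_right d1
      have h02 := hut.of_isCoprime_of_dvd_left d0 |>.of_isCoprime_of_dvd_right d2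
      have h12 := hvt.of_isCoprime_of_dvd_left d1 |>.of_isCoprime_of_dvd_right d2
      intro i j hij
      fin_cases i <;> fin_cases j
      · exact absurd rfl hij
      · exact h01
      · exact h02
      · exact h01.symm
      · exact absurd rfl hij
      · exact h12
      · exact h02.symm
      · exact h12.symm
      · exact absurd rfl hij
    · intro hA
      have hA' : PP p e univ % 9 = 1 ∨ PP p e univ % 9 = 8 := hA
      have e1 : wq (PP p e J) = wq (PP p e J') :=
        row3_one hA' huv hut hvt hsum hprod (hn3 _) (hn3 _) hu hv ht hPd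
      have e2 : wq (PP p e J) = wq (PP p e ((univ \ J) \ J')) :=
        row3_one hA' hut huv hvt.symm (by linarith) (by rw [← hprod]; ring) (hn3 _) (hn3 _)
          hu ht hv (by rw [← hPd]; ring)
      have key : ∀ k, wq (cell p e (posOf J J') k) = wq (PP p e J) := by
        intro k
        fin_cases k
        · exact congrArg wq c0
        · exact (congrArg wq c1).trans e1.symm
        · exact (congrArg wq c2).trans e2.symm
      intro k k'
      rw [key, key]
  · push Not at hcon
    obtain ⟨k, hk⟩ := hcon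
    have hone : PP p e ∅ = 1 := prod_empty
    fin_cases k
    · have hJ : J = univ := by
        ext j
        have := hk j
        simp only [posOf] at this
        simp only [mem_univ, iff_true]
        by_contra hj
        rw [if_neg hj] at this
        split_ifs at this <;> exact absurd this (by decide)
      have hJ2 : J' = ∅ := by
        apply Finset.subset_empty.mp
        rw [hJ, Finset.sdiff_self] at hJ'
        exact hJ'
      rw [hJ] at hu ht
      rw [hJ2, hone, one_mul] at hv
      rw [hJ2, Finset.sdiff_self, empty_sdiff, hone, one_mul] at ht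
      refine ⟨b, c, -a, ?_, ?_⟩
      · rw [← hv, ← ht]; linear_combination hsum - hu
      · rw [Int.natAbs_neg, hs, Int.natAbs_mul, Int.natAbs_mul]; ring
    · have hJ : J = ∅ := by
        ext j
        have := hk j
        simp only [posOf] at this
        simp only [notMem_empty, iff_false]
        intro hj
        rw [if_pos hj] at this
        exact absurd this (by decide)
      have hJ2 : J' = univ := by
        ext j
        have := hk j
        simp only [posOf] at this
        simp only [mem_univ, iff_true]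
        by_contra hj
        rw [if_neg (by rw [hJ]; exact notMem_empty j), if_neg hj] at this
        exact absurd this (by decide)
      rw [hJ, hone, one_mul] at hu
      rw [hJ2] at hv
      rw [hJ2, hJ, sdiff_empty, Finset.sdiff_self, hone, one_mul] at ht
      refine ⟨a, c, -b, ?_, ?_⟩
      · rw [← hu, ← ht]; linear_combination hsum - hv
      · rw [Int.natAbs_neg, hs, Int.natAbs_mul, Int.natAbs_mul]; ring
    · have hJ : J = ∅ := by
        ext j
        have := hk j
        simp only [posOf] at this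
        simp only [notMem_empty, iff_false]
        intro hj
        rw [if_pos hj] at this
        exact absurd this (by decide)
      have hJ2 : J' = ∅ := by
        ext j
        have := hk j
        simp only [posOf] at this
        simp only [notMem_empty, iff_false]
        intro hj
        rw [if_neg (by rw [hJ]; exact notMem_empty j), if_pos hj] at this
        exact absurd this (by decide)
      rw [hJ, hone, one_mul] at hu
      rw [hJ2, hone, one_mul] at hv
      rw [hJ2, hJ, sdiff_empty, sdiff_empty] at ht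
      refine ⟨a, b, -c, ?_, ?_⟩
      · rw [← hu, ← hv]; linear_combination hsum - ht
      · rw [Int.natAbs_neg, hs, Int.natAbs_mul, Int.natAbs_mul]

/-- all the primes divide the rational side -/
theorem side (hp : ∀ i, (p i).Prime) (hp9 : ∀ i, p i % 9 = 2 ∨ p i % 9 = 5)
    (he : ∀ i, e i = 1 ∨ e i = 2) {η : Eis} {S z : ℤ} (hηprim : Prim η)
    (hηcop : IsCoprime η (conj η)) (hcoS : IsCoprime S η.norm)
    (hηS : S * η.norm = PP p e univ * z ^ 3) :
    ∃ (γ : Eis) (s t : ℤ), η = γ ^ 3 ∧ ¬ lam ∣ γ ∧ S = PP p e univ * s ^ 3 ∧ z = t * s := by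
  have he0 : ∀ i, e i ≠ 0 := fun i => by have := he i; omega
  obtain ⟨J, -, t, s, ht, hs, hz⟩ := split_two p e hp he0 univ η.norm S z hcoS.symm
    (by rw [mul_comm]; exact hηS)
  have hJ : J = ∅ := by
    ext j
    simp only [notMem_empty, iff_false]
    intro hj
    apply inert_not_dvd_norm (hp j) (by have := hp9 j; omega) hηcop
    rw [ht]
    apply Dvd.dvd.mul_right
    exact (dvd_pow_self _ (he0 j)).trans (dvd_prod_of_mem _ hj)
  subst hJ
  rw [prod_empty, one_mul] at ht
  obtain ⟨γ, hγ, hγ3⟩ := extract (ρ := 1) prim_one (one_dvd _) hηprim hηcop (t := t)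
    (by rw [norm_one, one_mul, ht])
  rw [one_mul] at hγ
  refine ⟨γ, s, t, hγ, hγ3, ?_, hz⟩
  rw [hs, sdiff_empty]; rfl

theorem coord_coprime {α δ : ℤ} (hcoad : IsCoprime α δ) (hl : ¬ (3 : ℤ) ∣ α + δ) :
    IsCoprime (2 * α - δ) (-α - δ) ∧ IsCoprime (2 * α - δ) (2 * δ - α) ∧
      IsCoprime (-α - δ) (2 * δ - α) := by
  have h3n : ∀ n : ℤ, ¬ (3 : ℤ) ∣ n → IsCoprime n 3 := by
    intro n hn
    rw [isCoprime_comm, Int.prime_three.irreducible.coprime_iff_not_dvd]
    exact hn
  have key : ∀ u v : ℤ, (∃ a b c d : ℤ, a * u + b * v = 3 * α ∧ c * u + d * v = 3 * δ) →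
      ¬ (3 : ℤ) ∣ u → IsCoprime u v := by
    rintro u v ⟨a, b, c, d, h1, h2⟩ hu
    obtain ⟨m, n, hmn⟩ := hcoad
    have h4 : IsCoprime u (3 : ℤ) := h3n u hu
    have h5 : ∃ g h : ℤ, g * u + h * v = 3 :=
      ⟨m * a + n * c, m * b + n * d, by linear_combination m * h1 + n * h2 + 3 * hmn⟩
    obtain ⟨g, h, hgh⟩ := h5
    obtain ⟨k, l, hkl⟩ := h4
    exact ⟨k + l * g, l * h, by linear_combination hkl + l * hgh⟩
  exact ⟨key _ _ ⟨1, -1, -1, -2, by ring, by ring⟩ (by omega),
    key _ _ ⟨2, 1, 1, 2, by ring, by ring⟩ (by omega),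
    key _ _ ⟨-2, -1, -1, 1, by ring, by ring⟩ (by omega)⟩

theorem PP_big (hm : 2 ≤ m) (hp : ∀ i, (p i).Prime) (hinj : Function.Injective p)
    (he : ∀ i, e i = 1 ∨ e i = 2) : ¬ PP p e univ ∣ 2 := by
  intro h
  have hpos : ∀ j, (2 : ℤ) ≤ (p j : ℤ) ^ e j := by
    intro j
    have h2 : (2 : ℤ) ≤ p j := by exact_mod_cast (hp j).two_le
    rcases he j with h | h <;> rw [h]
    · linarith
    · nlinarith
  have h0 : (0 : Fin m → ℕ) = 0 := rfl
  let i0 : Fin m := ⟨0, by omega⟩
  let i1 : Fin m := ⟨1, by omega⟩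
  have h01 : i0 ≠ i1 := by
    intro h
    have := congrArg Fin.val h
    simp [i0, i1] at this
  have hd : PP p e {i0, i1} ∣ PP p e univ := prod_dvd_prod_of_subset _ _ _ (subset_univ _)
  have h4 : PP p e {i0, i1} = (p i0 : ℤ) ^ e i0 * (p i1 : ℤ) ^ e i1 := by
    unfold PP
    rw [prod_pair h01]
  have h5 := Int.le_of_dvd (by norm_num) (hd.trans h)
  rw [h4] at h5
  have := hpos i0
  have := hpos i1
  nlinarith

theorem step0 : Step0Stmt := by
  intro m p e hm hp hp9 hinj he hXY
  by_contra hnot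
  change ¬ Concl0 p e at hnot
  obtain ⟨X, Y, hXY⟩ := hXY
  have hAcast : X ^ 3 + Y ^ 3 = ((PP p e univ : ℤ) : ℚ) := by
    rw [hXY]; unfold PP; push_cast; rfl
  obtain ⟨x, y, z, hz, hxyz⟩ := integral_solution hAcast
  have hn3 := three_not_dvd_PP (e := e) hp9
  have hprime : ∀ i, Prime (p i : ℤ) := fun i => Nat.prime_iff_prime_int.mp (hp i)
  have hA0 : PP p e univ ≠ 0 :=
    prod_ne_zero_iff.mpr (fun j _ => pow_ne_zero _ (hprime j).ne_zero)
  have hcf := cube_not_dvd_prod p e hp hinj (fun i => by have := he i; omega) univ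
  have hApos : 0 < PP p e univ :=
    prod_pos (fun j _ => pow_pos (by exact_mod_cast (hp j).pos) _)
  refine no_solution hA0 hcf ?_ z.natAbs x y z rfl hz hxyz
  clear hxyz hz x y z hAcast hXY X Y
  intro x y z hz hco hxyz
  by_cases h3z : (3 : ℤ) ∣ z
  · obtain ⟨z1, S, η, hz1, hηprim, hηcop, hηim, hηdiff, hcoS, hηS⟩ := caseA_data hco h3z hxyz
    obtain ⟨γ, s, t, hγ, hγ3, hS, hzt⟩ := side hp hp9 he hηprim hηcop hcoS hηS
    obtain ⟨α, δ⟩ := γ
    have hcoad : IsCoprime α δ := coprime_coords rfl hγ3 (by rw [← hγ]; exact hηcop)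
    have hprod : α * δ * (α - δ) = PP p e univ * s ^ 3 := by
      have h6 := congrArg Eis.im hγ
      simp only [pow_succ, pow_zero, one_mul, mul_im, mul_re] at h6
      rw [hηim] at h6
      rw [← hS]
      linarith
    have hc1 : IsCoprime α (δ - α) := by
      obtain ⟨u, v, huv⟩ := hcoad
      exact ⟨u + v, v, by linear_combination huv⟩
    have hc2 : IsCoprime (-δ) (δ - α) := by
      obtain ⟨u, v, huv⟩ := hcoad
      exact ⟨-(u + v), -u, by linear_combination huv⟩
    have hs0 : s ≠ 0 := by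
      rintro rfl
      apply hz
      rw [hz1, hzt]; ring
    obtain ⟨a, b, c, habc, hsabc⟩ := three_split hp hp9 he hnot hs0 hcoad.neg_right hc1 hc2
      (by ring) (by rw [← hprod]; ring)
    obtain ⟨h1, h2⟩ := natAbs_lt_of (z := z) (s := s) (t := t) (by rw [hz1, hzt]) hsabc hz
    exact ⟨a, b, c, h1, habc, h2⟩
  · by_cases hA9 : PP p e univ % 9 = 1 ∨ PP p e univ % 9 = 8
    · exfalso
      obtain ⟨η, hηprim, hηcop, hηrel, hcoS, hηS⟩ := caseB1_data hco h3z hA9 hxyz
      obtain ⟨γ, s, t, hγ, hγ3, hS, hzt⟩ := side hp hp9 he hηprim hηcop hcoS hηS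
      let i0 : Fin m := ⟨0, by omega⟩
      have hr := hp i0
      have hr3 : p i0 % 3 = 2 := by have := hp9 i0; omega
      have hP := prime_inert hr hr3
      have hrn3 := FData.inert_n3 hr hr3
      have hdvd : (p i0 : Eis) ∣ w * η + w ^ 2 * conj η := by
        rw [hηrel, dvd_neg]
        have h1 : (p i0 : ℤ) ∣ x + y := by
          rw [hS]
          apply Dvd.dvd.mul_right
          have he0 : e i0 ≠ 0 := by have := he i0; omega
          exact (dvd_pow_self _ he0).trans (dvd_prod_of_mem _ (mem_univ i0))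
        have h2 := intCast_dvd_intCast.mpr h1
        rwa [Int.cast_natCast] at h2
      have hnη : ¬ (p i0 : Eis) ∣ η ∧ ¬ (p i0 : Eis) ∣ conj η := by
        have h0 := inert_not_dvd_norm hr hr3 hηcop
        have h1 : ∀ ξ : Eis, ξ.norm = η.norm → ¬ (p i0 : Eis) ∣ ξ := by
          intro ξ hξ hd
          apply h0
          obtain ⟨c, hc⟩ := hd
          rw [← hξ, hc, norm_mul, norm_natCast]
          exact ⟨p i0 * c.norm, by ring⟩
        exact ⟨h1 _ rfl, h1 _ (norm_conj η)⟩
      have hw1 : ¬ (p i0 : Eis) ∣ w := not_dvd_of_isUnit hP isUnit_w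
      have hw2 : ¬ (p i0 : Eis) ∣ w ^ 2 := not_dvd_of_isUnit hP (isUnit_w.pow 2)
      have hγd : ¬ (p i0 : Eis) ∣ γ := fun h => hnη.1 (by
        rw [hγ]; exact Dvd.dvd.pow h (by norm_num))
      have hγd' : ¬ (p i0 : Eis) ∣ conj γ := fun h => hnη.2 (by
        rw [hγ, map_pow]; exact Dvd.dvd.pow h (by norm_num))
      have hm2 : ¬ (p i0 : Eis) ∣ w ^ 2 * conj η := fun h =>
        (hP.dvd_or_dvd h).elim hw2 hnη.2
      have hc : sym (p i0 : Eis) (w * η) = sym (p i0 : Eis) (w ^ 2 * conj η) := by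
        rw [← sym_neg hP hrn3 hm2]
        apply sym_congr
        rw [sub_neg_eq_add]; exact hdvd
      rw [sym_mul hP hrn3 hw1 hnη.1, sym_mul hP hrn3 hw2 hnη.2, hγ, sym_cube hP hrn3 hγd,
        map_pow, sym_cube hP hrn3 hγd', FData.sym_w_pow hP hrn3, FData.sym_w_r hr hr3] at hc
      have hwq : wq (p i0) = 0 := by
        have h3 : (3 : ZMod 3) = 0 := by decide
        push_cast at hc
        linear_combination hc
      have h9 := hp9 i0
      have h9' : (p i0 : ℤ) % 9 = 2 ∨ (p i0 : ℤ) % 9 = 5 := by omega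
      unfold wq at hwq
      rcases h9' with h | h <;> rw [h] at hwq <;> exact absurd hwq (by decide)
    · have hA1 : PP p e univ % 9 ≠ 1 := fun h => hA9 (Or.inl h)
      have hA8 : PP p e univ % 9 ≠ 8 := fun h => hA9 (Or.inr h)
      obtain ⟨η, hηprim, hηcop, hηsum, hcoS, hηS⟩ := caseB_data hco h3z (hn3 _) hA1 hA8 hxyz
      obtain ⟨γ, s, t, hγ, hγ3, hS, hzt⟩ := side hp hp9 he hηprim hηcop hcoS hηS
      have hs0 : s ≠ 0 := by rintro rfl; simp at hzt; exact hz hzt
      have ht0 : t ≠ 0 := by rintro rfl; simp at hzt; exact hz hzt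
      obtain ⟨α, δ⟩ := γ
      have hcoad : IsCoprime α δ := coprime_coords rfl hγ3 (by rw [← hγ]; exact hηcop)
      have hl : ¬ (3 : ℤ) ∣ α + δ := by rw [lam_dvd_iff] at hγ3; exact hγ3
      have hprod : (2 * α - δ) * (-α - δ) * (2 * δ - α) = PP p e univ * (-s) ^ 3 := by
        have h6 := trace_identity α δ
        rw [← map_pow, ← hγ, hηsum, hS] at h6
        have h7 := congrArg Eis.re h6
        simp only [neg_re, intCast_re] at h7
        rw [← h7]; ring
      obtain ⟨c1, c2, c3⟩ := coord_coprime hcoad hl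
      obtain ⟨a, b, c, habc, hsabc⟩ := three_split hp hp9 he hnot (neg_ne_zero.mpr hs0) c1 c2 c3
        (by ring) hprod
      rw [Int.natAbs_neg] at hsabc
      have hc0 : c ≠ 0 := by
        rintro rfl
        simp at hsabc
        exact hs0 hsabc
      have ha0 : a ≠ 0 := by rintro rfl; simp at hsabc; exact hs0 hsabc
      have hb0 : b ≠ 0 := by rintro rfl; simp at hsabc; exact hs0 hsabc
      refine ⟨a, b, c, hc0, habc, ?_⟩
      have h1 : z.natAbs = t.natAbs * s.natAbs := by rw [hzt, Int.natAbs_mul]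
      have ha1 : 1 ≤ a.natAbs := Int.natAbs_pos.mpr ha0
      have hb1 : 1 ≤ b.natAbs := Int.natAbs_pos.mpr hb0
      have hc1 : 1 ≤ c.natAbs := Int.natAbs_pos.mpr hc0
      have ht1 : 1 ≤ t.natAbs := Int.natAbs_pos.mpr ht0
      have h3 : s.natAbs ≤ t.natAbs * s.natAbs := by
        calc s.natAbs = 1 * s.natAbs := by ring
          _ ≤ t.natAbs * s.natAbs := by gcongr
      by_contra hcon
      have h4 : s.natAbs ≤ c.natAbs := by omega
      -- then |a| = |b| = 1
      have h5 : a.natAbs * b.natAbs = 1 := by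
        rw [hsabc] at h4
        by_contra hne
        have h6 : 2 ≤ a.natAbs * b.natAbs := by
          have : 1 ≤ a.natAbs * b.natAbs := Nat.mul_pos ha1 hb1
          omega
        nlinarith
      have ha2 : a.natAbs = 1 := Nat.eq_one_of_mul_eq_one_right h5
      have hb2 : b.natAbs = 1 := Nat.eq_one_of_mul_eq_one_left h5
      have hcase : PP p e univ * c ^ 3 = 2 ∨ PP p e univ * c ^ 3 = -2 := by
        have hAc : PP p e univ * c ^ 3 ≠ 0 := mul_ne_zero hA0 (pow_ne_zero _ hc0)
        rcases Int.natAbs_eq a with h | h <;> rcases Int.natAbs_eq b with h' | h' <;>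
          rw [ha2] at h <;> rw [hb2] at h' <;> rw [h, h'] at habc <;> norm_num at habc
        · left; exact habc.symm
        · exact absurd habc (by tauto)
        · exact absurd habc (by tauto)
        · right; exact habc.symm
      have hAd : PP p e univ ∣ 2 := by
        rcases hcase with h | h
        · exact ⟨_, h.symm⟩
        · exact ⟨-c ^ 3, by linarith⟩
      exact PP_big hm hp hinj he hAd

end Pool.Agent.Lib_helper18.CubStep0
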