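import Pool.Agent.Lib_helper18.Suppl

/-!
# The two cases in which `p` divides the norm factor
-/

namespace Pool.Agent.Lib_helper18

/-- roots of order dividing `p - 1` -/
theorem exists_root {p : ℕ} [hp : Fact p.Prime] {n k : ℕ} (hn : p - 1 = n * k) {x : ZMod p}
    (hx : x ≠ 0) (h : x ^ k = 1) : ∃ y : ZMod p, y ^ n = x := by
  obtain ⟨g, hg⟩ := IsCyclic.exists_generator (α := (ZMod p)ˣ)
  have hord : orderOf g = p - 1 := by
    rw [orderOf_eq_card_of_forall_mem_zpowers hg, Nat.card_eq_fintype_card,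
      ZMod.card_units_eq_totient, Nat.totient_prime hp.out]
  have hp2 := hp.out.two_le
  obtain ⟨j, hj⟩ : ∃ j : ℕ, g ^ j = Units.mk0 x hx :=
    (mem_powers_iff_mem_zpowers (x := g) (y := Units.mk0 x hx)).mpr (hg _)
  have hx' : x = (g : ZMod p) ^ j := by
    have := congrArg Units.val hj
    simpa using this.symm
  have h1 : g ^ (j * k) = 1 := by
    ext
    push_cast
    rw [pow_mul, ← hx', h]
  rw [← orderOf_dvd_iff_pow_eq_one, hord, hn] at h1
  have hk : 0 < k := by
    rcases Nat.eq_zero_or_pos k with h | h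
    · rw [h] at hn; omega
    · exact h
  have h2 : n ∣ j := Nat.dvd_of_mul_dvd_mul_right hk h1
  obtain ⟨i, rfl⟩ := h2
  exact ⟨(g : ZMod p) ^ i, by rw [hx', ← pow_mul, mul_comm]⟩

namespace Eis

/-- square root of `-3` -/
def r3 : Eis := w * lam

theorem r3_sq : r3 ^ 2 = -3 := by decide
theorem r3_eq : r3 = w - w ^ 2 := by decide
theorem conj_r3 : conj r3 = -r3 := by decide

theorem Prim.mul {x y : Eis} (hx : Prim x) (hy : Prim y) : Prim (x * y) := by
  obtain ⟨⟨a, ha⟩, h2⟩ := hx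
  obtain ⟨⟨b, hb⟩, h4⟩ := hy
  refine ⟨?_, ?_⟩
  · rw [mul_im, ha, hb]
    exact ⟨x.re * b + a * y.re - 3 * a * b, by ring⟩
  · rw [mul_re, ha, hb]
    intro h
    have h5 : (3 : ℤ) ∣ x.re * y.re := by
      have : x.re * y.re = (x.re * y.re - 3 * a * (3 * b)) + 3 * (3 * a * b) := by ring
      rw [this]
      exact dvd_add h (dvd_mul_right _ _)
    rcases Int.prime_three.dvd_or_dvd h5 with h | h
    · exact h2 h
    · exact h4 h

theorem prim_one : Prim 1 := ⟨by simp, by simp⟩

theorem Prim.pow {x : Eis} (hx : Prim x) (n : ℕ) : Prim (x ^ n) := by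
  induction n with
  | zero => rw [pow_zero]; exact prim_one
  | succ n ih => rw [pow_succ]; exact ih.mul hx

theorem Prim.not_lam_dvd {x : Eis} (hx : Prim x) : ¬ lam ∣ x := by
  rw [lam_dvd_iff]
  have h1 := hx.1
  have h2 := hx.2
  omega

theorem Prim.neg {x : Eis} (hx : Prim x) : Prim (-x) := by
  refine ⟨?_, ?_⟩
  · simpa using hx.1
  · simpa using hx.2

/-- cubes of elements prime to 3 are `±1` modulo 9 -/
theorem cube_mod_nine {x : Eis} (hx : ¬ lam ∣ x) :
    ∃ C : ℤ, (C = 1 ∨ C = -1) ∧ ∃ y : Eis, x ^ 3 = (C : Eis) + 9 * y := by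
  obtain ⟨i, hi⟩ := exists_prim hx
  have h1 : x ^ 3 = (x * w ^ i) ^ 3 := by
    rw [mul_pow, ← pow_mul, mul_comm i, pow_mul, w_cube, one_pow, mul_one]
  obtain ⟨⟨d, hd⟩, hc⟩ := hi
  set δ := x * w ^ i with hδ
  have h2 : δ = (δ.re : Eis) + 3 * ((d : Eis) * w) := by
    conv_lhs => rw [eq_re_add_im δ, hd]
    push_cast; ring
  have h3 : ∃ C : ℤ, (C = 1 ∨ C = -1) ∧ ∃ b : ℤ, δ.re ^ 3 = C + 9 * b := by
    generalize δ.re = c at hc
    have : c % 3 = 1 ∨ c % 3 = 2 := by omega
    rcases this with h | h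
    · obtain ⟨u, hu⟩ : ∃ u, c = 1 + 3 * u := ⟨c / 3, by omega⟩
      exact ⟨1, Or.inl rfl, u + 3 * u ^ 2 + 3 * u ^ 3, by rw [hu]; ring⟩
    · obtain ⟨u, hu⟩ : ∃ u, c = -1 + 3 * u := ⟨(c + 1) / 3, by omega⟩
      exact ⟨-1, Or.inr rfl, u - 3 * u ^ 2 + 3 * u ^ 3, by rw [hu]; ring⟩
  obtain ⟨C, hC, b, hb⟩ := h3
  refine ⟨C, hC, (b : Eis) + ((δ.re : Eis) ^ 2 * ((d : Eis) * w) +
    3 * (δ.re : Eis) * ((d : Eis) * w) ^ 2 + 3 * ((d : Eis) * w) ^ 3), ?_⟩
  have hb' : (δ.re : Eis) ^ 3 = (C : Eis) + 9 * (b : Eis) := by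
    have := congrArg (Int.cast : ℤ → Eis) hb
    push_cast at this; exact this
  rw [h1]
  conv_lhs => rw [h2]
  linear_combination hb'

section split

variable {p : ℕ} [hp : Fact p.Prime] {π : Eis}

/-- The value of `π` modulo its conjugate. -/
theorem hom_pi (φ : Eis →+* ZMod p) (hφ : ∀ x, φ x = 0 ↔ conj π ∣ x) {M : ℤ}
    (hM : π.im = 3 * M) : φ π = -((φ r3) ^ 3 * (M : ZMod p)) := by
  have h1 : φ (conj π) = 0 := (hφ _).mpr dvd_rfl
  have h2 : π - conj π = 3 * (M : Eis) * r3 := by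
    rw [r3_eq]
    have h3 : π = (π.re : Eis) + 3 * (M : Eis) * w := by
      conv_lhs => rw [eq_re_add_im π, hM]
      push_cast; ring
    have h4 : conj π = (π.re : Eis) + 3 * (M : Eis) * w ^ 2 := by
      conv_lhs => rw [h3]
      rw [map_add, map_mul, map_mul, conj_w, conj_intCast, conj_intCast]
      have : conj 3 = 3 := conj_natCast 3
      rw [this]
    linear_combination h3 - h4
  have h5 := congrArg φ h2
  rw [map_sub, h1, sub_zero, map_mul, map_mul, map_intCast] at h5
  have h6 : (φ r3) ^ 2 = -3 := by rw [← map_pow, r3_sq, map_neg, hom_three]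
  rw [h5, hom_three]
  linear_combination ((M : ZMod p) * φ r3) * h6

omit hp in
theorem conj_norm (hπ : π.norm = p) : (conj π).norm = p := by rw [norm_conj, hπ]

theorem sym_rat_conj (hp3 : p % 3 = 1) (hπ : π.norm = p) {s : ℤ} (hs : ¬ (p : ℤ) ∣ s) :
    sym (conj π) (s : Eis) = - sym π (s : Eis) := by
  have h1 : ¬ π ∣ (s : Eis) := by rwa [dvd_intCast_iff hπ]
  have := sym_conj (prime_of_norm_eq hπ) (not_dvd_three hπ hp3) h1
  rwa [conj_intCast] at this

theorem conj_im_dvd (hprim : (3 : ℤ) ∣ π.im) : (3 : ℤ) ∣ (conj π).im := by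
  rw [conj_im, dvd_neg]; exact hprim

/-- Case I-a. -/
theorem caseIa (hp9 : p % 9 = 1) (hπ : π.norm = p) {M : ℤ} (hM : π.im = 3 * M)
    (φ : Eis →+* ZMod p) (hφ : ∀ x, φ x = 0 ↔ conj π ∣ x)
    {e : ℕ} (he : e = 1 ∨ e = 2) {γ η : Eis} (hη : η = π ^ e * γ ^ 3) (hγ3 : ¬ lam ∣ γ)
    (hcop : IsCoprime η (conj η)) {s : ℤ} (hs : η - conj η = 3 * r3 * (s : Eis) ^ 3) :
    ∃ τ : ZMod p, τ ^ 9 = (M : ZMod p) ^ e * (φ r3) ^ (3 * (e - 1)) := by
  have hp3 : p % 3 = 1 := by omega
  have hprim : (3 : ℤ) ∣ π.im := ⟨M, hM⟩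
  have hπpr := prime_of_norm_eq hπ
  have hπ3 := not_dvd_three hπ hp3
  have hπc := conj_norm hπ
  have hπcpr := prime_of_norm_eq hπc
  have hπc3 := not_dvd_three hπc hp3
  have hcprim := conj_im_dvd hprim
  have hnc := not_dvd_conj hp3 hπ
  have hnc' : ¬ conj π ∣ π := by
    have := not_dvd_conj hp3 hπc
    rwa [conj_conj] at this
  have hcopp : ∀ l : Eis, Prime l → ¬ (l ∣ η ∧ l ∣ conj η) := by
    rintro l hl ⟨h1, h2⟩
    exact hl.not_isUnit (hcop.isUnit_of_dvd' h1 h2)
  have hce : conj η = conj π ^ e * conj γ ^ 3 := by rw [hη, map_mul, map_pow, map_pow]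
  have he0 : e ≠ 0 := by omega
  have hγ0 : γ ≠ 0 := by
    rintro rfl
    exact hγ3 (dvd_zero _)
  -- conj π does not divide γ and s
  have hcπη : conj π ∣ conj η := by
    rw [hce]; exact Dvd.dvd.mul_right (dvd_pow_self _ he0) _
  have hcγ : ¬ conj π ∣ γ := by
    intro h
    refine hcopp _ hπcpr ⟨?_, hcπη⟩
    rw [hη]
    exact Dvd.dvd.mul_left (Dvd.dvd.pow h (by norm_num)) _
  have hps : ¬ (p : ℤ) ∣ s := by
    intro h
    have h1 : conj π ∣ (s : Eis) := by rwa [dvd_intCast_iff hπc]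
    have h2 : conj π ∣ η := by
      have : η = conj η + 3 * r3 * (s : Eis) ^ 3 := by rw [← hs]; ring
      rw [this]
      exact dvd_add hcπη (Dvd.dvd.mul_left (Dvd.dvd.pow h1 (by norm_num)) _)
    exact hcopp _ hπcpr ⟨h2, hcπη⟩
  -- symbols of s
  have hsymη : ∀ l : Eis, Prime l → ¬ l ∣ 3 → ¬ l ∣ η → sym l η = e * sym l π := by
    intro l hl hl3 hlη
    have h1 : ¬ l ∣ π := fun h => hlη (by
      rw [hη]; exact Dvd.dvd.mul_right (Dvd.dvd.pow h he0) _)
    have h2 : ¬ l ∣ γ := fun h => hlη (by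
      rw [hη]; exact Dvd.dvd.mul_left (Dvd.dvd.pow h (by norm_num)) _)
    rw [hη, sym_mul hl hl3 (fun h => h1 (hl.dvd_of_dvd_pow h))
      (fun h => h2 (hl.dvd_of_dvd_pow h)), sym_cube hl hl3 h2, sym_pow hl hl3 h1, add_zero]
  have hsymη' : ∀ l : Eis, Prime l → ¬ l ∣ 3 → ¬ l ∣ conj η →
      sym l (conj η) = e * sym l (conj π) := by
    intro l hl hl3 hlη
    have h1 : ¬ l ∣ conj π := fun h => hlη (by
      rw [hce]; exact Dvd.dvd.mul_right (Dvd.dvd.pow h he0) _)
    have h2 : ¬ l ∣ conj γ := fun h => hlη (by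
      rw [hce]; exact Dvd.dvd.mul_left (Dvd.dvd.pow h (by norm_num)) _)
    rw [hce, sym_mul hl hl3 (fun h => h1 (hl.dvd_of_dvd_pow h))
      (fun h => h2 (hl.dvd_of_dvd_pow h)), sym_cube hl hl3 h2, sym_pow hl hl3 h1, add_zero]
  have hee : ∀ x : ZMod 3, (e : ZMod 3) * x = 0 → x = 0 := by
    rcases he with rfl | rfl
    · intro x; simp
    · intro x; push_cast; revert x; decide
  have hSprime : ∀ l : Eis, Prime l → ¬ l ∣ 3 → l ∣ (s : Eis) →
      sym l π - sym l (conj π) = 0 := by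
    intro l hl hl3 hls
    have h1 : l ∣ η - conj η := by
      rw [hs]; exact Dvd.dvd.mul_left (Dvd.dvd.pow hls (by norm_num)) _
    have h2 : ¬ l ∣ η := by
      intro h
      refine hcopp l hl ⟨h, ?_⟩
      have := dvd_sub h h1
      simpa using this
    have h3 : ¬ l ∣ conj η := by
      intro h
      refine h2 ?_
      have := dvd_add h1 h
      simpa using this
    have h4 := sym_congr h1
    rw [hsymη l hl hl3 h2, hsymη' l hl hl3 h3] at h4
    apply hee
    rw [mul_sub, h4, sub_self]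
  have hs0 : s ≠ 0 := by rintro rfl; simp at hps
  have hsS : sym π (s : Eis) = 0 := by
    obtain ⟨k, s', hs'3, hss⟩ : ∃ k : ℕ, ∃ s' : ℤ, ¬ (3 : ℤ) ∣ s' ∧ s = 3 ^ k * s' := by
      obtain ⟨k, s', h1, h2⟩ := WfDvdMonoid.max_power_factor hs0 Int.prime_three.irreducible
      exact ⟨k, s', h1, h2⟩
    have hps' : ¬ (p : ℤ) ∣ s' := fun h => hps (by rw [hss]; exact Dvd.dvd.mul_left h _)
    have hπs' : ¬ π ∣ (s' : Eis) := by rwa [dvd_intCast_iff hπ]
    have h1 := lemmaS hp3 hπ hprim 0 s' hs'3 hps' (by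
      intro l hl hls
      rw [zero_mul]
      have hl3 : ¬ l ∣ 3 := by
        intro h
        have h1 := (dvd_three_iff hl).mp h
        have h2 : lam ∣ (s' : Eis) := h1.symm.dvd.trans hls
        rw [lam_dvd_iff] at h2
        simp only [intCast_re, intCast_im, add_zero] at h2
        exact hs'3 h2
      apply hSprime l hl hl3
      rw [hss]; push_cast
      exact Dvd.dvd.mul_left hls _)
    rw [zero_mul] at h1
    have h2 : sym π (s' : Eis) = 0 := by
      generalize sym π (s' : Eis) = x at h1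
      revert x; decide
    rcases Nat.eq_zero_or_pos k with hk | hk
    · rw [hss, hk, pow_zero, one_mul]; exact h2
    · -- 3 divides s, hence M
      have h3s : (3 : ℤ) ∣ s := by
        rw [hss]; exact Dvd.dvd.mul_right (dvd_pow_self _ (by omega)) _
      have h3M : (3 : ℤ) ∣ M := by
        obtain ⟨C, hC, y, hy⟩ := cube_mod_nine hγ3
        obtain ⟨c, hc⟩ := h3s
        have hre := re_not_dvd hp3 hπ hprim
        -- η - conj η is divisible by 81
        have h4 : η.im = 3 * (s ^ 3) := by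
          have h5 := congrArg Eis.im hs
          have h6 : (3 * r3 * (s : Eis) ^ 3).im = 6 * s ^ 3 := by
            have : (3 * r3 * (s : Eis) ^ 3) = ((s ^ 3 : ℤ) : Eis) * ⟨3, 6⟩ := by
              have : (3 * r3 : Eis) = ⟨3, 6⟩ := by decide
              rw [this]; push_cast; ring
            rw [this, mul_im, intCast_re, intCast_im]; ring
          rw [h6] at h5
          simp only [sub_im, conj_im] at h5
          linarith
        rw [hc] at h4
        have h7 : (9 : ℤ) ∣ η.im := ⟨9 * c ^ 3, by rw [h4]; ring⟩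
        -- η = C π^e mod 9
        have h8 : η = (C : Eis) * π ^ e + 9 * (π ^ e * y) := by
          rw [hη, hy]; ring
        have h9 : (9 * (π ^ e * y) : Eis).im = 9 * (π ^ e * y).im := by
          have : (9 : Eis) = ((9 : ℤ) : Eis) := by ext <;> simp
          rw [this, mul_im, intCast_re, intCast_im]; ring
        have h10 : (9 : ℤ) ∣ C * (π ^ e).im := by
          have := congrArg Eis.im h8
          rw [add_im, h9, mul_im, intCast_re, intCast_im] at this
          have h11 : C * (π ^ e).im = η.im - 9 * (π ^ e * y).im := by rw [this]; ring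
          rw [h11]
          exact dvd_sub h7 (dvd_mul_right _ _)
        have h11 : (9 : ℤ) ∣ (π ^ e).im := by
          rcases hC with h | h <;> rw [h] at h10
          · simpa using h10
          · simpa using h10
        rcases he with h | h
        · rw [h, pow_one, hM] at h11
          omega
        · rw [h, pow_two, mul_im, hM] at h11
          have : (9 : ℤ) ∣ 6 * (π.re * M) := by
            have h12 : 6 * (π.re * M) = (π.re * (3 * M) + 3 * M * π.re - 3 * M * (3 * M))
              + 9 * M ^ 2 := by ring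
            rw [h12]
            exact dvd_add h11 (dvd_mul_right _ _)
          have h13 : (3 : ℤ) ∣ π.re * M := by omega
          exact (Int.prime_three.dvd_or_dvd h13).resolve_left hre
      have hlam : sym π lam = 0 := by
        rw [sym_lam' hp9 hπ hM]
        obtain ⟨c, hc⟩ := h3M
        rw [hc]
        push_cast
        have h3 : (3 : ZMod 3) = 0 := by decide
        rw [h3]; ring
      have hπlam : ¬ π ∣ lam := fun h => hπ3 (h.trans lam_dvd_three)
      have h3' : sym π 3 = 0 := by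
        rw [three_eq, sym_mul hπpr hπ3 (not_dvd_of_isUnit hπpr (isUnit_w.pow 2).neg)
          (fun h => hπlam (hπpr.dvd_of_dvd_pow h)), sym_unit hp9 hπ (isUnit_w.pow 2).neg,
          sym_pow hπpr hπ3 hπlam, hlam]
        ring
      rw [hss]; push_cast
      rw [sym_mul hπpr hπ3 (fun h => hπ3 (hπpr.dvd_of_dvd_pow h)) hπs',
        sym_pow hπpr hπ3 hπ3, h3', h2]
      ring
  have hsS' : sym (conj π) (s : Eis) = 0 := by rw [sym_rat_conj hp3 hπ hps, hsS, neg_zero]
  -- symbol of γ
  have hγS : sym (conj π) γ = 0 := by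
    have := lemmaR hp9 hπc hcprim 0 γ hγ0 hγ3 hcγ (by
      intro l hl hlγ
      rw [zero_mul]
      have hl3 : ¬ l ∣ 3 := fun h => hγ3 (((dvd_three_iff hl).mp h).symm.dvd.trans hlγ)
      have hlη : l ∣ η := by
        rw [hη]; exact Dvd.dvd.mul_left (Dvd.dvd.pow hlγ (by norm_num)) _
      have hlη' : ¬ l ∣ conj η := fun h => hcopp l hl ⟨hlη, h⟩
      have e1 : 3 * r3 * (s : Eis) ^ 3 = -(r3 * (s : Eis)) ^ 3 := by
        linear_combination (r3 * (s : Eis) ^ 3) * r3_sq
      have h1 : l ∣ conj η - (r3 * (s : Eis)) ^ 3 := by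
        have e2 : conj η - (r3 * (s : Eis)) ^ 3 = η := by
          rw [e1] at hs
          linear_combination (-1 : Eis) * hs
        rw [e2]; exact hlη
      have h2 := sym_congr h1
      have h3 : ¬ l ∣ r3 * (s : Eis) := by
        intro h
        apply hlη'
        have h4 : l ∣ (r3 * (s : Eis)) ^ 3 := Dvd.dvd.pow h (by norm_num)
        have := dvd_add h1 h4
        simpa using this
      rw [sym_cube hl hl3 h3, hsymη' l hl hl3 hlη'] at h2
      exact hee _ h2)
    rw [zero_mul] at this; exact this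
  -- conclusion
  obtain ⟨k, hk⟩ : ∃ k, p - 1 = 9 * k := ⟨(p - 1) / 9, by omega⟩
  have hNc : (N (conj π) - 1) / 3 = 3 * k := by
    have : N (conj π) = p := by
      have := N_cast (conj π)
      rw [hπc] at this
      exact_mod_cast this
    rw [this]; omega
  have hφc : φ (conj π) = 0 := (hφ _).mpr dvd_rfl
  have hcs : ¬ conj π ∣ (s : Eis) := by rwa [dvd_intCast_iff hπc]
  have m1 := map_pow_eq hπcpr hπc3 hcs φ hφc
  have m2 := map_pow_eq hπcpr hπc3 hcγ φ hφc
  rw [hNc, hsS', ZMod.val_zero, pow_zero] at m1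
  rw [hNc, hγS, ZMod.val_zero, pow_zero] at m2
  have hφs : φ (s : Eis) ≠ 0 := fun h => hcs ((hφ _).mp h)
  have hφγ : φ γ ≠ 0 := fun h => hcγ ((hφ _).mp h)
  have hr2 : (φ r3) ^ 2 = -3 := by rw [← map_pow, r3_sq, map_neg, hom_three]
  have h3ne : (3 : ZMod p) ≠ 0 := by
    intro h
    have : ((3 : ℕ) : ZMod p) = 0 := by exact_mod_cast h
    rw [ZMod.natCast_eq_zero_iff] at this
    have := (Nat.prime_dvd_prime_iff_eq hp.out Nat.prime_three).mp this
    omega
  have hr0 : φ r3 ≠ 0 := by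
    intro h
    rw [h] at hr2
    apply h3ne
    linear_combination hr2
  have hφη : φ (conj η) = 0 := (hφ _).mpr hcπη
  have hrel : (φ π) ^ e * (φ γ) ^ 3 = -((φ r3) ^ 3 * (φ (s : Eis)) ^ 3) := by
    have h1 := congrArg φ hs
    rw [map_sub, hφη, sub_zero, hη, map_mul, map_mul, map_mul, map_pow, map_pow, map_pow] at h1
    rw [h1, hom_three]
    linear_combination ((φ r3) * φ (s : Eis) ^ 3) * hr2
  rw [hom_pi φ hφ hM] at hrel
  -- the element is ± a cube of (s/γ)
  have hX : ∃ ε : ZMod p, (ε = 1 ∨ ε = -1) ∧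
      (M : ZMod p) ^ e * (φ r3) ^ (3 * (e - 1)) = ε * (φ (s : Eis) / φ γ) ^ 3 := by
    rcases he with rfl | rfl
    · refine ⟨1, Or.inl rfl, ?_⟩
      simp only [pow_one] at hrel ⊢
      field_simp
      apply mul_left_cancel₀ (pow_ne_zero 3 hr0)
      simp only [Nat.sub_self, mul_zero, pow_zero, mul_one]
      linear_combination -hrel
    · refine ⟨-1, Or.inr rfl, ?_⟩
      have e1 : 3 * (2 - 1) = 3 := rfl
      rw [e1]
      field_simp
      apply mul_left_cancel₀ (pow_ne_zero 3 hr0)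
      linear_combination hrel
  obtain ⟨ε, hε, hX⟩ := hX
  rw [hX]
  apply exists_root (k := k) hk
  · apply mul_ne_zero
    · rcases hε with h | h <;> rw [h] <;> simp
    · exact pow_ne_zero _ (div_ne_zero hφs hφγ)
  · have hεk : ε ^ k = 1 := by
      rcases hε with h | h
      · rw [h, one_pow]
      · rw [h]
        apply Even.neg_one_pow
        have hodd : p % 2 = 1 := by
          rcases hp.out.eq_two_or_odd with h2 | h2
          · omega
          · exact h2
        rw [Nat.even_iff]; omega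
    rw [mul_pow, hεk, one_mul, ← pow_mul, div_pow, m1, m2, div_one]

end split

end Eis

end Pool.Agent.Lib_helper18
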