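import Pool.Agent.Lib_helper18.CaseI

/-!
# The second case in which `p` divides the norm factor
-/

namespace Pool.Agent.Lib_helper18

namespace Eis

theorem sum_eq (x : Eis) : ((x.re + x.im : ℤ) : Eis) = -(w * x + w ^ 2 * conj x) := by
  rw [w_sq]
  ext
  · simp only [intCast_re, neg_re, add_re, mul_re, w_re, w_im, conj_re, conj_im, sub_re, sub_im,
      neg_im, one_re, one_im]
    ring
  · simp only [intCast_im, neg_im, add_im, mul_im, w_re, w_im, conj_re, conj_im, sub_re, sub_im,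
      neg_re, one_re, one_im]
    ring

theorem hom_w_pow {R : Type*} [CommRing R] (φ : Eis →+* R) {i j : ℕ}
    (h : (i : ZMod 3) = (j : ZMod 3)) : (φ w) ^ i = (φ w) ^ j := by
  rw [ZMod.natCast_eq_natCast_iff'] at h
  rw [← map_pow, ← map_pow, w_pow_mod i, w_pow_mod j, h]

section split

variable {p : ℕ} [hp : Fact p.Prime] {π : Eis}

/-- Case I-b. -/
theorem caseIb (hp9 : p % 9 = 1) (hπ : π.norm = p) {M : ℤ} (hM : π.im = 3 * M)
    (φ : Eis →+* ZMod p) (hφ : ∀ x, φ x = 0 ↔ conj π ∣ x)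
    {e : ℕ} (he : e = 1 ∨ e = 2) {γ ξ : Eis} (hξ : ξ = π ^ e * γ ^ 3) (hγ3 : ¬ lam ∣ γ)
    (hcop : IsCoprime ξ (conj ξ)) {s : ℤ} (hs : ξ.re + ξ.im = s ^ 3) :
    ∃ τ : ZMod p, τ ^ 9 = (M : ZMod p) ^ e * (φ r3) ^ (3 * (e - 1)) := by
  have hp3 : p % 3 = 1 := by omega
  have hprim : (3 : ℤ) ∣ π.im := ⟨M, hM⟩
  have hπpr := prime_of_norm_eq hπ
  have hπ3 := not_dvd_three hπ hp3
  have hre := re_not_dvd hp3 hπ hprim
  have hπc := conj_norm hπ
  have hπcpr := prime_of_norm_eq hπc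
  have hπc3 := not_dvd_three hπc hp3
  have hcprim := conj_im_dvd hprim
  have hcopp : ∀ l : Eis, Prime l → ¬ (l ∣ ξ ∧ l ∣ conj ξ) := by
    rintro l hl ⟨h1, h2⟩
    exact hl.not_isUnit (hcop.isUnit_of_dvd' h1 h2)
  have hce : conj ξ = conj π ^ e * conj γ ^ 3 := by rw [hξ, map_mul, map_pow, map_pow]
  have he0 : e ≠ 0 := by omega
  have hγ0 : γ ≠ 0 := by
    rintro rfl
    exact hγ3 (dvd_zero _)
  have hsE : (s : Eis) ^ 3 = -(w * ξ + w ^ 2 * conj ξ) := by
    rw [← sum_eq, hs]; push_cast; ring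
  have hcπη : conj π ∣ conj ξ := by
    rw [hce]; exact Dvd.dvd.mul_right (dvd_pow_self _ he0) _
  have hcγ : ¬ conj π ∣ γ := by
    intro h
    refine hcopp _ hπcpr ⟨?_, hcπη⟩
    rw [hξ]
    exact Dvd.dvd.mul_left (Dvd.dvd.pow h (by norm_num)) _
  have hps : ¬ (p : ℤ) ∣ s := by
    intro h
    have h1 : conj π ∣ (s : Eis) := by rwa [dvd_intCast_iff hπc]
    have h2 : conj π ∣ ξ := by
      have : ξ = -w ^ 2 * ((s : Eis) ^ 3 + w ^ 2 * conj ξ) := by
        rw [hsE]
        linear_combination (-ξ) * w_cube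
      rw [this]
      exact Dvd.dvd.mul_left (dvd_add (Dvd.dvd.pow h1 (by norm_num)) (Dvd.dvd.mul_left hcπη _)) _
    exact hcopp _ hπcpr ⟨h2, hcπη⟩
  have hsymη : ∀ l : Eis, Prime l → ¬ l ∣ 3 → ¬ l ∣ ξ → sym l ξ = e * sym l π := by
    intro l hl hl3 hlη
    have h1 : ¬ l ∣ π := fun h => hlη (by
      rw [hξ]; exact Dvd.dvd.mul_right (Dvd.dvd.pow h he0) _)
    have h2 : ¬ l ∣ γ := fun h => hlη (by
      rw [hξ]; exact Dvd.dvd.mul_left (Dvd.dvd.pow h (by norm_num)) _)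
    rw [hξ, sym_mul hl hl3 (fun h => h1 (hl.dvd_of_dvd_pow h))
      (fun h => h2 (hl.dvd_of_dvd_pow h)), sym_cube hl hl3 h2, sym_pow hl hl3 h1, add_zero]
  have hsymη' : ∀ l : Eis, Prime l → ¬ l ∣ 3 → ¬ l ∣ conj ξ →
      sym l (conj ξ) = e * sym l (conj π) := by
    intro l hl hl3 hlη
    have h1 : ¬ l ∣ conj π := fun h => hlη (by
      rw [hce]; exact Dvd.dvd.mul_right (Dvd.dvd.pow h he0) _)
    have h2 : ¬ l ∣ conj γ := fun h => hlη (by
      rw [hce]; exact Dvd.dvd.mul_left (Dvd.dvd.pow h (by norm_num)) _)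
    rw [hce, sym_mul hl hl3 (fun h => h1 (hl.dvd_of_dvd_pow h))
      (fun h => h2 (hl.dvd_of_dvd_pow h)), sym_cube hl hl3 h2, sym_pow hl hl3 h1, add_zero]
  have hee : ∀ x y : ZMod 3, (e : ZMod 3) * x = y → x = (e : ZMod 3) * y := by
    rcases he with rfl | rfl
    · intro x y; simp
    · intro x y; push_cast; revert x y; decide
  have h3 : (3 : ZMod 3) = 0 := by decide
  -- primality to 3
  have hξprim : Prim (ξ * 1) := by
    obtain ⟨i, hi⟩ := exists_prim hγ3
    have h1 : ξ * 1 = π ^ e * (γ * w ^ i) ^ 3 := by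
      rw [hξ, mul_pow, ← pow_mul, mul_comm i, pow_mul, w_cube, one_pow]; ring
    rw [h1]
    exact (Prim.pow ⟨hprim, hre⟩ e).mul (hi.pow 3)
  rw [mul_one] at hξprim
  have hs3 : ¬ (3 : ℤ) ∣ s := by
    intro h
    have h1 : (3 : ℤ) ∣ s ^ 3 := Dvd.dvd.pow h (by norm_num)
    rw [← hs] at h1
    have h2 := hξprim.1
    have h4 := hξprim.2
    omega
  -- symbol of s
  have hsS : 2 * sym π (s : Eis) = e * wt (s ^ 2) := by
    apply lemmaS hp3 hπ hprim e s hs3 hps
    intro l hl hls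
    have hl3 : ¬ l ∣ 3 := by
      intro h
      have h1 := (dvd_three_iff hl).mp h
      have h2 : lam ∣ (s : Eis) := h1.symm.dvd.trans hls
      rw [lam_dvd_iff] at h2
      simp only [intCast_re, intCast_im, add_zero] at h2
      exact hs3 h2
    have h1 : l ∣ ξ - -(w * conj ξ) := by
      have : ξ - -(w * conj ξ) = -w ^ 2 * (s : Eis) ^ 3 := by
        rw [hsE]
        linear_combination (-ξ - w * conj ξ) * w_cube
      rw [this]
      exact Dvd.dvd.mul_left (Dvd.dvd.pow hls (by norm_num)) _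
    have h2 : ¬ l ∣ ξ := by
      intro h
      refine hcopp l hl ⟨h, ?_⟩
      have h4 := dvd_sub h h1
      have h5 : ξ - (ξ - -(w * conj ξ)) = -(w * conj ξ) := by ring
      rw [h5, dvd_neg] at h4
      exact (hl.dvd_or_dvd h4).resolve_left (not_dvd_of_isUnit hl isUnit_w)
    have h3 : ¬ l ∣ conj ξ := by
      intro h
      refine h2 ?_
      have h4 := dvd_sub h1 (Dvd.dvd.mul_left h w)
      have h5 : ξ - -(w * conj ξ) - w * conj ξ = ξ := by ring
      rwa [h5] at h4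
    have h4 := sym_congr h1
    have hlw := not_dvd_of_isUnit hl isUnit_w
    rw [sym_neg hl hl3 (fun h => (hl.dvd_or_dvd h).elim hlw h3), sym_mul hl hl3 hlw h3,
      hsymη l hl hl3 h2, hsymη' l hl hl3 h3, sym_w' hl hl3] at h4
    apply hee
    linear_combination h4
  -- symbol of γ
  have hγS : sym (conj π) γ = e * wt γ.norm := by
    apply lemmaR hp9 hπc hcprim e γ hγ0 hγ3 hcγ
    intro l hl hlγ
    have hl3 : ¬ l ∣ 3 := fun h => hγ3 (((dvd_three_iff hl).mp h).symm.dvd.trans hlγ)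
    have hlη : l ∣ ξ := by
      rw [hξ]; exact Dvd.dvd.mul_left (Dvd.dvd.pow hlγ (by norm_num)) _
    have hlη' : ¬ l ∣ conj ξ := fun h => hcopp l hl ⟨hlη, h⟩
    have h1 : l ∣ (s : Eis) ^ 3 - -(w ^ 2 * conj ξ) := by
      have e2 : (s : Eis) ^ 3 - -(w ^ 2 * conj ξ) = -(w * ξ) := by
        rw [hsE]; ring
      rw [e2, dvd_neg]; exact Dvd.dvd.mul_left hlη _
    have h2 := sym_congr h1
    have hlw := not_dvd_of_isUnit hl isUnit_w
    have hlw2 := not_dvd_of_isUnit hl (isUnit_w.pow 2)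
    have h3' : ¬ l ∣ (s : Eis) := by
      intro h
      have h4 : l ∣ (s : Eis) ^ 3 := Dvd.dvd.pow h (by norm_num)
      have h5 := dvd_sub h4 h1
      have h6 : (s : Eis) ^ 3 - ((s : Eis) ^ 3 - -(w ^ 2 * conj ξ)) = -(w ^ 2 * conj ξ) := by ring
      rw [h6, dvd_neg] at h5
      exact (hl.dvd_or_dvd h5).elim hlw2 hlη'
    rw [sym_cube hl hl3 h3', sym_neg hl hl3 (fun h => (hl.dvd_or_dvd h).elim hlw2 hlη'),
      sym_mul hl hl3 hlw2 hlη', sym_pow hl hl3 hlw, sym_w' hl hl3, hsymη' l hl hl3 hlη'] at h2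
    apply hee
    push_cast at h2
    linear_combination -h2 - wt l.norm * h3
  -- conversion
  have hsS' : sym (conj π) (s : Eis) = e * wt (s ^ 2) := by
    rw [sym_rat_conj hp3 hπ hps]
    linear_combination hsS - sym π (s : Eis) * h3
  have hrS : sym (conj π) r3 = ((π.re * M : ℤ) : ZMod 3) := by
    have hlw := not_dvd_of_isUnit hπcpr isUnit_w
    have hlam : ¬ conj π ∣ lam := fun h => hπc3 (h.trans lam_dvd_three)
    have h4 : (conj π).im = 3 * (-M) := by rw [conj_im, hM]; ring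
    rw [r3, sym_mul hπcpr hπc3 hlw hlam, sym_unit hp9 hπc isUnit_w, sym_lam' hp9 hπc h4,
      conj_re, hM]
    push_cast
    linear_combination (-π.re * M + 2 * M ^ 2 : ZMod 3) * h3
  -- integers
  obtain ⟨k, hk⟩ : ∃ k, p - 1 = 9 * k := ⟨(p - 1) / 9, by omega⟩
  have hp1 : (p : ℤ) = 1 + 9 * k := by
    have := hp.out.two_le
    omega
  obtain ⟨m, hm⟩ : ∃ m, s ^ 2 = 1 + 3 * m := ⟨s ^ 2 / 3, by
    have := sq_mod_three hs3; omega⟩
  obtain ⟨n, hn⟩ : ∃ n, γ.norm = 1 + 3 * n := ⟨γ.norm / 3, by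
    have := norm_emod_three_of_not_lam_dvd hγ3; omega⟩
  obtain ⟨y', hy'⟩ := hξprim.1
  obtain ⟨u, hu⟩ : ∃ u, s ^ 3 = s + 3 * u := by
    have : s % 3 = 1 ∨ s % 3 = 2 := by omega
    refine ⟨(s ^ 3 - s) / 3, ?_⟩
    have h3' : (3 : ℤ) ∣ s ^ 3 - s := by
      rcases this with h | h
      · obtain ⟨v, hv⟩ : ∃ v, s = 1 + 3 * v := ⟨s / 3, by omega⟩
        exact ⟨2 * v + 9 * v ^ 2 + 9 * v ^ 3, by rw [hv]; ring⟩
      · obtain ⟨v, hv⟩ : ∃ v, s = -1 + 3 * v := ⟨(s + 1) / 3, by omega⟩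
        exact ⟨2 * v - 9 * v ^ 2 + 9 * v ^ 3, by rw [hv]; ring⟩
    omega
  -- the congruence for s * y'
  have hsy : ((s * y' : ℤ) : ZMod 3) = ((e * π.re * M : ℤ) : ZMod 3) := by
    obtain ⟨C, hC, y, hy⟩ := cube_mod_nine hγ3
    have h8 : ξ = (C : Eis) * π ^ e + 9 * (π ^ e * y) := by
      rw [hξ, hy]; ring
    have h9 : ∀ z : Eis, (9 * z : Eis).im = 9 * z.im ∧ (9 * z : Eis).re = 9 * z.re := by
      intro z
      have : (9 : Eis) = ((9 : ℤ) : Eis) := by ext <;> simp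
      constructor
      · rw [this, mul_im, intCast_re, intCast_im]; ring
      · rw [this, mul_re, intCast_re, intCast_im]; ring
    have him := congrArg Eis.im h8
    have hrr := congrArg Eis.re h8
    rw [add_im, (h9 _).1, mul_im, intCast_re, intCast_im] at him
    rw [add_re, (h9 _).2, mul_re, intCast_re, intCast_im] at hrr
    generalize (π ^ e * y).im = z1 at him
    generalize (π ^ e * y).re = z2 at hrr
    have hC2 : C ^ 2 = 1 := by rcases hC with h | h <;> rw [h] <;> norm_num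
    have hC2' : (C : ZMod 3) ^ 2 = 1 := by exact_mod_cast congrArg (Int.cast : ℤ → ZMod 3) hC2
    rcases he with h | h
    · subst h
      rw [pow_one, hM] at him
      rw [pow_one] at hrr
      have h10 : y' = C * M + 3 * z1 := by
        rw [hy'] at him; linarith
      have h11 : s = C * π.re + 3 * (3 * z2 + y' - u) := by
        have : s ^ 3 = ξ.re + 3 * y' := by rw [← hs, hy']
        rw [hu, hrr] at this
        linarith
      have h12 := congrArg (Int.cast : ℤ → ZMod 3) h10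
      have h13 := congrArg (Int.cast : ℤ → ZMod 3) h11
      push_cast at h12 h13 ⊢
      rw [h12, h13, h3]
      linear_combination ((π.re : ZMod 3) * M) * hC2'
    · subst h
      rw [pow_two, mul_im, hM] at him
      rw [pow_two, mul_re, hM] at hrr
      have h10 : y' = C * (2 * π.re * M - 3 * M ^ 2) + 3 * z1 := by
        rw [hy'] at him; linarith
      have h11 : s = C * π.re ^ 2 + 3 * (3 * z2 + y' - u - 3 * C * M ^ 2) := by
        have : s ^ 3 = ξ.re + 3 * y' := by rw [← hs, hy']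
        rw [hu, hrr] at this
        linarith
      have h12 := congrArg (Int.cast : ℤ → ZMod 3) h10
      have h13 := congrArg (Int.cast : ℤ → ZMod 3) h11
      have h14 : (π.re : ZMod 3) ^ 3 = π.re := by
        generalize (π.re : ZMod 3) = x; revert x; decide
      push_cast at h12 h13 ⊢
      rw [h12, h13, h3]
      linear_combination (2 * (π.re : ZMod 3) ^ 3 * M) * hC2' + 2 * (M : ZMod 3) * h14
  -- the relation modulo 27
  have h27 : ∃ W : ℤ, m - s * y' - e * k - n = 3 * W := by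
    have hnorm : ξ.norm = (p : ℤ) ^ e * γ.norm ^ 3 := by
      rw [hξ, norm_mul, norm_pow, norm_pow, hπ]
    have hnx : ξ.norm = (s ^ 2) ^ 3 - 3 * ((s ^ 3 - 3 * y') * (3 * y')) := by
      have h1 : ξ.re = s ^ 3 - 3 * y' := by rw [← hs, hy']; ring
      rw [norm_def, hy', h1]; ring
    rw [hnorm, hn, hm, hu, hp1] at hnx
    rcases he with h | h
    · subst h
      refine ⟨-m ^ 2 - m ^ 3 + u * y' - y' ^ 2 + n ^ 2 + n ^ 3 + 3 * k * n + 9 * k * n ^ 2
        + 9 * k * n ^ 3, ?_⟩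
      push_cast
      linarith
    · subst h
      refine ⟨-m ^ 2 - m ^ 3 + u * y' - y' ^ 2 + n ^ 2 + n ^ 3 + 6 * k * n + 18 * k * n ^ 2
        + 18 * k * n ^ 3 + 3 * k ^ 2 * (1 + 9 * n + 27 * n ^ 2 + 27 * n ^ 3), ?_⟩
      push_cast
      linarith
  obtain ⟨W, hW⟩ := h27
  have hexp : ((2 * k + (sym (conj π) (s : Eis)).val : ℕ) : ZMod 3) =
      (((sym (conj π) γ).val + (sym (conj π) r3).val : ℕ) : ZMod 3) := by
    have hv : ∀ x : ZMod 3, ((x.val : ℕ) : ZMod 3) = x := fun x => by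
      rw [ZMod.natCast_val, ZMod.cast_id', id]
    push_cast
    rw [hv, hv, hv, hsS', hγS, hrS, wt_eq hm, wt_eq hn]
    have hW' := congrArg (Int.cast : ℤ → ZMod 3) hW
    push_cast at hW' hsy ⊢
    have he2 : (e : ZMod 3) ^ 2 = 1 := by
      rcases he with h | h <;> rw [h] <;> decide
    rw [hsy] at hW'
    linear_combination (e : ZMod 3) * hW' + ((k : ZMod 3) + π.re * M) * he2 +
      ((k : ZMod 3) + e * W) * h3
  -- conclusion
  have hNc : (N (conj π) - 1) / 3 = 3 * k := by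
    have : N (conj π) = p := by
      have := N_cast (conj π)
      rw [hπc] at this
      exact_mod_cast this
    rw [this]; omega
  have hφc : φ (conj π) = 0 := (hφ _).mpr dvd_rfl
  have hcs : ¬ conj π ∣ (s : Eis) := by rwa [dvd_intCast_iff hπc]
  have hcr : ¬ conj π ∣ r3 := by
    intro h
    rcases hπcpr.dvd_or_dvd h with h | h
    · exact not_dvd_of_isUnit hπcpr isUnit_w h
    · exact hπc3 (h.trans lam_dvd_three)
  have m1 := map_pow_eq hπcpr hπc3 hcs φ hφc
  have m2 := map_pow_eq hπcpr hπc3 hcγ φ hφc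
  have m3 := map_pow_eq hπcpr hπc3 hcr φ hφc
  rw [hNc] at m1 m2 m3
  have hφs : φ (s : Eis) ≠ 0 := fun h => hcs ((hφ _).mp h)
  have hφγ : φ γ ≠ 0 := fun h => hcγ ((hφ _).mp h)
  have hr0 : φ r3 ≠ 0 := fun h => hcr ((hφ _).mp h)
  have hr2 : (φ r3) ^ 2 = -3 := by rw [← map_pow, r3_sq, map_neg, hom_three]
  have hφη : φ (conj ξ) = 0 := (hφ _).mpr hcπη
  have hw3 : (φ w) ^ 3 = 1 := by rw [← map_pow, w_cube, map_one]
  have hw0 : φ w ≠ 0 := by
    intro h; rw [h] at hw3; norm_num at hw3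
  have hrel : (φ π) ^ e * (φ γ) ^ 3 = -((φ w) ^ 2 * (φ (s : Eis)) ^ 3) := by
    have h1 := congrArg φ hsE
    rw [map_pow, map_neg, map_add, map_mul, map_mul, hφη, mul_zero, add_zero, hξ, map_mul,
      map_pow, map_pow] at h1
    linear_combination ((φ w) ^ 2) * h1 - (φ π ^ e * φ γ ^ 3) * hw3
  rw [hom_pi φ hφ hM] at hrel
  have hX : ∃ ε : ZMod p, (ε = 1 ∨ ε = -1) ∧
      (M : ZMod p) ^ e * (φ r3) ^ (3 * (e - 1)) =
        ε * ((φ w) ^ 2 * (φ (s : Eis) / (φ γ * φ r3)) ^ 3) := by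
    rcases he with rfl | rfl
    · refine ⟨1, Or.inl rfl, ?_⟩
      simp only [pow_one] at hrel ⊢
      field_simp
      simp only [Nat.sub_self, mul_zero, pow_zero, mul_one]
      linear_combination -hrel
    · refine ⟨-1, Or.inr rfl, ?_⟩
      have e1 : 3 * (2 - 1) = 3 := rfl
      rw [e1]
      field_simp
      linear_combination hrel
  obtain ⟨ε, hε, hX⟩ := hX
  rw [hX]
  apply exists_root (k := k) hk
  · apply mul_ne_zero
    · rcases hε with h | h <;> rw [h] <;> simp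
    · exact mul_ne_zero (pow_ne_zero _ hw0)
        (pow_ne_zero _ (div_ne_zero hφs (mul_ne_zero hφγ hr0)))
  · have hεk : ε ^ k = 1 := by
      rcases hε with h | h
      · rw [h, one_pow]
      · rw [h]
        apply Even.neg_one_pow
        have hodd : p % 2 = 1 := by
          rcases hp.out.eq_two_or_odd with h2 | h2
          · omega
          · exact h2
        rw [Nat.even_iff]; omega
    have h5 := hom_w_pow φ hexp
    rw [pow_add, pow_add, ← m1, ← m2, ← m3] at h5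
    rw [mul_pow, hεk, one_mul, mul_pow, ← pow_mul, ← pow_mul, div_pow, mul_pow]
    rw [← mul_div_assoc, h5, div_self]
    exact mul_ne_zero (pow_ne_zero _ hφγ) (pow_ne_zero _ hr0)

end split

end Eis

end Pool.Agent.Lib_helper18
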