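import Pool.Agent.Lib_helper18.CaseIb

/-!
# The first descent on `x^3 + y^3 = p^e z^3`
-/

namespace Pool.Agent.Lib_helper18

/-- The conclusion of the second descent: `M^e` is `27^(e-1)` times a ninth power. -/
def Concl (p e : ℕ) (M : ℤ) : Prop := ∃ τ : ZMod p, (M : ZMod p) ^ e = 27 ^ (e - 1) * τ ^ 9

theorem Concl.neg {p e : ℕ} (he : e = 1 ∨ e = 2) {M : ℤ} (h : Concl p e (-M)) :
    Concl p e M := by
  obtain ⟨τ, hτ⟩ := h
  rcases he with rfl | rfl
  · refine ⟨-τ, ?_⟩
    push_cast at hτ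
    linear_combination -hτ
  · refine ⟨τ, ?_⟩
    push_cast at hτ
    linear_combination hτ

namespace Eis

theorem coprime_xi {x y : ℤ} (h : IsCoprime x y) {l : Eis} (hl : Prime l)
    (h1 : l ∣ (⟨x, y⟩ : Eis)) (h2 : l ∣ conj ⟨x, y⟩) : Associated l lam := by
  obtain ⟨u, v, huv⟩ := h
  have e1 : r3 * (y : Eis) = (⟨x, y⟩ : Eis) - conj ⟨x, y⟩ := by
    rw [r3_eq, w_sq]
    ext
    · simp only [mul_re, sub_re, conj_re, sub_im, neg_re, neg_im, one_re, one_im, w_re, w_im,
        intCast_re, intCast_im]; ring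
    · simp only [mul_im, sub_re, conj_im, sub_im, neg_re, neg_im, one_re, one_im, w_re, w_im,
        intCast_re, intCast_im]; ring
  have e2 : r3 * (x : Eis) = w * conj ⟨x, y⟩ - w ^ 2 * (⟨x, y⟩ : Eis) := by
    rw [r3_eq, w_sq]
    ext
    · simp only [mul_re, sub_re, conj_re, conj_im, sub_im, neg_re, neg_im, one_re, one_im, w_re,
        w_im, intCast_re, intCast_im]; ring
    · simp only [mul_im, sub_re, conj_re, conj_im, sub_im, neg_re, neg_im, one_re, one_im, w_re,
        w_im, intCast_re, intCast_im]; ring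
  have h3 : l ∣ r3 * (y : Eis) := by rw [e1]; exact dvd_sub h1 h2
  have h4 : l ∣ r3 * (x : Eis) := by
    rw [e2]; exact dvd_sub (Dvd.dvd.mul_left h2 _) (Dvd.dvd.mul_left h1 _)
  have h5 : l ∣ r3 := by
    have : r3 = (u : Eis) * (r3 * (x : Eis)) + (v : Eis) * (r3 * (y : Eis)) := by
      have h6 := congrArg (Int.cast : ℤ → Eis) huv
      push_cast at h6
      linear_combination (-r3) * h6
    rw [this]
    exact dvd_add (Dvd.dvd.mul_left h4 _) (Dvd.dvd.mul_left h3 _)
  have h6 : l ∣ lam := (hl.dvd_or_dvd h5).resolve_left (not_dvd_of_isUnit hl isUnit_w)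
  exact hl.associated_of_dvd prime_lam h6

theorem extract {ρ η : Eis} (hρ : Prim ρ) (hρη : ρ ∣ η) (hη : Prim η)
    (hcop : IsCoprime η (conj η)) {t : ℤ} (h : η.norm = ρ.norm * t ^ 3) :
    ∃ γ, η = ρ * γ ^ 3 ∧ ¬ lam ∣ γ := by
  obtain ⟨η', hη'⟩ := hρη
  have hρ0 : ρ.norm ≠ 0 := by
    intro h0
    rw [norm_eq_zero] at h0
    exact hρ.not_lam_dvd (by rw [h0]; exact dvd_zero _)
  have hn : η'.norm = t ^ 3 := by
    rw [hη', norm_mul] at h
    exact mul_left_cancel₀ hρ0 h
  have h1 : η' * conj η' = (t : Eis) ^ 3 := by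
    rw [mul_conj, hn]; push_cast; rfl
  have hcop' : IsCoprime η' (conj η') := by
    have h2 : η' ∣ η := ⟨ρ, by rw [hη']; ring⟩
    exact (hcop.of_isCoprime_of_dvd_left h2).of_isCoprime_of_dvd_right (conj_dvd h2)
  obtain ⟨d, u, hu⟩ := exists_associated_pow_of_mul_eq_pow' hcop' h1
  have hld : ¬ lam ∣ d := by
    intro h2
    apply hη.not_lam_dvd
    rw [hη', ← hu]
    exact Dvd.dvd.mul_left (Dvd.dvd.mul_right (Dvd.dvd.pow h2 (by norm_num)) _) _
  obtain ⟨i, hi⟩ := exists_prim hld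
  have h3 : ρ * d ^ 3 = ρ * (d * w ^ i) ^ 3 := by
    rw [mul_pow, ← pow_mul, mul_comm i, pow_mul, w_cube, one_pow]; ring
  have h4 : Prim (ρ * d ^ 3) := by rw [h3]; exact hρ.mul (hi.pow 3)
  have h5 : Prim (ρ * d ^ 3 * u) := by rw [mul_assoc, hu, ← hη']; exact hη
  rcases h4.unit u.isUnit h5 with h6 | h6
  · exact ⟨d, by rw [hη', ← hu, h6, mul_one], hld⟩
  · exact ⟨-d, by rw [hη', ← hu, h6]; ring, by rwa [dvd_neg]⟩

section split

variable {p : ℕ} [hp : Fact p.Prime] {π : Eis}

/-- conclusion of Cases I-a and I-b in the uniform form -/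
theorem concl_of_root (hp3 : p % 3 = 1) {e : ℕ} (he : e = 1 ∨ e = 2) {M : ℤ} {r : ZMod p}
    (hr : r ^ 2 = -3) (h : ∃ τ : ZMod p, τ ^ 9 = (M : ZMod p) ^ e * r ^ (3 * (e - 1))) :
    Concl p e M := by
  obtain ⟨τ, hτ⟩ := h
  rcases he with rfl | rfl
  · refine ⟨τ, ?_⟩
    simp only [Nat.sub_self, mul_zero, pow_zero, mul_one] at hτ
    rw [hτ]; simp
  · have h3ne : (3 : ZMod p) ≠ 0 := by
      intro h
      have : ((3 : ℕ) : ZMod p) = 0 := by exact_mod_cast h
      rw [ZMod.natCast_eq_zero_iff] at this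
      have := (Nat.prime_dvd_prime_iff_eq hp.out Nat.prime_three).mp this
      omega
    have hr0 : r ≠ 0 := by
      rintro rfl
      apply h3ne
      linear_combination hr
    have e1 : 3 * (2 - 1) = 3 := rfl
    rw [e1] at hτ
    refine ⟨-(τ / r), ?_⟩
    have h4 : (27 : ZMod p) * (-(τ / r)) ^ 9 = 27 * (-(τ ^ 9 / r ^ 9)) := by
      rw [Odd.neg_pow (by decide), div_pow]
    rw [show 27 ^ (2 - 1) = (27 : ZMod p) by norm_num, h4, hτ]
    have hr6 : r ^ 6 = -27 := by
      have : r ^ 6 = (r ^ 2) ^ 3 := by ring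
      rw [this, hr]; norm_num
    have h27 : (27 : ZMod p) = - r ^ 6 := by rw [hr6]; ring
    rw [h27]
    field_simp

/-- splitting off the power of `p` -/
theorem exists_rho (hπ : π.norm = p) (e : ℕ) (he : 0 < e) {η : Eis}
    (hcop : IsCoprime η (conj η)) (h : ((p : ℤ) ^ e) ∣ η.norm) :
    π ^ e ∣ η ∨ conj π ^ e ∣ η := by
  have hπpr := prime_of_norm_eq hπ
  have hπcpr := prime_of_norm_eq (conj_norm hπ)
  have h1 : (p : Eis) ^ e ∣ η * conj η := by
    rw [mul_conj]
    have := (intCast_dvd_intCast (m := (p : ℤ) ^ e) (n := η.norm)).mpr h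
    push_cast at this
    exact this
  have hcopp : ∀ l : Eis, Prime l → ¬ (l ∣ η ∧ l ∣ conj η) := by
    rintro l hl ⟨h1, h2⟩
    exact hl.not_isUnit (hcop.isUnit_of_dvd' h1 h2)
  have h2 : π ^ e ∣ η * conj η := (pow_dvd_pow_of_dvd (dvd_p hπ) e).trans h1
  have h3 : conj π ^ e ∣ η * conj η := (pow_dvd_pow_of_dvd (dvd_p (conj_norm hπ)) e).trans h1
  rcases hπpr.dvd_or_dvd ((dvd_pow_self π he.ne').trans h2) with h4 | h4
  · left
    have h5 : ¬ π ∣ conj η := fun h => hcopp π hπpr ⟨h4, h⟩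
    exact hπpr.pow_dvd_of_dvd_mul_right e h5 h2
  · right
    have h6 : conj π ∣ η := by have := conj_dvd h4; rwa [conj_conj] at this
    have h5 : ¬ conj π ∣ conj η := fun h => hcopp _ hπcpr ⟨h6, h⟩
    exact hπcpr.pow_dvd_of_dvd_mul_right e h5 h3

end split

end Eis

theorem sq_eq_one_iff_of_side {a : ℤ} (h : a ^ 2 = 1) : a = 1 ∨ a = -1 :=
  sq_eq_one_iff.mp h

/-- three pairwise coprime integers with product `p^e s^3` -/
theorem three_factors {p : ℕ} [hp : Fact p.Prime] {e : ℕ} {u v t s : ℤ} (huv : IsCoprime u v)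
    (hut : IsCoprime u t) (hvt : IsCoprime v t) (h : u * v * t = (p : ℤ) ^ e * s ^ 3)
    (hs : s ≠ 0) (hpu : (p : ℤ) ∣ u) :
    ∃ a b c : ℤ, u = (p : ℤ) ^ e * a ^ 3 ∧ v = b ^ 3 ∧ t = c ^ 3 ∧ a ≠ 0 ∧
      a.natAbs ≤ s.natAbs := by
  have hpp : Prime (p : ℤ) := Nat.prime_iff_prime_int.mp hp.out
  have hpvt : ¬ (p : ℤ) ∣ v * t := by
    intro h1
    rcases hpp.dvd_or_dvd h1 with h2 | h2
    · exact hpp.not_isUnit (huv.isUnit_of_dvd' hpu h2)
    · exact hpp.not_isUnit (hut.isUnit_of_dvd' hpu h2)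
  have h1 : (p : ℤ) ^ e ∣ u := by
    apply hpp.pow_dvd_of_dvd_mul_right e hpvt
    rw [← mul_assoc, h]
    exact dvd_mul_right _ _
  obtain ⟨u', hu'⟩ := h1
  have hp0 : (p : ℤ) ^ e ≠ 0 := pow_ne_zero _ hpp.ne_zero
  have h2 : u' * (v * t) = s ^ 3 := by
    apply mul_left_cancel₀ hp0
    rw [← h, hu']; ring
  have hu'd : u' ∣ u := ⟨(p : ℤ) ^ e, by rw [hu']; ring⟩
  have hco : IsCoprime u' (v * t) :=
    ((huv.of_isCoprime_of_dvd_left hu'd).mul_right (hut.of_isCoprime_of_dvd_left hu'd))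
  obtain ⟨a, ha⟩ := Int.eq_pow_of_mul_eq_pow_odd_left hco (by decide : Odd 3) h2
  obtain ⟨d, hd⟩ := Int.eq_pow_of_mul_eq_pow_odd_right hco (by decide : Odd 3) h2
  obtain ⟨b, hb⟩ := Int.eq_pow_of_mul_eq_pow_odd_left hvt (by decide : Odd 3) hd
  obtain ⟨c, hc⟩ := Int.eq_pow_of_mul_eq_pow_odd_right hvt (by decide : Odd 3) hd
  have ha0 : a ≠ 0 := by
    rintro rfl
    rw [ha] at h2
    have : s ^ 3 = 0 := by rw [← h2]; ring
    exact hs (pow_eq_zero_iff (by norm_num) |>.mp this)
  refine ⟨a, b, c, by rw [hu', ha], hb, hc, ha0, ?_⟩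
  have h3 : a ^ 3 ∣ s ^ 3 := ⟨v * t, by rw [← h2, ha]⟩
  have h4 : a ∣ s := (Int.pow_dvd_pow_iff (by norm_num)).mp h3
  exact Nat.le_of_dvd (Int.natAbs_pos.mpr hs) (Int.natAbs_dvd_natAbs.mpr h4)

open Eis in
/-- The first descent. -/
theorem first_descent {p : ℕ} [hp : Fact p.Prime] (hp9 : p % 9 = 1) {π : Eis}
    (hπ : π.norm = p) {M : ℤ} (hM : π.im = 3 * M) {e : ℕ} (he : e = 1 ∨ e = 2)
    (hIIb : ∀ (ξ γ : Eis) (s : ℤ), ξ = γ ^ 3 → ¬ lam ∣ γ → IsCoprime ξ (conj ξ) →
      (3 : ℤ) ∣ ξ.im → ξ.re + ξ.im = (p : ℤ) ^ e * s ^ 3 → Concl p e M) :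
    ∀ (n : ℕ) (x y z : ℤ), z.natAbs = n → z ≠ 0 → x ^ 3 + y ^ 3 = (p : ℤ) ^ e * z ^ 3 →
      Concl p e M := by
  have hp3 : p % 3 = 1 := by omega
  have hprim : (3 : ℤ) ∣ π.im := ⟨M, hM⟩
  have hπpr := prime_of_norm_eq hπ
  have hre := re_not_dvd hp3 hπ hprim
  have hπprim : Prim π := ⟨hprim, hre⟩
  have hπc := conj_norm hπ
  have hMc : (conj π).im = 3 * (-M) := by rw [conj_im, hM]; ring
  have hpp : Prime (p : ℤ) := Nat.prime_iff_prime_int.mp hp.out
  have hp0 : (p : ℤ) ^ e ≠ 0 := pow_ne_zero _ hpp.ne_zero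
  have he0 : 0 < e := by omega
  obtain ⟨φ, hφ⟩ := exists_hom hπ
  obtain ⟨φ', hφ'⟩ := exists_hom hπc
  have hr2 : ∀ ψ : Eis →+* ZMod p, (ψ r3) ^ 2 = -3 := fun ψ => by
    rw [← map_pow, r3_sq, map_neg, hom_three]
  have hnormpow : (π ^ e).norm = (p : ℤ) ^ e := by rw [norm_pow, hπ]
  have hnormpowc : (conj π ^ e).norm = (p : ℤ) ^ e := by rw [norm_pow, norm_conj, hπ]
  intro n
  induction n using Nat.strong_induction_on with
  | _ n ih =>
  intro x y z hzn hz0 hxyz
  by_cases hco : IsCoprime x y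
  swap
  · -- common factor
    have hx0y0 : ¬ (x = 0 ∧ y = 0) := by
      rintro ⟨rfl, rfl⟩
      have : (p : ℤ) ^ e * z ^ 3 = 0 := by rw [← hxyz]; ring
      rcases mul_eq_zero.mp this with h | h
      · exact hp0 h
      · exact hz0 (pow_eq_zero_iff (by norm_num) |>.mp h)
    have : ∃ q : ℤ, Prime q ∧ q ∣ x ∧ q ∣ y := by
      by_contra hcon
      push Not at hcon
      exact hco (isCoprime_of_prime_dvd hx0y0 (fun q hq hqx => hcon q hq hqx))
    obtain ⟨q, hq, ⟨x', hx'⟩, ⟨y', hy'⟩⟩ := this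
    have hq3 : q ^ 3 ∣ (p : ℤ) ^ e * z ^ 3 := ⟨x' ^ 3 + y' ^ 3, by rw [← hxyz, hx', hy']; ring⟩
    have hqz : q ∣ z := by
      by_cases hqp : q ∣ (p : ℤ)
      · -- q associated to p
        have hass := hq.associated_of_dvd hpp hqp
        have h1 : (p : ℤ) ^ 3 ∣ (p : ℤ) ^ e * z ^ 3 :=
          (pow_dvd_pow_of_dvd hass.symm.dvd 3).trans hq3
        have h2 : (p : ℤ) ^ 3 = (p : ℤ) ^ e * (p : ℤ) ^ (3 - e) := by
          rw [← pow_add]; congr 1; omega
        rw [h2] at h1
        have h3 := (mul_dvd_mul_iff_left hp0).mp h1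
        have h4 : (p : ℤ) ∣ z ^ 3 := (dvd_pow_self _ (by omega)).trans h3
        exact hqp.trans (hpp.dvd_of_dvd_pow h4)
      · have h1 : q ∣ (p : ℤ) ^ e * z ^ 3 := (dvd_pow_self q (by norm_num)).trans hq3
        rcases hq.dvd_or_dvd h1 with h2 | h2
        · exact absurd (hq.dvd_of_dvd_pow h2) hqp
        · exact hq.dvd_of_dvd_pow h2
    obtain ⟨z', hz'⟩ := hqz
    have hz'0 : z' ≠ 0 := by rintro rfl; simp at hz'; exact hz0 hz'
    have hlt : z'.natAbs < n := by
      rw [← hzn, hz', Int.natAbs_mul]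
      have h1 : 1 < q.natAbs := by
        have := hq.not_isUnit
        rw [Int.isUnit_iff_natAbs_eq] at this
        have h2 : q.natAbs ≠ 0 := Int.natAbs_ne_zero.mpr hq.ne_zero
        omega
      have h2 : 0 < z'.natAbs := Int.natAbs_pos.mpr hz'0
      nlinarith
    refine ih _ hlt x' y' z' rfl hz'0 ?_
    have hq30 : q ^ 3 ≠ 0 := pow_ne_zero _ hq.ne_zero
    apply mul_left_cancel₀ hq30
    rw [hx', hy', hz'] at hxyz
    linear_combination hxyz
  · have hco1 : IsCoprime (x + y) x := by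
      obtain ⟨u, v, huv⟩ := hco
      exact ⟨v, u - v, by linear_combination huv⟩
    have hco2 : IsCoprime (x + y) y := by
      obtain ⟨u, v, huv⟩ := hco
      exact ⟨u, v - u, by linear_combination huv⟩
    have hcoxy : IsCoprime (x + y) (x * y) := hco1.mul_right hco2
    have hST : (x + y) * (⟨x, y⟩ : Eis).norm = (p : ℤ) ^ e * z ^ 3 := by
      rw [← hxyz, norm_def]; ring
    have hno3 : ¬ ((3 : ℤ) ∣ x ∧ (3 : ℤ) ∣ y) := by
      rintro ⟨h1, h2⟩
      exact Int.prime_three.not_isUnit (hco.isUnit_of_dvd' h1 h2)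
    by_cases h3z : (3 : ℤ) ∣ z
    · -- Case A
      obtain ⟨z1, hz1⟩ := h3z
      have h3S : (3 : ℤ) ∣ x + y := by
        have h1 : (3 : ℤ) ∣ x ^ 3 + y ^ 3 := by
          rw [hxyz, hz1]; exact ⟨(p : ℤ) ^ e * (9 * z1 ^ 3), by ring⟩
        have h2 : (3 : ℤ) ∣ (x ^ 3 + y ^ 3) - (x + y) := by
          have h4 : ∀ a : ℤ, (3 : ℤ) ∣ a ^ 3 - a := by
            intro a
            have : a % 3 = 0 ∨ a % 3 = 1 ∨ a % 3 = 2 := by omega
            apply Int.dvd_of_emod_eq_zero
            rcases this with h | h | h <;>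
              simp [pow_succ, Int.sub_emod, Int.mul_emod, h]
          have := dvd_add (h4 x) (h4 y)
          have e5 : x ^ 3 - x + (y ^ 3 - y) = (x ^ 3 + y ^ 3) - (x + y) := by ring
          rwa [e5] at this
        have := dvd_sub h1 h2
        simpa using this
      have h3y : ¬ (3 : ℤ) ∣ y := by
        intro h; exact hno3 ⟨by omega, h⟩
      have h3x : ¬ (3 : ℤ) ∣ x := by
        intro h; exact hno3 ⟨h, by omega⟩
      obtain ⟨S0, hS0⟩ := h3S
      have hT : (⟨x, y⟩ : Eis).norm = 3 * (3 * S0 ^ 2 - x * y) := by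
        rw [norm_def]; simp only; linear_combination (x + y + 3 * S0) * hS0
      have h3T' : ¬ (3 : ℤ) ∣ 3 * S0 ^ 2 - x * y := by
        intro h
        have : (3 : ℤ) ∣ x * y := by
          have h4 := dvd_sub (dvd_mul_right (3 : ℤ) (S0 ^ 2)) h
          have e5 : 3 * S0 ^ 2 - (3 * S0 ^ 2 - x * y) = x * y := by ring
          rwa [e5] at h4
        rcases Int.prime_three.dvd_or_dvd this with h | h
        · exact h3x h
        · exact h3y h
      have hST' : S0 * (3 * S0 ^ 2 - x * y) = 3 * ((p : ℤ) ^ e * z1 ^ 3) := by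
        rw [hT, hS0, hz1] at hST
        have h9 : (9 : ℤ) ≠ 0 := by norm_num
        apply mul_left_cancel₀ h9
        linear_combination hST
      have h3S0 : (3 : ℤ) ∣ S0 := by
        have h4 : (3 : ℤ) ∣ S0 * (3 * S0 ^ 2 - x * y) := ⟨_, hST'⟩
        exact (Int.prime_three.dvd_or_dvd h4).resolve_right h3T'
      obtain ⟨S', hS'⟩ := h3S0
      have hS9 : x + y = 9 * S' := by rw [hS0, hS']; ring
      set η : Eis := ⟨-y + 6 * S', 3 * S'⟩ with hη
      have hηlam : (⟨x, y⟩ : Eis) = lam * η := by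
        ext
        · simp only [hη, mul_re, lam_re, lam_im]; linarith
        · simp only [hη, mul_im, lam_re, lam_im]; ring
      have hηnorm : η.norm = 3 * S0 ^ 2 - x * y := by
        have h4 := congrArg Eis.norm hηlam
        rw [norm_mul, norm_lam, hT] at h4
        linarith
      have hηS : S' * η.norm = (p : ℤ) ^ e * z1 ^ 3 := by
        rw [hηnorm]
        have h9 : (3 : ℤ) ≠ 0 := by norm_num
        apply mul_left_cancel₀ h9
        rw [← hST', hS']; ring
      have hηprim : Prim η := by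
        refine ⟨⟨S', rfl⟩, ?_⟩
        simp only [hη]; omega
      have hηcop : IsCoprime η (conj η) := by
        apply isCoprime_of_prime_dvd
        · rintro ⟨h, -⟩
          exact hηprim.not_lam_dvd (by rw [h]; exact dvd_zero _)
        · intro l hl h1 h2
          have h4 : l ∣ (⟨x, y⟩ : Eis) := by rw [hηlam]; exact Dvd.dvd.mul_left h1 _
          have h5 : l ∣ conj (⟨x, y⟩ : Eis) := by
            rw [hηlam, map_mul]; exact Dvd.dvd.mul_left h2 _
          have h6 := coprime_xi hco hl h4 h5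
          exact hηprim.not_lam_dvd (h6.symm.dvd.trans h1)
      have hηdiff : η - conj η = 3 * r3 * (S' : Eis) := by
        rw [r3_eq, w_sq, three_eq_cast]
        ext
        · simp only [hη, mul_re, mul_im, sub_re, conj_re, conj_im, sub_im, neg_re, neg_im, one_re,
            one_im, w_re, w_im, intCast_re, intCast_im]; ring
        · simp only [hη, mul_re, mul_im, sub_re, conj_re, conj_im, sub_im, neg_re, neg_im, one_re,
            one_im, w_re, w_im, intCast_re, intCast_im]; ring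
      have hcoS : IsCoprime S' η.norm := by
        have h4 : IsCoprime S' (x * y) := hcoxy.of_isCoprime_of_dvd_left ⟨9, by rw [hS9]; ring⟩
        have h5 : η.norm = S' * (27 * S') + -(x * y) := by rw [hηnorm, hS']; ring
        rw [h5]
        exact (IsCoprime.mul_add_left_right h4.neg_right (27 * S'))
      by_cases hpS : (p : ℤ) ∣ S'
      · -- Case II-a
        have hpT : ¬ (p : ℤ) ∣ η.norm := fun h =>
          hpp.not_isUnit (hcoS.isUnit_of_dvd' hpS h)
        have h4 : (p : ℤ) ^ e ∣ S' :=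
          hpp.pow_dvd_of_dvd_mul_right e hpT (by rw [hηS]; exact dvd_mul_right _ _)
        obtain ⟨S'', hS''⟩ := h4
        have h5 : S'' * η.norm = z1 ^ 3 := by
          apply mul_left_cancel₀ hp0
          rw [← hηS, hS'']; ring
        have hcoS'' : IsCoprime S'' η.norm := hcoS.of_isCoprime_of_dvd_left
          ⟨(p : ℤ) ^ e, by rw [hS'']; ring⟩
        obtain ⟨s, hs⟩ := Int.eq_pow_of_mul_eq_pow_odd_left hcoS'' (by decide : Odd 3) h5
        obtain ⟨t, ht⟩ := Int.eq_pow_of_mul_eq_pow_odd_right hcoS'' (by decide : Odd 3) h5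
        obtain ⟨γ, hγ, hγ3⟩ := extract (ρ := 1) prim_one (one_dvd _) hηprim hηcop (t := t)
          (by rw [norm_one, one_mul, ht])
        rw [one_mul] at hγ
        have hs0 : s ≠ 0 := by
          rintro rfl
          rw [hs] at h5
          have : z1 ^ 3 = 0 := by rw [← h5]; ring
          have h6 := pow_eq_zero_iff (by norm_num) |>.mp this
          rw [hz1, h6] at hz0; simp at hz0
        obtain ⟨α, δ⟩ := γ
        have hprod : α * δ * (α - δ) = (p : ℤ) ^ e * s ^ 3 := by
          have h6 := congrArg Eis.im hγ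
          simp only [hη, pow_succ, pow_zero, one_mul, mul_im, mul_re] at h6
          rw [← hs, ← hS'']
          linarith
        have hcoad : IsCoprime α δ := by
          apply isCoprime_of_prime_dvd
          · rintro ⟨rfl, rfl⟩
            exact hγ3 (by rw [show (⟨0, 0⟩ : Eis) = 0 from rfl]; exact dvd_zero _)
          · intro q hq h6 h7
            have h8 : (q : Eis) ∣ (⟨α, δ⟩ : Eis) := intCast_dvd_iff.mpr ⟨h6, h7⟩
            have h9 : (q : Eis) ∣ η := by rw [hγ]; exact Dvd.dvd.pow h8 (by norm_num)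
            have h10 : (q : Eis) ∣ conj η := by
              have := conj_dvd h9
              rwa [conj_intCast] at this
            have h11 := hηcop.isUnit_of_dvd' h9 h10
            rw [isUnit_iff_norm, norm_intCast] at h11
            apply hq.not_isUnit
            rw [Int.isUnit_iff]
            exact sq_eq_one_iff_of_side h11
        have hc1 : IsCoprime α (α - δ) := by
          obtain ⟨u, v, huv⟩ := hcoad
          exact ⟨u + v, -v, by linear_combination huv⟩
        have hc2 : IsCoprime δ (α - δ) := by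
          obtain ⟨u, v, huv⟩ := hcoad
          exact ⟨u + v, u, by linear_combination huv⟩
        have hz10 : z1 ≠ 0 := by rintro rfl; simp at hz1; exact hz0 hz1
        have hsz : s ∣ z1 := by
          have : s ^ 3 ∣ z1 ^ 3 := ⟨η.norm, by rw [← h5, hs]⟩
          exact (Int.pow_dvd_pow_iff (by norm_num)).mp this
        have hle : s.natAbs ≤ z1.natAbs :=
          Nat.le_of_dvd (Int.natAbs_pos.mpr hz10) (Int.natAbs_dvd_natAbs.mpr hsz)
        have hn3 : n = 3 * z1.natAbs := by rw [← hzn, hz1, Int.natAbs_mul]; rfl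
        have hz1pos : 0 < z1.natAbs := Int.natAbs_pos.mpr hz10
        have hpprod : (p : ℤ) ∣ α * δ * (α - δ) := by
          rw [hprod]; exact Dvd.dvd.mul_right (dvd_pow_self _ he0.ne') _
        rcases hpp.dvd_or_dvd hpprod with h6 | h6
        · rcases hpp.dvd_or_dvd h6 with h7 | h7
          · obtain ⟨a, b, c, ha, hb, hc, ha0, hle2⟩ :=
              three_factors hcoad hc1 hc2 hprod hs0 h7
            refine ih a.natAbs (by omega) b c a rfl ha0 ?_
            rw [← ha, ← hb, ← hc]; ring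
          · obtain ⟨a, b, c, ha, hb, hc, ha0, hle2⟩ :=
              three_factors (e := e) hcoad.symm hc2 hc1 (by rw [← hprod]; ring) hs0 h7
            refine ih a.natAbs (by omega) b (-c) a rfl ha0 ?_
            rw [← ha]
            linear_combination hc - hb
        · obtain ⟨a, b, c, ha, hb, hc, ha0, hle2⟩ :=
            three_factors (e := e) hc1.symm hc2.symm hcoad (by rw [← hprod]; ring) hs0 h6
          refine ih a.natAbs (by omega) b (-c) a rfl ha0 ?_
          rw [← ha]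
          linear_combination hc - hb
      · -- Case I-a
        have h4 : (p : ℤ) ^ e ∣ η.norm :=
          hpp.pow_dvd_of_dvd_mul_left e hpS (by rw [hηS]; exact dvd_mul_right _ _)
        obtain ⟨T'', hT''⟩ := h4
        have h5 : S' * T'' = z1 ^ 3 := by
          apply mul_left_cancel₀ hp0
          rw [← hηS, hT'']; ring
        have hcoS'' : IsCoprime S' T'' := hcoS.of_isCoprime_of_dvd_right
          ⟨(p : ℤ) ^ e, by rw [hT'']; ring⟩
        obtain ⟨s, hs⟩ := Int.eq_pow_of_mul_eq_pow_odd_left hcoS'' (by decide : Odd 3) h5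
        obtain ⟨t, ht⟩ := Int.eq_pow_of_mul_eq_pow_odd_right hcoS'' (by decide : Odd 3) h5
        have hdiff : η - conj η = 3 * r3 * (s : Eis) ^ 3 := by
          rw [hηdiff, hs]; push_cast; rfl
        rcases exists_rho hπ e he0 hηcop ⟨T'', hT''⟩ with h6 | h6
        · obtain ⟨γ, hγ, hγ3⟩ := extract (hπprim.pow e) h6 hηprim hηcop (t := t)
            (by rw [hnormpow, hT'', ht])
          exact concl_of_root hp3 he (hr2 φ')
            (caseIa hp9 hπ hM φ' hφ' he hγ hγ3 hηcop hdiff)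
        · obtain ⟨γ, hγ, hγ3⟩ := extract (hπprim.conj.pow e) h6 hηprim hηcop (t := t)
            (by rw [hnormpowc, hT'', ht])
          apply Concl.neg he
          refine concl_of_root hp3 he (hr2 φ)
            (caseIa hp9 hπc hMc φ (by rw [conj_conj]; exact hφ) he hγ hγ3 hηcop hdiff)
    · -- Case B
      have key : ∀ x y : ℤ, IsCoprime x y → (3 : ℤ) ∣ y → ¬ (3 : ℤ) ∣ x →
          IsCoprime (x + y) (x * y) → (x + y) * (⟨x, y⟩ : Eis).norm = (p : ℤ) ^ e * z ^ 3 →
          Concl p e M := by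
        clear hco hco1 hco2 hcoxy hST hno3 hxyz
        intro x y hco h3y h3x hcoxy hST
        set ξ : Eis := ⟨x, y⟩ with hξ
        have hξprim : Prim ξ := ⟨h3y, h3x⟩
        have hξcop : IsCoprime ξ (conj ξ) := by
          apply isCoprime_of_prime_dvd
          · rintro ⟨h, -⟩
            exact hξprim.not_lam_dvd (by rw [h]; exact dvd_zero _)
          · intro l hl h1 h2
            have h6 := coprime_xi hco hl h1 h2
            exact hξprim.not_lam_dvd (h6.symm.dvd.trans h1)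
        have hS3 : IsCoprime (x + y) 3 := by
          rw [isCoprime_comm, Int.prime_three.irreducible.coprime_iff_not_dvd]
          omega
        have hcoS : IsCoprime (x + y) ξ.norm := by
          have h4 : IsCoprime (x + y) (3 * (x * y)) := hS3.mul_right hcoxy
          have h5 : ξ.norm = (x + y) * (x + y) + -(3 * (x * y)) := by
            rw [norm_def]; simp only [hξ]; ring
          rw [h5]
          exact (IsCoprime.mul_add_left_right h4.neg_right (x + y))
        by_cases hpS : (p : ℤ) ∣ x + y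
        · -- Case II-b
          have hpT : ¬ (p : ℤ) ∣ ξ.norm := fun h =>
            hpp.not_isUnit (hcoS.isUnit_of_dvd' hpS h)
          have h4 : (p : ℤ) ^ e ∣ x + y :=
            hpp.pow_dvd_of_dvd_mul_right e hpT (by rw [hST]; exact dvd_mul_right _ _)
          obtain ⟨S'', hS''⟩ := h4
          have h5 : S'' * ξ.norm = z ^ 3 := by
            apply mul_left_cancel₀ hp0
            rw [← hST, hS'']; ring
          have hcoS'' : IsCoprime S'' ξ.norm := hcoS.of_isCoprime_of_dvd_left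
            ⟨(p : ℤ) ^ e, by rw [hS'']; ring⟩
          obtain ⟨s, hs⟩ := Int.eq_pow_of_mul_eq_pow_odd_left hcoS'' (by decide : Odd 3) h5
          obtain ⟨t, ht⟩ := Int.eq_pow_of_mul_eq_pow_odd_right hcoS'' (by decide : Odd 3) h5
          obtain ⟨γ, hγ, hγ3⟩ := extract (ρ := 1) prim_one (one_dvd _) hξprim hξcop (t := t)
            (by rw [norm_one, one_mul, ht])
          rw [one_mul] at hγ
          exact hIIb ξ γ s hγ hγ3 hξcop h3y (by rw [← hs, ← hS''])
        · -- Case I-b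
          have h4 : (p : ℤ) ^ e ∣ ξ.norm :=
            hpp.pow_dvd_of_dvd_mul_left e hpS (by rw [hST]; exact dvd_mul_right _ _)
          obtain ⟨T'', hT''⟩ := h4
          have h5 : (x + y) * T'' = z ^ 3 := by
            apply mul_left_cancel₀ hp0
            rw [← hST, hT'']; ring
          have hcoS'' : IsCoprime (x + y) T'' := hcoS.of_isCoprime_of_dvd_right
            ⟨(p : ℤ) ^ e, by rw [hT'']; ring⟩
          obtain ⟨s, hs⟩ := Int.eq_pow_of_mul_eq_pow_odd_left hcoS'' (by decide : Odd 3) h5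
          obtain ⟨t, ht⟩ := Int.eq_pow_of_mul_eq_pow_odd_right hcoS'' (by decide : Odd 3) h5
          rcases exists_rho hπ e he0 hξcop ⟨T'', hT''⟩ with h6 | h6
          · obtain ⟨γ, hγ, hγ3⟩ := extract (hπprim.pow e) h6 hξprim hξcop (t := t)
              (by rw [hnormpow, hT'', ht])
            exact concl_of_root hp3 he (hr2 φ')
              (caseIb hp9 hπ hM φ' hφ' he hγ hγ3 hξcop hs)
          · obtain ⟨γ, hγ, hγ3⟩ := extract (hπprim.conj.pow e) h6 hξprim hξcop (t := t)
              (by rw [hnormpowc, hT'', ht])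
            apply Concl.neg he
            refine concl_of_root hp3 he (hr2 φ)
              (caseIb hp9 hπc hMc φ (by rw [conj_conj]; exact hφ) he hγ hγ3 hξcop hs)
      -- one of x, y is divisible by 3
      have h3xy : (3 : ℤ) ∣ x ∨ (3 : ℤ) ∣ y := by
        by_contra hcon
        push Not at hcon
        obtain ⟨h3x, h3y⟩ := hcon
        have hcube : ∀ a : ℤ, ¬ (3 : ℤ) ∣ a → ∃ b, a ^ 3 = 1 + 9 * b ∨ a ^ 3 = -1 + 9 * b := by
          intro a ha
          have : a % 3 = 1 ∨ a % 3 = 2 := by omega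
          rcases this with h | h
          · obtain ⟨u, hu⟩ : ∃ u, a = 1 + 3 * u := ⟨a / 3, by omega⟩
            exact ⟨u + 3 * u ^ 2 + 3 * u ^ 3, Or.inl (by rw [hu]; ring)⟩
          · obtain ⟨u, hu⟩ : ∃ u, a = -1 + 3 * u := ⟨(a + 1) / 3, by omega⟩
            exact ⟨u - 3 * u ^ 2 + 3 * u ^ 3, Or.inr (by rw [hu]; ring)⟩
        obtain ⟨a1, h1⟩ := hcube x h3x
        obtain ⟨a2, h2⟩ := hcube y h3y
        obtain ⟨a3, h3⟩ := hcube z h3z
        obtain ⟨k, hk⟩ : ∃ k : ℤ, (p : ℤ) ^ e = 1 + 9 * k := by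
          obtain ⟨k0, hk0⟩ : ∃ k : ℤ, (p : ℤ) = 1 + 9 * k := ⟨p / 9, by omega⟩
          rcases he with h | h
          · exact ⟨k0, by rw [h, pow_one, hk0]⟩
          · exact ⟨2 * k0 + 9 * k0 ^ 2, by rw [h, hk0]; ring⟩
        rw [hk] at hxyz
        have h5 : x ^ 3 + y ^ 3 = z ^ 3 + 9 * (k * z ^ 3) := by rw [hxyz]; ring
        generalize x ^ 3 = X at *
        generalize y ^ 3 = Y at *
        generalize k * z ^ 3 = KZ at *
        generalize z ^ 3 = Z at *
        omega
      rcases h3xy with h | h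
      · exact key y x hco.symm h (fun h' => hno3 ⟨h, h'⟩) (by
          rw [add_comm y x, mul_comm y x]; exact hcoxy) (by
          rw [← hST, norm_def, norm_def]; simp only; ring)
      · exact key x y hco h (fun h' => hno3 ⟨h', h⟩) hcoxy hST

end Pool.Agent.Lib_helper18
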