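import Pool.Agent.Lib_helper18.Descent

/-!
# First descent for composite `A`: splitting lemmas
-/

namespace Pool.Agent.Lib_helper18

open Finset

/-- splitting a product of two coprime integers -/
theorem split_two {ι : Type*} [DecidableEq ι] (p e : ι → ℕ) (hp : ∀ i, (p i).Prime)
    (he : ∀ i, e i ≠ 0) (S : Finset ι) :
    ∀ (u v s : ℤ), IsCoprime u v → u * v = (∏ j ∈ S, (p j : ℤ) ^ e j) * s ^ 3 →
    ∃ J ⊆ S, ∃ a b : ℤ, u = (∏ j ∈ J, (p j : ℤ) ^ e j) * a ^ 3 ∧
      v = (∏ j ∈ S \ J, (p j : ℤ) ^ e j) * b ^ 3 ∧ s = a * b := by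
  induction S using Finset.induction_on with
  | empty =>
    intro u v s huv h
    rw [prod_empty, one_mul] at h
    obtain ⟨a, ha⟩ := Int.eq_pow_of_mul_eq_pow_odd_left huv (by decide : Odd 3) h
    obtain ⟨b, hb⟩ := Int.eq_pow_of_mul_eq_pow_odd_right huv (by decide : Odd 3) h
    refine ⟨∅, Finset.Subset.refl _, a, b, by simpa using ha, by simpa using hb, ?_⟩
    have h1 : (a * b) ^ 3 = s ^ 3 := by rw [mul_pow, ← ha, ← hb, h]
    exact ((by decide : Odd 3).pow_injective h1).symm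
  | insert j S hj ih =>
    intro u v s huv h
    have hpj : Prime (p j : ℤ) := Nat.prime_iff_prime_int.mp (hp j)
    have hpj0 : (p j : ℤ) ^ e j ≠ 0 := pow_ne_zero _ hpj.ne_zero
    rw [prod_insert hj] at h
    have h1 : (p j : ℤ) ∣ u * v := by
      rw [h]
      exact Dvd.dvd.mul_right (Dvd.dvd.mul_right (dvd_pow_self _ (he j)) _) _
    rcases hpj.dvd_or_dvd h1 with h2 | h2
    · have h3 : ¬ (p j : ℤ) ∣ v := fun h3 => hpj.not_isUnit (huv.isUnit_of_dvd' h2 h3)
      have h4 : (p j : ℤ) ^ e j ∣ u := by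
        apply hpj.pow_dvd_of_dvd_mul_right (e j) h3
        rw [h, mul_assoc]; exact dvd_mul_right _ _
      obtain ⟨u', hu'⟩ := h4
      have h5 : u' * v = (∏ j ∈ S, (p j : ℤ) ^ e j) * s ^ 3 := by
        apply mul_left_cancel₀ hpj0
        rw [← mul_assoc, ← mul_assoc, ← hu', h]
      obtain ⟨J, hJ, a, b, ha, hb, hs⟩ := ih u' v s
        (huv.of_isCoprime_of_dvd_left ⟨(p j : ℤ) ^ e j, by rw [hu']; ring⟩) h5
      have hjJ : j ∉ J := fun h => hj (hJ h)
      refine ⟨insert j J, insert_subset_insert j hJ, a, b, ?_, ?_, hs⟩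
      · rw [prod_insert hjJ, hu', ha]; ring
      · rw [insert_sdiff_insert, sdiff_insert_of_notMem hj]; exact hb
    · have h3 : ¬ (p j : ℤ) ∣ u := fun h3 => hpj.not_isUnit (huv.isUnit_of_dvd' h3 h2)
      have h4 : (p j : ℤ) ^ e j ∣ v := by
        apply hpj.pow_dvd_of_dvd_mul_left (e j) h3
        rw [h, mul_assoc]; exact dvd_mul_right _ _
      obtain ⟨v', hv'⟩ := h4
      have h5 : u * v' = (∏ j ∈ S, (p j : ℤ) ^ e j) * s ^ 3 := by
        apply mul_left_cancel₀ hpj0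
        rw [hv'] at h
        linear_combination h
      obtain ⟨J, hJ, a, b, ha, hb, hs⟩ := ih u v' s
        (huv.of_isCoprime_of_dvd_right ⟨(p j : ℤ) ^ e j, by rw [hv']; ring⟩) h5
      have hjJ : j ∉ J := fun h => hj (hJ h)
      refine ⟨J, hJ.trans (subset_insert _ _), a, b, ha, ?_, hs⟩
      rw [insert_sdiff_of_notMem _ hjJ, prod_insert (by simp [hj]), hv', hb]; ring

namespace Eis

theorem Prim.of_mul {x y : Eis} (hx : Prim x) (hxy : Prim (x * y)) : Prim y := by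
  have h1 : ¬ lam ∣ y := fun h => hxy.not_lam_dvd (Dvd.dvd.mul_left h _)
  obtain ⟨i, hi⟩ := exists_prim h1
  have h2 : Prim (x * y * w ^ i) := by rw [mul_assoc]; exact hx.mul hi
  rcases hxy.unit (isUnit_w.pow i) h2 with h3 | h3
  · rwa [h3, mul_one] at hi
  · rw [h3, mul_neg, mul_one] at hi
    simpa using hi.neg

theorem sym_prod_pow {ι : Type*} [DecidableEq ι] {l : Eis} (hl : Prime l) (h3 : ¬ l ∣ 3)
    (x : ι → Eis) (e : ι → ℕ) (S : Finset ι) (hx : ∀ j ∈ S, ¬ l ∣ x j) :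
    ¬ l ∣ ∏ j ∈ S, x j ^ e j ∧
      sym l (∏ j ∈ S, x j ^ e j) = ∑ j ∈ S, (e j : ZMod 3) * sym l (x j) := by
  induction S using Finset.induction_on with
  | empty => exact ⟨by simpa using fun h => hl.not_isUnit (isUnit_of_dvd_one h),
      by simpa using sym_one hl h3⟩
  | insert j S hj ih =>
    obtain ⟨h1, h2⟩ := ih (fun k hk => hx k (mem_insert_of_mem hk))
    have h4 : ¬ l ∣ x j ^ e j := fun h => hx j (mem_insert_self _ _) (hl.dvd_of_dvd_pow h)
    rw [prod_insert hj, sum_insert hj]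
    refine ⟨fun h => (hl.dvd_or_dvd h).elim h4 h1, ?_⟩
    rw [sym_mul hl h3 h4 h1, h2, sym_pow hl h3 (hx j (mem_insert_self _ _))]

/-- factorisation of an element coprime to its conjugate, up to cubes -/
theorem split_eis {ι : Type*} [DecidableEq ι] (p e : ι → ℕ) (π : ι → Eis)
    (hp : ∀ i, (p i).Prime) (hπ : ∀ i, (π i).norm = p i) (hprim : ∀ i, Prim (π i))
    (he : ∀ i, e i ≠ 0) (J : Finset ι) :
    ∀ (η : Eis) (t : ℤ), Prim η → IsCoprime η (conj η) →
    η.norm = (∏ j ∈ J, (p j : ℤ) ^ e j) * t ^ 3 →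
    ∃ (ρ : ι → Eis) (γ : Eis), (∀ j, ρ j = π j ∨ ρ j = conj (π j)) ∧
      η = (∏ j ∈ J, ρ j ^ e j) * γ ^ 3 ∧ ¬ lam ∣ γ := by
  induction J using Finset.induction_on with
  | empty =>
    intro η t hη hcop h
    rw [prod_empty, one_mul] at h
    obtain ⟨γ, hγ, hγ3⟩ := extract (ρ := 1) prim_one (one_dvd _) hη hcop (t := t)
      (by rw [norm_one, one_mul, h])
    exact ⟨π, γ, fun j => Or.inl rfl, by rw [prod_empty]; exact hγ, hγ3⟩
  | insert j J hj ih =>
    intro η t hη hcop h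
    have : Fact (p j).Prime := ⟨hp j⟩
    rw [prod_insert hj, mul_assoc] at h
    have hpj : Prime (p j : ℤ) := Nat.prime_iff_prime_int.mp (hp j)
    have hpj0 : (p j : ℤ) ^ e j ≠ 0 := pow_ne_zero _ hpj.ne_zero
    have key : ∀ ρ0 : Eis, Prim ρ0 → ρ0.norm = p j → (ρ0 = π j ∨ ρ0 = conj (π j)) →
        ρ0 ^ e j ∣ η → ∃ (ρ : ι → Eis) (γ : Eis), (∀ j, ρ j = π j ∨ ρ j = conj (π j)) ∧
        η = (∏ j ∈ insert j J, ρ j ^ e j) * γ ^ 3 ∧ ¬ lam ∣ γ := by
      intro ρ0 hρ0 hρn hρ hd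
      obtain ⟨η', hη'⟩ := hd
      have hP : Prim η' := (hρ0.pow (e j)).of_mul (by rw [← hη']; exact hη)
      have hc : IsCoprime η' (conj η') := by
        have h2 : η' ∣ η := ⟨ρ0 ^ e j, by rw [hη']; ring⟩
        exact (hcop.of_isCoprime_of_dvd_left h2).of_isCoprime_of_dvd_right (conj_dvd h2)
      have hn : η'.norm = (∏ j ∈ J, (p j : ℤ) ^ e j) * t ^ 3 := by
        apply mul_left_cancel₀ hpj0
        rw [← h, hη', norm_mul, norm_pow, hρn]
      obtain ⟨ρ, γ, h1, h2, h3⟩ := ih η' t hP hc hn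
      refine ⟨Function.update ρ j ρ0, γ, ?_, ?_, h3⟩
      · intro k
        by_cases hk : k = j
        · subst hk; simpa using hρ
        · rw [Function.update_of_ne hk]; exact h1 k
      · rw [prod_insert hj, Function.update_self, hη', h2]
        have : ∏ k ∈ J, Function.update ρ j ρ0 k ^ e k = ∏ k ∈ J, ρ k ^ e k := by
          apply prod_congr rfl
          intro k hk
          rw [Function.update_of_ne (by rintro rfl; exact hj hk)]
        rw [this]; ring
    rcases exists_rho (hπ j) (e j) (Nat.pos_of_ne_zero (he j)) hcop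
      (by rw [h]; exact dvd_mul_right _ _) with h1 | h1
    · exact key (π j) (hprim j) (hπ j) (Or.inl rfl) h1
    · exact key (conj (π j)) (hprim j).conj (by rw [norm_conj]; exact hπ j) (Or.inr rfl) h1

end Eis

end Pool.Agent.Lib_helper18
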