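import Pool.Agent.Lib_helper18.FD9

set_option linter.unusedSectionVars false

/-!
# The rational side with an inert prime in the matrix and a condition at `3`
-/

namespace Pool.Agent.Lib_helper18

open Finset Eis Matrix

theorem inert_split {r : ℤ} (hr : Prime r) {f : ℕ} (hf : f ≠ 0) {u v t X : ℤ}
    (huv : IsCoprime u v) (hut : IsCoprime u t) (hvt : IsCoprime v t)
    (h : u * v * t = r ^ f * X) :
    ∃ (f1 f2 f3 : ℕ) (u' v' t' : ℤ), ((f1 = f ∧ f2 = 0 ∧ f3 = 0) ∨ (f1 = 0 ∧ f2 = f ∧ f3 = 0) ∨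
      (f1 = 0 ∧ f2 = 0 ∧ f3 = f)) ∧ u = r ^ f1 * u' ∧ v = r ^ f2 * v' ∧ t = r ^ f3 * t' ∧
      u' * v' * t' = X := by
  have hr0 : r ^ f ≠ 0 := pow_ne_zero _ hr.ne_zero
  have h1 : r ∣ u * v * t := by rw [h]; exact Dvd.dvd.mul_right (dvd_pow_self _ hf) _
  have key : ∀ a b : ℤ, IsCoprime a b → r ∣ a → ¬ r ∣ b :=
    fun a b hab ha hb => hr.not_isUnit (hab.isUnit_of_dvd' ha hb)
  rcases hr.dvd_or_dvd h1 with h2 | h2
  · rcases hr.dvd_or_dvd h2 with h3 | h3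
    · have h4 : ¬ r ∣ v * t := fun h5 => (hr.dvd_or_dvd h5).elim (key _ _ huv h3) (key _ _ hut h3)
      have h5 : r ^ f ∣ u := by
        apply hr.pow_dvd_of_dvd_mul_right f h4
        rw [← mul_assoc, h]; exact dvd_mul_right _ _
      obtain ⟨u', hu'⟩ := h5
      refine ⟨f, 0, 0, u', v, t, Or.inl ⟨rfl, rfl, rfl⟩, hu', by ring, by ring, ?_⟩
      apply mul_left_cancel₀ hr0
      rw [← h, hu']; ring
    · have h4 : ¬ r ∣ u * t :=
        fun h5 => (hr.dvd_or_dvd h5).elim (key _ _ huv.symm h3) (key _ _ hvt h3)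
      have h5 : r ^ f ∣ v := by
        apply hr.pow_dvd_of_dvd_mul_right f h4
        rw [show v * (u * t) = u * v * t by ring, h]; exact dvd_mul_right _ _
      obtain ⟨v', hv'⟩ := h5
      refine ⟨0, f, 0, u, v', t, Or.inr (Or.inl ⟨rfl, rfl, rfl⟩), by ring, hv', by ring, ?_⟩
      apply mul_left_cancel₀ hr0
      rw [← h, hv']; ring
  · have h4 : ¬ r ∣ u * v :=
      fun h5 => (hr.dvd_or_dvd h5).elim (key _ _ hut.symm h2) (key _ _ hvt.symm h2)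
    have h5 : r ^ f ∣ t := by
      apply hr.pow_dvd_of_dvd_mul_right f h4
      rw [show t * (u * v) = u * v * t by ring, h]; exact dvd_mul_right _ _
    obtain ⟨t', ht'⟩ := h5
    refine ⟨0, 0, f, u, v, t', Or.inr (Or.inr ⟨rfl, rfl, rfl⟩), by ring, by ring, ht', ?_⟩
    apply mul_left_cancel₀ hr0
    rw [← h, ht']; ring

namespace FData

variable {ι : Type*} [Fintype ι] [DecidableEq ι] (D : FData ι)

variable {r f : ℕ} {C0 : ℤ} (y L : ι → ZMod 3)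

theorem qstep2 (hr : r.Prime) (hr3 : r % 3 = 2) (hrp : ∀ i, D.p i ≠ r) (hC0 : C0 ≠ 0)
    (hf : f = 1 ∨ f = 2) (hCp : ∀ i, ¬ (D.p i : ℤ) ∣ C0)
    (hy : ∀ i, sym (D.π i) ((C0 * (r : ℤ) ^ f : ℤ) : Eis) = y i)
    (hL : ∀ i, sym (D.π i) (r : Eis) = L i)
    (hR : (D.NN y L (wq r)).det ≠ 0) {u v t s : ℤ} (huv : IsCoprime u v)
    (hut : IsCoprime u t) (hvt : IsCoprime v t) (hsum : u + v + t = 0)
    (hprod : u * v * t = (C0 * (r : ℤ) ^ f * D.P univ) * s ^ 3) (hCt : C0 ∣ t)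
    (h3 : ∀ d1 d2 d3 a b c : ℤ, ¬ (3 : ℤ) ∣ d1 → ¬ (3 : ℤ) ∣ d2 → u = d1 * a ^ 3 →
      v = d2 * b ^ 3 → t = C0 * d3 * c ^ 3 → d1 * d2 * d3 = (r : ℤ) ^ f * D.P univ →
      wq d1 = wq d2) :
    ∃ a b c : ℤ, a ^ 3 + b ^ 3 = (C0 * (r : ℤ) ^ f * D.P univ) * c ^ 3 ∧
      s.natAbs = a.natAbs * b.natAbs * c.natAbs := by
  have hri : Prime (r : ℤ) := Nat.prime_iff_prime_int.mp hr
  have hf0 : f ≠ 0 := by omega
  have h3r : ¬ (3 : ℤ) ∣ (r : ℤ) := by omega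
  obtain ⟨t0, ht0⟩ := hCt
  have ht0d : t0 ∣ t := ⟨C0, by rw [ht0]; ring⟩
  obtain ⟨f1, f2, f3, u', v', t', hff, hu', hv', ht', hX⟩ := inert_split hri hf0 huv
    (hut.of_isCoprime_of_dvd_right ht0d) (hvt.of_isCoprime_of_dvd_right ht0d)
    (X := D.P univ * s ^ 3) (by
      apply mul_left_cancel₀ hC0
      rw [ht0] at hprod
      linear_combination hprod)
  have hu'd : u' ∣ u := ⟨(r : ℤ) ^ f1, by rw [hu']; ring⟩
  have hv'd : v' ∣ v := ⟨(r : ℤ) ^ f2, by rw [hv']; ring⟩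
  have ht'd0 : t' ∣ t0 := ⟨(r : ℤ) ^ f3, by rw [ht']; ring⟩
  have ht'd : t' ∣ t := ht'd0.trans ht0d
  obtain ⟨J1, J2, J3, h12, h13, h23, hU, a, b, c, ha, hb, hc, hs⟩ := D.three_split
    ((huv.of_isCoprime_of_dvd_left hu'd).of_isCoprime_of_dvd_right hv'd)
    ((hut.of_isCoprime_of_dvd_left hu'd).of_isCoprime_of_dvd_right ht'd)
    ((hvt.of_isCoprime_of_dvd_left hv'd).of_isCoprime_of_dvd_right ht'd) hX
  have hpr : ∀ i (k : ℕ), ¬ (D.p i : ℤ) ∣ (r : ℤ) ^ k := by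
    intro i k h
    have := (D.prime_int i).dvd_of_dvd_pow h
    rw [Int.natCast_dvd_natCast, Nat.prime_dvd_prime_iff_eq (D.hp i) hr] at this
    exact hrp i this
  have hmem : ∀ i, i ∈ J1 ∨ i ∈ J2 ∨ i ∈ J3 := by
    intro i
    have : i ∈ J1 ∪ J2 ∪ J3 := by rw [hU]; exact mem_univ i
    simp only [mem_union] at this
    tauto
  have hdu : ∀ i ∈ J1, (D.p i : ℤ) ∣ u := fun i hi => by
    rw [hu', ha]; exact Dvd.dvd.mul_left (Dvd.dvd.mul_right (D.dvd_P hi) _) _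
  have hdv : ∀ i ∈ J2, (D.p i : ℤ) ∣ v := fun i hi => by
    rw [hv', hb]; exact Dvd.dvd.mul_left (Dvd.dvd.mul_right (D.dvd_P hi) _) _
  have hdt : ∀ i ∈ J3, (D.p i : ℤ) ∣ t := fun i hi => by
    rw [ht0, ht', hc]
    exact Dvd.dvd.mul_left (Dvd.dvd.mul_left (Dvd.dvd.mul_right (D.dvd_P hi) _) _) _
  have hna : ∀ i, i ∉ J1 → ¬ (D.p i : ℤ) ∣ a := by
    intro i hi h
    have h5 : (D.p i : ℤ) ∣ u := by
      rw [hu', ha]; exact Dvd.dvd.mul_left (Dvd.dvd.mul_left (Dvd.dvd.pow h (by norm_num)) _) _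
    rcases hmem i with h6 | h6 | h6
    · exact hi h6
    · exact (D.prime_int i).not_isUnit (huv.isUnit_of_dvd' h5 (hdv i h6))
    · exact (D.prime_int i).not_isUnit (hut.isUnit_of_dvd' h5 (hdt i h6))
  have hnb : ∀ i, i ∉ J2 → ¬ (D.p i : ℤ) ∣ b := by
    intro i hi h
    have h5 : (D.p i : ℤ) ∣ v := by
      rw [hv', hb]; exact Dvd.dvd.mul_left (Dvd.dvd.mul_left (Dvd.dvd.pow h (by norm_num)) _) _
    rcases hmem i with h6 | h6 | h6
    · exact (D.prime_int i).not_isUnit (huv.isUnit_of_dvd' (hdu i h6) h5)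
    · exact hi h6
    · exact (D.prime_int i).not_isUnit (hvt.isUnit_of_dvd' h5 (hdt i h6))
  have hnc : ∀ i, i ∉ J3 → ¬ (D.p i : ℤ) ∣ c := by
    intro i hi h
    have h5 : (D.p i : ℤ) ∣ t := by
      rw [ht0, ht', hc]
      exact Dvd.dvd.mul_left (Dvd.dvd.mul_left (Dvd.dvd.mul_left
        (Dvd.dvd.pow h (by norm_num)) _) _) _
    rcases hmem i with h6 | h6 | h6
    · exact (D.prime_int i).not_isUnit (hut.isUnit_of_dvd' (hdu i h6) h5)
    · exact (D.prime_int i).not_isUnit (hvt.isUnit_of_dvd' (hdv i h6) h5)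
    · exact hi h6
  have hn3 : ∀ i (x : ℤ), ¬ (D.p i : ℤ) ∣ x → ¬ (D.p i : ℤ) ∣ x ^ 3 :=
    fun i x h h' => h ((D.prime_int i).dvd_of_dvd_pow h')
  have hs3 : ∀ i (x : ℤ), ¬ (D.p i : ℤ) ∣ x → sym (D.π i) ((x ^ 3 : ℤ) : Eis) = 0 := by
    intro i x hx
    rw [Int.cast_pow]
    exact sym_cube (D.pr i) (D.n3 i) (by rwa [D.dvd_int])
  have hrn : ∀ i, ¬ D.π i ∣ (r : Eis) := by
    intro i h
    have h1 := D.dvd_int i (s := (r : ℤ))
    rw [Int.cast_natCast] at h1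
    rw [h1] at h
    exact hpr i 1 (by rwa [pow_one])
  have hsr : ∀ i (k : ℕ) (x : ℤ), ¬ (D.p i : ℤ) ∣ x →
      sym (D.π i) (((r : ℤ) ^ k * x ^ 3 : ℤ) : Eis) = (k : ZMod 3) * L i := by
    intro i k x hx
    rw [Int.cast_mul, sym_mul (D.pr i) (D.n3 i) (by rw [D.dvd_int]; exact hpr i k)
      (by rw [D.dvd_int]; exact hn3 i x hx), hs3 i x hx, add_zero, Int.cast_pow,
      Int.cast_natCast, sym_pow (D.pr i) (D.n3 i) (hrn i), hL i]
  have hfsum : (f1 : ZMod 3) + f2 + f3 = f := by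
    rcases hff with ⟨h1, h2, h3⟩ | ⟨h1, h2, h3⟩ | ⟨h1, h2, h3⟩ <;> rw [h1, h2, h3] <;> simp
  have hres := D.qside h12 h13 h23 hU (u0 := (r : ℤ) ^ f1 * a ^ 3) (v0 := (r : ℤ) ^ f2 * b ^ 3)
    (t0 := C0 * ((r : ℤ) ^ f3 * c ^ 3))
    y (fun i => (f1 : ZMod 3) * L i) (fun i => (f2 : ZMod 3) * L i)
    (fun i hi h => ((D.prime_int i).dvd_or_dvd h).elim (hpr i f1) (hn3 i a (hna i hi)))
    (fun i hi h => ((D.prime_int i).dvd_or_dvd h).elim (hpr i f2) (hn3 i b (hnb i hi)))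
    (fun i hi h => ((D.prime_int i).dvd_or_dvd h).elim (hCp i)
      (fun h => ((D.prime_int i).dvd_or_dvd h).elim (hpr i f3) (hn3 i c (hnc i hi))))
    (fun i hi => by
      have e1 : ¬ D.π i ∣ (((r : ℤ) ^ f3 * c ^ 3 : ℤ) : Eis) := by
        rw [D.dvd_int]
        exact fun h => ((D.prime_int i).dvd_or_dvd h).elim (hpr i f3) (hn3 i c (hnc i hi))
      have e2 : ¬ D.π i ∣ (((r : ℤ) ^ f : ℤ) : Eis) := by rw [D.dvd_int]; exact hpr i f
      have e3 : ¬ D.π i ∣ (C0 : Eis) := by rw [D.dvd_int]; exact hCp i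
      have h4 := hy i
      rw [Int.cast_mul, sym_mul (D.pr i) (D.n3 i) e3 e2, Int.cast_pow, Int.cast_natCast,
        sym_pow (D.pr i) (D.n3 i) (hrn i), hL i] at h4
      rw [Int.cast_mul, sym_mul (D.pr i) (D.n3 i) e3 e1, hsr i f3 c (hnc i hi), ← h4, ← hfsum]
      ring)
    (fun i hi => hsr i f1 a (hna i hi)) (fun i hi => hsr i f2 b (hnb i hi)) (by
      rw [hu', hv', ht0, ht', ha, hb, hc] at hsum
      rw [P, P, P] at hsum
      linear_combination hsum)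
  have hrow3 := h3 ((r : ℤ) ^ f1 * D.P J1) ((r : ℤ) ^ f2 * D.P J2) ((r : ℤ) ^ f3 * D.P J3) a b c
    (fun h => (Int.prime_three.dvd_or_dvd h).elim
      (fun h => h3r (Int.prime_three.dvd_of_dvd_pow h)) (D.three_not_dvd_P J1))
    (fun h => (Int.prime_three.dvd_or_dvd h).elim
      (fun h => h3r (Int.prime_three.dvd_of_dvd_pow h)) (D.three_not_dvd_P J2))
    (by rw [hu', ha]; ring) (by rw [hv', hb]; ring) (by rw [ht0, ht', hc]; ring) (by
      have e1 : D.P J1 * D.P J2 * D.P J3 = D.P univ := by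
        rw [← hU, P, P, P, P, prod_union (disjoint_union_left.mpr ⟨h13, h23⟩), prod_union h12]
      have e2 : (r : ℤ) ^ f1 * (r : ℤ) ^ f2 * (r : ℤ) ^ f3 = (r : ℤ) ^ f := by
        rw [← pow_add, ← pow_add]
        congr 1
        omega
      rw [← e1, ← e2]; ring)
  have hrk : ∀ k : ℕ, ¬ (3 : ℤ) ∣ (r : ℤ) ^ k := fun k h => h3r (Int.prime_three.dvd_of_dvd_pow h)
  rw [wq_mul (hrk f1) (D.three_not_dvd_P J1), wq_mul (hrk f2) (D.three_not_dvd_P J2),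
    wq_pow h3r, wq_pow h3r, D.wq_P, D.wq_P] at hrow3
  obtain ⟨hv0, hm0⟩ := D.NN_q hR (v := D.vec J1 J2) (m := (f1 : ZMod 3) - f2) (fun i => by
    rw [hres i]; ring) (by
    rw [D.sum_vec h12]
    linear_combination hrow3)
  obtain ⟨e1, e2⟩ := D.vec_eq_zero h12 hv0
  subst e1 e2
  have e3 : J3 = univ := by simpa using hU
  subst e3
  have e0 : D.P ∅ = 1 := by rw [P, prod_empty]
  have hff3 : f1 = 0 ∧ f2 = 0 ∧ f3 = f := by
    rcases hff with ⟨h1, h2, h3⟩ | ⟨h1, h2, h3⟩ | ⟨h1, h2, h3⟩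
    · rw [h1, h2] at hm0
      rcases hf with h | h <;> rw [h] at hm0 <;> exact absurd hm0 (by decide)
    · rw [h1, h2] at hm0
      rcases hf with h | h <;> rw [h] at hm0 <;> exact absurd hm0 (by decide)
    · exact ⟨h1, h2, h3⟩
  obtain ⟨g1, g2, g3⟩ := hff3
  rw [e0, one_mul] at ha hb
  rw [g1, pow_zero, one_mul] at hu'
  rw [g2, pow_zero, one_mul] at hv'
  rw [g3] at ht'
  refine ⟨a, b, -c, ?_, ?_⟩
  · rw [hu', hv', ha, hb, ht0, ht', hc] at hsum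
    linear_combination hsum
  · rw [hs, Int.natAbs_mul, Int.natAbs_mul, Int.natAbs_neg]

end FData

end Pool.Agent.Lib_helper18
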