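import Pool.Agent.Lib_helper18.FD10

set_option linter.unusedSectionVars false

/-!
# The descents for two inert primes, and for `9` times one inert prime
-/

namespace Pool.Agent.Lib_helper18

open Finset Eis Matrix

/-- infinite descent -/
theorem no_solution {A : ℤ} (hA0 : A ≠ 0) (hcf : ∀ r : ℤ, Prime r → ¬ r ^ 3 ∣ A)
    (hstep : ∀ x y z : ℤ, z ≠ 0 → IsCoprime x y → x ^ 3 + y ^ 3 = A * z ^ 3 →
      ∃ a b c : ℤ, c ≠ 0 ∧ a ^ 3 + b ^ 3 = A * c ^ 3 ∧ c.natAbs < z.natAbs) :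
    ∀ (n : ℕ) (x y z : ℤ), z.natAbs = n → z ≠ 0 → x ^ 3 + y ^ 3 = A * z ^ 3 → False := by
  intro n
  induction n using Nat.strong_induction_on with
  | _ n ih =>
  intro x y z hzn hz0 hxyz
  by_cases hco : IsCoprime x y
  swap
  · have hx0y0 : ¬ (x = 0 ∧ y = 0) := by
      rintro ⟨rfl, rfl⟩
      have : A * z ^ 3 = 0 := by rw [← hxyz]; ring
      rcases mul_eq_zero.mp this with h | h
      · exact hA0 h
      · exact hz0 (pow_eq_zero_iff (by norm_num) |>.mp h)
    have : ∃ r : ℤ, Prime r ∧ r ∣ x ∧ r ∣ y := by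
      by_contra hcon
      push Not at hcon
      exact hco (isCoprime_of_prime_dvd hx0y0 (fun q hq hqx => hcon q hq hqx))
    obtain ⟨r, hr, ⟨x', hx'⟩, ⟨y', hy'⟩⟩ := this
    have hr3 : r ^ 3 ∣ A * z ^ 3 := ⟨x' ^ 3 + y' ^ 3, by rw [← hxyz, hx', hy']; ring⟩
    have hrz : r ∣ z := by
      by_contra hrz
      exact hcf r hr (hr.pow_dvd_of_dvd_mul_right 3 (fun h => hrz (hr.dvd_of_dvd_pow h)) hr3)
    obtain ⟨z', hz'⟩ := hrz
    have hz'0 : z' ≠ 0 := by rintro rfl; simp at hz'; exact hz0 hz'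
    have hlt : z'.natAbs < n := by
      rw [← hzn, hz', Int.natAbs_mul]
      have h1 : 1 < r.natAbs := by
        have := hr.not_isUnit
        rw [Int.isUnit_iff_natAbs_eq] at this
        have h2 : r.natAbs ≠ 0 := Int.natAbs_ne_zero.mpr hr.ne_zero
        omega
      have h2 : 0 < z'.natAbs := Int.natAbs_pos.mpr hz'0
      nlinarith
    refine ih _ hlt x' y' z' rfl hz'0 ?_
    have hr30 : r ^ 3 ≠ 0 := pow_ne_zero _ hr.ne_zero
    apply mul_left_cancel₀ hr30
    rw [hx', hy', hz'] at hxyz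
    linear_combination hxyz
  · obtain ⟨a, b, c, hc0, habc, hlt⟩ := hstep x y z hz0 hco hxyz
    exact ih _ (by rw [← hzn]; exact hlt) a b c rfl hc0 habc

theorem natAbs_lt_of {a b c s t z : ℤ} (hz : z = 3 * (t * s)) (hs : s.natAbs = a.natAbs * b.natAbs * c.natAbs)
    (hz0 : z ≠ 0) : c ≠ 0 ∧ c.natAbs < z.natAbs := by
  have hs0 : s ≠ 0 := by rintro rfl; simp at hz; exact hz0 hz
  have ht0 : t ≠ 0 := by rintro rfl; simp at hz; exact hz0 hz
  have hc0 : c ≠ 0 := by rintro rfl; simp at hs; exact hs0 hs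
  have ha0 : a ≠ 0 := by rintro rfl; simp at hs; exact hs0 hs
  have hb0 : b ≠ 0 := by rintro rfl; simp at hs; exact hs0 hs
  refine ⟨hc0, ?_⟩
  have h1 : z.natAbs = 3 * (t.natAbs * s.natAbs) := by
    rw [hz, Int.natAbs_mul, Int.natAbs_mul]; rfl
  have ha1 : 1 ≤ a.natAbs := Int.natAbs_pos.mpr ha0
  have hb1 : 1 ≤ b.natAbs := Int.natAbs_pos.mpr hb0
  have hc1 : 1 ≤ c.natAbs := Int.natAbs_pos.mpr hc0
  have ht1 : 1 ≤ t.natAbs := Int.natAbs_pos.mpr ht0
  have h2 : c.natAbs ≤ s.natAbs := by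
    rw [hs]
    calc c.natAbs = 1 * 1 * c.natAbs := by ring
      _ ≤ a.natAbs * b.natAbs * c.natAbs := by gcongr
  have h3 : s.natAbs ≤ t.natAbs * s.natAbs := by
    calc s.natAbs = 1 * s.natAbs := by ring
      _ ≤ t.natAbs * s.natAbs := by gcongr
  omega

/-- the weights of the three terms agree when `A = ±1 mod 9` -/
theorem row3_one {A u v t s : ℤ} (hA : A % 9 = 1 ∨ A % 9 = 8) (huv : IsCoprime u v)
    (hut : IsCoprime u t) (hvt : IsCoprime v t) (hsum : u + v + t = 0)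
    (hprod : u * v * t = A * s ^ 3) {d1 d2 d3 a b c : ℤ} (h1 : ¬ (3 : ℤ) ∣ d1)
    (h2 : ¬ (3 : ℤ) ∣ d2) (hu : u = d1 * a ^ 3) (hv : v = d2 * b ^ 3) (ht : t = d3 * c ^ 3)
    (hd : d1 * d2 * d3 = A) : wq d1 = wq d2 := by
  have h3A : ¬ (3 : ℤ) ∣ A := by omega
  have h3d : ¬ (3 : ℤ) ∣ d3 := fun h => h3A (by rw [← hd]; exact Dvd.dvd.mul_left h _)
  have hwA : wq d1 + wq d2 + wq d3 = 0 := by
    have h12 : ¬ (3 : ℤ) ∣ d1 * d2 := fun h => (Int.prime_three.dvd_or_dvd h).elim h1 h2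
    rw [← wq_mul h1 h2, ← wq_mul h12 h3d, hd, wq, if_pos hA]
  have h3s : (3 : ℤ) ∣ s := by
    by_contra h3s
    have hs9 := cube_mod_nine_int h3s
    have h9 : (u * v * t) % 9 = 1 ∨ (u * v * t) % 9 = 8 := by
      rw [hprod, Int.mul_emod]
      rcases hA with h | h <;> rcases hs9 with h' | h' <;> rw [h, h'] <;> norm_num
    have ht' : t = -u - v := by linarith
    have key : ∀ a b : ZMod 9, a * b * (-a - b) ≠ 1 ∧ a * b * (-a - b) ≠ 8 := by decide
    have hk := key u v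
    rcases h9 with h | h
    · apply hk.1
      have h5 : ((u * v * t : ℤ) : ZMod 9) = ((1 : ℤ) : ZMod 9) := by
        rw [ZMod.intCast_eq_intCast_iff']; exact h
      rw [ht'] at h5
      push_cast at h5
      exact h5
    · apply hk.2
      have h5 : ((u * v * t : ℤ) : ZMod 9) = ((8 : ℤ) : ZMod 9) := by
        rw [ZMod.intCast_eq_intCast_iff']; exact h
      rw [ht'] at h5
      push_cast at h5
      exact h5
  have h27 : (3 : ℤ) ^ 3 ∣ u * v * t := by
    rw [hprod]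
    exact Dvd.dvd.mul_left (pow_dvd_pow_of_dvd h3s 3) _
  have h3 : (3 : ℤ) ∣ u * v * t := (dvd_pow_self _ (by norm_num)).trans h27
  have key : ∀ a b : ℤ, IsCoprime a b → (3 : ℤ) ∣ a → ¬ (3 : ℤ) ∣ b :=
    fun a b hab ha hb => Int.prime_three.not_isUnit (hab.isUnit_of_dvd' ha hb)
  have h9of : ∀ a : ℤ, (3 : ℤ) ^ 3 ∣ a → (9 : ℤ) ∣ a := by
    intro a h
    norm_num at h
    omega
  have hcube : ∀ d x : ℤ, ¬ (3 : ℤ) ∣ d → ¬ (3 : ℤ) ∣ d * x ^ 3 → wq (d * x ^ 3) = wq d := by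
    intro d x hd hdx
    have hx : ¬ (3 : ℤ) ∣ x := fun h => hdx (Dvd.dvd.mul_left (Dvd.dvd.pow h (by norm_num)) _)
    have hx3 : ¬ (3 : ℤ) ∣ x ^ 3 := fun h => hx (Int.prime_three.dvd_of_dvd_pow h)
    rw [wq_mul hd hx3, wq_cube hx, add_zero]
  have h30 : (3 : ZMod 3) = 0 := by decide
  rcases Int.prime_three.dvd_or_dvd h3 with h | h
  · rcases Int.prime_three.dvd_or_dvd h with h | h
    · have n1 := key _ _ huv h
      have n2 := key _ _ hut h
      have h5 : (9 : ℤ) ∣ u := h9of _ (Int.prime_three.pow_dvd_of_dvd_mul_right 3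
        (fun h => (Int.prime_three.dvd_or_dvd h).elim n1 n2) (by rw [← mul_assoc]; exact h27))
      have h6 : wq v = wq t := wq_of_add (by omega)
      rw [hv, ht] at h6
      rw [hcube _ _ h2 (by rw [← hv]; exact n1), hcube _ _ h3d (by rw [← ht]; exact n2)] at h6
      linear_combination hwA + h6 - wq d2 * h30
    · have n1 := key _ _ huv.symm h
      have n2 := key _ _ hvt h
      have h5 : (9 : ℤ) ∣ v := h9of _ (Int.prime_three.pow_dvd_of_dvd_mul_right 3
        (a := v) (b := u * t)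
        (fun h => (Int.prime_three.dvd_or_dvd h).elim n1 n2)
        (by rw [show v * (u * t) = u * v * t by ring]; exact h27))
      have h6 : wq u = wq t := wq_of_add (by omega)
      rw [hu, ht] at h6
      rw [hcube _ _ h1 (by rw [← hu]; exact n1), hcube _ _ h3d (by rw [← ht]; exact n2)] at h6
      linear_combination -hwA - h6 + wq d1 * h30
  · have n1 := key _ _ hut.symm h
    have n2 := key _ _ hvt.symm h
    have h5 : (9 : ℤ) ∣ t := h9of _ (Int.prime_three.pow_dvd_of_dvd_mul_right 3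
        (a := t) (b := u * v)
        (fun h => (Int.prime_three.dvd_or_dvd h).elim n1 n2)
        (by rw [show t * (u * v) = u * v * t by ring]; exact h27))
    have h6 : wq u = wq v := wq_of_add (by omega)
    rw [hu, hv] at h6
    rw [hcube _ _ h1 (by rw [← hu]; exact n1), hcube _ _ h2 (by rw [← hv]; exact n2)] at h6
    exact h6

/-- data when `3` does not divide `z` and `A = ±1 mod 9` -/
theorem caseB1_data {A x y z : ℤ} (hco : IsCoprime x y) (h3z : ¬ (3 : ℤ) ∣ z)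
    (hA : A % 9 = 1 ∨ A % 9 = 8) (hxyz : x ^ 3 + y ^ 3 = A * z ^ 3) :
    ∃ η : Eis, Prim η ∧ IsCoprime η (conj η) ∧
      w * η + w ^ 2 * conj η = -((x + y : ℤ) : Eis) ∧
      IsCoprime (x + y) η.norm ∧ (x + y) * η.norm = A * z ^ 3 := by
  -- one of `x`, `y` is divisible by `3`
  have hno3 : ¬ ((3 : ℤ) ∣ x ∧ (3 : ℤ) ∣ y) := by
    rintro ⟨h1, h2⟩
    exact Int.prime_three.not_isUnit (hco.isUnit_of_dvd' h1 h2)
  have main : ∀ x y : ℤ, IsCoprime x y → x ^ 3 + y ^ 3 = A * z ^ 3 → (3 : ℤ) ∣ y →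
      ¬ (3 : ℤ) ∣ x → ∃ η : Eis, Prim η ∧ IsCoprime η (conj η) ∧
      w * η + w ^ 2 * conj η = -((x + y : ℤ) : Eis) ∧
      IsCoprime (x + y) η.norm ∧ (x + y) * η.norm = A * z ^ 3 := by
    intro x y hco hxyz h3y h3x
    have hprim : Prim (⟨x, y⟩ : Eis) := ⟨h3y, h3x⟩
    refine ⟨⟨x, y⟩, hprim, ?_, ?_, ?_, ?_⟩
    · apply isCoprime_of_prime_dvd
      · rintro ⟨h, -⟩
        exact hprim.not_lam_dvd (by rw [h]; exact dvd_zero _)
      · intro l hl h1 h2
        have h6 := coprime_xi hco hl h1 h2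
        exact hprim.not_lam_dvd (h6.symm.dvd.trans h1)
    · ext
      · simp only [w_sq, add_re, mul_re, mul_im, sub_re, sub_im, neg_re, neg_im, one_re, one_im,
          w_re, w_im, conj_re, conj_im, intCast_re]; ring
      · simp only [w_sq, add_im, mul_re, mul_im, sub_re, sub_im, neg_re, neg_im, one_re, one_im,
          w_re, w_im, conj_re, conj_im, intCast_im]; ring
    · have hS3 : IsCoprime (x + y) 3 := by
        rw [isCoprime_comm, Int.prime_three.irreducible.coprime_iff_not_dvd]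
        omega
      have h4 : IsCoprime (x + y) (3 * (x * y)) := hS3.mul_right (coprime_sum hco)
      have hnorm : (⟨x, y⟩ : Eis).norm = (x + y) * (x + y) + -(3 * (x * y)) := by
        rw [norm_def]; ring
      rw [hnorm]
      exact (IsCoprime.mul_add_left_right h4.neg_right (x + y))
    · rw [← hxyz, norm_def]; ring
  have h9 : (x ^ 3 % 9 + y ^ 3 % 9) % 9 = (A % 9) * (z ^ 3 % 9) % 9 := by
    rw [← Int.add_emod, ← Int.mul_emod, hxyz]
  have hz := cube_mod_nine_int h3z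
  by_cases h3y : (3 : ℤ) ∣ y
  · exact main x y hco hxyz h3y (fun h => hno3 ⟨h, h3y⟩)
  · by_cases h3x : (3 : ℤ) ∣ x
    · obtain ⟨η, h1, h2, h4, h5, h6⟩ := main y x hco.symm (by rw [add_comm]; exact hxyz) h3x h3y
      exact ⟨η, h1, h2, by rw [add_comm x y]; exact h4, by rw [add_comm x y]; exact h5,
        by rw [add_comm x y]; exact h6⟩
    · exfalso
      have h1 := cube_mod_nine_int h3x
      have h2 := cube_mod_nine_int h3y
      rcases h1 with h1 | h1 <;> rcases h2 with h2 | h2 <;> rcases hz with hz | hz <;>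
        rcases hA with hA | hA <;> rw [h1, h2, hz, hA] at h9 <;> norm_num at h9

/-- data for `A = 9 B` -/
theorem caseC_data {B x y z : ℤ} (hco : IsCoprime x y) (hxyz : x ^ 3 + y ^ 3 = 9 * B * z ^ 3) :
    ∃ (S0 : ℤ) (η : Eis), ¬ lam ∣ η ∧ IsCoprime η (conj η) ∧ η.im = S0 ∧
      η - conj η = r3 * (S0 : Eis) ∧ IsCoprime (9 * S0) η.norm ∧ S0 * η.norm = B * z ^ 3 := by
  have hcoxy := coprime_sum hco
  have hST : (x + y) * (⟨x, y⟩ : Eis).norm = 9 * B * z ^ 3 := by
    rw [← hxyz, norm_def]; ring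
  have hno3 : ¬ ((3 : ℤ) ∣ x ∧ (3 : ℤ) ∣ y) := by
    rintro ⟨h1, h2⟩
    exact Int.prime_three.not_isUnit (hco.isUnit_of_dvd' h1 h2)
  have h3S : (3 : ℤ) ∣ x + y := by
    have h1 : (3 : ℤ) ∣ x ^ 3 + y ^ 3 := by
      rw [hxyz]; exact ⟨3 * B * z ^ 3, by ring⟩
    have h2 : (3 : ℤ) ∣ (x ^ 3 + y ^ 3) - (x + y) := by
      have h4 : ∀ a : ℤ, (3 : ℤ) ∣ a ^ 3 - a := by
        intro a
        have : a % 3 = 0 ∨ a % 3 = 1 ∨ a % 3 = 2 := by omega
        apply Int.dvd_of_emod_eq_zero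
        rcases this with h | h | h <;>
          simp [pow_succ, Int.sub_emod, Int.mul_emod, h]
      have := dvd_add (h4 x) (h4 y)
      have e5 : x ^ 3 - x + (y ^ 3 - y) = (x ^ 3 + y ^ 3) - (x + y) := by ring
      rwa [e5] at this
    have := dvd_sub h1 h2
    simpa using this
  have h3y : ¬ (3 : ℤ) ∣ y := by
    intro h; exact hno3 ⟨by omega, h⟩
  have h3x : ¬ (3 : ℤ) ∣ x := by
    intro h; exact hno3 ⟨h, by omega⟩
  obtain ⟨S0, hS0⟩ := h3S
  have hT : (⟨x, y⟩ : Eis).norm = 3 * (3 * S0 ^ 2 - x * y) := by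
    rw [norm_def]; simp only; linear_combination (x + y + 3 * S0) * hS0
  have h3T' : ¬ (3 : ℤ) ∣ 3 * S0 ^ 2 - x * y := by
    intro h
    have : (3 : ℤ) ∣ x * y := by
      have h4 := dvd_sub (dvd_mul_right (3 : ℤ) (S0 ^ 2)) h
      have e5 : 3 * S0 ^ 2 - (3 * S0 ^ 2 - x * y) = x * y := by ring
      rwa [e5] at h4
    rcases Int.prime_three.dvd_or_dvd this with h | h
    · exact h3x h
    · exact h3y h
  have hST' : S0 * (3 * S0 ^ 2 - x * y) = B * z ^ 3 := by
    rw [hT, hS0] at hST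
    have h9 : (9 : ℤ) ≠ 0 := by norm_num
    apply mul_left_cancel₀ h9
    linear_combination hST
  set η : Eis := ⟨-y + 2 * S0, S0⟩ with hη
  have hηlam : (⟨x, y⟩ : Eis) = lam * η := by
    ext
    · simp only [hη, mul_re, lam_re, lam_im]; linarith
    · simp only [hη, mul_im, lam_re, lam_im]; ring
  have hηnorm : η.norm = 3 * S0 ^ 2 - x * y := by
    have h4 := congrArg Eis.norm hηlam
    rw [norm_mul, norm_lam, hT] at h4
    linarith
  have hnl : ¬ lam ∣ η := by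
    rw [lam_dvd_iff_norm, hηnorm]; exact h3T'
  refine ⟨S0, η, hnl, ?_, rfl, ?_, ?_, by rw [hηnorm]; exact hST'⟩
  · apply isCoprime_of_prime_dvd
    · rintro ⟨h, -⟩
      exact hnl (by rw [h]; exact dvd_zero _)
    · intro l hl h1 h2
      have h4 : l ∣ (⟨x, y⟩ : Eis) := by rw [hηlam]; exact Dvd.dvd.mul_left h1 _
      have h5 : l ∣ conj (⟨x, y⟩ : Eis) := by
        rw [hηlam, map_mul]; exact Dvd.dvd.mul_left h2 _
      have h6 := coprime_xi hco hl h4 h5
      exact hnl (h6.symm.dvd.trans h1)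
  · rw [r3_eq, w_sq]
    ext
    · simp only [hη, mul_re, mul_im, sub_re, conj_re, sub_im, neg_re, neg_im, one_re,
        one_im, w_re, w_im, intCast_re, intCast_im]; ring
    · simp only [hη, mul_re, mul_im, sub_re, conj_im, sub_im, neg_re, neg_im, one_re,
        one_im, w_re, w_im, intCast_re, intCast_im]; ring
  · have h4 : IsCoprime S0 (x * y) := hcoxy.of_isCoprime_of_dvd_left ⟨3, by rw [hS0]; ring⟩
    have h5 : η.norm = S0 * (3 * S0) + -(x * y) := by rw [hηnorm]; ring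
    have h6 : IsCoprime S0 η.norm := by
      rw [h5]
      exact (IsCoprime.mul_add_left_right h4.neg_right (3 * S0))
    have h7 : IsCoprime (3 : ℤ) η.norm := by
      rw [Int.prime_three.irreducible.coprime_iff_not_dvd, hηnorm]
      exact h3T'
    have h9 : (9 : ℤ) = 3 * 3 := by norm_num
    rw [h9]
    exact (h7.mul_left h7).mul_left h6

end Pool.Agent.Lib_helper18
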