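import Pool.Agent.Lib_helper18.FD11

set_option linter.unusedSectionVars false

/-!
# The two descents
-/

namespace Pool.Agent.Lib_helper18

open Finset Eis Matrix

namespace FData

variable {ι : Type*} [Fintype ι] [DecidableEq ι] (D : FData ι)

/-- cube-freeness -/
theorem dvd_A_cube2 {r0 r1 e0 e1 : ℕ} (h0 : r0.Prime) (h1 : r1.Prime) (h01 : r0 ≠ r1)
    (hp0 : ∀ i, D.p i ≠ r0) (hp1 : ∀ i, D.p i ≠ r1) (he0 : e0 ≤ 2) (he1 : e1 ≤ 2) (r : ℤ)
    (hr : Prime r) : ¬ r ^ 3 ∣ (r0 : ℤ) ^ e0 * (r1 : ℤ) ^ e1 * D.P univ := by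
  have h := cube_not_dvd_prod (κ := Option (Option ι))
    (fun k => k.elim r0 (fun k => k.elim r1 D.p)) (fun k => k.elim e0 (fun k => k.elim e1 D.e))
    (fun k => by
      rcases k with _ | _ | i
      · exact h0
      · exact h1
      · exact D.hp i)
    (fun k l hkl => by
      rcases k with _ | _ | i <;> rcases l with _ | _ | j
      · rfl
      · exact absurd hkl h01
      · exact absurd hkl.symm (hp0 j)
      · exact absurd hkl.symm h01
      · rfl
      · exact absurd hkl.symm (hp1 j)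
      · exact absurd hkl (hp0 i)
      · exact absurd hkl (hp1 i)
      · have := D.inj hkl
        rw [this])
    (fun k => by
      rcases k with _ | _ | i
      · exact he0
      · exact he1
      · rcases D.he i with h | h <;> simp [h])
    univ r hr
  rw [Fintype.prod_option, Fintype.prod_option, ← mul_assoc] at h
  exact h

theorem P_ne_zero (S : Finset ι) : D.P S ≠ 0 :=
  prod_ne_zero_iff.mpr (fun j _ => pow_ne_zero _ (D.prime_int j).ne_zero)

theorem ne_of_mod {q : ℕ} (hq3 : q % 3 = 2) (i : ι) : D.p i ≠ q := fun h => by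
  have := D.h3 i
  rw [h] at this
  omega

theorem not_dvd_pow_nat {q : ℕ} (hq : q.Prime) (hqp : ∀ i, D.p i ≠ q) (i : ι) (k : ℕ) :
    ¬ (D.p i : ℤ) ∣ (q : ℤ) ^ k := by
  intro h
  have := (D.prime_int i).dvd_of_dvd_pow h
  rw [Int.natCast_dvd_natCast, Nat.prime_dvd_prime_iff_eq (D.hp i) hq] at this
  exact hqp i this

theorem sym_w_i (i : ι) : sym (D.π i) w = wt (D.p i) := by
  rw [sym_w' (D.pr i) (D.n3 i), D.hπ i]

theorem sym_w_r {r : ℕ} (hr : r.Prime) (hr3 : r % 3 = 2) : sym (r : Eis) w = -wq r := by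
  rw [sym_w' (prime_inert hr hr3) (inert_n3 hr hr3), norm_natCast, wt_sq (by omega)]

theorem sym_w_pow {l : Eis} (hl : Prime l) (h3 : ¬ l ∣ 3) (k : ℕ) :
    sym l (w ^ k) = (k : ZMod 3) * sym l w :=
  sym_pow hl h3 (not_dvd_of_isUnit hl isUnit_w) k

/-- two inert primes, `A = ±1 mod 9` -/
theorem descent_two {q g r f : ℕ} (y L : ι → ZMod 3) (hq : q.Prime) (hq3 : q % 3 = 2)
    (hg : g = 1 ∨ g = 2) (hr : r.Prime) (hr3 : r % 3 = 2) (hf : f = 1 ∨ f = 2) (hqr : q ≠ r)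
    (hy : ∀ i, sym (D.π i) (((q : ℤ) ^ g * (r : ℤ) ^ f : ℤ) : Eis) = y i)
    (hL : ∀ i, sym (D.π i) (r : Eis) = L i) (hR : (D.NN y L (wq r)).det ≠ 0)
    (hA9 : ((q : ℤ) ^ g * (r : ℤ) ^ f * D.P univ) % 9 = 1 ∨
      ((q : ℤ) ^ g * (r : ℤ) ^ f * D.P univ) % 9 = 8) (x y' z : ℤ) (hz : z ≠ 0)
    (hxyz : x ^ 3 + y' ^ 3 = ((q : ℤ) ^ g * (r : ℤ) ^ f * D.P univ) * z ^ 3) : False := by
  have hqp := D.ne_of_mod hq3
  have hrp := D.ne_of_mod hr3
  have hqi : Prime (q : ℤ) := Nat.prime_iff_prime_int.mp hq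
  have hri : Prime (r : ℤ) := Nat.prime_iff_prime_int.mp hr
  have hC0 : (q : ℤ) ^ g ≠ 0 := pow_ne_zero _ hqi.ne_zero
  have hr0 : (r : ℤ) ^ f ≠ 0 := pow_ne_zero _ hri.ne_zero
  have hf0 : f ≠ 0 := by omega
  have hg0 : g ≠ 0 := by omega
  have hCp := D.not_dvd_pow_nat hq hqp (k := g)
  set A : ℤ := (q : ℤ) ^ g * (r : ℤ) ^ f * D.P univ with hA
  have hA0 : A ≠ 0 := mul_ne_zero (mul_ne_zero hC0 hr0) (D.P_ne_zero _)
  have hqA : (q : ℤ) ∣ A := by
    rw [hA, mul_assoc]; exact Dvd.dvd.mul_right (dvd_pow_self _ hg0) _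
  -- the rational side
  have hQ0 : ∀ {u v t s : ℤ}, IsCoprime u v → IsCoprime u t → IsCoprime v t → u + v + t = 0 →
      u * v * t = A * s ^ 3 → (q : ℤ) ∣ t → ∃ a b c : ℤ, a ^ 3 + b ^ 3 = A * c ^ 3 ∧
      s.natAbs = a.natAbs * b.natAbs * c.natAbs := by
    intro u v t s huv hut hvt hsum hprod hqt
    have h1 : ¬ (q : ℤ) ∣ u * v := by
      intro h
      rcases hqi.dvd_or_dvd h with h | h
      · exact hqi.not_isUnit (hut.isUnit_of_dvd' h hqt)
      · exact hqi.not_isUnit (hvt.isUnit_of_dvd' h hqt)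
    have h2 : (q : ℤ) ^ g ∣ t := by
      apply hqi.pow_dvd_of_dvd_mul_left g h1
      rw [hprod, hA, mul_assoc, mul_assoc]; exact dvd_mul_right _ _
    refine D.qstep2 y L hr hr3 hrp hC0 hf hCp hy hL hR huv hut hvt hsum hprod h2 ?_
    intro d1 d2 d3 a b c n1 n2 hu hv ht hd
    exact row3_one hA9 huv hut hvt hsum hprod n1 n2 hu hv ht (by
      rw [hA, mul_assoc ((q : ℤ) ^ g), ← hd]; ring)
  have hQ : ∀ {u v t s : ℤ}, IsCoprime u v → IsCoprime u t → IsCoprime v t → u + v + t = 0 →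
      u * v * t = A * s ^ 3 → ∃ a b c : ℤ, a ^ 3 + b ^ 3 = A * c ^ 3 ∧
      s.natAbs = a.natAbs * b.natAbs * c.natAbs := by
    intro u v t s huv hut hvt hsum hprod
    have h1 : (q : ℤ) ∣ u * v * t := by rw [hprod]; exact Dvd.dvd.mul_right hqA _
    rcases hqi.dvd_or_dvd h1 with h2 | h2
    · rcases hqi.dvd_or_dvd h2 with h3 | h3
      · exact hQ0 hvt huv.symm hut.symm (by linarith) (by rw [← hprod]; ring) h3
      · exact hQ0 hut huv hvt.symm (by linarith) (by rw [← hprod]; ring) h3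
    · exact hQ0 huv hut hvt hsum hprod h2
  refine no_solution hA0 (D.dvd_A_cube2 hq hr hqr hqp hrp (by omega) (by omega)) ?_ z.natAbs
    x y' z rfl hz hxyz
  intro x y' z hz hco hxyz
  have hP := prime_inert hr hr3
  have hrn3 := inert_n3 hr hr3
  have hcopS : ∀ {η : Eis} {S z : ℤ}, IsCoprime η (conj η) → S * η.norm = A * z ^ 3 →
      (q : ℤ) ^ g ∣ S := by
    intro η S z hcop h
    apply hqi.pow_dvd_of_dvd_mul_right g (inert_not_dvd_norm hq hq3 hcop)
    rw [h, hA, mul_assoc, mul_assoc]; exact dvd_mul_right _ _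
  by_cases h3z : (3 : ℤ) ∣ z
  · obtain ⟨z1, S, η, hz1, hηprim, hηcop, hηim, hηdiff, hcoS, hηS⟩ := caseA_data hco h3z hxyz
    obtain ⟨-, γ, s, t, hγ, hγ3, hS, hzt⟩ := D.kstep2 y L hr hr3 hrp hC0 hf0 hCp hy hL hR
      hηprim hηcop hcoS hηS (hcopS hηcop hηS) (α := 1) (β := -1) (κ := 3 * r3) (c := 0)
      (fun i => not_dvd_of_isUnit (D.pr i) isUnit_one)
      (fun i => by
        rw [dvd_neg]; exact not_dvd_of_isUnit (D.pr i) isUnit_one)
      (fun i h => ((D.pr i).dvd_or_dvd h).elim (D.n3 i) (fun h => D.n3 i (r3_dvd (D.pr i) h)))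
      (fun i => by rw [sym_one (D.pr i) (D.n3 i), zero_mul])
      (fun i => by rw [sym_neg_one (D.pr i) (D.n3 i), zero_mul, neg_zero])
      (fun i => by
        have e : 3 * r3 = (-r3) ^ 3 := by decide
        rw [e]
        exact sym_cube (D.pr i) (D.n3 i)
          (by rw [dvd_neg]; exact fun h => D.n3 i (r3_dvd (D.pr i) h)))
      (not_dvd_of_isUnit hP isUnit_one)
      (by rw [dvd_neg]; exact not_dvd_of_isUnit hP isUnit_one)
      (by rw [sym_one hP hrn3, zero_mul, neg_zero])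
      (by rw [sym_neg_one hP hrn3, zero_mul])
      (by rw [← hηdiff]; ring)
    obtain ⟨α, δ⟩ := γ
    have hcoad : IsCoprime α δ := coprime_coords rfl hγ3 (by rw [← hγ]; exact hηcop)
    have hprod : α * δ * (α - δ) = A * s ^ 3 := by
      have h6 := congrArg Eis.im hγ
      simp only [pow_succ, pow_zero, one_mul, mul_im, mul_re] at h6
      rw [hηim] at h6
      rw [hA, ← hS]
      linarith
    have hc1 : IsCoprime α (δ - α) := by
      obtain ⟨u, v, huv⟩ := hcoad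
      exact ⟨u + v, v, by linear_combination huv⟩
    have hc2 : IsCoprime (-δ) (δ - α) := by
      obtain ⟨u, v, huv⟩ := hcoad
      exact ⟨-(u + v), -u, by linear_combination huv⟩
    obtain ⟨a, b, c, habc, hsabc⟩ := hQ hcoad.neg_right hc1 hc2 (by ring)
      (by rw [← hprod]; ring)
    obtain ⟨h1, h2⟩ := natAbs_lt_of (z := z) (s := s) (t := t) (by rw [hz1, hzt]) hsabc hz
    exact ⟨a, b, c, h1, habc, h2⟩
  · exfalso
    obtain ⟨η, hηprim, hηcop, hηrel, hcoS, hηS⟩ := caseB1_data hco h3z hA9 hxyz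
    have h3 : (3 : ZMod 3) = 0 := by decide
    obtain ⟨hc, -⟩ := D.kstep2 y L hr hr3 hrp hC0 hf0 hCp hy hL hR
      hηprim hηcop hcoS hηS (hcopS hηcop hηS) (α := w) (β := w ^ 2) (κ := -1) (c := 1)
      (fun i => not_dvd_of_isUnit (D.pr i) isUnit_w)
      (fun i => not_dvd_of_isUnit (D.pr i) (isUnit_w.pow 2))
      (fun i => by
        rw [dvd_neg]; exact not_dvd_of_isUnit (D.pr i) isUnit_one)
      (fun i => by rw [D.sym_w_i, one_mul])
      (fun i => by
        rw [sym_w_pow (D.pr i) (D.n3 i), D.sym_w_i]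
        push_cast
        linear_combination (wt (D.p i)) * h3)
      (fun i => sym_neg_one (D.pr i) (D.n3 i))
      (not_dvd_of_isUnit hP isUnit_w)
      (not_dvd_of_isUnit hP (isUnit_w.pow 2))
      (by rw [sym_w_r hr hr3, one_mul])
      (by
        rw [sym_w_pow hP hrn3, sym_w_r hr hr3]
        push_cast
        linear_combination (-(wq r)) * h3)
      (by rw [hηrel]; ring)
    exact absurd hc (by decide)

/-- `9` times one inert prime -/
theorem descent_nine {r f : ℕ} (y L : ι → ZMod 3) (hr : r.Prime) (hr3 : r % 3 = 2)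
    (hf : f = 1 ∨ f = 2)
    (hy : ∀ i, sym (D.π i) (((9 : ℤ) * (r : ℤ) ^ f : ℤ) : Eis) = y i)
    (hL : ∀ i, sym (D.π i) (r : Eis) = L i) (hR : (D.NN y L (wq r)).det ≠ 0)
    (x y' z : ℤ) (hz : z ≠ 0)
    (hxyz : x ^ 3 + y' ^ 3 = ((9 : ℤ) * (r : ℤ) ^ f * D.P univ) * z ^ 3) : False := by
  have hrp := D.ne_of_mod hr3
  have hri : Prime (r : ℤ) := Nat.prime_iff_prime_int.mp hr
  have hr0 : (r : ℤ) ^ f ≠ 0 := pow_ne_zero _ hri.ne_zero
  have hC0 : (9 : ℤ) ≠ 0 := by norm_num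
  have hf0 : f ≠ 0 := by omega
  have h3p : ∀ i, D.p i ≠ 3 := fun i h => by
    have := D.h3 i
    rw [h] at this
    omega
  have hCp : ∀ i, ¬ (D.p i : ℤ) ∣ 9 := by
    intro i h
    have h1 : (D.p i : ℤ) ∣ (3 : ℤ) ^ 2 := by norm_num; exact h
    have h2 := (D.prime_int i).dvd_of_dvd_pow h1
    have h3 : D.p i ∣ 3 := by exact_mod_cast h2
    exact h3p i ((Nat.prime_dvd_prime_iff_eq (D.hp i) Nat.prime_three).mp h3)
  have h3r : ¬ (3 : ℤ) ∣ (r : ℤ) ^ f := by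
    intro h
    have := Int.prime_three.dvd_of_dvd_pow h
    omega
  set A : ℤ := (9 : ℤ) * (r : ℤ) ^ f * D.P univ with hA
  set B : ℤ := (r : ℤ) ^ f * D.P univ with hB
  have hAB : A = 9 * B := by rw [hA, hB]; ring
  have h3B : ¬ (3 : ℤ) ∣ B := fun h =>
    (Int.prime_three.dvd_or_dvd h).elim h3r (D.three_not_dvd_P univ)
  have hA0 : A ≠ 0 := mul_ne_zero (mul_ne_zero hC0 hr0) (D.P_ne_zero _)
  have key3 : ∀ a b : ℤ, IsCoprime a b → (3 : ℤ) ∣ a → ¬ (3 : ℤ) ∣ b :=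
    fun a b hab ha hb => Int.prime_three.not_isUnit (hab.isUnit_of_dvd' ha hb)
  have hQ0 : ∀ {u v t s : ℤ}, IsCoprime u v → IsCoprime u t → IsCoprime v t → u + v + t = 0 →
      u * v * t = A * s ^ 3 → (3 : ℤ) ∣ t → ∃ a b c : ℤ, a ^ 3 + b ^ 3 = A * c ^ 3 ∧
      s.natAbs = a.natAbs * b.natAbs * c.natAbs := by
    intro u v t s huv hut hvt hsum hprod h3t
    have n1 := key3 _ _ hut.symm h3t
    have n2 := key3 _ _ hvt.symm h3t
    have h2 : (9 : ℤ) ∣ t := by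
      have h9 : (9 : ℤ) = 3 ^ 2 := by norm_num
      rw [h9]
      apply Int.prime_three.pow_dvd_of_dvd_mul_left 2
        (fun h => (Int.prime_three.dvd_or_dvd h).elim n1 n2)
      rw [hprod, hA, ← h9, mul_assoc, mul_assoc]; exact dvd_mul_right _ _
    refine D.qstep2 y L hr hr3 hrp hC0 hf hCp hy hL hR huv hut hvt hsum hprod h2 ?_
    intro d1 d2 d3 a b c m1 m2 hu hv ht hd
    have hcube : ∀ d x : ℤ, ¬ (3 : ℤ) ∣ d → ¬ (3 : ℤ) ∣ d * x ^ 3 → wq (d * x ^ 3) = wq d := by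
      intro d x hd hdx
      have hx : ¬ (3 : ℤ) ∣ x := fun h => hdx (Dvd.dvd.mul_left (Dvd.dvd.pow h (by norm_num)) _)
      have hx3 : ¬ (3 : ℤ) ∣ x ^ 3 := fun h => hx (Int.prime_three.dvd_of_dvd_pow h)
      rw [wq_mul hd hx3, wq_cube hx, add_zero]
    have h6 : wq u = wq v := wq_of_add (by omega)
    rw [hu, hv] at h6
    rwa [hcube _ _ m1 (by rw [← hu]; exact n1), hcube _ _ m2 (by rw [← hv]; exact n2)] at h6
  have hQ : ∀ {u v t s : ℤ}, IsCoprime u v → IsCoprime u t → IsCoprime v t → u + v + t = 0 →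
      u * v * t = A * s ^ 3 → ∃ a b c : ℤ, a ^ 3 + b ^ 3 = A * c ^ 3 ∧
      s.natAbs = a.natAbs * b.natAbs * c.natAbs := by
    intro u v t s huv hut hvt hsum hprod
    have h1 : (3 : ℤ) ∣ u * v * t := by
      rw [hprod, hAB]; exact ⟨3 * B * s ^ 3, by ring⟩
    rcases Int.prime_three.dvd_or_dvd h1 with h2 | h2
    · rcases Int.prime_three.dvd_or_dvd h2 with h3 | h3
      · exact hQ0 hvt huv.symm hut.symm (by linarith) (by rw [← hprod]; ring) h3
      · exact hQ0 hut huv hvt.symm (by linarith) (by rw [← hprod]; ring) h3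
    · exact hQ0 huv hut hvt hsum hprod h2
  have hcf : ∀ x : ℤ, Prime x → ¬ x ^ 3 ∣ A := by
    have h := D.dvd_A_cube2 (r0 := 3) (r1 := r) (e0 := 2) (e1 := f) Nat.prime_three hr
      (by omega) h3p hrp (by norm_num) (by omega)
    intro x hx
    have := h x hx
    have e : ((3 : ℕ) : ℤ) ^ 2 = 9 := by norm_num
    rwa [e] at this
  refine no_solution hA0 hcf ?_ z.natAbs x y' z rfl hz hxyz
  intro x y' z hz hco hxyz
  have hP := prime_inert hr hr3
  have hrn3 := inert_n3 hr hr3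
  rw [hAB] at hxyz
  obtain ⟨S0, η0, hnl, hηcop0, him0, hdiff0, hcoS0, hηS0⟩ := caseC_data hco hxyz
  obtain ⟨i, hi⟩ := exists_prim hnl
  -- `η0 = η * w ^ (2 i)`
  set η : Eis := η0 * w ^ i with hη
  have hw3 : (w ^ i) * (w ^ (2 * i)) = 1 := by
    rw [← pow_add, show i + 2 * i = 3 * i by ring, pow_mul, w_cube, one_pow]
  have hη0 : η0 = w ^ (2 * i) * η := by
    rw [hη]; linear_combination (-η0) * hw3
  have hη0c : conj η0 = w ^ i * conj η := by
    have h1 : conj η = conj η0 * w ^ (2 * i) := by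
      rw [hη, map_mul, map_pow, conj_w, ← pow_mul]
    rw [h1]; linear_combination (-(conj η0)) * hw3
  have hηnorm : η.norm = η0.norm := by rw [hη, norm_mul, norm_pow, norm_w, one_pow, mul_one]
  have hηcop : IsCoprime η (conj η) := by
    have h1 : conj η = conj η0 * w ^ (2 * i) := by
      rw [hη, map_mul, map_pow, conj_w, ← pow_mul]
    rw [h1, hη]
    have h2 : IsCoprime (η0 * w ^ i) (conj η0) :=
      (isCoprime_mul_unit_right_left (isUnit_w.pow i) _ _).mpr hηcop0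
    exact (isCoprime_mul_unit_right_right (isUnit_w.pow (2 * i)) _ _).mpr h2
  have hw27 : ∀ {l : Eis}, Prime l → ¬ l ∣ 3 → ∀ k : ℕ,
      ¬ l ∣ 3 ^ 3 * w ^ k ∧ sym l (3 ^ 3 * w ^ k) = (k : ZMod 3) * sym l w := by
    intro l hl hl3 k
    have n1 : ¬ l ∣ (3 : Eis) ^ 3 := fun h => hl3 (hl.dvd_of_dvd_pow h)
    have n2 : ¬ l ∣ w ^ k := not_dvd_of_isUnit hl (isUnit_w.pow k)
    refine ⟨fun h => (hl.dvd_or_dvd h).elim n1 n2, ?_⟩
    rw [sym_mul hl hl3 n1 n2, sym_cube hl hl3 hl3, zero_add, sym_w_pow hl hl3]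
  have h3 : (3 : ZMod 3) = 0 := by decide
  obtain ⟨hc, γ, s, t, hγ, hγ3, hS, hzt⟩ := D.kstep2 y L hr hr3 hrp hC0 hf0 hCp hy hL hR
    (η := η) (S := 9 * S0) (z := z) hi hηcop (by rw [hηnorm]; exact hcoS0)
    (by rw [hηnorm]; show 9 * S0 * η0.norm = A * z ^ 3; rw [hAB]; linear_combination 9 * hηS0)
    (dvd_mul_right _ _)
    (α := 3 ^ 3 * w ^ (2 * i)) (β := -(3 ^ 3 * w ^ i)) (κ := 3 * r3)
    (c := ((2 * i : ℕ) : ZMod 3))
    (fun j => (hw27 (D.pr j) (D.n3 j) _).1)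
    (fun j => by rw [dvd_neg]; exact (hw27 (D.pr j) (D.n3 j) _).1)
    (fun i h => ((D.pr i).dvd_or_dvd h).elim (D.n3 i) (fun h => D.n3 i (r3_dvd (D.pr i) h)))
    (fun j => by rw [(hw27 (D.pr j) (D.n3 j) _).2, D.sym_w_i])
    (fun j => by
      rw [sym_neg (D.pr j) (D.n3 j) (hw27 (D.pr j) (D.n3 j) _).1, (hw27 (D.pr j) (D.n3 j) _).2,
        D.sym_w_i]
      push_cast
      linear_combination (i * wt (D.p j)) * h3)
    (fun i => by
      have e : 3 * r3 = (-r3) ^ 3 := by decide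
      rw [e]
      exact sym_cube (D.pr i) (D.n3 i)
        (by rw [dvd_neg]; exact fun h => D.n3 i (r3_dvd (D.pr i) h)))
    (hw27 hP hrn3 _).1
    (by rw [dvd_neg]; exact (hw27 hP hrn3 _).1)
    (by rw [(hw27 hP hrn3 _).2, sym_w_r hr hr3]; ring)
    (by
      rw [sym_neg hP hrn3 (hw27 hP hrn3 _).1, (hw27 hP hrn3 _).2, sym_w_r hr hr3]
      push_cast
      linear_combination (-(i * wq r)) * h3)
    (by
      have h1 : 3 ^ 3 * w ^ (2 * i) * η + -(3 ^ 3 * w ^ i) * conj η =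
          3 ^ 3 * (η0 - conj η0) := by
        linear_combination (-(3 ^ 3 : Eis)) * hη0 + 3 ^ 3 * hη0c
      rw [h1, hdiff0]
      push_cast
      ring)
  -- now `w ^ i = 1`
  have hi3 : 3 ∣ i := by
    rw [ZMod.natCast_eq_zero_iff] at hc
    omega
  have hwi : w ^ i = 1 := by
    obtain ⟨k, hk⟩ := hi3
    rw [hk, pow_mul, w_cube, one_pow]
  have hηη : η = η0 := by rw [hη, hwi, mul_one]
  have him : η.im = S0 := by rw [hηη]; exact him0
  have h3S0 : (3 : ℤ) ∣ S0 := by rw [← him]; exact hi.1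
  have hS' : S0 = B * s ^ 3 := by
    have h9 : (9 : ℤ) ≠ 0 := by norm_num
    apply mul_left_cancel₀ h9
    rw [hS, hB]; ring
  have h3s : (3 : ℤ) ∣ s := by
    rw [hS'] at h3S0
    exact Int.prime_three.dvd_of_dvd_pow ((Int.prime_three.dvd_or_dvd h3S0).resolve_left h3B)
  obtain ⟨s', hs'⟩ := h3s
  obtain ⟨α, δ⟩ := γ
  have hcoad : IsCoprime α δ := coprime_coords rfl hγ3 (by rw [← hγ]; exact hηcop)
  have hprod : α * δ * (α - δ) = A * s' ^ 3 := by
    have h6 := congrArg Eis.im hγ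
    simp only [pow_succ, pow_zero, one_mul, mul_im, mul_re] at h6
    rw [him, hS', hs'] at h6
    rw [hAB]
    have h3' : (3 : ℤ) ≠ 0 := by norm_num
    apply mul_left_cancel₀ h3'
    linear_combination -h6
  have hc1 : IsCoprime α (δ - α) := by
    obtain ⟨u, v, huv⟩ := hcoad
    exact ⟨u + v, v, by linear_combination huv⟩
  have hc2 : IsCoprime (-δ) (δ - α) := by
    obtain ⟨u, v, huv⟩ := hcoad
    exact ⟨-(u + v), -u, by linear_combination huv⟩
  obtain ⟨a, b, c, habc, hsabc⟩ := hQ hcoad.neg_right hc1 hc2 (by ring)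
    (by rw [← hprod]; ring)
  obtain ⟨h1, h2⟩ := natAbs_lt_of (z := z) (s := s') (t := t) (by rw [hzt, hs']; ring) hsabc hz
  exact ⟨a, b, c, h1, habc, h2⟩

end FData

end Pool.Agent.Lib_helper18
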