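import Pool.Agent.Lib_helper18.FD12

set_option linter.unusedSectionVars false

/-!
# `l^e n q^g` for `n` a product of primes `1 mod 3` and `l = 2, 5 mod 9` prime
-/

namespace Pool.Agent.Lib_helper18

open Finset Eis Matrix

namespace FData

variable {ι : Type*} [Fintype ι] [DecidableEq ι] (D : FData ι)

/-- elimination of the corner of the bordered matrix -/
theorem NN_det {y L : ι → ZMod 3} {w0 : ZMod 3} (hw0 : w0 ≠ 0)
    (h : (Matrix.of (fun i j => D.R y i j - L i * w0⁻¹ * wt (D.p j))).det ≠ 0) :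
    (D.NN y L w0).det ≠ 0 := by
  intro h0
  obtain ⟨v, hv0, hv⟩ := Matrix.exists_mulVec_eq_zero_iff.mpr h0
  apply hv0
  have hn : ∑ j, wt (D.p j) * v (some j) = - (w0 * v none) := by
    have := congrFun hv none
    simp only [Matrix.mulVec, dotProduct, Pi.zero_apply] at this
    rw [Fintype.sum_option] at this
    have e : w0 * v none + ∑ j, wt (D.p j) * v (some j) = 0 := this
    linear_combination e
  have hs : ∀ i, ∑ j, D.R y i j * v (some j) = - (L i * v none) := by
    intro i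
    have := congrFun hv (some i)
    simp only [Matrix.mulVec, dotProduct, Pi.zero_apply] at this
    rw [Fintype.sum_option] at this
    have e : L i * v none + ∑ j, D.R y i j * v (some j) = 0 := this
    linear_combination e
  have h1 := mulVec_zero h (v := fun j => v (some j)) (fun i => by
    simp only [Matrix.of_apply, sub_mul, sum_sub_distrib, hs]
    have : ∑ j, L i * w0⁻¹ * wt (D.p j) * v (some j) =
        L i * w0⁻¹ * ∑ j, wt (D.p j) * v (some j) := by
      rw [mul_sum]; exact sum_congr rfl (fun j _ => by ring)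
    rw [this, hn]
    have := mul_inv_cancel₀ hw0
    linear_combination (L i * v none) * this)
  have h2 : v none = 0 := by
    have : - (w0 * v none) = 0 := by
      rw [← hn]
      exact sum_eq_zero (fun j _ => by rw [h1 j, mul_zero])
    rcases mul_eq_zero.mp (neg_eq_zero.mp this) with h | h
    · exact absurd h hw0
    · exact h
  funext a
  rcases a with _ | i
  · exact h2
  · exact h1 i

end FData

/-- main theorem for cube-free `n` -/
theorem cubefree_two (n : ℕ) (hn : n ≠ 0) (h3 : ∀ r : ℕ, r.Prime → r ∣ n → r % 3 = 1)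
    (hcf : ∀ r : ℕ, r.Prime → ¬ r ^ 3 ∣ n) {l f g : ℕ} (hl : l.Prime)
    (hl9 : l % 9 = 2 ∨ l % 9 = 5) (hf : f = 1 ∨ f = 2) (hg : g = 1 ∨ g = 2) :
    ∃ c : ℕ → ℕ, (∀ r : ℕ, r.Prime → r ∣ n → ¬ r ∣ c r) ∧ ∃ c9 : ℕ, c9 % 3 = 2 ∧
      ∀ q : ℕ, q.Prime → q ≠ l → q ≡ c9 [MOD 9] →
        (∀ r : ℕ, r.Prime → r ∣ n → q ≡ c r [MOD r]) →
        ∀ x y z : ℤ, z ≠ 0 → x ^ 3 + y ^ 3 = ((n * l ^ f * q ^ g : ℕ) : ℤ) * z ^ 3 → False := by
  classical
  set D := mkData n hn h3 hcf with hD
  have hl3 : l % 3 = 2 := by omega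
  have hlp := D.ne_of_mod hl3
  have hw0 : wq (l : ℤ) ≠ 0 := by
    unfold wq
    have h1 : (l : ℤ) % 9 = 2 ∨ (l : ℤ) % 9 = 5 := by omega
    rcases h1 with h | h <;> rw [h] <;> decide
  set L : n.primeFactors → ZMod 3 := fun i => sym (D.π i) (l : Eis) with hLdef
  set y0 : n.primeFactors → ZMod 3 := fun i => (f : ZMod 3) * L i with hy0
  set M1 : Matrix n.primeFactors n.primeFactors (ZMod 3) :=
    Matrix.of (fun i j => D.R y0 i j - L i * (wq (l : ℤ))⁻¹ * wt (D.p j)) with hM1
  obtain ⟨x, hx1, -⟩ := exists_diag M1 M1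
  have hgg : (g : ZMod 3) * (g : ZMod 3) = 1 := by rcases hg with rfl | rfl <;> decide
  have hc : ∀ i : n.primeFactors, ∃ c : ℕ, ¬ D.p i ∣ c ∧
      sym (D.π i) (c : Eis) = -((D.e i : ZMod 3) * (g : ZMod 3) * x i) := fun i =>
    have : Fact (D.p i).Prime := ⟨D.hp i⟩
    exists_sym (D.h3 i) (D.hπ i) _
  choose c hc1 hc2 using hc
  -- the class modulo 9
  have hn3 : n % 9 = 1 ∨ n % 9 = 4 ∨ n % 9 = 7 := by
    have h1 : n % 3 = 1 := by
      have h2 : ∀ m : ℕ, m ≠ 0 → (∀ r : ℕ, r.Prime → r ∣ m → r % 3 = 1) → m % 3 = 1 := by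
        intro m
        induction m using Nat.recOnMul with
        | zero => intro h; exact absurd rfl h
        | one => intro _ _; rfl
        | prime p hp => intro _ h; exact h p hp dvd_rfl
        | mul a b iha ihb =>
          intro hab h
          have ha := iha (by rintro rfl; simp at hab)
            (fun r hr hra => h r hr (Dvd.dvd.mul_right hra _))
          have hb := ihb (by rintro rfl; simp at hab)
            (fun r hr hrb => h r hr (Dvd.dvd.mul_left hrb _))
          rw [Nat.mul_mod, ha, hb]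
      exact h2 n hn h3
    omega
  obtain ⟨c9, hc93, hc9⟩ : ∃ c9 : ℕ, c9 % 3 = 2 ∧
      (((n % 9) * (l % 9) ^ f * c9 ^ g) % 9 = 1 ∨
      ((n % 9) * (l % 9) ^ f * c9 ^ g) % 9 = 8) := by
    rcases hn3 with h | h | h <;> rcases hl9 with h' | h' <;> rcases hf with rfl | rfl <;>
      rcases hg with rfl | rfl <;> rw [h, h'] <;>
      first
        | (refine ⟨2, ?_⟩; decide)
        | (refine ⟨5, ?_⟩; decide)
        | (refine ⟨8, ?_⟩; decide)
  refine ⟨fun r => if h : r ∈ n.primeFactors then c ⟨r, h⟩ else 1, ?_, c9, hc93, ?_⟩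
  · intro r hr hrn
    have h : r ∈ n.primeFactors := Nat.mem_primeFactors.mpr ⟨hr, hrn, hn⟩
    simp only [h, dif_pos]
    exact hc1 ⟨r, h⟩
  · intro q hq hql hq9 hqr X Y z hz hXY
    have hq3 : q % 3 = 2 := by
      have h1 : q ≡ c9 [MOD 3] := hq9.of_dvd (by norm_num)
      rw [Nat.ModEq] at h1
      omega
    -- the symbols of `q`
    have hs : ∀ i, sym (D.π i) (q : Eis) = -((D.e i : ZMod 3) * (g : ZMod 3) * x i) := by
      intro i
      rw [← hc2 i]
      apply sym_congr
      have h1 := hqr i.1 (Nat.prime_of_mem_primeFactors i.2) (Nat.dvd_of_mem_primeFactors i.2)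
      simp only [i.2, dif_pos] at h1
      have h2 : (D.p i : ℤ) ∣ (q : ℤ) - (c i : ℤ) := (Nat.modEq_iff_dvd.mp h1.symm)
      have h3 := (D.dvd_int i).mpr h2
      push_cast at h3
      exact h3
    have hnd : ∀ {t : ℕ}, t.Prime → t % 3 = 2 → ∀ i, ¬ D.π i ∣ (t : Eis) := by
      intro t ht ht3 i h
      have h1 := D.dvd_int i (s := (t : ℤ))
      rw [Int.cast_natCast] at h1
      rw [h1, Int.natCast_dvd_natCast, Nat.prime_dvd_prime_iff_eq (D.hp i) ht] at h
      have := D.h3 i
      rw [h] at this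
      omega
    have hqn := hnd hq hq3
    have hln := hnd hl hl3
    have hy : ∀ i, sym (D.π i) (((q : ℤ) ^ g * (l : ℤ) ^ f : ℤ) : Eis) =
        (y0 i - D.e i * x i) := by
      intro i
      push_cast
      rw [sym_mul (D.pr i) (D.n3 i) (fun h => hqn i ((D.pr i).dvd_of_dvd_pow h))
        (fun h => hln i ((D.pr i).dvd_of_dvd_pow h)),
        sym_pow (D.pr i) (D.n3 i) (hqn i), sym_pow (D.pr i) (D.n3 i) (hln i), hs i]
      simp only [hy0, hLdef]
      linear_combination (-(D.e i * x i)) * hgg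
    have hdet : (D.NN (fun i => y0 i - D.e i * x i) L (wq (l : ℤ))).det ≠ 0 := by
      apply D.NN_det hw0
      have e1 : Matrix.of (fun i j => D.R (fun i => y0 i - D.e i * x i) i j -
          L i * (wq (l : ℤ))⁻¹ * wt (D.p j)) = M1 + diagonal x := by
        ext i j
        simp only [hM1, Matrix.of_apply, Matrix.add_apply, FData.R, diagonal_apply]
        by_cases hij : j = i
        · subst hij
          simp only [if_true]
          have := D.e_sq j
          linear_combination (x j) * this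
        · have hij' : ¬ i = j := fun h => hij h.symm
          simp [hij, hij']
      rw [e1]; exact hx1
    have hA : (q : ℤ) ^ g * (l : ℤ) ^ f * D.P univ = ((n * l ^ f * q ^ g : ℕ) : ℤ) := by
      rw [hD, mkData_P]; push_cast; ring
    have hA9 : (n * l ^ f * q ^ g) % 9 = 1 ∨ (n * l ^ f * q ^ g) % 9 = 8 := by
      have h1 : (n * l ^ f * q ^ g) ≡ ((n % 9) * (l % 9) ^ f * c9 ^ g) [MOD 9] :=
        (((Nat.mod_modEq n 9).symm).mul (((Nat.mod_modEq l 9).symm).pow f)).mul (hq9.pow g)
      rw [Nat.ModEq] at h1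
      omega
    refine D.descent_two (fun i => y0 i - D.e i * x i) L hq hq3 hg hl hl3 hf hql hy
      (fun i => rfl) hdet ?_ X Y z hz (by rw [hA]; exact hXY)
    rw [hA]; omega

/-- The residue class for general `n`. -/
theorem exists_class_two (n : ℕ) (hn : n ≠ 0) (h3 : ∀ r : ℕ, r.Prime → r ∣ n → r % 3 = 1)
    {l e g : ℕ} (hl : l.Prime) (hl9 : l % 9 = 2 ∨ l % 9 = 5) (he : ¬ 3 ∣ e)
    (hg : g = 1 ∨ g = 2) :
    ∃ a : ℕ, a % 3 = 2 ∧ a.Coprime (9 * l * n) ∧ ∀ q : ℕ, q.Prime → q ≡ a [MOD 9 * l * n] →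
      ¬ ∃ X Y : ℚ, X ^ 3 + Y ^ 3 = l ^ e * n * q ^ g := by
  classical
  obtain ⟨n', m, hnm, hm, hn', hcf⟩ := exists_cubefree n hn
  have hdvd : n' ∣ n := ⟨m ^ 3, hnm⟩
  obtain ⟨f, k, hf, hef⟩ : ∃ f k : ℕ, (f = 1 ∨ f = 2) ∧ e = f + 3 * k :=
    ⟨e % 3, e / 3, by omega, by omega⟩
  obtain ⟨c, hc1, c9, hc9, H⟩ := cubefree_two n' hn' (fun r hr h => h3 r hr (h.trans hdvd)) hcf
    hl hl9 hf hg
  have hl3 : l ≠ 3 := by rintro rfl; omega
  have hln : ¬ l ∣ n := by
    intro h
    have := h3 l hl h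
    omega
  let s : ℕ → ℕ := fun r => if r = 3 then 9 else r
  let b : ℕ → ℕ := fun r => if r = 3 then c9 else if r ∣ n' then c r else 1
  have hmem : ∀ r ∈ insert 3 (insert l n.primeFactors), r.Prime := by
    intro r hr
    rcases mem_insert.mp hr with h | h
    · rw [h]; exact Nat.prime_three
    · rcases mem_insert.mp h with h | h
      · rw [h]; exact hl
      · exact Nat.prime_of_mem_primeFactors h
  have hpp : Set.Pairwise (insert 3 (insert l n.primeFactors) : Finset ℕ)
      (Function.onFun Nat.Coprime s) := by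
    intro r hr t ht hrt
    have hr' := hmem r hr
    have ht' := hmem t ht
    have h1 := (Nat.coprime_primes hr' ht').mpr hrt
    simp only [Function.onFun, s]
    split_ifs with h2 h4 h4
    · exact absurd (h2.trans h4.symm) hrt
    · rw [h2] at h1
      exact Nat.Coprime.pow_left 2 h1
    · rw [h4] at h1
      exact Nat.Coprime.pow_right 2 h1
    · exact h1
  obtain ⟨a, ha⟩ := Nat.chineseRemainderOfFinset b s (insert 3 (insert l n.primeFactors))
    (fun r hr => by
      simp only [s]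
      split_ifs
      · norm_num
      · exact (hmem r hr).ne_zero) hpp
  have h3n : ¬ 3 ∣ n := by
    intro h
    have := h3 3 Nat.prime_three h
    norm_num at this
  have ha9 : a ≡ c9 [MOD 9] := by
    have := ha 3 (mem_insert_self _ _)
    simpa [s, b] using this
  have hal : a ≡ 1 [MOD l] := by
    have := ha l (mem_insert_of_mem (mem_insert_self _ _))
    have h5 : ¬ l ∣ n' := fun h => hln (h.trans hdvd)
    simpa [s, b, hl3, h5] using this
  have har : ∀ r : ℕ, r.Prime → r ∣ n → a ≡ (if r ∣ n' then c r else 1) [MOD r] := by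
    intro r hr hrn
    have hr3 : r ≠ 3 := by rintro rfl; exact h3n hrn
    have := ha r (mem_insert_of_mem (mem_insert_of_mem (Nat.mem_primeFactors.mpr ⟨hr, hrn, hn⟩)))
    simpa [s, b, hr3] using this
  have ha3 : a % 3 = 2 := by
    have : a ≡ c9 [MOD 3] := ha9.of_dvd (by norm_num)
    rw [Nat.ModEq] at this
    omega
  refine ⟨a, ha3, ?_, ?_⟩
  · apply Nat.Coprime.mul_right
    · apply Nat.Coprime.mul_right
      · have h2 : Nat.Coprime a 3 := by
          rw [Nat.coprime_comm, Nat.Prime.coprime_iff_not_dvd Nat.prime_three]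
          omega
        exact Nat.Coprime.pow_right 2 h2
      · rw [Nat.coprime_comm, Nat.Prime.coprime_iff_not_dvd hl]
        intro h
        have h2 : 1 ≡ 0 [MOD l] := hal.symm.trans ((Nat.modEq_zero_iff_dvd).mpr h)
        rw [Nat.modEq_zero_iff_dvd] at h2
        exact hl.one_lt.ne' (Nat.dvd_one.mp h2)
    · apply Nat.coprime_of_dvd
      intro r hr hra hrn
      have h1 := har r hr hrn
      have h2 : (if r ∣ n' then c r else 1) ≡ 0 [MOD r] :=
        h1.symm.trans ((Nat.modEq_zero_iff_dvd).mpr hra)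
      rw [Nat.modEq_zero_iff_dvd] at h2
      split_ifs at h2 with h4
      · exact hc1 r hr h4 h2
      · exact hr.one_lt.ne' (Nat.dvd_one.mp h2)
  · intro q hq hqa
    have hq9 : q ≡ c9 [MOD 9] :=
      (hqa.of_dvd ((dvd_mul_right 9 l).trans (dvd_mul_right _ n))).trans ha9
    have hql : q ≠ l := by
      rintro rfl
      have h1 : q ≡ 1 [MOD q] :=
        (hqa.of_dvd ((dvd_mul_left q 9).trans (dvd_mul_right _ n))).trans hal
      have h2 : 1 ≡ 0 [MOD q] := h1.symm.trans ((Nat.modEq_zero_iff_dvd).mpr dvd_rfl)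
      rw [Nat.modEq_zero_iff_dvd] at h2
      exact hq.one_lt.ne' (Nat.dvd_one.mp h2)
    have hqr : ∀ r : ℕ, r.Prime → r ∣ n' → q ≡ c r [MOD r] := by
      intro r hr hrn
      have h1 := har r hr (hrn.trans hdvd)
      rw [if_pos hrn] at h1
      exact (hqa.of_dvd (Dvd.dvd.mul_left (hrn.trans hdvd) (9 * l))).trans h1
    rintro ⟨X, Y, hXY⟩
    have hm' : (m : ℚ) ≠ 0 := by exact_mod_cast hm
    have hl' : (l : ℚ) ≠ 0 := by exact_mod_cast hl.ne_zero
    have h1 : (X / (l ^ k * m)) ^ 3 + (Y / (l ^ k * m)) ^ 3 =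
        (((n' * l ^ f * q ^ g : ℕ) : ℤ) : ℚ) := by
      rw [div_pow, div_pow, ← add_div, hXY, hnm, hef]
      push_cast
      rw [pow_add, pow_mul']
      field_simp
    obtain ⟨x, y, z, hz, hxyz⟩ := integral_solution h1
    exact H q hq hql hq9 hqr x y z hz hxyz

end Pool.Agent.Lib_helper18
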