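import Pool.Agent.Lib_helper18.FD1

/-!
# First descent for composite `A`: the matrix
-/

set_option linter.unusedSectionVars false

namespace Pool.Agent.Lib_helper18

open Finset Eis

/-- primes `p i = 1 mod 3` with exponents `e i` and a primary prime above each of them -/
structure FData (ι : Type*) where
  p : ι → ℕ
  e : ι → ℕ
  π : ι → Eis
  hp : ∀ i, (p i).Prime
  h3 : ∀ i, p i % 3 = 1
  inj : Function.Injective p
  hπ : ∀ i, (π i).norm = p i
  hprim : ∀ i, (3 : ℤ) ∣ (π i).im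
  he : ∀ i, e i = 1 ∨ e i = 2

namespace FData

variable {ι : Type*} [Fintype ι] [DecidableEq ι] (D : FData ι)

theorem pr (i : ι) : Prime (D.π i) :=
  have : Fact (D.p i).Prime := ⟨D.hp i⟩
  prime_of_norm_eq (D.hπ i)

theorem n3 (i : ι) : ¬ D.π i ∣ 3 :=
  have : Fact (D.p i).Prime := ⟨D.hp i⟩
  not_dvd_three (D.hπ i) (D.h3 i)

theorem prim (i : ι) : Prim (D.π i) :=
  have : Fact (D.p i).Prime := ⟨D.hp i⟩
  ⟨D.hprim i, re_not_dvd (D.h3 i) (D.hπ i) (D.hprim i)⟩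

theorem he0 (i : ι) : D.e i ≠ 0 := by rcases D.he i with h | h <;> rw [h] <;> norm_num

theorem e_sq (i : ι) : (D.e i : ZMod 3) * (D.e i : ZMod 3) = 1 := by
  rcases D.he i with h | h <;> rw [h] <;> decide

theorem dvd_int (i : ι) {s : ℤ} : D.π i ∣ (s : Eis) ↔ (D.p i : ℤ) ∣ s :=
  have : Fact (D.p i).Prime := ⟨D.hp i⟩
  dvd_intCast_iff (D.hπ i)

theorem not_dvd_p {i j : ι} (h : j ≠ i) : ¬ D.π i ∣ (D.p j : Eis) := by
  have h1 := D.dvd_int i (s := D.p j)
  rw [Int.cast_natCast] at h1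
  rw [h1, Int.natCast_dvd_natCast, Nat.prime_dvd_prime_iff_eq (D.hp i) (D.hp j)]
  intro h2
  exact h (D.inj h2).symm

theorem mul_conj_eq (j : ι) : D.π j * conj (D.π j) = (D.p j : Eis) :=
  have : Fact (D.p j).Prime := ⟨D.hp j⟩
  mul_conj_p (D.hπ j)

theorem not_dvd_pi {i j : ι} (h : j ≠ i) : ¬ D.π i ∣ D.π j := fun h1 =>
  D.not_dvd_p h (by rw [← D.mul_conj_eq]; exact Dvd.dvd.mul_right h1 _)

theorem not_dvd_pi' (i j : ι) : ¬ D.π i ∣ conj (D.π j) := by
  by_cases h : j = i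
  · subst h
    have : Fact (D.p j).Prime := ⟨D.hp j⟩
    exact not_dvd_conj (D.h3 j) (D.hπ j)
  · exact fun h1 => D.not_dvd_p h (by rw [← D.mul_conj_eq]; exact Dvd.dvd.mul_left h1 _)

/-- weighted residue symbols off the diagonal -/
noncomputable def G (i j : ι) : ZMod 3 :=
  if j = i then 0 else (D.e j : ZMod 3) * sym (D.π i) (D.p j : Eis)

/-- the matrix of the first descent; `y i` is the symbol of the remaining factor of `A` -/
noncomputable def R (y : ι → ZMod 3) (i j : ι) : ZMod 3 :=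
  if j = i then -((D.e i : ZMod 3) * (y i + ∑ k, D.G i k)) else sym (D.π i) (D.p j : Eis)

/-- the vector attached to a pair of disjoint sets -/
def vec (J1 J2 : Finset ι) (j : ι) : ZMod 3 :=
  if j ∈ J1 then (D.e j : ZMod 3) else if j ∈ J2 then -(D.e j : ZMod 3) else 0

/-- sign attached to a pair of disjoint sets -/
def sg (J1 J2 : Finset ι) (j : ι) : ZMod 3 := if j ∈ J1 then 1 else if j ∈ J2 then -1 else 0

theorem row_sum (y : ι → ZMod 3) (F : ι → ι → ZMod 3) (g : ι → ι → ZMod 3)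
    (hF : ∀ i j, F i j = if j = i then -((D.e i : ZMod 3) * (y i + ∑ k, D.G i k)) else g i j)
    {J1 J2 : Finset ι} (h12 : Disjoint J1 J2) (i : ι) :
    ∑ j, F i j * D.vec J1 J2 j = -(sg J1 J2 i * (y i + ∑ k, D.G i k)) +
      (∑ j ∈ J1, if j = i then 0 else (D.e j : ZMod 3) * g i j) -
      ∑ j ∈ J2, if j = i then 0 else (D.e j : ZMod 3) * g i j := by
  have h1 : ∀ j, F i j * D.vec J1 J2 j =
      (if j = i then -(sg J1 J2 i * (y i + ∑ k, D.G i k)) else 0) +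
      (if j ∈ J1 then (if j = i then 0 else (D.e j : ZMod 3) * g i j) else 0) -
      (if j ∈ J2 then (if j = i then 0 else (D.e j : ZMod 3) * g i j) else 0) := by
    intro j
    have he := D.e_sq j
    have hd : j ∈ J1 → j ∉ J2 := fun h => Finset.disjoint_left.mp h12 h
    rw [hF, vec, sg]
    by_cases hji : j = i
    · subst hji
      by_cases hj1 : j ∈ J1
      · simp only [hj1, if_true, hd hj1, if_false]
        linear_combination (-(y j + ∑ k, D.G j k)) * he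
      · by_cases hj2 : j ∈ J2
        · simp only [hj1, hj2, if_true, if_false]
          linear_combination (y j + ∑ k, D.G j k) * he
        · simp [hj1, hj2]
    · by_cases hj1 : j ∈ J1
      · simp only [hj1, if_true, hd hj1, if_false, hji]; ring
      · by_cases hj2 : j ∈ J2
        · simp only [hj1, hj2, if_true, if_false, hji]; ring
        · simp [hj1, hj2, hji]
  rw [sum_congr rfl (fun j _ => h1 j), sum_sub_distrib, sum_add_distrib]
  simp

theorem sum_univ_split {J1 J2 J3 : Finset ι} (h12 : Disjoint J1 J2) (h13 : Disjoint J1 J3)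
    (h23 : Disjoint J2 J3) (hU : J1 ∪ J2 ∪ J3 = univ) (f : ι → ZMod 3) :
    ∑ j, f j = ∑ j ∈ J1, f j + ∑ j ∈ J2, f j + ∑ j ∈ J3, f j := by
  rw [← hU, sum_union (disjoint_union_left.mpr ⟨h13, h23⟩), sum_union h12]

/-- symbol of a product of prime powers times a further integer -/
theorem sym_intprod (i : ι) {J : Finset ι} (hi : i ∉ J) {u0 : ℤ} (hu0 : ¬ (D.p i : ℤ) ∣ u0) :
    ¬ D.π i ∣ (((∏ j ∈ J, (D.p j : ℤ) ^ D.e j) * u0 : ℤ) : Eis) ∧
    sym (D.π i) (((∏ j ∈ J, (D.p j : ℤ) ^ D.e j) * u0 : ℤ) : Eis) =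
      (∑ j ∈ J, D.G i j) + sym (D.π i) (u0 : Eis) := by
  have h0 : ∀ j ∈ J, j ≠ i := fun j hj => by rintro rfl; exact hi hj
  obtain ⟨h1, h2⟩ := sym_prod_pow (D.pr i) (D.n3 i) (fun j => (D.p j : Eis)) D.e J
    (fun j hj => D.not_dvd_p (h0 j hj))
  have h3 : ¬ D.π i ∣ (u0 : Eis) := by rwa [D.dvd_int]
  push_cast
  refine ⟨fun h => ((D.pr i).dvd_or_dvd h).elim h1 h3, ?_⟩
  rw [sym_mul (D.pr i) (D.n3 i) h1 h3, h2]
  congr 1
  apply sum_congr rfl
  intro j hj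
  rw [G, if_neg (h0 j hj)]

/-- the rational side -/
theorem qside {J1 J2 J3 : Finset ι} (h12 : Disjoint J1 J2) (h13 : Disjoint J1 J3)
    (h23 : Disjoint J2 J3) (hU : J1 ∪ J2 ∪ J3 = univ) {u0 v0 t0 : ℤ} (y β1 β2 : ι → ZMod 3)
    (hu0 : ∀ i, i ∉ J1 → ¬ (D.p i : ℤ) ∣ u0) (hv0 : ∀ i, i ∉ J2 → ¬ (D.p i : ℤ) ∣ v0)
    (ht0 : ∀ i, i ∉ J3 → ¬ (D.p i : ℤ) ∣ t0)
    (hy : ∀ i, i ∉ J3 → y i = β1 i + β2 i + sym (D.π i) (t0 : Eis))
    (h1 : ∀ i, i ∉ J1 → sym (D.π i) (u0 : Eis) = β1 i)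
    (h2 : ∀ i, i ∉ J2 → sym (D.π i) (v0 : Eis) = β2 i)
    (h : (∏ j ∈ J1, (D.p j : ℤ) ^ D.e j) * u0 + (∏ j ∈ J2, (D.p j : ℤ) ^ D.e j) * v0 +
      (∏ j ∈ J3, (D.p j : ℤ) ^ D.e j) * t0 = 0) (i : ι) :
    ∑ j, D.R y i j * D.vec J1 J2 j = β2 i - β1 i := by
  have hrow := D.row_sum y (D.R y) (fun i j => sym (D.π i) (D.p j : Eis)) (fun i j => rfl) h12 i
  have hGG : ∀ J : Finset ι, (∑ j ∈ J, if j = i then 0 else (D.e j : ZMod 3) *
      sym (D.π i) (D.p j : Eis)) = ∑ j ∈ J, D.G i j := fun J => rfl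
  rw [hGG, hGG] at hrow
  rw [hrow, sum_univ_split h12 h13 h23 hU (D.G i)]
  have hdvd : ∀ (J : Finset ι) (x0 : ℤ), i ∈ J →
      D.π i ∣ (((∏ j ∈ J, (D.p j : ℤ) ^ D.e j) * x0 : ℤ) : Eis) := by
    intro J x0 hi
    rw [D.dvd_int]
    apply Dvd.dvd.mul_right
    exact (dvd_pow_self _ (D.he0 i)).trans (dvd_prod_of_mem _ hi)
  set u : ℤ := (∏ j ∈ J1, (D.p j : ℤ) ^ D.e j) * u0 with hu
  set v : ℤ := (∏ j ∈ J2, (D.p j : ℤ) ^ D.e j) * v0 with hv
  set t : ℤ := (∏ j ∈ J3, (D.p j : ℤ) ^ D.e j) * t0 with ht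
  have hsum : (u : Eis) + (v : Eis) + (t : Eis) = 0 := by
    have := congrArg (Int.cast : ℤ → Eis) h
    push_cast at this
    exact this
  have h3 : (3 : ZMod 3) = 0 := by decide
  have hiU : i ∈ J1 ∪ J2 ∪ J3 := by rw [hU]; exact mem_univ i
  rw [mem_union, mem_union] at hiU
  rcases hiU with (hi | hi) | hi
  · -- i in J1
    have n2 : i ∉ J2 := Finset.disjoint_left.mp h12 hi
    have n3 : i ∉ J3 := Finset.disjoint_left.mp h13 hi
    obtain ⟨a1, a2⟩ := D.sym_intprod i n2 (hv0 i n2)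
    obtain ⟨b1, b2⟩ := D.sym_intprod i n3 (ht0 i n3)
    rw [← hv] at a1 a2
    rw [← ht] at b1 b2
    have c : sym (D.π i) (v : Eis) = sym (D.π i) (t : Eis) := by
      rw [← sym_neg (D.pr i) (D.n3 i) b1]
      apply sym_congr
      have : (v : Eis) - -(t : Eis) = -(u : Eis) := by linear_combination hsum
      rw [this, dvd_neg]
      exact hdvd J1 u0 hi
    rw [a2, b2, h2 i n2] at c
    rw [sg, if_pos hi, hy i n3]
    linear_combination c - (∑ j ∈ J2, D.G i j + β2 i) * h3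
  · have n1 : i ∉ J1 := Finset.disjoint_right.mp h12 hi
    have n3 : i ∉ J3 := Finset.disjoint_left.mp h23 hi
    obtain ⟨a1, a2⟩ := D.sym_intprod i n1 (hu0 i n1)
    obtain ⟨b1, b2⟩ := D.sym_intprod i n3 (ht0 i n3)
    rw [← hu] at a1 a2
    rw [← ht] at b1 b2
    have c : sym (D.π i) (u : Eis) = sym (D.π i) (t : Eis) := by
      rw [← sym_neg (D.pr i) (D.n3 i) b1]
      apply sym_congr
      have : (u : Eis) - -(t : Eis) = -(v : Eis) := by linear_combination hsum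
      rw [this, dvd_neg]
      exact hdvd J2 v0 hi
    rw [a2, b2, h1 i n1] at c
    rw [sg, if_neg n1, if_pos hi, hy i n3]
    linear_combination -c + (∑ j ∈ J1, D.G i j + β1 i) * h3
  · have n1 : i ∉ J1 := Finset.disjoint_right.mp h13 hi
    have n2 : i ∉ J2 := Finset.disjoint_right.mp h23 hi
    obtain ⟨a1, a2⟩ := D.sym_intprod i n1 (hu0 i n1)
    obtain ⟨b1, b2⟩ := D.sym_intprod i n2 (hv0 i n2)
    rw [← hu] at a1 a2
    rw [← hv] at b1 b2
    have c : sym (D.π i) (u : Eis) = sym (D.π i) (v : Eis) := by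
      rw [← sym_neg (D.pr i) (D.n3 i) b1]
      apply sym_congr
      have : (u : Eis) - -(v : Eis) = -(t : Eis) := by linear_combination hsum
      rw [this, dvd_neg]
      exact hdvd J3 t0 hi
    rw [a2, b2, h1 i n1, h2 i n2] at c
    rw [sg, if_neg n1, if_neg n2]
    linear_combination c

end FData

end Pool.Agent.Lib_helper18
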