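import Pool.Agent.Lib_helper18.FD2

set_option linter.unusedSectionVars false

/-!
# First descent for composite `A`: the side of `Z[ω]`
-/

namespace Pool.Agent.Lib_helper18

open Finset Eis

namespace FData

variable {ι : Type*} [Fintype ι] [DecidableEq ι] (D : FData ι)

/-- the transpose of `R` in terms of the primes of `Z[ω]` -/
theorem R_transpose (y : ι → ZMod 3) (i j : ι) : D.R y j i =
    if j = i then -((D.e i : ZMod 3) * (y i + ∑ k, D.G i k)) else
      sym (D.π i) (D.π j) - sym (D.π i) (conj (D.π j)) := by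
  rw [R]
  by_cases h : i = j
  · subst h; simp
  · have h' : j ≠ i := fun h2 => h h2.symm
    rw [if_neg h, if_neg h']
    have : Fact (D.p j).Prime := ⟨D.hp j⟩
    have hG := lemmaG (D.h3 j) (D.hπ j) (D.hprim j) (D.pr i) (D.n3 i) (D.not_dvd_p h')
    rw [hG]
    have hN : N (D.π i) = D.p i := by
      have := N_cast (D.π i)
      rw [D.hπ i] at this
      exact_mod_cast this
    rw [hN]

theorem sym_self_conj (i : ι) : sym (D.π i) (conj (D.π i)) = 0 := by
  have : Fact (D.p i).Prime := ⟨D.hp i⟩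
  exact sym_conj_self (D.h3 i) (D.hπ i) (D.hprim i)

/-- The equations on the side of `Z[ω]`. -/
theorem kside {J : Finset ι} {ρ : ι → Eis} (hρ : ∀ j, ρ j = D.π j ∨ ρ j = conj (D.π j))
    {η γ : Eis} (hη : η = (∏ j ∈ J, ρ j ^ D.e j) * γ ^ 3) (hcop : IsCoprime η (conj η))
    {S0 : ℤ} (hS0 : ∀ i ∈ J, ¬ (D.p i : ℤ) ∣ S0) (y θ : ι → ZMod 3)
    (hy : ∀ i ∈ J, sym (D.π i) (S0 : Eis) = y i)
    {α β κ : Eis} (hα : ∀ i, ¬ D.π i ∣ α) (hβ : ∀ i, ¬ D.π i ∣ β) (hκ : ∀ i, ¬ D.π i ∣ κ)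
    (hα' : ∀ i, sym (D.π i) α = θ i) (hβ' : ∀ i, sym (D.π i) β = -θ i)
    (hκ' : ∀ i, sym (D.π i) κ = 0)
    (hrel : α * η + β * conj η = κ * (((∏ j ∈ univ \ J, (D.p j : ℤ) ^ D.e j) * S0 : ℤ) : Eis))
    (i : ι) :
    ∑ j, D.R y j i * D.vec (J.filter (fun j => ρ j = D.π j))
      (J.filter (fun j => ρ j ≠ D.π j)) j = θ i := by
  set J1 := J.filter (fun j => ρ j = D.π j) with hJ1
  set J2 := J.filter (fun j => ρ j ≠ D.π j) with hJ2
  have h12 : Disjoint J1 J2 := disjoint_filter_filter_not _ _ _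
  have hJ : J1 ∪ J2 = J := filter_union_filter_not_eq _ _
  have h13 : Disjoint J1 (univ \ J) := by
    rw [Finset.disjoint_left]; intro k hk; simp [(mem_filter.mp hk).1]
  have h23 : Disjoint J2 (univ \ J) := by
    rw [Finset.disjoint_left]; intro k hk; simp [(mem_filter.mp hk).1]
  have hU : J1 ∪ J2 ∪ (univ \ J) = univ := by rw [hJ]; simp
  have hrow := D.row_sum y (fun i j => D.R y j i)
    (fun i j => sym (D.π i) (D.π j) - sym (D.π i) (conj (D.π j)))
    (fun i j => D.R_transpose y i j) h12 i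
  -- the symbols
  set X : ι → ZMod 3 := fun j => if j = i then 0 else (D.e j : ZMod 3) * sym (D.π i) (D.π j)
    with hX
  set X' : ι → ZMod 3 := fun j => if j = i then 0 else
    (D.e j : ZMod 3) * sym (D.π i) (conj (D.π j)) with hX'
  have hdiff : ∀ K : Finset ι, (∑ j ∈ K, if j = i then 0 else (D.e j : ZMod 3) *
      (sym (D.π i) (D.π j) - sym (D.π i) (conj (D.π j)))) = ∑ j ∈ K, X j - ∑ j ∈ K, X' j := by
    intro K
    rw [← sum_sub_distrib]
    apply sum_congr rfl
    intro j _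
    simp only [hX, hX']
    split_ifs <;> ring
  have hG : ∀ j, D.G i j = X j + X' j := by
    intro j
    simp only [G, hX, hX']
    by_cases hji : j = i
    · simp [hji]
    · simp only [hji, if_false]
      rw [← D.mul_conj_eq j, sym_mul (D.pr i) (D.n3 i) (D.not_dvd_pi hji) (D.not_dvd_pi' i j)]
      ring
  have hGs : ∀ K : Finset ι, ∑ j ∈ K, D.G i j = ∑ j ∈ K, X j + ∑ j ∈ K, X' j := by
    intro K
    rw [← sum_add_distrib]
    exact sum_congr rfl (fun j _ => hG j)
  rw [hdiff, hdiff] at hrow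
  have hGU := sum_univ_split h12 h13 h23 hU (D.G i)
  rw [hGs J1, hGs J2, hGs (univ \ J)] at hGU
  rw [hGU] at hrow
  -- factorisations
  have hηP : η = (∏ j ∈ J1, D.π j ^ D.e j) * (∏ j ∈ J2, conj (D.π j) ^ D.e j) * γ ^ 3 := by
    rw [hη, ← hJ, prod_union h12]
    congr 2
    · apply prod_congr rfl
      intro j hj
      rw [(mem_filter.mp hj).2]
    · apply prod_congr rfl
      intro j hj
      rw [(hρ j).resolve_left (mem_filter.mp hj).2]
  have hηP' : conj η = (∏ j ∈ J1, conj (D.π j) ^ D.e j) * (∏ j ∈ J2, D.π j ^ D.e j) *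
      (conj γ) ^ 3 := by
    rw [hηP]
    simp only [map_mul, map_prod, map_pow, conj_conj]
  -- general computation of the symbol of an element of this shape
  have hshape : ∀ (K1 K2 : Finset ι) (ξ g : Eis), i ∉ K1 → ¬ D.π i ∣ g →
      ξ = (∏ j ∈ K1, D.π j ^ D.e j) * (∏ j ∈ K2, conj (D.π j) ^ D.e j) * g ^ 3 →
      ¬ D.π i ∣ ξ ∧ sym (D.π i) ξ = ∑ j ∈ K1, X j + ∑ j ∈ K2, X' j := by
    intro K1 K2 ξ g hi hg hξ
    have h0 : ∀ j ∈ K1, j ≠ i := fun j hj => by rintro rfl; exact hi hj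
    obtain ⟨a1, a2⟩ := sym_prod_pow (D.pr i) (D.n3 i) D.π D.e K1
      (fun j hj => D.not_dvd_pi (h0 j hj))
    obtain ⟨b1, b2⟩ := sym_prod_pow (D.pr i) (D.n3 i) (fun j => conj (D.π j)) D.e K2
      (fun j _ => D.not_dvd_pi' i j)
    have c1 : ¬ D.π i ∣ g ^ 3 := fun h => hg ((D.pr i).dvd_of_dvd_pow h)
    have d1 : ¬ D.π i ∣ (∏ j ∈ K1, D.π j ^ D.e j) * (∏ j ∈ K2, conj (D.π j) ^ D.e j) :=
      fun h => ((D.pr i).dvd_or_dvd h).elim a1 b1
    refine ⟨by rw [hξ]; exact fun h => ((D.pr i).dvd_or_dvd h).elim d1 c1, ?_⟩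
    rw [hξ, sym_mul (D.pr i) (D.n3 i) d1 c1, sym_cube (D.pr i) (D.n3 i) hg,
      sym_mul (D.pr i) (D.n3 i) a1 b1, a2, b2, add_zero]
    congr 1
    · apply sum_congr rfl
      intro j hj
      simp only [hX, if_neg (h0 j hj)]
    · apply sum_congr rfl
      intro j _
      simp only [hX']
      by_cases hji : j = i
      · subst hji; rw [if_pos rfl, D.sym_self_conj, mul_zero]
      · rw [if_neg hji]
  have hcopp : ¬ (D.π i ∣ η ∧ D.π i ∣ conj η) := by
    rintro ⟨h1, h2⟩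
    exact (D.pr i).not_isUnit (hcop.isUnit_of_dvd' h1 h2)
  set S : Eis := (((∏ j ∈ univ \ J, (D.p j : ℤ) ^ D.e j) * S0 : ℤ) : Eis) with hS
  have h3 : (3 : ZMod 3) = 0 := by decide
  have hiU : i ∈ J1 ∪ J2 ∪ (univ \ J) := by rw [hU]; exact mem_univ i
  rw [mem_union, mem_union] at hiU
  rcases hiU with (hi | hi) | hi
  · -- `π i` divides `η`
    have n2 : i ∉ J2 := Finset.disjoint_left.mp h12 hi
    have n3 : i ∉ univ \ J := Finset.disjoint_left.mp h13 hi
    have hd : D.π i ∣ η := by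
      rw [hηP]
      apply Dvd.dvd.mul_right
      apply Dvd.dvd.mul_right
      exact (dvd_pow_self _ (D.he0 i)).trans (dvd_prod_of_mem _ hi)
    have hnd : ¬ D.π i ∣ conj η := fun h => hcopp ⟨hd, h⟩
    have hg : ¬ D.π i ∣ conj γ := by
      intro h
      apply hnd
      rw [hηP']
      exact Dvd.dvd.mul_left (Dvd.dvd.pow h (by norm_num)) _
    obtain ⟨a1, a2⟩ := hshape J2 J1 (conj η) (conj γ) n2 hg (by rw [hηP']; ring)
    have hiJ : i ∈ J := (mem_filter.mp hi).1
    obtain ⟨b1, b2⟩ := D.sym_intprod i n3 (hS0 i hiJ)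
    rw [← hS] at b1 b2
    rw [hy i hiJ, hGs] at b2
    have c : sym (D.π i) (β * conj η) = sym (D.π i) (κ * S) := by
      apply sym_congr
      have : β * conj η - κ * S = -(α * η) := by linear_combination hrel
      rw [this, dvd_neg]
      exact Dvd.dvd.mul_left hd _
    rw [sym_mul (D.pr i) (D.n3 i) (hβ i) a1, sym_mul (D.pr i) (D.n3 i) (hκ i) b1, hβ' i,
      hκ' i, a2, b2] at c
    rw [hrow, sg, if_pos hi]
    linear_combination c - (∑ j ∈ J1, X' j + ∑ j ∈ J2, X j) * h3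
  · have n1 : i ∉ J1 := Finset.disjoint_right.mp h12 hi
    have n3 : i ∉ univ \ J := Finset.disjoint_left.mp h23 hi
    have hd : D.π i ∣ conj η := by
      rw [hηP']
      apply Dvd.dvd.mul_right
      apply Dvd.dvd.mul_left
      exact (dvd_pow_self _ (D.he0 i)).trans (dvd_prod_of_mem _ hi)
    have hnd : ¬ D.π i ∣ η := fun h => hcopp ⟨h, hd⟩
    have hg : ¬ D.π i ∣ γ := by
      intro h
      apply hnd
      rw [hηP]
      exact Dvd.dvd.mul_left (Dvd.dvd.pow h (by norm_num)) _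
    obtain ⟨a1, a2⟩ := hshape J1 J2 η γ n1 hg hηP
    have hiJ : i ∈ J := (mem_filter.mp hi).1
    obtain ⟨b1, b2⟩ := D.sym_intprod i n3 (hS0 i hiJ)
    rw [← hS] at b1 b2
    rw [hy i hiJ, hGs] at b2
    have c : sym (D.π i) (α * η) = sym (D.π i) (κ * S) := by
      apply sym_congr
      have : α * η - κ * S = -(β * conj η) := by linear_combination hrel
      rw [this, dvd_neg]
      exact Dvd.dvd.mul_left hd _
    rw [sym_mul (D.pr i) (D.n3 i) (hα i) a1, sym_mul (D.pr i) (D.n3 i) (hκ i) b1, hα' i,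
      hκ' i, a2, b2] at c
    rw [hrow, sg, if_neg n1, if_pos hi]
    linear_combination -c + (∑ j ∈ J1, X j + ∑ j ∈ J2, X' j) * h3
  · have n1 : i ∉ J1 := Finset.disjoint_right.mp h13 hi
    have n2 : i ∉ J2 := Finset.disjoint_right.mp h23 hi
    have hdS : D.π i ∣ S := by
      rw [hS, D.dvd_int]
      apply Dvd.dvd.mul_right
      exact (dvd_pow_self _ (D.he0 i)).trans (dvd_prod_of_mem _ hi)
    have hdr : D.π i ∣ α * η + β * conj η := by rw [hrel]; exact Dvd.dvd.mul_left hdS _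
    have hnd : ¬ D.π i ∣ η := by
      intro h
      apply hcopp
      refine ⟨h, ?_⟩
      have h1 : D.π i ∣ β * conj η := by
        have := dvd_sub hdr (Dvd.dvd.mul_left h α)
        simpa using this
      exact ((D.pr i).dvd_or_dvd h1).resolve_left (hβ i)
    have hnd' : ¬ D.π i ∣ conj η := by
      intro h
      apply hcopp
      refine ⟨?_, h⟩
      have h1 : D.π i ∣ α * η := by
        have := dvd_sub hdr (Dvd.dvd.mul_left h β)
        simpa using this
      exact ((D.pr i).dvd_or_dvd h1).resolve_left (hα i)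
    have hg : ¬ D.π i ∣ γ := by
      intro h
      apply hnd
      rw [hηP]
      exact Dvd.dvd.mul_left (Dvd.dvd.pow h (by norm_num)) _
    have hg' : ¬ D.π i ∣ conj γ := by
      intro h
      apply hnd'
      rw [hηP']
      exact Dvd.dvd.mul_left (Dvd.dvd.pow h (by norm_num)) _
    obtain ⟨a1, a2⟩ := hshape J1 J2 η γ n1 hg hηP
    obtain ⟨b1, b2⟩ := hshape J2 J1 (conj η) (conj γ) n2 hg' (by rw [hηP']; ring)
    have hne : ¬ D.π i ∣ β * conj η := fun h => ((D.pr i).dvd_or_dvd h).elim (hβ i) b1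
    have c : sym (D.π i) (α * η) = sym (D.π i) (β * conj η) := by
      rw [← sym_neg (D.pr i) (D.n3 i) hne]
      apply sym_congr
      rw [sub_neg_eq_add]; exact hdr
    rw [sym_mul (D.pr i) (D.n3 i) (hα i) a1, sym_mul (D.pr i) (D.n3 i) (hβ i) b1, hα' i,
      hβ' i, a2, b2] at c
    rw [hrow, sg, if_neg n1, if_neg n2]
    linear_combination c - θ i * h3

end FData

end Pool.Agent.Lib_helper18
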