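import Pool.Agent.Lib_helper18.FD3

set_option linter.unusedSectionVars false

/-!
# First descent for composite `A`: preparations for the descent
-/

namespace Pool.Agent.Lib_helper18

open Finset Eis

theorem cube_not_dvd_prod {κ : Type*} [DecidableEq κ] (p e : κ → ℕ) (hp : ∀ i, (p i).Prime)
    (hinj : Function.Injective p) (he : ∀ i, e i ≤ 2) (S : Finset κ) (r : ℤ) (hr : Prime r) :
    ¬ r ^ 3 ∣ ∏ j ∈ S, (p j : ℤ) ^ e j := by
  induction S using Finset.induction_on with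
  | empty =>
    rw [prod_empty]
    intro h
    exact hr.not_isUnit (isUnit_of_dvd_one ((dvd_pow_self r (by norm_num)).trans h))
  | insert j S hj ih =>
    rw [prod_insert hj]
    intro h
    have hpj : Prime (p j : ℤ) := Nat.prime_iff_prime_int.mp (hp j)
    by_cases hrj : r ∣ (p j : ℤ)
    · have hass := hr.associated_of_dvd hpj hrj
      have h1 : ¬ r ∣ ∏ k ∈ S, (p k : ℤ) ^ e k := by
        intro h1
        rw [hr.dvd_finsetProd_iff] at h1
        obtain ⟨k, hk, h2⟩ := h1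
        have h3 := hass.symm.dvd.trans (hr.dvd_of_dvd_pow h2)
        rw [Int.natCast_dvd_natCast, Nat.prime_dvd_prime_iff_eq (hp j) (hp k)] at h3
        exact hj (by rw [hinj h3]; exact hk)
      have h2 : r ^ 3 ∣ (p j : ℤ) ^ e j := hr.pow_dvd_of_dvd_mul_right 3 h1 h
      have h3 : (p j : ℤ) ^ 3 ∣ (p j : ℤ) ^ e j := (pow_dvd_pow_of_dvd hass.symm.dvd 3).trans h2
      rw [pow_dvd_pow_iff hpj.ne_zero hpj.not_isUnit] at h3
      have := he j
      omega
    · have h1 : ¬ r ∣ (p j : ℤ) ^ e j := fun h2 => hrj (hr.dvd_of_dvd_pow h2)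
      exact ih (hr.pow_dvd_of_dvd_mul_left 3 h1 h)

theorem prime_inert {q : ℕ} (hq : q.Prime) (h : q % 3 = 2) : Prime (q : Eis) := by
  have hq0 : (q : Eis) ≠ 0 := by
    intro h
    have := congrArg Eis.re h
    simp at this
    exact hq.ne_zero this
  have hnu : ¬ IsUnit (q : Eis) := by
    rw [isUnit_iff_norm, norm_natCast]
    intro h
    have := hq.two_le
    have h2 : (2 : ℤ) ≤ q := by exact_mod_cast this
    nlinarith
  obtain ⟨l, hl, hlq⟩ := WfDvdMonoid.exists_irreducible_factor hnu hq0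
  have hlp := hl.prime
  have hlq' := hlq
  obtain ⟨m, hm⟩ := hlq
  have h1 : (q : ℤ) ^ 2 = l.norm * m.norm := by rw [← norm_mul, ← hm, norm_natCast]
  have h2 : l.norm.natAbs ∣ q ^ 2 := by
    have : l.norm ∣ (q : ℤ) ^ 2 := ⟨_, h1⟩
    have := Int.natAbs_dvd_natAbs.mpr this
    simpa [Int.natAbs_pow] using this
  have hn := norm_pos hlp.ne_zero
  have hn1 : l.norm ≠ 1 := fun h => hlp.not_isUnit (isUnit_iff_norm.mpr h)
  rw [Nat.dvd_prime_pow hq] at h2
  obtain ⟨k, hk, hk2⟩ := h2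
  have h4 := norm_emod_three l
  interval_cases k
  · simp at hk2; omega
  · rw [pow_one] at hk2; omega
  · have h5 : l.norm = (q : ℤ) ^ 2 := by
      have : (l.norm.natAbs : ℤ) = ((q ^ 2 : ℕ) : ℤ) := by exact_mod_cast hk2
      rw [Int.natCast_natAbs, abs_of_pos hn] at this
      rw [this]; push_cast; ring
    exact (associated_of_norm_sq hq hlq' h5).prime hlp

theorem inert_not_dvd_norm {q : ℕ} (hq : q.Prime) (h : q % 3 = 2) {η : Eis}
    (hcop : IsCoprime η (conj η)) : ¬ (q : ℤ) ∣ η.norm := by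
  intro h1
  have hP := prime_inert hq h
  have h2 : (q : Eis) ∣ η * conj η := by
    rw [mul_conj]
    have := intCast_dvd_intCast.mpr h1
    rwa [Int.cast_natCast] at this
  rcases hP.dvd_or_dvd h2 with h3 | h3
  · have h4 := conj_dvd h3
    rw [conj_natCast] at h4
    exact hP.not_isUnit (hcop.isUnit_of_dvd' h3 h4)
  · have h4 := conj_dvd h3
    rw [conj_natCast, conj_conj] at h4
    exact hP.not_isUnit (hcop.isUnit_of_dvd' h4 h3)

section cases

variable {A x y z : ℤ}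

theorem coprime_sum (hco : IsCoprime x y) : IsCoprime (x + y) (x * y) := by
  have hco1 : IsCoprime (x + y) x := by
    obtain ⟨u, v, huv⟩ := hco
    exact ⟨v, u - v, by linear_combination huv⟩
  have hco2 : IsCoprime (x + y) y := by
    obtain ⟨u, v, huv⟩ := hco
    exact ⟨u, v - u, by linear_combination huv⟩
  exact hco1.mul_right hco2

theorem caseA_data (hco : IsCoprime x y) (h3z : (3 : ℤ) ∣ z) (hxyz : x ^ 3 + y ^ 3 = A * z ^ 3) :
    ∃ (z1 S' : ℤ) (η : Eis), z = 3 * z1 ∧ Prim η ∧ IsCoprime η (conj η) ∧ η.im = 3 * S' ∧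
      η - conj η = 3 * r3 * (S' : Eis) ∧ IsCoprime S' η.norm ∧ S' * η.norm = A * z1 ^ 3 := by
  have hcoxy := coprime_sum hco
  have hST : (x + y) * (⟨x, y⟩ : Eis).norm = A * z ^ 3 := by
    rw [← hxyz, norm_def]; ring
  have hno3 : ¬ ((3 : ℤ) ∣ x ∧ (3 : ℤ) ∣ y) := by
    rintro ⟨h1, h2⟩
    exact Int.prime_three.not_isUnit (hco.isUnit_of_dvd' h1 h2)
  obtain ⟨z1, hz1⟩ := h3z
  have h3S : (3 : ℤ) ∣ x + y := by
    have h1 : (3 : ℤ) ∣ x ^ 3 + y ^ 3 := by
      rw [hxyz, hz1]; exact ⟨A * (9 * z1 ^ 3), by ring⟩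
    have h2 : (3 : ℤ) ∣ (x ^ 3 + y ^ 3) - (x + y) := by
      have h4 : ∀ a : ℤ, (3 : ℤ) ∣ a ^ 3 - a := by
        intro a
        have : a % 3 = 0 ∨ a % 3 = 1 ∨ a % 3 = 2 := by omega
        apply Int.dvd_of_emod_eq_zero
        rcases this with h | h | h <;>
          simp [pow_succ, Int.sub_emod, Int.mul_emod, h]
      have := dvd_add (h4 x) (h4 y)
      have e5 : x ^ 3 - x + (y ^ 3 - y) = (x ^ 3 + y ^ 3) - (x + y) := by ring
      rwa [e5] at this
    have := dvd_sub h1 h2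
    simpa using this
  have h3y : ¬ (3 : ℤ) ∣ y := by
    intro h; exact hno3 ⟨by omega, h⟩
  have h3x : ¬ (3 : ℤ) ∣ x := by
    intro h; exact hno3 ⟨h, by omega⟩
  obtain ⟨S0, hS0⟩ := h3S
  have hT : (⟨x, y⟩ : Eis).norm = 3 * (3 * S0 ^ 2 - x * y) := by
    rw [norm_def]; simp only; linear_combination (x + y + 3 * S0) * hS0
  have h3T' : ¬ (3 : ℤ) ∣ 3 * S0 ^ 2 - x * y := by
    intro h
    have : (3 : ℤ) ∣ x * y := by
      have h4 := dvd_sub (dvd_mul_right (3 : ℤ) (S0 ^ 2)) h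
      have e5 : 3 * S0 ^ 2 - (3 * S0 ^ 2 - x * y) = x * y := by ring
      rwa [e5] at h4
    rcases Int.prime_three.dvd_or_dvd this with h | h
    · exact h3x h
    · exact h3y h
  have hST' : S0 * (3 * S0 ^ 2 - x * y) = 3 * (A * z1 ^ 3) := by
    rw [hT, hS0, hz1] at hST
    have h9 : (9 : ℤ) ≠ 0 := by norm_num
    apply mul_left_cancel₀ h9
    linear_combination hST
  have h3S0 : (3 : ℤ) ∣ S0 := by
    have h4 : (3 : ℤ) ∣ S0 * (3 * S0 ^ 2 - x * y) := ⟨_, hST'⟩
    exact (Int.prime_three.dvd_or_dvd h4).resolve_right h3T'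
  obtain ⟨S', hS'⟩ := h3S0
  have hS9 : x + y = 9 * S' := by rw [hS0, hS']; ring
  set η : Eis := ⟨-y + 6 * S', 3 * S'⟩ with hη
  have hηlam : (⟨x, y⟩ : Eis) = lam * η := by
    ext
    · simp only [hη, mul_re, lam_re, lam_im]; linarith
    · simp only [hη, mul_im, lam_re, lam_im]; ring
  have hηnorm : η.norm = 3 * S0 ^ 2 - x * y := by
    have h4 := congrArg Eis.norm hηlam
    rw [norm_mul, norm_lam, hT] at h4
    linarith
  have hηS : S' * η.norm = A * z1 ^ 3 := by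
    rw [hηnorm]
    have h9 : (3 : ℤ) ≠ 0 := by norm_num
    apply mul_left_cancel₀ h9
    rw [← hST', hS']; ring
  have hηprim : Prim η := by
    refine ⟨⟨S', rfl⟩, ?_⟩
    simp only [hη]; omega
  have hηcop : IsCoprime η (conj η) := by
    apply isCoprime_of_prime_dvd
    · rintro ⟨h, -⟩
      exact hηprim.not_lam_dvd (by rw [h]; exact dvd_zero _)
    · intro l hl h1 h2
      have h4 : l ∣ (⟨x, y⟩ : Eis) := by rw [hηlam]; exact Dvd.dvd.mul_left h1 _
      have h5 : l ∣ conj (⟨x, y⟩ : Eis) := by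
        rw [hηlam, map_mul]; exact Dvd.dvd.mul_left h2 _
      have h6 := coprime_xi hco hl h4 h5
      exact hηprim.not_lam_dvd (h6.symm.dvd.trans h1)
  have hηdiff : η - conj η = 3 * r3 * (S' : Eis) := by
    rw [r3_eq, w_sq, three_eq_cast]
    ext
    · simp only [hη, mul_re, mul_im, sub_re, conj_re, sub_im, neg_re, neg_im, one_re,
        one_im, w_re, w_im, intCast_re, intCast_im]; ring
    · simp only [hη, mul_re, mul_im, sub_re, conj_im, sub_im, neg_re, neg_im, one_re,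
        one_im, w_re, w_im, intCast_re, intCast_im]; ring
  have hcoS : IsCoprime S' η.norm := by
    have h4 : IsCoprime S' (x * y) := hcoxy.of_isCoprime_of_dvd_left ⟨9, by rw [hS9]; ring⟩
    have h5 : η.norm = S' * (27 * S') + -(x * y) := by rw [hηnorm, hS']; ring
    rw [h5]
    exact (IsCoprime.mul_add_left_right h4.neg_right (27 * S'))
  exact ⟨z1, S', η, hz1, hηprim, hηcop, rfl, hηdiff, hcoS, hηS⟩

theorem cube_mod_nine_int {a : ℤ} (ha : ¬ (3 : ℤ) ∣ a) : a ^ 3 % 9 = 1 ∨ a ^ 3 % 9 = 8 := by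
  have : a % 9 = 1 ∨ a % 9 = 2 ∨ a % 9 = 4 ∨ a % 9 = 5 ∨ a % 9 = 7 ∨ a % 9 = 8 := by omega
  rcases this with h | h | h | h | h | h <;> simp [pow_succ, Int.mul_emod, h]

theorem cube_mod_nine_int' {a : ℤ} (ha : (3 : ℤ) ∣ a) : a ^ 3 % 9 = 0 := by
  obtain ⟨b, rfl⟩ := ha
  have : (3 * b) ^ 3 = 9 * (3 * b ^ 3) := by ring
  omega

theorem caseB_data (hco : IsCoprime x y) (h3z : ¬ (3 : ℤ) ∣ z) (hA3 : ¬ (3 : ℤ) ∣ A)
    (hA1 : A % 9 ≠ 1) (hA8 : A % 9 ≠ 8) (hxyz : x ^ 3 + y ^ 3 = A * z ^ 3) :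
    ∃ η : Eis, Prim η ∧ IsCoprime η (conj η) ∧ η + conj η = -((x + y : ℤ) : Eis) ∧
      IsCoprime (x + y) η.norm ∧ (x + y) * η.norm = A * z ^ 3 := by
  have hcoxy := coprime_sum hco
  have hno3 : ¬ ((3 : ℤ) ∣ x ∧ (3 : ℤ) ∣ y) := by
    rintro ⟨h1, h2⟩
    exact Int.prime_three.not_isUnit (hco.isUnit_of_dvd' h1 h2)
  have h9 : (x ^ 3 % 9 + y ^ 3 % 9) % 9 = (A % 9) * (z ^ 3 % 9) % 9 := by
    rw [← Int.add_emod, ← Int.mul_emod, hxyz]
  have hz := cube_mod_nine_int h3z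
  have hA : A % 9 = 2 ∨ A % 9 = 4 ∨ A % 9 = 5 ∨ A % 9 = 7 := by omega
  have h3x : ¬ (3 : ℤ) ∣ x := by
    intro h
    have h1 := cube_mod_nine_int' h
    have h2 := cube_mod_nine_int (a := y) (fun h' => hno3 ⟨h, h'⟩)
    rw [h1] at h9
    rcases h2 with h2 | h2 <;> rcases hz with hz | hz <;> rcases hA with hA | hA | hA | hA <;>
      rw [h2, hz, hA] at h9 <;> norm_num at h9
  have h3y : ¬ (3 : ℤ) ∣ y := by
    intro h
    have h1 := cube_mod_nine_int' h
    have h2 := cube_mod_nine_int (a := x) (fun h' => hno3 ⟨h', h⟩)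
    rw [h1] at h9
    rcases h2 with h2 | h2 <;> rcases hz with hz | hz <;> rcases hA with hA | hA | hA | hA <;>
      rw [h2, hz, hA] at h9 <;> norm_num at h9
  have h3xy : (3 : ℤ) ∣ x - y := by
    by_contra hne
    have hx' : x % 3 = 1 ∨ x % 3 = 2 := by omega
    have hy' : y % 3 = 1 ∨ y % 3 = 2 := by omega
    have h4 : (3 : ℤ) ∣ x + y := by omega
    obtain ⟨k, hk⟩ := h4
    have h5 : x ^ 3 + y ^ 3 = 9 * (k * (3 * k ^ 2 - x * y)) := by
      have : x = 3 * k - y := by linarith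
      rw [this]; ring
    have h6 : (x ^ 3 + y ^ 3) % 9 = 0 := by rw [h5]; omega
    rw [hxyz, Int.mul_emod] at h6
    rcases hz with hz | hz <;> rcases hA with hA | hA | hA | hA <;>
      rw [hz, hA] at h6 <;> norm_num at h6
  set η : Eis := ⟨-y, x - y⟩ with hη
  have hηw : η = w * (⟨x, y⟩ : Eis) := by
    ext
    · simp only [hη, mul_re, w_re, w_im]; ring
    · simp only [hη, mul_im, w_re, w_im]; ring
  have hnorm : η.norm = (x + y) * (x + y) + -(3 * (x * y)) := by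
    rw [norm_def]; simp only [hη]; ring
  have hprim : Prim η := by
    refine ⟨h3xy, ?_⟩
    simp only [hη]; omega
  refine ⟨η, hprim, ?_, ?_, ?_, ?_⟩
  · apply isCoprime_of_prime_dvd
    · rintro ⟨h, -⟩
      exact hprim.not_lam_dvd (by rw [h]; exact dvd_zero _)
    · intro l hl h1 h2
      have hlw : ¬ l ∣ w := not_dvd_of_isUnit hl isUnit_w
      have h4 : l ∣ (⟨x, y⟩ : Eis) := by
        rw [hηw] at h1
        exact (hl.dvd_or_dvd h1).resolve_left hlw
      have h5 : l ∣ conj (⟨x, y⟩ : Eis) := by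
        rw [hηw, map_mul, conj_w] at h2
        exact (hl.dvd_or_dvd h2).resolve_left (fun h => hlw (hl.dvd_of_dvd_pow h))
      have h6 := coprime_xi hco hl h4 h5
      exact hprim.not_lam_dvd (h6.symm.dvd.trans h1)
  · ext
    · simp only [hη, add_re, conj_re, neg_re, intCast_re]; ring
    · simp only [hη, add_im, conj_im, neg_im, intCast_im]; ring
  · have hS3 : IsCoprime (x + y) 3 := by
      rw [isCoprime_comm, Int.prime_three.irreducible.coprime_iff_not_dvd]
      omega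
    have h4 : IsCoprime (x + y) (3 * (x * y)) := hS3.mul_right hcoxy
    rw [hnorm]
    exact (IsCoprime.mul_add_left_right h4.neg_right (x + y))
  · rw [← hxyz, hnorm]; ring

end cases


end Pool.Agent.Lib_helper18
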