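import Pool.Agent.Lib_helper18.FD4

set_option linter.unusedSectionVars false

/-!
# First descent for `A = B * ∏ p_i ^ e_i`, `B` a power of a prime `q = 2 mod 3`
-/

namespace Pool.Agent.Lib_helper18

open Finset Eis

namespace FData

variable {ι : Type*} [Fintype ι] [DecidableEq ι] (D : FData ι)

/-- the product of the prime powers over a set of indices -/
def P (S : Finset ι) : ℤ := ∏ j ∈ S, (D.p j : ℤ) ^ D.e j

theorem dvd_P {i : ι} {S : Finset ι} (hi : i ∈ S) : (D.p i : ℤ) ∣ D.P S :=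
  (dvd_pow_self _ (D.he0 i)).trans (dvd_prod_of_mem _ hi)

theorem prime_int (i : ι) : Prime (D.p i : ℤ) := Nat.prime_iff_prime_int.mp (D.hp i)

theorem vec_eq_zero {J1 J2 : Finset ι} (h12 : Disjoint J1 J2)
    (h : ∀ j, D.vec J1 J2 j = 0) : J1 = ∅ ∧ J2 = ∅ := by
  have he : ∀ j, (D.e j : ZMod 3) ≠ 0 := by
    intro j h0
    have := D.e_sq j
    rw [h0, mul_zero] at this
    exact absurd this (by decide)
  constructor
  · rw [eq_empty_iff_forall_notMem]
    intro j hj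
    have := h j
    rw [vec, if_pos hj] at this
    exact he j this
  · rw [eq_empty_iff_forall_notMem]
    intro j hj
    have := h j
    rw [vec, if_neg (Finset.disjoint_right.mp h12 hj), if_pos hj, neg_eq_zero] at this
    exact he j this

theorem three_split {u v t s : ℤ} (huv : IsCoprime u v) (hut : IsCoprime u t)
    (hvt : IsCoprime v t) (h : u * v * t = D.P univ * s ^ 3) :
    ∃ J1 J2 J3 : Finset ι, Disjoint J1 J2 ∧ Disjoint J1 J3 ∧ Disjoint J2 J3 ∧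
      J1 ∪ J2 ∪ J3 = univ ∧ ∃ a b c : ℤ, u = D.P J1 * a ^ 3 ∧ v = D.P J2 * b ^ 3 ∧
      t = D.P J3 * c ^ 3 ∧ s = a * b * c := by
  obtain ⟨J1, -, a, b', h1, h2, h3⟩ := split_two D.p D.e D.hp D.he0 univ u (v * t) s
    (huv.mul_right hut) (by rw [← mul_assoc]; exact h)
  obtain ⟨J2, hJ2, b, c, h4, h5, h6⟩ := split_two D.p D.e D.hp D.he0 (univ \ J1) v t b' hvt h2
  refine ⟨J1, J2, (univ \ J1) \ J2, ?_, ?_, ?_, ?_, a, b, c, h1, h4, h5, ?_⟩
  · rw [Finset.disjoint_left]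
    intro i hi hi2
    have := hJ2 hi2
    simp [hi] at this
  · rw [Finset.disjoint_left]
    intro i hi hi2
    simp [hi] at hi2
  · exact disjoint_sdiff
  · ext i
    simp only [mem_union, mem_sdiff, mem_univ, true_and, iff_true]
    tauto
  · rw [h3, h6]; ring

theorem mulVec_zero {M : Matrix ι ι (ZMod 3)} (hM : M.det ≠ 0) {v : ι → ZMod 3}
    (h : ∀ i, ∑ j, M i j * v j = 0) : ∀ j, v j = 0 := by
  have h1 : M.mulVec v = 0 := by
    ext i
    simp only [Matrix.mulVec, dotProduct, Pi.zero_apply]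
    exact h i
  have := Matrix.eq_zero_of_mulVec_eq_zero hM h1
  intro j
  rw [this]; rfl

section one

variable {q f : ℕ} (y : ι → ZMod 3)

/-- the rational side, `q` dividing the third term -/
theorem qstep (hq : q.Prime) (hqp : ∀ i, D.p i ≠ q)
    (hy : ∀ i, sym (D.π i) (((q : ℤ) ^ f : ℤ) : Eis) = y i)
    (hR : (Matrix.of (D.R y)).det ≠ 0) {u v t s : ℤ} (huv : IsCoprime u v)
    (hut : IsCoprime u t) (hvt : IsCoprime v t) (hsum : u + v + t = 0)
    (hprod : u * v * t = ((q : ℤ) ^ f * D.P univ) * s ^ 3) (hqt : (q : ℤ) ∣ t) :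
    ∃ a b c : ℤ, a ^ 3 + b ^ 3 = ((q : ℤ) ^ f * D.P univ) * c ^ 3 ∧
      s.natAbs = a.natAbs * b.natAbs * c.natAbs := by
  have hqi : Prime (q : ℤ) := Nat.prime_iff_prime_int.mp hq
  have hq0 : (q : ℤ) ^ f ≠ 0 := pow_ne_zero _ hqi.ne_zero
  have h1 : ¬ (q : ℤ) ∣ u * v := by
    intro h
    rcases hqi.dvd_or_dvd h with h | h
    · exact hqi.not_isUnit (hut.isUnit_of_dvd' h hqt)
    · exact hqi.not_isUnit (hvt.isUnit_of_dvd' h hqt)
  have h2 : (q : ℤ) ^ f ∣ t := by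
    apply hqi.pow_dvd_of_dvd_mul_left f h1
    rw [hprod, mul_assoc]; exact dvd_mul_right _ _
  obtain ⟨t1, ht1⟩ := h2
  have ht1d : t1 ∣ t := ⟨(q : ℤ) ^ f, by rw [ht1]; ring⟩
  obtain ⟨J1, J2, J3, h12, h13, h23, hU, a, b, c, ha, hb, hc, hs⟩ := D.three_split huv
    (hut.of_isCoprime_of_dvd_right ht1d) (hvt.of_isCoprime_of_dvd_right ht1d) (s := s) (by
      apply mul_left_cancel₀ hq0
      rw [ht1] at hprod
      linear_combination hprod)
  have hpq : ∀ i, ¬ (D.p i : ℤ) ∣ (q : ℤ) ^ f := by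
    intro i h
    have := (D.prime_int i).dvd_of_dvd_pow h
    rw [Int.natCast_dvd_natCast, Nat.prime_dvd_prime_iff_eq (D.hp i) hq] at this
    exact hqp i this
  have hmem : ∀ i, i ∈ J1 ∨ i ∈ J2 ∨ i ∈ J3 := by
    intro i
    have : i ∈ J1 ∪ J2 ∪ J3 := by rw [hU]; exact mem_univ i
    simp only [mem_union] at this
    tauto
  have hdu : ∀ i ∈ J1, (D.p i : ℤ) ∣ u := fun i hi => by
    rw [ha]; exact Dvd.dvd.mul_right (D.dvd_P hi) _
  have hdv : ∀ i ∈ J2, (D.p i : ℤ) ∣ v := fun i hi => by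
    rw [hb]; exact Dvd.dvd.mul_right (D.dvd_P hi) _
  have hdt : ∀ i ∈ J3, (D.p i : ℤ) ∣ t := fun i hi => by
    rw [ht1, hc]; exact Dvd.dvd.mul_left (Dvd.dvd.mul_right (D.dvd_P hi) _) _
  have hna : ∀ i, i ∉ J1 → ¬ (D.p i : ℤ) ∣ a := by
    intro i hi h
    have h5 : (D.p i : ℤ) ∣ u := by rw [ha]; exact Dvd.dvd.mul_left (Dvd.dvd.pow h (by norm_num)) _
    rcases hmem i with h6 | h6 | h6
    · exact hi h6
    · exact (D.prime_int i).not_isUnit (huv.isUnit_of_dvd' h5 (hdv i h6))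
    · exact (D.prime_int i).not_isUnit (hut.isUnit_of_dvd' h5 (hdt i h6))
  have hnb : ∀ i, i ∉ J2 → ¬ (D.p i : ℤ) ∣ b := by
    intro i hi h
    have h5 : (D.p i : ℤ) ∣ v := by rw [hb]; exact Dvd.dvd.mul_left (Dvd.dvd.pow h (by norm_num)) _
    rcases hmem i with h6 | h6 | h6
    · exact (D.prime_int i).not_isUnit (huv.isUnit_of_dvd' (hdu i h6) h5)
    · exact hi h6
    · exact (D.prime_int i).not_isUnit (hvt.isUnit_of_dvd' h5 (hdt i h6))
  have hnc : ∀ i, i ∉ J3 → ¬ (D.p i : ℤ) ∣ c := by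
    intro i hi h
    have h5 : (D.p i : ℤ) ∣ t := by
      rw [ht1, hc]; exact Dvd.dvd.mul_left (Dvd.dvd.mul_left (Dvd.dvd.pow h (by norm_num)) _) _
    rcases hmem i with h6 | h6 | h6
    · exact (D.prime_int i).not_isUnit (hut.isUnit_of_dvd' (hdu i h6) h5)
    · exact (D.prime_int i).not_isUnit (hvt.isUnit_of_dvd' (hdv i h6) h5)
    · exact hi h6
  have hn3 : ∀ i (x : ℤ), ¬ (D.p i : ℤ) ∣ x → ¬ (D.p i : ℤ) ∣ x ^ 3 :=
    fun i x h h' => h ((D.prime_int i).dvd_of_dvd_pow h')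
  have hs3 : ∀ i (x : ℤ), ¬ (D.p i : ℤ) ∣ x → sym (D.π i) ((x ^ 3 : ℤ) : Eis) = 0 := by
    intro i x hx
    rw [Int.cast_pow]
    exact sym_cube (D.pr i) (D.n3 i) (by rwa [D.dvd_int])
  have hres := D.qside h12 h13 h23 hU (u0 := a ^ 3) (v0 := b ^ 3) (t0 := (q : ℤ) ^ f * c ^ 3)
    y (fun _ => 0) (fun _ => 0) (fun i hi => hn3 i a (hna i hi))
    (fun i hi => hn3 i b (hnb i hi))
    (fun i hi h => ((D.prime_int i).dvd_or_dvd h).elim (hpq i) (hn3 i c (hnc i hi)))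
    (fun i hi => by
      rw [zero_add, zero_add, Int.cast_mul, sym_mul (D.pr i) (D.n3 i)
        (by rw [D.dvd_int]; exact hpq i) (by rw [D.dvd_int]; exact hn3 i c (hnc i hi)),
        hs3 i c (hnc i hi), add_zero, hy i])
    (fun i hi => hs3 i a (hna i hi)) (fun i hi => hs3 i b (hnb i hi)) (by
      rw [ha, hb, ht1, hc] at hsum
      rw [P, P, P] at hsum
      linear_combination hsum)
  have hv0 := mulVec_zero hR (v := D.vec J1 J2) (fun i => by
    have := hres i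
    rw [sub_zero] at this
    exact this)
  obtain ⟨e1, e2⟩ := D.vec_eq_zero h12 hv0
  subst e1 e2
  have e3 : J3 = univ := by simpa using hU
  subst e3
  have e0 : D.P ∅ = 1 := by rw [P, prod_empty]
  rw [e0, one_mul] at ha hb
  refine ⟨a, b, -c, ?_, ?_⟩
  · rw [ha, hb, ht1, hc] at hsum
    linear_combination hsum
  · rw [hs, Int.natAbs_mul, Int.natAbs_mul, Int.natAbs_neg]

/-- the rational side -/
theorem qstep' (hq : q.Prime) (hqp : ∀ i, D.p i ≠ q) (hf : f ≠ 0)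
    (hy : ∀ i, sym (D.π i) (((q : ℤ) ^ f : ℤ) : Eis) = y i)
    (hR : (Matrix.of (D.R y)).det ≠ 0) {u v t s : ℤ} (huv : IsCoprime u v)
    (hut : IsCoprime u t) (hvt : IsCoprime v t) (hsum : u + v + t = 0)
    (hprod : u * v * t = ((q : ℤ) ^ f * D.P univ) * s ^ 3) :
    ∃ a b c : ℤ, a ^ 3 + b ^ 3 = ((q : ℤ) ^ f * D.P univ) * c ^ 3 ∧
      s.natAbs = a.natAbs * b.natAbs * c.natAbs := by
  have hqi : Prime (q : ℤ) := Nat.prime_iff_prime_int.mp hq
  have h1 : (q : ℤ) ∣ u * v * t := by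
    rw [hprod, mul_assoc]
    exact Dvd.dvd.mul_right (dvd_pow_self _ hf) _
  rcases hqi.dvd_or_dvd h1 with h2 | h2
  · rcases hqi.dvd_or_dvd h2 with h3 | h3
    · exact D.qstep y hq hqp hy hR hvt huv.symm hut.symm (by linarith)
        (by rw [← hprod]; ring) h3
    · exact D.qstep y hq hqp hy hR hut huv hvt.symm (by linarith)
        (by rw [← hprod]; ring) h3
  · exact D.qstep y hq hqp hy hR huv hut hvt hsum hprod h2

end one

end FData

end Pool.Agent.Lib_helper18
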