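import Pool.Agent.Lib_helper18.FD5

set_option linter.unusedSectionVars false

/-!
# The descent for `A = q^f * ∏ p_i ^ e_i`, `q = 2 mod 3`, `A ≠ ±1 mod 9`
-/

namespace Pool.Agent.Lib_helper18

open Finset Eis

theorem r3_dvd {l : Eis} (_hl : Prime l) (h : l ∣ r3) : l ∣ 3 := by
  have h1 : l ∣ r3 ^ 2 := Dvd.dvd.pow h (by norm_num)
  rw [r3_sq, dvd_neg] at h1
  exact h1

/-- the cube identity on the symmetric side -/
theorem trace_identity (α δ : ℤ) :
    ((⟨α, δ⟩ : Eis) ^ 3 + conj (⟨α, δ⟩ : Eis) ^ 3) =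
      (((2 * α - δ) * (-α - δ) * (2 * δ - α) : ℤ) : Eis) := by
  ext
  · simp only [pow_succ, pow_zero, one_mul, add_re, mul_re, mul_im, conj_re, conj_im, intCast_re]
    ring
  · simp only [pow_succ, pow_zero, one_mul, add_im, mul_re, mul_im, conj_re, conj_im, intCast_im]
    ring

theorem coprime_coords {γ : Eis} {α δ : ℤ} (hγ : γ = ⟨α, δ⟩) (hl : ¬ lam ∣ γ)
    (hcop : IsCoprime (γ ^ 3) (conj (γ ^ 3))) : IsCoprime α δ := by
  apply isCoprime_of_prime_dvd
  · rintro ⟨rfl, rfl⟩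
    exact hl (by rw [hγ, show (⟨0, 0⟩ : Eis) = 0 from rfl]; exact dvd_zero _)
  · intro q hq h6 h7
    have h8 : (q : Eis) ∣ γ := by rw [hγ]; exact intCast_dvd_iff.mpr ⟨h6, h7⟩
    have h9 : (q : Eis) ∣ γ ^ 3 := Dvd.dvd.pow h8 (by norm_num)
    have h10 : (q : Eis) ∣ conj (γ ^ 3) := by
      have := conj_dvd h9
      rwa [conj_intCast] at this
    have h11 := hcop.isUnit_of_dvd' h9 h10
    rw [isUnit_iff_norm, norm_intCast] at h11
    apply hq.not_isUnit
    rw [Int.isUnit_iff]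
    exact sq_eq_one_iff_of_side h11

namespace FData

variable {ι : Type*} [Fintype ι] [DecidableEq ι] (D : FData ι)

section one

variable {q f : ℕ} (y : ι → ZMod 3)

/-- the side of `Z[ω]`: the class is trivial -/
theorem kstep (hq : q.Prime) (hq3 : q % 3 = 2) (hqp : ∀ i, D.p i ≠ q)
    (hy : ∀ i, sym (D.π i) (((q : ℤ) ^ f : ℤ) : Eis) = y i)
    (hR : (Matrix.of (D.R y)).det ≠ 0) {η : Eis} {S z : ℤ} (hηprim : Prim η)
    (hηcop : IsCoprime η (conj η)) (hcoS : IsCoprime S η.norm)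
    (hηS : S * η.norm = ((q : ℤ) ^ f * D.P univ) * z ^ 3) {β κ : Eis}
    (hβ : ∀ i, ¬ D.π i ∣ β) (hκ : ∀ i, ¬ D.π i ∣ κ)
    (hβ' : ∀ i, sym (D.π i) β = 0) (hκ' : ∀ i, sym (D.π i) κ = 0)
    (hrel : η + β * conj η = κ * (S : Eis)) :
    ∃ (γ : Eis) (s t : ℤ), η = γ ^ 3 ∧ ¬ lam ∣ γ ∧ S = ((q : ℤ) ^ f * D.P univ) * s ^ 3 ∧
      z = t * s := by
  have hqi : Prime (q : ℤ) := Nat.prime_iff_prime_int.mp hq
  have hq0 : (q : ℤ) ^ f ≠ 0 := pow_ne_zero _ hqi.ne_zero
  have hqη := inert_not_dvd_norm hq hq3 hηcop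
  have h2 : (q : ℤ) ^ f ∣ S := by
    apply hqi.pow_dvd_of_dvd_mul_right f hqη
    rw [hηS, mul_assoc]; exact dvd_mul_right _ _
  obtain ⟨S1, hS1⟩ := h2
  have hS1d : S1 ∣ S := ⟨(q : ℤ) ^ f, by rw [hS1]; ring⟩
  obtain ⟨J, -, t, s, ht, hs, hz⟩ := split_two D.p D.e D.hp D.he0 univ η.norm S1 z
    (hcoS.of_isCoprime_of_dvd_left hS1d).symm (by
      apply mul_left_cancel₀ hq0
      rw [hS1] at hηS
      rw [P] at hηS
      linear_combination hηS)
  obtain ⟨ρ, γ, hρ, hγ, hγ3⟩ := split_eis D.p D.e D.π D.hp D.hπ D.prim D.he0 J η t hηprim hηcop ht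
  have hpq : ∀ i, ¬ (D.p i : ℤ) ∣ (q : ℤ) ^ f := by
    intro i h
    have := (D.prime_int i).dvd_of_dvd_pow h
    rw [Int.natCast_dvd_natCast, Nat.prime_dvd_prime_iff_eq (D.hp i) hq] at this
    exact hqp i this
  have hns : ∀ i ∈ J, ¬ (D.p i : ℤ) ∣ s := by
    intro i hi h
    have h5 : (D.p i : ℤ) ∣ S := by
      rw [hS1, hs]; exact Dvd.dvd.mul_left (Dvd.dvd.mul_left (Dvd.dvd.pow h (by norm_num)) _) _
    have h6 : (D.p i : ℤ) ∣ η.norm := by
      rw [ht]; exact Dvd.dvd.mul_right (D.dvd_P hi) _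
    exact (D.prime_int i).not_isUnit (hcoS.isUnit_of_dvd' h5 h6)
  have hn3 : ∀ i (x : ℤ), ¬ (D.p i : ℤ) ∣ x → ¬ (D.p i : ℤ) ∣ x ^ 3 :=
    fun i x h h' => h ((D.prime_int i).dvd_of_dvd_pow h')
  have hres := D.kside (J := J) hρ hγ hηcop (S0 := (q : ℤ) ^ f * s ^ 3)
    (fun i hi h => ((D.prime_int i).dvd_or_dvd h).elim (hpq i) (hn3 i s (hns i hi)))
    y (fun _ => 0) (fun i hi => by
      rw [Int.cast_mul, sym_mul (D.pr i) (D.n3 i)
        (by rw [D.dvd_int]; exact hpq i) (by rw [D.dvd_int]; exact hn3 i s (hns i hi)),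
        Int.cast_pow s, sym_cube (D.pr i) (D.n3 i) (by rw [D.dvd_int]; exact hns i hi),
        add_zero, hy i])
    (α := 1) (β := β) (κ := κ) (fun i => not_dvd_of_isUnit (D.pr i) isUnit_one) hβ hκ
    (fun i => sym_one (D.pr i) (D.n3 i)) (fun i => by rw [hβ' i, neg_zero]) hκ' (by
      rw [one_mul, hrel, hS1, hs]
      congr 2; ring)
  have hT : (Matrix.of (D.R y)).transpose.det ≠ 0 := by rwa [Matrix.det_transpose]
  have hv0 := mulVec_zero hT (v := D.vec _ _) (fun i => hres i)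
  obtain ⟨e1, e2⟩ := D.vec_eq_zero (disjoint_filter_filter_not _ _ _) hv0
  have e3 : J = ∅ := by
    rw [← filter_union_filter_not_eq (fun j => ρ j = D.π j) J, e1, e2]; rfl
  subst e3
  rw [prod_empty, one_mul] at hγ
  refine ⟨γ, s, t, hγ, hγ3, ?_, hz⟩
  rw [hS1, hs, sdiff_empty, P]; ring

theorem dvd_A_cube (hq : q.Prime) (hqp : ∀ i, D.p i ≠ q) (hf : f ≤ 2) (r : ℤ) (hr : Prime r) :
    ¬ r ^ 3 ∣ (q : ℤ) ^ f * D.P univ := by
  have h := cube_not_dvd_prod (κ := Option ι) (fun k => k.elim q D.p) (fun k => k.elim f D.e)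
    (fun k => by cases k with
      | none => exact hq
      | some i => exact D.hp i)
    (fun k l hkl => by
      cases k with
      | none =>
        cases l with
        | none => rfl
        | some j => exact absurd hkl.symm (hqp j)
      | some i =>
        cases l with
        | none => exact absurd hkl (hqp i)
        | some j => exact congrArg some (D.inj hkl))
    (fun k => by cases k with
      | none => exact hf
      | some i => rcases D.he i with h | h <;> simp [h])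
    univ r hr
  rw [Fintype.prod_option] at h
  exact h

theorem descent_one (hq : q.Prime) (hq3 : q % 3 = 2) (hf : f = 1 ∨ f = 2)
    (hy : ∀ i, sym (D.π i) (((q : ℤ) ^ f : ℤ) : Eis) = y i)
    (hR : (Matrix.of (D.R y)).det ≠ 0)
    (hA1 : ((q : ℤ) ^ f * D.P univ) % 9 ≠ 1) (hA8 : ((q : ℤ) ^ f * D.P univ) % 9 ≠ 8)
    (hA2 : ((q : ℤ) ^ f * D.P univ) ≠ 2) :
    ∀ (n : ℕ) (x y z : ℤ), z.natAbs = n → z ≠ 0 →
      x ^ 3 + y ^ 3 = ((q : ℤ) ^ f * D.P univ) * z ^ 3 → False := by
  have hqp : ∀ i, D.p i ≠ q := fun i h => by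
    have := D.h3 i
    rw [h] at this
    omega
  have hf0 : f ≠ 0 := by omega
  have hqi : Prime (q : ℤ) := Nat.prime_iff_prime_int.mp hq
  have hcf := D.dvd_A_cube (f := f) hq hqp (by omega)
  have hq' := fun {u v t s : ℤ} => D.qstep' y hq hqp hf0 hy hR (u := u) (v := v) (t := t) (s := s)
  have hk' := fun {η : Eis} {S z : ℤ} => D.kstep y hq hq3 hqp hy hR (η := η) (S := S) (z := z)
  set A : ℤ := (q : ℤ) ^ f * D.P univ with hA
  have hA0 : A ≠ 0 := by
    apply mul_ne_zero (pow_ne_zero _ hqi.ne_zero)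
    exact prod_ne_zero_iff.mpr (fun j _ => pow_ne_zero _ (D.prime_int j).ne_zero)
  have hA3 : ¬ (3 : ℤ) ∣ A := by
    intro h
    rcases Int.prime_three.dvd_or_dvd h with h | h
    · have h1 := Int.prime_three.dvd_of_dvd_pow h
      omega
    · rw [P, Int.prime_three.dvd_finsetProd_iff] at h
      obtain ⟨j, -, h⟩ := h
      have h1 := Int.prime_three.dvd_of_dvd_pow h
      have := D.h3 j
      omega
  intro n
  induction n using Nat.strong_induction_on with
  | _ n ih =>
  intro x y z hzn hz0 hxyz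
  by_cases hco : IsCoprime x y
  swap
  · -- common factor
    have hx0y0 : ¬ (x = 0 ∧ y = 0) := by
      rintro ⟨rfl, rfl⟩
      have : A * z ^ 3 = 0 := by rw [← hxyz]; ring
      rcases mul_eq_zero.mp this with h | h
      · exact hA0 h
      · exact hz0 (pow_eq_zero_iff (by norm_num) |>.mp h)
    have : ∃ r : ℤ, Prime r ∧ r ∣ x ∧ r ∣ y := by
      by_contra hcon
      push Not at hcon
      exact hco (isCoprime_of_prime_dvd hx0y0 (fun q hq hqx => hcon q hq hqx))
    obtain ⟨r, hr, ⟨x', hx'⟩, ⟨y', hy'⟩⟩ := this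
    have hr3 : r ^ 3 ∣ A * z ^ 3 := ⟨x' ^ 3 + y' ^ 3, by rw [← hxyz, hx', hy']; ring⟩
    have hrz : r ∣ z := by
      by_contra hrz
      exact hcf r hr (hr.pow_dvd_of_dvd_mul_right 3 (fun h => hrz (hr.dvd_of_dvd_pow h)) hr3)
    obtain ⟨z', hz'⟩ := hrz
    have hz'0 : z' ≠ 0 := by rintro rfl; simp at hz'; exact hz0 hz'
    have hlt : z'.natAbs < n := by
      rw [← hzn, hz', Int.natAbs_mul]
      have h1 : 1 < r.natAbs := by
        have := hr.not_isUnit
        rw [Int.isUnit_iff_natAbs_eq] at this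
        have h2 : r.natAbs ≠ 0 := Int.natAbs_ne_zero.mpr hr.ne_zero
        omega
      have h2 : 0 < z'.natAbs := Int.natAbs_pos.mpr hz'0
      nlinarith
    refine ih _ hlt x' y' z' rfl hz'0 ?_
    have hr30 : r ^ 3 ≠ 0 := pow_ne_zero _ hr.ne_zero
    apply mul_left_cancel₀ hr30
    rw [hx', hy', hz'] at hxyz
    linear_combination hxyz
  · by_cases h3z : (3 : ℤ) ∣ z
    · -- Case A
      obtain ⟨z1, S, η, hz1, hηprim, hηcop, hηim, hηdiff, hcoS, hηS⟩ := caseA_data hco h3z hxyz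
      obtain ⟨γ, s, t, hγ, hγ3, hS, hzt⟩ := hk' hηprim hηcop hcoS hηS (β := -1) (κ := 3 * r3)
        (fun i => by
          rw [dvd_neg]; exact not_dvd_of_isUnit (D.pr i) isUnit_one)
        (fun i h => ((D.pr i).dvd_or_dvd h).elim (D.n3 i) (fun h => D.n3 i (r3_dvd (D.pr i) h)))
        (fun i => sym_neg_one (D.pr i) (D.n3 i))
        (fun i => by
          have e : 3 * r3 = (-r3) ^ 3 := by decide
          rw [e]
          exact sym_cube (D.pr i) (D.n3 i)
            (by rw [dvd_neg]; exact fun h => D.n3 i (r3_dvd (D.pr i) h)))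
        (by rw [← hηdiff]; ring)
      have hz10 : z1 ≠ 0 := by rintro rfl; simp at hz1; exact hz0 hz1
      have hs0 : s ≠ 0 := by rintro rfl; simp at hzt; exact hz10 hzt
      obtain ⟨α, δ⟩ := γ
      have hcoad : IsCoprime α δ := coprime_coords rfl hγ3 (by rw [← hγ]; exact hηcop)
      have hprod : α * δ * (α - δ) = A * s ^ 3 := by
        have h6 := congrArg Eis.im hγ
        simp only [pow_succ, pow_zero, one_mul, mul_im, mul_re] at h6
        rw [hηim] at h6
        rw [← hS]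
        linarith
      have hc1 : IsCoprime α (δ - α) := by
        obtain ⟨u, v, huv⟩ := hcoad
        exact ⟨u + v, v, by linear_combination huv⟩
      have hc2 : IsCoprime (-δ) (δ - α) := by
        obtain ⟨u, v, huv⟩ := hcoad
        exact ⟨-(u + v), -u, by linear_combination huv⟩
      obtain ⟨a, b, c, habc, hsabc⟩ := hq' hcoad.neg_right hc1 hc2 (by ring)
        (by rw [← hprod]; ring)
      have hc0 : c ≠ 0 := by
        rintro rfl
        simp at hsabc
        exact hs0 hsabc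
      have ha0 : a ≠ 0 := by rintro rfl; simp at hsabc; exact hs0 hsabc
      have hb0 : b ≠ 0 := by rintro rfl; simp at hsabc; exact hs0 hsabc
      have ht0 : t ≠ 0 := by rintro rfl; simp at hzt; exact hz10 hzt
      refine ih c.natAbs ?_ a b c rfl hc0 habc
      have h1 : z.natAbs = 3 * (t.natAbs * s.natAbs) := by
        rw [hz1, Int.natAbs_mul, hzt, Int.natAbs_mul]; rfl
      have ha1 : 1 ≤ a.natAbs := Int.natAbs_pos.mpr ha0
      have hb1 : 1 ≤ b.natAbs := Int.natAbs_pos.mpr hb0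
      have hc1 : 1 ≤ c.natAbs := Int.natAbs_pos.mpr hc0
      have ht1 : 1 ≤ t.natAbs := Int.natAbs_pos.mpr ht0
      have h2 : c.natAbs ≤ s.natAbs := by
        rw [hsabc]
        calc c.natAbs = 1 * 1 * c.natAbs := by ring
          _ ≤ a.natAbs * b.natAbs * c.natAbs := by gcongr
      have h3 : s.natAbs ≤ t.natAbs * s.natAbs := by
        calc s.natAbs = 1 * s.natAbs := by ring
          _ ≤ t.natAbs * s.natAbs := by gcongr
      omega
    · -- Case B
      obtain ⟨η, hηprim, hηcop, hηsum, hcoS, hηS⟩ := caseB_data hco h3z hA3 hA1 hA8 hxyz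
      obtain ⟨γ, s, t, hγ, hγ3, hS, hzt⟩ := hk' hηprim hηcop hcoS hηS (β := 1) (κ := -1)
        (fun i => not_dvd_of_isUnit (D.pr i) isUnit_one)
        (fun i => by
          rw [dvd_neg]; exact not_dvd_of_isUnit (D.pr i) isUnit_one)
        (fun i => sym_one (D.pr i) (D.n3 i))
        (fun i => sym_neg_one (D.pr i) (D.n3 i))
        (by rw [one_mul, hηsum]; ring)
      have hs0 : s ≠ 0 := by rintro rfl; simp at hzt; exact hz0 hzt
      have ht0 : t ≠ 0 := by rintro rfl; simp at hzt; exact hz0 hzt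
      obtain ⟨α, δ⟩ := γ
      have hcoad : IsCoprime α δ := coprime_coords rfl hγ3 (by rw [← hγ]; exact hηcop)
      have hl : ¬ (3 : ℤ) ∣ α + δ := by rw [lam_dvd_iff] at hγ3; exact hγ3
      have hprod : (2 * α - δ) * (-α - δ) * (2 * δ - α) = A * (-s) ^ 3 := by
        have h6 := trace_identity α δ
        rw [← map_pow, ← hγ, hηsum, hS] at h6
        have h7 := congrArg Eis.re h6
        simp only [neg_re, intCast_re] at h7
        rw [← h7]; ring
      have h3n : ∀ n : ℤ, ¬ (3 : ℤ) ∣ n → IsCoprime n 3 := by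
        intro n hn
        rw [isCoprime_comm, Int.prime_three.irreducible.coprime_iff_not_dvd]
        exact hn
      have key : ∀ u v : ℤ, (∃ a b c d : ℤ, a * u + b * v = 3 * α ∧ c * u + d * v = 3 * δ) →
          ¬ (3 : ℤ) ∣ u → IsCoprime u v := by
        rintro u v ⟨a, b, c, d, h1, h2⟩ hu
        obtain ⟨m, n, hmn⟩ := hcoad
        have h4 : IsCoprime u (3 : ℤ) := h3n u hu
        have h5 : ∃ g h : ℤ, g * u + h * v = 3 :=
          ⟨m * a + n * c, m * b + n * d, by linear_combination m * h1 + n * h2 + 3 * hmn⟩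
        obtain ⟨g, h, hgh⟩ := h5
        obtain ⟨k, l, hkl⟩ := h4
        exact ⟨k + l * g, l * h, by linear_combination hkl + l * hgh⟩
      have c1 : IsCoprime (2 * α - δ) (-α - δ) :=
        key _ _ ⟨1, -1, -1, -2, by ring, by ring⟩ (by omega)
      have c2 : IsCoprime (2 * α - δ) (2 * δ - α) :=
        key _ _ ⟨2, 1, 1, 2, by ring, by ring⟩ (by omega)
      have c3 : IsCoprime (-α - δ) (2 * δ - α) :=
        key _ _ ⟨-2, -1, -1, 1, by ring, by ring⟩ (by omega)
      obtain ⟨a, b, c, habc, hsabc⟩ := hq' c1 c2 c3 (by ring) hprod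
      rw [Int.natAbs_neg] at hsabc
      have hc0 : c ≠ 0 := by
        rintro rfl
        simp at hsabc
        exact hs0 hsabc
      have ha0 : a ≠ 0 := by rintro rfl; simp at hsabc; exact hs0 hsabc
      have hb0 : b ≠ 0 := by rintro rfl; simp at hsabc; exact hs0 hsabc
      refine ih c.natAbs ?_ a b c rfl hc0 habc
      have h1 : z.natAbs = t.natAbs * s.natAbs := by rw [hzt, Int.natAbs_mul]
      have ha1 : 1 ≤ a.natAbs := Int.natAbs_pos.mpr ha0
      have hb1 : 1 ≤ b.natAbs := Int.natAbs_pos.mpr hb0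
      have hc1 : 1 ≤ c.natAbs := Int.natAbs_pos.mpr hc0
      have ht1 : 1 ≤ t.natAbs := Int.natAbs_pos.mpr ht0
      have h3 : s.natAbs ≤ t.natAbs * s.natAbs := by
        calc s.natAbs = 1 * s.natAbs := by ring
          _ ≤ t.natAbs * s.natAbs := by gcongr
      by_contra hcon
      have h4 : s.natAbs ≤ c.natAbs := by omega
      -- then |a| = |b| = 1
      have h5 : a.natAbs * b.natAbs = 1 := by
        rw [hsabc] at h4
        by_contra hne
        have h6 : 2 ≤ a.natAbs * b.natAbs := by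
          have : 1 ≤ a.natAbs * b.natAbs := Nat.mul_pos ha1 hb1
          omega
        nlinarith
      have ha2 : a.natAbs = 1 := Nat.eq_one_of_mul_eq_one_right h5
      have hb2 : b.natAbs = 1 := Nat.eq_one_of_mul_eq_one_left h5
      have hcase : A * c ^ 3 = 2 ∨ A * c ^ 3 = -2 := by
        have hAc : A * c ^ 3 ≠ 0 := mul_ne_zero hA0 (pow_ne_zero _ hc0)
        rcases Int.natAbs_eq a with h | h <;> rcases Int.natAbs_eq b with h' | h' <;>
          rw [ha2] at h <;> rw [hb2] at h' <;> rw [h, h'] at habc <;> norm_num at habc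
        · left; exact habc.symm
        · exact absurd habc (by tauto)
        · exact absurd habc (by tauto)
        · right; exact habc.symm
      have hApos : 0 < A := by
        rw [hA]
        apply mul_pos (pow_pos (by exact_mod_cast hq.pos) _)
        exact prod_pos (fun j _ => pow_pos (by exact_mod_cast (D.hp j).pos) _)
      have hAd : A ∣ 2 := by
        rcases hcase with h | h
        · exact ⟨_, h.symm⟩
        · exact ⟨-c ^ 3, by linarith⟩
      have hA2' := Int.le_of_dvd (by norm_num) hAd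
      have : A = 1 := by omega
      rw [this] at hA1
      exact hA1 (by norm_num)

end one

end FData

end Pool.Agent.Lib_helper18
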