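import Pool.Agent.Lib_helper18.FD6

set_option linter.unusedSectionVars false

/-!
# Existence statements: choice of the diagonal, splitting primes, prescribed symbols
-/

namespace Pool.Agent.Lib_helper18

open Finset Eis Matrix

/-- choosing the diagonal -/
theorem exists_diag_fin : ∀ (n : ℕ) (M1 M2 : Matrix (Fin n) (Fin n) (ZMod 3)),
    ∃ x : Fin n → ZMod 3, (M1 + diagonal x).det ≠ 0 ∧ (M2 - diagonal x).det ≠ 0 := by
  intro n
  induction n with
  | zero =>
    intro M1 M2
    exact ⟨0, by rw [det_isEmpty]; decide, by rw [det_isEmpty]; decide⟩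
  | succ n ih =>
    intro M1 M2
    obtain ⟨x', h1, h2⟩ := ih (M1.submatrix Fin.succ Fin.succ) (M2.submatrix Fin.succ Fin.succ)
    -- det is affine in the first diagonal entry
    have key : ∀ (M : Matrix (Fin (n + 1)) (Fin (n + 1)) (ZMod 3)) (x : Fin n → ZMod 3) (a : ZMod 3),
        (M + diagonal (Fin.cons a x)).det =
          (M + diagonal (Fin.cons 0 x)).det + a * (M.submatrix Fin.succ Fin.succ + diagonal x).det := by
      intro M x a
      have hu : M + diagonal (Fin.cons a x : Fin (n + 1) → ZMod 3) =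
          updateRow (M + diagonal (Fin.cons 0 x : Fin (n + 1) → ZMod 3)) 0
            ((M + diagonal (Fin.cons 0 x : Fin (n + 1) → ZMod 3)) 0 + a • Pi.single 0 1) := by
        ext i j
        refine Fin.cases ?_ (fun i => ?_) i
        · refine Fin.cases ?_ (fun j => ?_) j
          · simp
          · simp [Matrix.diagonal_apply_ne _ (Fin.succ_ne_zero j).symm]
        · rw [updateRow_ne (Fin.succ_ne_zero i)]
          refine Fin.cases ?_ (fun j => ?_) j
          · simp
          · by_cases hij : i = j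
            · subst hij; simp
            · have : i.succ ≠ j.succ := fun h => hij (Fin.succ_injective _ h)
              simp [Matrix.diagonal_apply_ne _ this]
      rw [hu, det_updateRow_add, updateRow_eq_self, det_updateRow_smul]
      congr 1
      congr 1
      rw [det_succ_row_zero, Finset.sum_eq_single 0]
      · simp only [Fin.val_zero, pow_zero, one_mul, updateRow_self, Pi.single_eq_same]
        congr 1
        ext i j
        simp only [submatrix_apply, Matrix.add_apply, Fin.succAbove_zero]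
        rw [updateRow_ne (Fin.succ_ne_zero i)]
        by_cases hij : i = j
        · subst hij; simp
        · have : i.succ ≠ j.succ := fun h => hij (Fin.succ_injective _ h)
          simp [Matrix.diagonal_apply_ne _ this, Matrix.diagonal_apply_ne _ hij]
      · intro j _ hj
        simp [Pi.single_eq_of_ne hj]
      · intro h; exact absurd (Finset.mem_univ _) h
    have hneg : ∀ (M : Matrix (Fin (n + 1)) (Fin (n + 1)) (ZMod 3)) (x : Fin n → ZMod 3) (a : ZMod 3),
        M - diagonal (Fin.cons a x : Fin (n + 1) → ZMod 3) =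
          M + diagonal (Fin.cons (-a) (-x) : Fin (n + 1) → ZMod 3) := by
      intro M x a
      rw [sub_eq_add_neg, diagonal_neg]
      congr 2
      ext i
      refine Fin.cases ?_ (fun i => ?_) i <;> simp
    have hx' : M2.submatrix Fin.succ Fin.succ + diagonal (-x') =
        M2.submatrix Fin.succ Fin.succ - diagonal x' := by
      rw [sub_eq_add_neg, diagonal_neg]; rfl
    have hex : ∀ c1 d1 c2 d2 : ZMod 3, d1 ≠ 0 → d2 ≠ 0 →
        ∃ a : ZMod 3, c1 + a * d1 ≠ 0 ∧ c2 + -a * d2 ≠ 0 := by decide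
    obtain ⟨a, ha1, ha2⟩ := hex (M1 + diagonal (Fin.cons 0 x' : Fin (n + 1) → ZMod 3)).det
      (M1.submatrix Fin.succ Fin.succ + diagonal x').det
      (M2 + diagonal (Fin.cons 0 (-x') : Fin (n + 1) → ZMod 3)).det
      (M2.submatrix Fin.succ Fin.succ + diagonal (-x')).det h1 (by rw [hx']; exact h2)
    refine ⟨Fin.cons a x', by rw [key]; exact ha1, by rw [hneg, key]; exact ha2⟩

theorem exists_diag {ι : Type*} [Fintype ι] [DecidableEq ι] (M1 M2 : Matrix ι ι (ZMod 3)) :
    ∃ x : ι → ZMod 3, (M1 + diagonal x).det ≠ 0 ∧ (M2 - diagonal x).det ≠ 0 := by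
  let e := Fintype.equivFin ι
  obtain ⟨x, h1, h2⟩ := exists_diag_fin (Fintype.card ι) (M1.submatrix e.symm e.symm)
    (M2.submatrix e.symm e.symm)
  have hd : diagonal x = (diagonal (x ∘ e)).submatrix e.symm e.symm := by
    ext i j
    simp only [submatrix_apply, diagonal_apply, Function.comp_apply, Equiv.apply_symm_apply,
      EmbeddingLike.apply_eq_iff_eq]
  refine ⟨x ∘ e, ?_, ?_⟩
  · rw [hd] at h1
    rw [← det_submatrix_equiv_self e.symm]
    exact h1
  · rw [hd] at h2
    rw [← det_submatrix_equiv_self e.symm]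
    exact h2

/-- every prime `p = 1 mod 3` is the norm of an element `a + 3 b ω` -/
theorem exists_pi {p : ℕ} (hp : p.Prime) (h3 : p % 3 = 1) :
    ∃ π : Eis, π.norm = p ∧ (3 : ℤ) ∣ π.im := by
  have : Fact p.Prime := ⟨hp⟩
  -- a primitive cube root of unity modulo p
  obtain ⟨t, ht⟩ : ∃ t : ZMod p, t ^ 2 + t + 1 = 0 := by
    obtain ⟨g, hg⟩ := IsCyclic.exists_generator (α := (ZMod p)ˣ)
    have hord : orderOf g = p - 1 := by
      rw [orderOf_eq_card_of_forall_mem_zpowers hg, Nat.card_eq_fintype_card,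
        ZMod.card_units_eq_totient, Nat.totient_prime hp]
    have hp2 := hp.two_le
    obtain ⟨k, hk⟩ : ∃ k, p - 1 = 3 * k := ⟨(p - 1) / 3, by omega⟩
    have hk0 : 0 < k := by omega
    refine ⟨((g ^ k : (ZMod p)ˣ) : ZMod p), ?_⟩
    have h1 : (g ^ k) ^ 3 = 1 := by
      rw [← pow_mul, mul_comm, ← hk, ← hord]; exact pow_orderOf_eq_one g
    have h2 : g ^ k ≠ 1 := by
      intro h
      have := orderOf_dvd_of_pow_eq_one h
      rw [hord, hk] at this
      have := Nat.le_of_dvd hk0 this
      omega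
    have h3' : (((g ^ k : (ZMod p)ˣ) : ZMod p)) ^ 3 = 1 := by
      have := congrArg Units.val h1
      simpa using this
    have h4 : (((g ^ k : (ZMod p)ˣ) : ZMod p)) - 1 ≠ 0 := by
      rw [sub_ne_zero]
      intro h
      exact h2 (Units.ext (by simpa using h))
    apply mul_left_cancel₀ h4
    linear_combination h3'
  obtain ⟨a, ha⟩ := ZMod.intCast_surjective t
  have hpa : (p : ℤ) ∣ a ^ 2 + a + 1 := by
    rw [← ZMod.intCast_zmod_eq_zero_iff_dvd]
    push_cast
    rw [ha]; exact ht
  have hq0 : (p : Eis) ≠ 0 := by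
    intro h
    have := congrArg Eis.re h
    simp at this
    exact hp.ne_zero this
  have hnu : ¬ IsUnit (p : Eis) := by
    rw [isUnit_iff_norm, norm_natCast]
    intro h
    have := hp.two_le
    have h2 : (2 : ℤ) ≤ p := by exact_mod_cast this
    nlinarith
  have hnp : ¬ Prime (p : Eis) := by
    intro hP
    have h1 : (p : Eis) ∣ (⟨a, -1⟩ : Eis) * conj ⟨a, -1⟩ := by
      rw [mul_conj]
      have := intCast_dvd_intCast.mpr hpa
      rw [Int.cast_natCast] at this
      have e : (⟨a, -1⟩ : Eis).norm = a ^ 2 + a + 1 := by rw [norm_def]; simp only; ring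
      rw [e]; exact this
    have h2 : ¬ (p : Eis) ∣ (⟨a, -1⟩ : Eis) := by
      rw [natCast_dvd_iff]
      rintro ⟨-, h⟩
      simp only [dvd_neg] at h
      have := Int.le_of_dvd one_pos h
      have := hp.two_le
      omega
    rcases hP.dvd_or_dvd h1 with h | h
    · exact h2 h
    · have := conj_dvd h
      rw [conj_natCast, conj_conj] at this
      exact h2 this
  obtain ⟨l, hl, hlq⟩ := WfDvdMonoid.exists_irreducible_factor hnu hq0
  have hlp := hl.prime
  have hlq' := hlq
  obtain ⟨m, hm⟩ := hlq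
  have h1 : (p : ℤ) ^ 2 = l.norm * m.norm := by rw [← norm_mul, ← hm, norm_natCast]
  have h2 : l.norm.natAbs ∣ p ^ 2 := by
    have : l.norm ∣ (p : ℤ) ^ 2 := ⟨_, h1⟩
    have := Int.natAbs_dvd_natAbs.mpr this
    simpa [Int.natAbs_pow] using this
  have hn := norm_pos hlp.ne_zero
  have hn1 : l.norm ≠ 1 := fun h => hlp.not_isUnit (isUnit_iff_norm.mpr h)
  rw [Nat.dvd_prime_pow hp] at h2
  obtain ⟨k, hk, hk2⟩ := h2
  interval_cases k
  · simp at hk2; omega
  · have hln : l.norm = p := by rw [pow_one] at hk2; omega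
    have hl3 : ¬ l ∣ 3 := not_dvd_three hln h3
    obtain ⟨i, hi⟩ := exists_prim (not_lam_dvd_of_prime hlp hl3)
    refine ⟨l * w ^ i, ?_, hi.1⟩
    rw [norm_mul, norm_pow, norm_w, one_pow, mul_one, hln]
  · exfalso
    have h5 : l.norm = (p : ℤ) ^ 2 := by
      have : (l.norm.natAbs : ℤ) = ((p ^ 2 : ℕ) : ℤ) := by exact_mod_cast hk2
      rw [Int.natCast_natAbs, abs_of_pos hn] at this
      rw [this]; push_cast; ring
    exact hnp ((associated_of_norm_sq hp hlq' h5).prime hlp)

/-- prescribed cubic residue symbol -/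
theorem exists_sym {p : ℕ} [hp : Fact p.Prime] {π : Eis} (h3 : p % 3 = 1) (hπ : π.norm = p)
    (x : ZMod 3) : ∃ c : ℕ, ¬ p ∣ c ∧ sym π (c : Eis) = x := by
  have hπpr := prime_of_norm_eq hπ
  have hπ3 := not_dvd_three hπ h3
  obtain ⟨φ, hφ⟩ := exists_hom hπ
  obtain ⟨χ, hχ1, hχ2, ⟨g, hg0, hg⟩⟩ := exists_cubic_char h3 φ
  have hNpi : N π = p := by
    have := N_cast π
    rw [hπ] at this
    exact_mod_cast this
  have hg' : ¬ π ∣ ((g.val : ℕ) : Eis) := by
    rw [← hφ, map_natCast, ZMod.natCast_val, ZMod.cast_id', id]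
    exact hg0
  have h1 : sym π ((g.val : ℕ) : Eis) = 1 := by
    have h1 := hχ1 _ hg0
    have h2 := map_pow_eq hπpr hπ3 hg' φ ((hφ π).mpr dvd_rfl)
    rw [map_natCast, hNpi, ZMod.natCast_val, ZMod.cast_id', id] at h2
    rw [h2, hg, ← map_pow, ← sub_eq_zero, ← map_sub, hφ] at h1
    have h5 : π ∣ w ^ 1 - w ^ (sym π ((g.val : ℕ) : Eis)).val := by rw [pow_one]; exact h1
    have h4 := w_pow_sub_dvd hπ3 h5
    rw [ZMod.natCast_val, ZMod.cast_id', id] at h4
    rw [← h4]; rfl
  refine ⟨g.val ^ x.val, ?_, ?_⟩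
  · intro h
    have h4 := hp.out.dvd_of_dvd_pow h
    rw [← ZMod.natCast_eq_zero_iff, ZMod.natCast_val, ZMod.cast_id', id] at h4
    exact hg0 h4
  · rw [Nat.cast_pow, sym_pow hπpr hπ3 hg', h1, mul_one, ZMod.natCast_val, ZMod.cast_id', id]

/-- splitting off the largest cube -/
theorem exists_cubefree (n : ℕ) (hn : n ≠ 0) :
    ∃ n' m : ℕ, n = n' * m ^ 3 ∧ m ≠ 0 ∧ n' ≠ 0 ∧ ∀ r : ℕ, r.Prime → ¬ r ^ 3 ∣ n' := by
  induction n using Nat.strong_induction_on with
  | _ n ih =>
  by_cases h : ∃ r : ℕ, r.Prime ∧ r ^ 3 ∣ n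
  · obtain ⟨r, hr, k, hk⟩ := h
    have hr0 := hr.two_le
    have hk0 : k ≠ 0 := by rintro rfl; simp at hk; exact hn hk
    have hlt : k < n := by
      rw [hk]
      have h1 : 2 ^ 3 ≤ r ^ 3 := Nat.pow_le_pow_left hr0 3
      have h2 : 0 < k := Nat.pos_of_ne_zero hk0
      nlinarith
    obtain ⟨n', m, h1, h2, h3, h4⟩ := ih k hlt hk0
    exact ⟨n', r * m, by rw [hk, h1]; ring, mul_ne_zero hr.ne_zero h2, h3, h4⟩
  · push Not at h
    exact ⟨n, 1, by ring, one_ne_zero, hn, h⟩

end Pool.Agent.Lib_helper18
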