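import Pool.Agent.Lib_helper18.FD7
import Pool.Agent.Lib_helper18.Main

set_option linter.unusedSectionVars false

/-!
# `n q` and `n q^2` for `n` a product of primes `1 mod 3`
-/

namespace Pool.Agent.Lib_helper18

open Finset Eis Matrix

/-- the data attached to a cube-free number all of whose prime factors are `1 mod 3` -/
noncomputable def mkData (n : ℕ) (hn : n ≠ 0) (h3 : ∀ r : ℕ, r.Prime → r ∣ n → r % 3 = 1)
    (hcf : ∀ r : ℕ, r.Prime → ¬ r ^ 3 ∣ n) : FData n.primeFactors where
  p := fun i => (i : ℕ)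
  e := fun i => n.factorization i
  π := fun i => (exists_pi (Nat.prime_of_mem_primeFactors i.2)
    (h3 i (Nat.prime_of_mem_primeFactors i.2) (Nat.dvd_of_mem_primeFactors i.2))).choose
  hp := fun i => Nat.prime_of_mem_primeFactors i.2
  h3 := fun i => h3 i (Nat.prime_of_mem_primeFactors i.2) (Nat.dvd_of_mem_primeFactors i.2)
  inj := Subtype.val_injective
  hπ := fun i => (exists_pi (Nat.prime_of_mem_primeFactors i.2)
    (h3 i (Nat.prime_of_mem_primeFactors i.2)
      (Nat.dvd_of_mem_primeFactors i.2))).choose_spec.1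
  hprim := fun i => (exists_pi (Nat.prime_of_mem_primeFactors i.2)
    (h3 i (Nat.prime_of_mem_primeFactors i.2)
      (Nat.dvd_of_mem_primeFactors i.2))).choose_spec.2
  he := fun i => by
    have hp := Nat.prime_of_mem_primeFactors i.2
    have h1 : 1 ≤ n.factorization i :=
      (hp.dvd_iff_one_le_factorization hn).mp (Nat.dvd_of_mem_primeFactors i.2)
    have h2 : ¬ 3 ≤ n.factorization i := fun h =>
      hcf i hp ((hp.pow_dvd_iff_le_factorization hn).mpr h)
    omega

theorem mkData_P (n : ℕ) (hn : n ≠ 0) (h3 : ∀ r : ℕ, r.Prime → r ∣ n → r % 3 = 1)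
    (hcf : ∀ r : ℕ, r.Prime → ¬ r ^ 3 ∣ n) : (mkData n hn h3 hcf).P univ = n := by
  have h1 : ∏ i : n.primeFactors, (i : ℕ) ^ n.factorization i = n := by
    have := Nat.prod_factorization_pow_eq_self hn
    rw [Finsupp.prod, Nat.support_factorization] at this
    rw [← prod_coe_sort] at this
    exact this
  have h2 : (mkData n hn h3 hcf).P univ = ((∏ i : n.primeFactors, (i : ℕ) ^ n.factorization i : ℕ) : ℤ) := by
    push_cast
    rfl
  rw [h2, h1]

/-- main theorem for cube-free `n` -/
theorem cubefree_case (n : ℕ) (hn : n ≠ 0) (h3 : ∀ r : ℕ, r.Prime → r ∣ n → r % 3 = 1)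
    (hcf : ∀ r : ℕ, r.Prime → ¬ r ^ 3 ∣ n) :
    ∃ c : ℕ → ℕ, (∀ r : ℕ, r.Prime → r ∣ n → ¬ r ∣ c r) ∧ ∃ c9 : ℕ, c9 % 3 = 2 ∧
      ∀ q : ℕ, q.Prime → 2 < q → q ≡ c9 [MOD 9] →
        (∀ r : ℕ, r.Prime → r ∣ n → q ≡ c r [MOD r]) → ∀ f : ℕ, f = 1 ∨ f = 2 →
        ∀ x y z : ℤ, z ≠ 0 → x ^ 3 + y ^ 3 = ((n * q ^ f : ℕ) : ℤ) * z ^ 3 → False := by
  classical
  set D := mkData n hn h3 hcf with hD
  obtain ⟨x, hx1, hx2⟩ := exists_diag (Matrix.of (D.R 0)) (Matrix.of (D.R 0))
  have hc : ∀ i : n.primeFactors, ∃ c : ℕ, ¬ D.p i ∣ c ∧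
      sym (D.π i) (c : Eis) = -((D.e i : ZMod 3) * x i) := fun i =>
    have : Fact (D.p i).Prime := ⟨D.hp i⟩
    exists_sym (D.h3 i) (D.hπ i) _
  choose c hc1 hc2 using hc
  refine ⟨fun r => if h : r ∈ n.primeFactors then c ⟨r, h⟩ else 1, ?_,
    if n % 9 = 1 then 2 else 8, ?_, ?_⟩
  · intro r hr hrn
    have h : r ∈ n.primeFactors := Nat.mem_primeFactors.mpr ⟨hr, hrn, hn⟩
    simp only [h, dif_pos]
    exact hc1 ⟨r, h⟩
  · split_ifs <;> rfl
  · intro q hq hq2 hq9 hqr f hf X Y z hz hXY
    have hq3 : q % 3 = 2 := by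
      have h1 : q ≡ (if n % 9 = 1 then 2 else 8) [MOD 3] := hq9.of_dvd (by norm_num)
      rw [Nat.ModEq] at h1
      split_ifs at h1 <;> omega
    -- the symbols of `q`
    have hs : ∀ i, sym (D.π i) (q : Eis) = -((D.e i : ZMod 3) * x i) := by
      intro i
      rw [← hc2 i]
      apply sym_congr
      have h1 := hqr i.1 (Nat.prime_of_mem_primeFactors i.2) (Nat.dvd_of_mem_primeFactors i.2)
      simp only [i.2, dif_pos] at h1
      have h2 : (D.p i : ℤ) ∣ (q : ℤ) - (c i : ℤ) := (Nat.modEq_iff_dvd.mp h1.symm)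
      have h3 := (D.dvd_int i).mpr h2
      push_cast at h3
      exact h3
    have hqn : ∀ i, ¬ D.π i ∣ (q : Eis) := by
      intro i h
      have h1 := D.dvd_int i (s := (q : ℤ))
      rw [Int.cast_natCast] at h1
      rw [h1, Int.natCast_dvd_natCast, Nat.prime_dvd_prime_iff_eq (D.hp i) hq] at h
      have := D.h3 i
      rw [h] at this
      omega
    have hy : ∀ i, sym (D.π i) (((q : ℤ) ^ f : ℤ) : Eis) =
        (f : ZMod 3) * -((D.e i : ZMod 3) * x i) := by
      intro i
      push_cast
      rw [sym_pow (D.pr i) (D.n3 i) (hqn i), hs i]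
    have hdet : (Matrix.of (D.R (fun i => (f : ZMod 3) * -((D.e i : ZMod 3) * x i)))).det ≠ 0 := by
      rcases hf with rfl | rfl
      · have e1 : Matrix.of (D.R (fun i => ((1 : ℕ) : ZMod 3) * -((D.e i : ZMod 3) * x i))) =
            Matrix.of (D.R 0) + diagonal x := by
          ext i j
          simp only [Matrix.of_apply, Matrix.add_apply, FData.R, diagonal_apply, Pi.zero_apply]
          by_cases hij : j = i
          · subst hij
            simp only [if_true]
            have := D.e_sq j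
            push_cast
            linear_combination (x j) * this
          · have hij' : ¬ i = j := fun h => hij h.symm
            simp [hij, hij']
        rw [e1]; exact hx1
      · have e1 : Matrix.of (D.R (fun i => ((2 : ℕ) : ZMod 3) * -((D.e i : ZMod 3) * x i))) =
            Matrix.of (D.R 0) - diagonal x := by
          ext i j
          simp only [Matrix.of_apply, Matrix.sub_apply, FData.R, diagonal_apply, Pi.zero_apply]
          by_cases hij : j = i
          · subst hij
            simp only [if_true]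
            have := D.e_sq j
            have h3 : (3 : ZMod 3) = 0 := by decide
            push_cast
            linear_combination (2 * x j) * this + x j * h3
          · have hij' : ¬ i = j := fun h => hij h.symm
            simp [hij, hij']
        rw [e1]; exact hx2
    have hA : (q : ℤ) ^ f * D.P univ = ((n * q ^ f : ℕ) : ℤ) := by
      rw [hD, mkData_P]; push_cast; ring
    have hn3 : n % 9 = 1 ∨ n % 9 = 4 ∨ n % 9 = 7 := by
      have h1 : n % 3 = 1 := by
        have h2 : ∀ m : ℕ, m ≠ 0 → (∀ r : ℕ, r.Prime → r ∣ m → r % 3 = 1) → m % 3 = 1 := by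
          intro m
          induction m using Nat.recOnMul with
          | zero => intro h; exact absurd rfl h
          | one => intro _ _; rfl
          | prime p hp => intro _ h; exact h p hp dvd_rfl
          | mul a b iha ihb =>
            intro hab h
            have ha := iha (by rintro rfl; simp at hab) (fun r hr hra => h r hr (Dvd.dvd.mul_right hra _))
            have hb := ihb (by rintro rfl; simp at hab) (fun r hr hrb => h r hr (Dvd.dvd.mul_left hrb _))
            rw [Nat.mul_mod, ha, hb]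
        exact h2 n hn h3
      omega
    have hA9 : (n * q ^ f) % 9 ≠ 1 ∧ (n * q ^ f) % 9 ≠ 8 := by
      have h1 : (n * q ^ f) % 9 = ((n % 9) * ((if n % 9 = 1 then 2 else 8) ^ f % 9)) % 9 := by
        have : q ^ f ≡ (if n % 9 = 1 then 2 else 8) ^ f [MOD 9] := hq9.pow f
        rw [Nat.mul_mod, this]
      rw [h1]
      rcases hn3 with h | h | h <;> rcases hf with rfl | rfl <;> rw [h] <;> simp
    refine D.descent_one _ hq hq3 hf hy hdet ?_ ?_ ?_ z.natAbs X Y z rfl hz (by rw [hA]; exact hXY)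
    · rw [hA]; omega
    · rw [hA]; omega
    · rw [hA]
      have : 2 < n * q ^ f := by
        have h1 : 1 ≤ n := Nat.pos_of_ne_zero hn
        have h2 : q ≤ q ^ f := Nat.le_self_pow (by omega) q
        nlinarith
      omega

/-- The residue class for general `n`. -/
theorem exists_class (n : ℕ) (hn : n ≠ 0) (h3 : ∀ r : ℕ, r.Prime → r ∣ n → r % 3 = 1) :
    ∃ a : ℕ, a.Coprime (9 * n) ∧ ∀ q : ℕ, q.Prime → 2 < q → q ≡ a [MOD 9 * n] →
      (¬ ∃ X Y : ℚ, X ^ 3 + Y ^ 3 = n * q) ∧ ¬ ∃ X Y : ℚ, X ^ 3 + Y ^ 3 = n * q ^ 2 := by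
  classical
  obtain ⟨n', m, hnm, hm, hn', hcf⟩ := exists_cubefree n hn
  have hdvd : n' ∣ n := ⟨m ^ 3, hnm⟩
  obtain ⟨c, hc1, c9, hc9, H⟩ := cubefree_case n' hn' (fun r hr h => h3 r hr (h.trans hdvd)) hcf
  let s : ℕ → ℕ := fun r => if r = 3 then 9 else r
  let b : ℕ → ℕ := fun r => if r = 3 then c9 else if r ∣ n' then c r else 1
  have hmem : ∀ r ∈ insert 3 n.primeFactors, r.Prime := by
    intro r hr
    rcases mem_insert.mp hr with h | h
    · rw [h]; exact Nat.prime_three
    · exact Nat.prime_of_mem_primeFactors h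
  have hpp : Set.Pairwise (insert 3 n.primeFactors : Finset ℕ) (Function.onFun Nat.Coprime s) := by
    intro r hr t ht hrt
    have hr' := hmem r hr
    have ht' := hmem t ht
    have h1 := (Nat.coprime_primes hr' ht').mpr hrt
    simp only [Function.onFun, s]
    split_ifs with h2 h4 h4
    · exact absurd (h2.trans h4.symm) hrt
    · rw [h2] at h1
      exact Nat.Coprime.pow_left 2 h1
    · rw [h4] at h1
      exact Nat.Coprime.pow_right 2 h1
    · exact h1
  obtain ⟨a, ha⟩ := Nat.chineseRemainderOfFinset b s (insert 3 n.primeFactors)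
    (fun r hr => by
      simp only [s]
      split_ifs
      · norm_num
      · exact (hmem r hr).ne_zero) hpp
  have h3n : ¬ 3 ∣ n := by
    intro h
    have := h3 3 Nat.prime_three h
    norm_num at this
  have ha9 : a ≡ c9 [MOD 9] := by
    have := ha 3 (mem_insert_self _ _)
    simpa [s, b] using this
  have har : ∀ r : ℕ, r.Prime → r ∣ n → a ≡ (if r ∣ n' then c r else 1) [MOD r] := by
    intro r hr hrn
    have hr3 : r ≠ 3 := by rintro rfl; exact h3n hrn
    have := ha r (mem_insert_of_mem (Nat.mem_primeFactors.mpr ⟨hr, hrn, hn⟩))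
    simpa [s, b, hr3] using this
  refine ⟨a, ?_, ?_⟩
  · apply Nat.Coprime.mul_right
    · have h1 : a % 3 = 2 := by
        have : a ≡ c9 [MOD 3] := ha9.of_dvd (by norm_num)
        rw [Nat.ModEq] at this
        omega
      have h2 : Nat.Coprime a 3 := by
        rw [Nat.coprime_comm, Nat.Prime.coprime_iff_not_dvd Nat.prime_three]
        omega
      exact Nat.Coprime.pow_right 2 h2
    · apply Nat.coprime_of_dvd
      intro r hr hra hrn
      have h1 := har r hr hrn
      have h2 : (if r ∣ n' then c r else 1) ≡ 0 [MOD r] :=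
        h1.symm.trans ((Nat.modEq_zero_iff_dvd).mpr hra)
      rw [Nat.modEq_zero_iff_dvd] at h2
      split_ifs at h2 with h4
      · exact hc1 r hr h4 h2
      · exact hr.one_lt.ne' (Nat.dvd_one.mp h2)
  · intro q hq hq2 hqa
    have hq9 : q ≡ c9 [MOD 9] := (hqa.of_dvd (dvd_mul_right _ _)).trans ha9
    have hqr : ∀ r : ℕ, r.Prime → r ∣ n' → q ≡ c r [MOD r] := by
      intro r hr hrn
      have h1 := har r hr (hrn.trans hdvd)
      rw [if_pos hrn] at h1
      exact (hqa.of_dvd (Dvd.dvd.mul_left (hrn.trans hdvd) 9)).trans h1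
    have key : ∀ f : ℕ, f = 1 ∨ f = 2 → ¬ ∃ X Y : ℚ, X ^ 3 + Y ^ 3 = n * q ^ f := by
      rintro f hf ⟨X, Y, hXY⟩
      have hm' : (m : ℚ) ≠ 0 := by exact_mod_cast hm
      have h1 : (X / m) ^ 3 + (Y / m) ^ 3 = (((n' * q ^ f : ℕ) : ℤ) : ℚ) := by
        rw [div_pow, div_pow, ← add_div, hXY, hnm]
        push_cast
        field_simp
      obtain ⟨x, y, z, hz, hxyz⟩ := integral_solution h1
      exact H q hq hq2 hq9 hqr f hf x y z hz hxyz
    refine ⟨?_, key 2 (Or.inr rfl)⟩
    have := key 1 (Or.inl rfl)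
    simpa using this

end Pool.Agent.Lib_helper18
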