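import Pool.Agent.Lib_helper18.FD8

set_option linter.unusedSectionVars false

/-!
# First descent with an inert prime in the matrix and a condition at `3`
-/

namespace Pool.Agent.Lib_helper18

open Finset Eis Matrix

/-- the class modulo 9, up to sign -/
def wq (n : ℤ) : ZMod 3 :=
  if n % 9 = 1 ∨ n % 9 = 8 then 0 else if n % 9 = 4 ∨ n % 9 = 5 then 1 else 2

theorem wq_mul {m n : ℤ} (hm : ¬ (3 : ℤ) ∣ m) (hn : ¬ (3 : ℤ) ∣ n) :
    wq (m * n) = wq m + wq n := by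
  have h1 : m % 9 = 1 ∨ m % 9 = 2 ∨ m % 9 = 4 ∨ m % 9 = 5 ∨ m % 9 = 7 ∨ m % 9 = 8 := by omega
  have h2 : n % 9 = 1 ∨ n % 9 = 2 ∨ n % 9 = 4 ∨ n % 9 = 5 ∨ n % 9 = 7 ∨ n % 9 = 8 := by omega
  unfold wq
  rw [Int.mul_emod]
  rcases h1 with h | h | h | h | h | h <;> rcases h2 with h' | h' | h' | h' | h' | h' <;>
    rw [h, h'] <;> decide

theorem wq_one : wq 1 = 0 := by decide

theorem wq_pow {m : ℤ} (hm : ¬ (3 : ℤ) ∣ m) (k : ℕ) : wq (m ^ k) = (k : ZMod 3) * wq m := by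
  induction k with
  | zero => simp [wq_one]
  | succ k ih =>
    rw [pow_succ, wq_mul (fun h => hm (Int.prime_three.dvd_of_dvd_pow h)) hm, ih]
    push_cast; ring

theorem wq_cube {m : ℤ} (hm : ¬ (3 : ℤ) ∣ m) : wq (m ^ 3) = 0 := by
  rw [wq_pow hm]
  have : ((3 : ℕ) : ZMod 3) = 0 := by decide
  rw [this, zero_mul]

theorem wq_of_add {u v : ℤ} (h : (9 : ℤ) ∣ u + v) : wq u = wq v := by
  unfold wq
  have h1 : u % 9 = 0 ∧ v % 9 = 0 ∨ u % 9 + v % 9 = 9 := by omega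
  rcases h1 with ⟨h1, h2⟩ | h1
  · rw [h1, h2]
  · have h2 : v % 9 = 9 - u % 9 := by omega
    rw [h2]
    have h3 : 0 ≤ u % 9 := by omega
    have h4 : u % 9 < 9 := by omega
    generalize u % 9 = a at *
    interval_cases a <;> simp

theorem wq_eq_wt {n : ℤ} (h : n % 3 = 1) : wq n = wt n := by
  have h1 : n % 9 = 1 ∨ n % 9 = 4 ∨ n % 9 = 7 := by omega
  rcases h1 with h1 | h1 | h1
  · obtain ⟨k, hk⟩ : ∃ k, n = 1 + 3 * (3 * k) := ⟨n / 9, by omega⟩
    rw [wt_eq hk, wq, h1]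
    push_cast
    have h3 : (3 : ZMod 3) = 0 := by decide
    rw [h3]; simp
  · obtain ⟨k, hk⟩ : ∃ k, n = 1 + 3 * (1 + 3 * k) := ⟨n / 9, by omega⟩
    rw [wt_eq hk, wq, h1]
    push_cast
    have h3 : (3 : ZMod 3) = 0 := by decide
    rw [h3]; simp
  · obtain ⟨k, hk⟩ : ∃ k, n = 1 + 3 * (2 + 3 * k) := ⟨n / 9, by omega⟩
    rw [wt_eq hk, wq, h1]
    push_cast
    have h3 : (3 : ZMod 3) = 0 := by decide
    rw [h3]; simp

/-- the weight of the norm of an inert prime -/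
theorem wt_sq {r : ℤ} (h : r % 3 = 2) : wt (r ^ 2) = -wq r := by
  have h1 : r ^ 2 % 3 = 1 := sq_mod_three (by omega)
  rw [← wq_eq_wt h1, wq_pow (by omega)]
  have : ((2 : ℕ) : ZMod 3) = -1 := by decide
  rw [this]; ring

namespace FData

variable {ι : Type*} [Fintype ι] [DecidableEq ι] (D : FData ι)

/-- the bordered matrix -/
noncomputable def NN (y L : ι → ZMod 3) (w0 : ZMod 3) : Matrix (Option ι) (Option ι) (ZMod 3) :=
  fun a b => match a, b with
  | some i, some j => D.R y i j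
  | some i, none => L i
  | none, some j => wt (D.p j)
  | none, none => w0

theorem NN_q {y L : ι → ZMod 3} {w0 : ZMod 3} (hN : (D.NN y L w0).det ≠ 0) {v : ι → ZMod 3}
    {m : ZMod 3} (h1 : ∀ i, ∑ j, D.R y i j * v j + L i * m = 0)
    (h2 : ∑ j, wt (D.p j) * v j + w0 * m = 0) : (∀ j, v j = 0) ∧ m = 0 := by
  have h := mulVec_zero hN (v := fun a => a.elim m v) (fun a => by
    cases a with
    | none =>
      rw [Fintype.sum_option]
      show w0 * m + ∑ j, wt (D.p j) * v j = 0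
      rw [add_comm]; exact h2
    | some i =>
      rw [Fintype.sum_option]
      show L i * m + ∑ j, D.R y i j * v j = 0
      rw [add_comm]; exact h1 i)
  exact ⟨fun j => h (some j), h none⟩

theorem NN_k {y L : ι → ZMod 3} {w0 : ZMod 3} (hN : (D.NN y L w0).det ≠ 0) {v : ι → ZMod 3}
    {c : ZMod 3} (h1 : ∀ i, ∑ j, D.R y j i * v j = c * wt (D.p i))
    (h2 : ∑ j, L j * v j = c * w0) : (∀ j, v j = 0) ∧ c = 0 := by
  have hT : (D.NN y L w0).transpose.det ≠ 0 := by rwa [Matrix.det_transpose]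
  have h := mulVec_zero hT (v := fun a => a.elim (-c) v) (fun a => by
    cases a with
    | none =>
      rw [Fintype.sum_option]
      show w0 * (-c) + ∑ j, L j * v j = 0
      rw [h2]; ring
    | some i =>
      rw [Fintype.sum_option]
      show wt (D.p i) * (-c) + ∑ j, D.R y j i * v j = 0
      rw [h1 i]; ring)
  exact ⟨fun j => h (some j), neg_eq_zero.mp (h none)⟩

theorem three_not_dvd_p (i : ι) : ¬ (3 : ℤ) ∣ (D.p i : ℤ) := by
  have := D.h3 i
  omega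

theorem wq_p (i : ι) : wq (D.p i : ℤ) = wt (D.p i) := wq_eq_wt (by have := D.h3 i; omega)

theorem three_not_dvd_P (S : Finset ι) : ¬ (3 : ℤ) ∣ D.P S := by
  rw [P, Int.prime_three.dvd_finsetProd_iff]
  rintro ⟨j, -, h⟩
  exact D.three_not_dvd_p j (Int.prime_three.dvd_of_dvd_pow h)

theorem wq_P (S : Finset ι) : wq (D.P S) = ∑ j ∈ S, (D.e j : ZMod 3) * wt (D.p j) := by
  induction S using Finset.induction_on with
  | empty => rw [P, prod_empty, sum_empty, wq_one]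
  | insert j S hj ih =>
    have h1 : D.P (insert j S) = (D.p j : ℤ) ^ D.e j * D.P S := by rw [P, prod_insert hj, P]
    rw [h1, sum_insert hj, wq_mul (fun h => D.three_not_dvd_p j (Int.prime_three.dvd_of_dvd_pow h))
      (D.three_not_dvd_P S), wq_pow (D.three_not_dvd_p j), ih, D.wq_p]

theorem sum_vec {J1 J2 : Finset ι} (h12 : Disjoint J1 J2) (F : ι → ZMod 3) :
    ∑ j, F j * D.vec J1 J2 j =
      ∑ j ∈ J1, (D.e j : ZMod 3) * F j - ∑ j ∈ J2, (D.e j : ZMod 3) * F j := by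
  have h1 : ∀ j, F j * D.vec J1 J2 j = (if j ∈ J1 then (D.e j : ZMod 3) * F j else 0) -
      (if j ∈ J2 then (D.e j : ZMod 3) * F j else 0) := by
    intro j
    have hd : j ∈ J1 → j ∉ J2 := fun h => Finset.disjoint_left.mp h12 h
    rw [vec]
    by_cases hj1 : j ∈ J1
    · simp only [hj1, if_true, hd hj1, if_false]; ring
    · by_cases hj2 : j ∈ J2
      · simp only [hj1, hj2, if_true, if_false]; ring
      · simp [hj1, hj2]
  rw [sum_congr rfl (fun j _ => h1 j), sum_sub_distrib]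
  simp

section inert

variable {r f : ℕ} {C0 : ℤ} (y L : ι → ZMod 3)

theorem inert_prime (hr : r.Prime) (hr3 : r % 3 = 2) : Prime (r : Eis) := prime_inert hr hr3

theorem inert_n3 (hr : r.Prime) (hr3 : r % 3 = 2) : ¬ (r : Eis) ∣ 3 := by
  intro h
  have h1 : ((r : ℤ) : Eis) ∣ ((3 : ℤ) : Eis) := by
    rw [← three_eq_cast, Int.cast_natCast]; exact h
  rw [intCast_dvd_intCast] at h1
  have h2 : r ∣ 3 := by exact_mod_cast h1
  have h4 := (Nat.prime_dvd_prime_iff_eq hr Nat.prime_three).mp h2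
  omega

/-- the symbol of `η` at an inert prime -/
theorem inert_sym (hr : r.Prime) (hr3 : r % 3 = 2) (hrp : ∀ i, D.p i ≠ r) {J : Finset ι}
    {ρ : ι → Eis} (hρ : ∀ j, ρ j = D.π j ∨ ρ j = conj (D.π j)) {η γ : Eis}
    (hη : η = (∏ j ∈ J, ρ j ^ D.e j) * γ ^ 3) (hrη : ¬ (r : Eis) ∣ η)
    (hL : ∀ i, sym (D.π i) (r : Eis) = L i) :
    sym (r : Eis) η = ∑ j, L j * D.vec (J.filter (fun j => ρ j = D.π j))
      (J.filter (fun j => ρ j ≠ D.π j)) j := by
  have hP := prime_inert hr hr3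
  have hn3 := inert_n3 hr hr3
  have hnp : ∀ j, ¬ (r : Eis) ∣ D.π j := by
    intro j h
    have : Fact (D.p j).Prime := ⟨D.hp j⟩
    have h1 := h.trans (dvd_p (D.hπ j))
    have h2 : ((r : ℤ) : Eis) ∣ ((D.p j : ℤ) : Eis) := by
      rw [Int.cast_natCast, Int.cast_natCast]; exact h1
    rw [intCast_dvd_intCast] at h2
    have h3 : r ∣ D.p j := by exact_mod_cast h2
    exact hrp j ((Nat.prime_dvd_prime_iff_eq hr (D.hp j)).mp h3).symm
  have hnp' : ∀ j, ¬ (r : Eis) ∣ conj (D.π j) := by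
    intro j h
    apply hnp j
    have := conj_dvd h
    rwa [conj_natCast, conj_conj] at this
  have hsym : ∀ j, sym (r : Eis) (D.π j) = L j := by
    intro j
    have : Fact (D.p j).Prime := ⟨D.hp j⟩
    rw [← hL j]
    have h3r : ¬ 3 ∣ r := by omega
    refine (recip (D.h3 j) (D.hπ j) (D.hprim j) hP hn3 (prim_natCast h3r) ?_).symm
    intro h
    exact hnp j h.dvd
  have hsym' : ∀ j, sym (r : Eis) (conj (D.π j)) = -L j := by
    intro j
    rw [← hsym j, ← sym_conj hP hn3 (hnp j), conj_natCast]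
  have hρn : ∀ j, ¬ (r : Eis) ∣ ρ j := by
    intro j
    rcases hρ j with h | h <;> rw [h]
    · exact hnp j
    · exact hnp' j
  have hγ : ¬ (r : Eis) ∣ γ := by
    intro h
    apply hrη
    rw [hη]
    exact Dvd.dvd.mul_left (Dvd.dvd.pow h (by norm_num)) _
  obtain ⟨h1, h2⟩ := sym_prod_pow hP hn3 ρ D.e J (fun j _ => hρn j)
  have h3 : ¬ (r : Eis) ∣ γ ^ 3 := fun h => hγ (hP.dvd_of_dvd_pow h)
  rw [hη, sym_mul hP hn3 h1 h3, sym_cube hP hn3 hγ, add_zero, h2,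
    D.sum_vec (disjoint_filter_filter_not _ _ _), sum_filter, sum_filter, ← sum_sub_distrib]
  apply sum_congr rfl
  intro j _
  by_cases h : ρ j = D.π j
  · rw [if_pos h, if_neg (not_not.mpr h), h, hsym j]; ring
  · rw [if_neg h, if_pos h, (hρ j).resolve_left h, hsym' j]; ring

/-- the side of `Z[ω]` -/
theorem kstep2 (hr : r.Prime) (hr3 : r % 3 = 2) (hrp : ∀ i, D.p i ≠ r) (hC0 : C0 ≠ 0)
    (hf : f ≠ 0) (hCp : ∀ i, ¬ (D.p i : ℤ) ∣ C0)
    (hy : ∀ i, sym (D.π i) ((C0 * (r : ℤ) ^ f : ℤ) : Eis) = y i)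
    (hL : ∀ i, sym (D.π i) (r : Eis) = L i)
    (hR : (D.NN y L (wq r)).det ≠ 0) {η : Eis} {S z : ℤ} (hηprim : Prim η)
    (hηcop : IsCoprime η (conj η)) (hcoS : IsCoprime S η.norm)
    (hηS : S * η.norm = (C0 * (r : ℤ) ^ f * D.P univ) * z ^ 3) (hCS : C0 ∣ S)
    {α β κ : Eis} {c : ZMod 3}
    (hα : ∀ i, ¬ D.π i ∣ α)
    (hβ : ∀ i, ¬ D.π i ∣ β) (hκ : ∀ i, ¬ D.π i ∣ κ)
    (hα' : ∀ i, sym (D.π i) α = c * wt (D.p i))
    (hβ' : ∀ i, sym (D.π i) β = -(c * wt (D.p i))) (hκ' : ∀ i, sym (D.π i) κ = 0)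
    (hαr : ¬ (r : Eis) ∣ α) (hβr : ¬ (r : Eis) ∣ β) (hαr' : sym (r : Eis) α = -(c * wq r))
    (hβr' : sym (r : Eis) β = c * wq r)
    (hrel : α * η + β * conj η = κ * (S : Eis)) :
    c = 0 ∧ ∃ (γ : Eis) (s t : ℤ), η = γ ^ 3 ∧ ¬ lam ∣ γ ∧
      S = (C0 * (r : ℤ) ^ f * D.P univ) * s ^ 3 ∧ z = t * s := by
  have hri : Prime (r : ℤ) := Nat.prime_iff_prime_int.mp hr
  have hr0 : (r : ℤ) ^ f ≠ 0 := pow_ne_zero _ hri.ne_zero
  have hrη := inert_not_dvd_norm hr hr3 hηcop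
  obtain ⟨S2, hS2⟩ := hCS
  have h2 : (r : ℤ) ^ f ∣ S2 := by
    have h3 : S2 * η.norm = ((r : ℤ) ^ f * D.P univ) * z ^ 3 := by
      apply mul_left_cancel₀ hC0
      rw [hS2] at hηS
      linear_combination hηS
    apply hri.pow_dvd_of_dvd_mul_right f hrη
    rw [h3, mul_assoc]; exact dvd_mul_right _ _
  obtain ⟨S1, hS1⟩ := h2
  have hS1' : S = C0 * (r : ℤ) ^ f * S1 := by rw [hS2, hS1]; ring
  have hS1d : S1 ∣ S := ⟨C0 * (r : ℤ) ^ f, by rw [hS1']; ring⟩
  obtain ⟨J, -, t, s, ht, hs, hz⟩ := split_two D.p D.e D.hp D.he0 univ η.norm S1 z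
    (hcoS.of_isCoprime_of_dvd_left hS1d).symm (by
      apply mul_left_cancel₀ (mul_ne_zero hC0 hr0)
      rw [hS1'] at hηS
      rw [P] at hηS
      linear_combination hηS)
  obtain ⟨ρ, γ, hρ, hγ, hγ3⟩ := split_eis D.p D.e D.π D.hp D.hπ D.prim D.he0 J η t hηprim hηcop ht
  have hpq : ∀ i, ¬ (D.p i : ℤ) ∣ C0 * (r : ℤ) ^ f := by
    intro i h
    rcases (D.prime_int i).dvd_or_dvd h with h | h
    · exact hCp i h
    · have := (D.prime_int i).dvd_of_dvd_pow h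
      rw [Int.natCast_dvd_natCast, Nat.prime_dvd_prime_iff_eq (D.hp i) hr] at this
      exact hrp i this
  have hns : ∀ i ∈ J, ¬ (D.p i : ℤ) ∣ s := by
    intro i hi h
    have h5 : (D.p i : ℤ) ∣ S := by
      rw [hS1', hs]; exact Dvd.dvd.mul_left (Dvd.dvd.mul_left (Dvd.dvd.pow h (by norm_num)) _) _
    have h6 : (D.p i : ℤ) ∣ η.norm := by
      rw [ht]; exact Dvd.dvd.mul_right (D.dvd_P hi) _
    exact (D.prime_int i).not_isUnit (hcoS.isUnit_of_dvd' h5 h6)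
  have hn3 : ∀ i (x : ℤ), ¬ (D.p i : ℤ) ∣ x → ¬ (D.p i : ℤ) ∣ x ^ 3 :=
    fun i x h h' => h ((D.prime_int i).dvd_of_dvd_pow h')
  have hres := D.kside (J := J) hρ hγ hηcop (S0 := C0 * (r : ℤ) ^ f * s ^ 3)
    (fun i hi h => ((D.prime_int i).dvd_or_dvd h).elim (hpq i) (hn3 i s (hns i hi)))
    y (fun i => c * wt (D.p i)) (fun i hi => by
      rw [Int.cast_mul, sym_mul (D.pr i) (D.n3 i)
        (by rw [D.dvd_int]; exact hpq i) (by rw [D.dvd_int]; exact hn3 i s (hns i hi)),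
        Int.cast_pow s, sym_cube (D.pr i) (D.n3 i) (by rw [D.dvd_int]; exact hns i hi),
        add_zero, hy i])
    (α := α) (β := β) (κ := κ) hα hβ hκ hα' hβ' hκ' (by
      rw [hrel, hS1', hs]
      congr 2; ring)
  -- the equation at `r`
  have hP := prime_inert hr hr3
  have hr3' := inert_n3 hr hr3
  have hrη' : ¬ (r : Eis) ∣ η := by
    intro h
    apply hrη
    have h1 : ((r : ℤ) : Eis) ∣ (η.norm : Eis) := by
      rw [← mul_conj, Int.cast_natCast]; exact Dvd.dvd.mul_right h _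
    exact intCast_dvd_intCast.mp h1
  have hrη'' : ¬ (r : Eis) ∣ conj η := by
    intro h
    apply hrη'
    have := conj_dvd h
    rwa [conj_natCast, conj_conj] at this
  have hsη := D.inert_sym L hr hr3 hrp hρ hγ hrη' hL
  have hrS : (r : Eis) ∣ α * η + β * conj η := by
    rw [hrel]
    apply Dvd.dvd.mul_left
    have : ((r : ℤ) : Eis) ∣ (S : Eis) := by
      rw [intCast_dvd_intCast, hS1']
      exact Dvd.dvd.mul_right (Dvd.dvd.mul_left (dvd_pow_self _ hf) _) _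
    rwa [Int.cast_natCast] at this
  have hnb : ¬ (r : Eis) ∣ β * conj η := fun h => (hP.dvd_or_dvd h).elim hβr hrη''
  have hc : sym (r : Eis) (α * η) = sym (r : Eis) (β * conj η) := by
    rw [← sym_neg hP hr3' hnb]
    apply sym_congr
    rw [sub_neg_eq_add]; exact hrS
  have hconj : sym (r : Eis) (conj η) = -sym (r : Eis) η := by
    have := sym_conj hP hr3' hrη'
    rwa [conj_natCast] at this
  rw [sym_mul hP hr3' hαr hrη', sym_mul hP hr3' hβr hrη'', hαr', hβr', hconj, hsη] at hc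
  have h3 : (3 : ZMod 3) = 0 := by decide
  have heq : ∑ j, L j * D.vec (J.filter (fun j => ρ j = D.π j))
      (J.filter (fun j => ρ j ≠ D.π j)) j = c * wq r := by
    linear_combination (-1 : ZMod 3) * hc + (∑ j, L j * D.vec (J.filter (fun j => ρ j = D.π j))
      (J.filter (fun j => ρ j ≠ D.π j)) j - c * wq r) * h3
  obtain ⟨hv0, hc0⟩ := D.NN_k hR hres heq
  refine ⟨hc0, ?_⟩
  obtain ⟨e1, e2⟩ := D.vec_eq_zero (disjoint_filter_filter_not _ _ _) hv0
  have e3 : J = ∅ := by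
    rw [← filter_union_filter_not_eq (fun j => ρ j = D.π j) J, e1, e2]; rfl
  subst e3
  rw [prod_empty, one_mul] at hγ
  refine ⟨γ, s, t, hγ, hγ3, ?_, hz⟩
  rw [hS1', hs, sdiff_empty, P]; ring

end inert

end FData

end Pool.Agent.Lib_helper18
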