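import Pool.Agent.Lib_helper18.Sym
import Pool.Agent.Lib_helper18.Chars

/-!
# The basic relation between cubic residue symbols coming from Gauss sums
-/

namespace Pool.Agent.Lib_helper18

namespace Eis

/-- ring homomorphism out of the Eisenstein integers -/
def lift {R : Type*} [CommRing R] (t : R) (ht : t ^ 2 + t + 1 = 0) : Eis →+* R where
  toFun x := (x.re : R) + (x.im : R) * t
  map_one' := by simp
  map_mul' x y := by
    simp only [mul_re, mul_im]; push_cast
    linear_combination (-(x.im : R) * y.im) * ht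
  map_zero' := by simp
  map_add' x y := by simp only [add_re, add_im]; push_cast; ring

theorem lift_apply {R : Type*} [CommRing R] (t : R) (ht : t ^ 2 + t + 1 = 0) (x : Eis) :
    lift t ht x = (x.re : R) + (x.im : R) * t := rfl

theorem hom_apply {R : Type*} [CommRing R] (φ : Eis →+* R) (x : Eis) :
    φ x = (x.re : R) + (x.im : R) * φ w := by
  conv_lhs => rw [eq_re_add_im x]
  rw [map_add, map_mul, map_intCast, map_intCast]

theorem hom_w {R : Type*} [CommRing R] (φ : Eis →+* R) : (φ w) ^ 2 + φ w + 1 = 0 := by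
  rw [← map_pow, ← map_add, ← map_one φ, ← map_add, w_rel, map_zero]

theorem hom_three {R : Type*} [CommRing R] (φ : Eis →+* R) : φ 3 = 3 := by
  rw [three_eq_cast, map_intCast]; norm_num

theorem dvd_norm_self (x : Eis) : x ∣ (x.norm : Eis) := ⟨conj x, (mul_conj x).symm⟩

section split

variable {p : ℕ} [hp : Fact p.Prime] {π : Eis}

theorem prime_of_norm_eq (hπ : π.norm = p) : Prime π :=
  prime_of_norm_prime (by rw [hπ]; exact Nat.prime_iff_prime_int.mp hp.out)

omit hp in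
theorem dvd_p (hπ : π.norm = p) : π ∣ (p : Eis) := by
  have := dvd_norm_self π
  rw [hπ] at this
  exact_mod_cast this

omit hp in
theorem mul_conj_p (hπ : π.norm = p) : π * conj π = (p : Eis) := by
  rw [mul_conj, hπ]; simp

/-- the residue map at a split prime -/
theorem exists_hom (hπ : π.norm = p) : ∃ φ : Eis →+* ZMod p, ∀ x, φ x = 0 ↔ π ∣ x := by
  have hpr := prime_of_norm_eq hπ
  -- p does not divide im
  have hb : (π.im : ZMod p) ≠ 0 := by
    intro h
    rw [ZMod.intCast_zmod_eq_zero_iff_dvd] at h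
    obtain ⟨c, hc⟩ := h
    have h1 : (p : ℤ) ∣ π.re ^ 2 := by
      have : π.re ^ 2 = p - p * (p * c ^ 2) + π.re * (p * c) := by
        have := hπ
        rw [norm_def, hc] at this
        linear_combination this
      rw [this]
      exact dvd_add (dvd_sub dvd_rfl (dvd_mul_right _ _)) (Dvd.intro (π.re * c) (by ring))
    have h2 := (Nat.prime_iff_prime_int.mp hp.out).dvd_of_dvd_pow h1
    obtain ⟨d, hd⟩ := h2
    have h3 : (p : ℤ) * p ∣ p := by
      refine ⟨d ^ 2 - d * c + c ^ 2, ?_⟩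
      have := hπ
      rw [norm_def, hc, hd] at this
      linear_combination -this
    have h4 : (p : ℤ) ∣ 1 := by
      rcases h3 with ⟨e, he⟩
      refine ⟨e, ?_⟩
      have hp0 : (p : ℤ) ≠ 0 := by exact_mod_cast hp.out.ne_zero
      apply mul_left_cancel₀ hp0
      linear_combination he
    exact (Nat.prime_iff_prime_int.mp hp.out).not_dvd_one h4
  set t : ZMod p := -(π.re : ZMod p) * (π.im : ZMod p)⁻¹ with ht
  have hrel : (π.re : ZMod p) + (π.im : ZMod p) * t = 0 := by
    rw [ht]; field_simp; ring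
  have hn : (π.re : ZMod p) ^ 2 - π.re * π.im + (π.im : ZMod p) ^ 2 = 0 := by
    have := congrArg (Int.cast : ℤ → ZMod p) hπ
    rw [norm_def] at this
    push_cast at this
    rw [this]; simp
  have ht2 : t ^ 2 + t + 1 = 0 := by
    have h1 : (π.im : ZMod p) ^ 2 * (t ^ 2 + t + 1) = 0 := by
      have : (π.im : ZMod p) * t = -π.re := by linear_combination hrel
      linear_combination hn + (π.im * t - π.re + π.im) * hrel
    exact (mul_eq_zero.mp h1).resolve_left (pow_ne_zero _ hb)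
  refine ⟨lift t ht2, fun x => ?_⟩
  constructor
  · intro hx
    by_contra hd
    have hcop : IsCoprime π x := (hpr.irreducible.coprime_iff_not_dvd).mpr hd
    obtain ⟨u, v, huv⟩ := hcop
    have := congrArg (lift t ht2) huv
    rw [map_add, map_mul, map_mul, hx, map_one, mul_zero, add_zero] at this
    have h0 : lift t ht2 π = 0 := hrel
    rw [h0, mul_zero] at this
    exact zero_ne_one this
  · rintro ⟨y, rfl⟩
    have h0 : lift t ht2 π = 0 := hrel
    rw [map_mul, h0, zero_mul]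

theorem not_dvd_three (hπ : π.norm = p) (hp3 : p % 3 = 1) : ¬ π ∣ 3 := by
  intro h
  have h1 := (dvd_three_iff (prime_of_norm_eq hπ)).mp h
  have h2 : (3 : ℤ) ∣ π.norm := lam_dvd_iff_norm.mp h1.symm.dvd
  rw [hπ] at h2
  have : 3 ∣ p := by exact_mod_cast h2
  omega

theorem hom_w_primitive (hp3 : p % 3 = 1) (φ : Eis →+* ZMod p) :
    IsPrimitiveRoot (φ w) 3 := by
  have h1 : (φ w) ^ 3 = 1 := by rw [← map_pow, w_cube, map_one]
  have h2 : φ w ≠ 1 := by
    intro h
    have := hom_w φ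
    rw [h] at this
    have h3 : ((3 : ℕ) : ZMod p) = 0 := by push_cast; linear_combination this
    rw [ZMod.natCast_eq_zero_iff] at h3
    have h4 := (Nat.prime_dvd_prime_iff_eq hp.out Nat.prime_three).mp h3
    omega
  have := orderOf_eq_prime h1 h2
  rw [← this]
  exact IsPrimitiveRoot.orderOf _

theorem w_primitive : IsPrimitiveRoot w 3 := by
  have := orderOf_eq_prime w_cube (by decide)
  rw [← this]
  exact IsPrimitiveRoot.orderOf _

/-- the Eisenstein-integer valued cubic character at `π`, with its Jacobi sum -/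
theorem exists_cubic_char (hp3 : p % 3 = 1) (φ : Eis →+* ZMod p) :
    ∃ χ : MulChar (ZMod p) Eis, (∀ x : ZMod p, x ≠ 0 → φ (χ x) = x ^ ((p - 1) / 3)) ∧
      (∀ x : ZMod p, x ≠ 0 → ∃ i : ℕ, χ x = w ^ i) ∧ (∃ x : ZMod p, x ≠ 0 ∧ χ x = w) :=
  exists_mulChar φ w w_cube (hom_w_primitive hp3 φ) (by omega)

theorem char_cube {χ : MulChar (ZMod p) Eis}
    (h : ∀ x : ZMod p, x ≠ 0 → ∃ i : ℕ, χ x = w ^ i) : χ ^ 3 = 1 := by
  refine MulChar.ext fun x => ?_
  rw [MulChar.pow_apply_coe]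
  obtain ⟨i, hi⟩ := h x x.ne_zero
  rw [hi, ← pow_mul, mul_comm, pow_mul, w_cube, one_pow, MulChar.one_apply_coe]

theorem char_conj {χ : MulChar (ZMod p) Eis}
    (h : ∀ x : ZMod p, x ≠ 0 → ∃ i : ℕ, χ x = w ^ i) : χ.ringHomComp conj = χ⁻¹ := by
  have h3 : χ⁻¹ = χ ^ 2 := by
    rw [inv_eq_iff_mul_eq_one, ← pow_succ', char_cube h]
  rw [h3]
  refine MulChar.ext fun x => ?_
  rw [MulChar.ringHomComp_apply, MulChar.pow_apply_coe]
  obtain ⟨i, hi⟩ := h x x.ne_zero
  rw [hi, map_pow, conj_w, ← pow_mul, ← pow_mul, mul_comm]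

theorem char_ne_one {χ : MulChar (ZMod p) Eis}
    (h : ∃ x : ZMod p, x ≠ 0 ∧ χ x = w) : χ ≠ 1 := by
  rintro rfl
  obtain ⟨x, hx, hx2⟩ := h
  rw [MulChar.one_apply (isUnit_iff_ne_zero.mpr hx)] at hx2
  exact absurd hx2 (by decide)

theorem jacobi_mul_conj {χ : MulChar (ZMod p) Eis}
    (h : ∀ x : ZMod p, x ≠ 0 → ∃ i : ℕ, χ x = w ^ i) (h' : ∃ x : ZMod p, x ≠ 0 ∧ χ x = w) :
    jacobiSum χ χ * conj (jacobiSum χ χ) = (p : Eis) := by
  have : CharZero Eis := ⟨fun a b hab => by
    have := congrArg Eis.re hab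
    simpa using this⟩
  rw [← jacobiSum_ringHomComp, char_conj h]
  apply jacobiSum_mul_inv (char_ne_one h')
  intro h2
  have h3 := char_cube h
  have h4 : χ = 1 := by
    have : χ ^ 3 = χ * χ * χ := by rw [pow_succ, pow_two]
    rw [this, h2, one_mul] at h3
    exact h3
  exact char_ne_one h' h4

theorem jacobi_mod_three (hp3 : p % 3 = 1) {χ : MulChar (ZMod p) Eis}
    (h : ∀ x : ZMod p, x ≠ 0 → ∃ i : ℕ, χ x = w ^ i) :
    (3 : Eis) ∣ jacobiSum χ χ + 1 := by
  have h3 := char_cube h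
  have hdvd : 3 ∣ Fintype.card (ZMod p) - 1 := by rw [ZMod.card]; omega
  obtain ⟨z, -, hz⟩ := exists_jacobiSum_eq_neg_one_add (n := 3) (by norm_num : 2 < 3) (χ := χ)
    (ψ := χ) (μ := w) h3 h3 hdvd w_primitive
  refine ⟨z * (-w), ?_⟩
  rw [hz]
  have : (w - 1) ^ 2 = 3 * (-w) := by decide
  rw [this]; ring

theorem primary_unique {π u : Eis} (hu : IsUnit u) (h1 : (3 : ℤ) ∣ π.im) (h2 : ¬ (3 : ℤ) ∣ π.re)
    (h : (3 : Eis) ∣ π * u + 1 ∨ (3 : Eis) ∣ π * u - 1) : u = 1 ∨ u = -1 := by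
  have hd : (3 : ℤ) ∣ (π * u).im := by
    rw [three_dvd_iff, three_dvd_iff] at h
    rcases h with h | h
    · have := h.2
      rw [add_im, one_im, add_zero] at this
      exact this
    · have := h.2
      rw [sub_im, one_im, sub_zero] at this
      exact this
  clear h
  obtain ⟨i, hi, hu | hu⟩ := unit_cases hu
  · interval_cases i
    · left; rw [hu, pow_zero]
    · exfalso; rw [hu, pow_one, mul_im, w_re, w_im] at hd
      apply h2; omega
    · exfalso; rw [hu, w_sq, mul_im] at hd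
      simp only [sub_re, sub_im, neg_re, neg_im, one_re, one_im, w_re, w_im] at hd
      apply h2; omega
  · interval_cases i
    · right; rw [hu, pow_zero]
    · exfalso; rw [hu, pow_one, mul_im, neg_re, neg_im, w_re, w_im] at hd
      apply h2; omega
    · exfalso; rw [hu, w_sq, mul_im] at hd
      simp only [sub_re, sub_im, neg_re, neg_im, one_re, one_im, w_re, w_im] at hd
      apply h2; omega

omit hp in
theorem re_not_dvd (hp3 : p % 3 = 1) (hπ : π.norm = p) (h1 : (3 : ℤ) ∣ π.im) :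
    ¬ (3 : ℤ) ∣ π.re := by
  rintro ⟨c, hc⟩
  obtain ⟨d, hd⟩ := h1
  rw [norm_def, hc, hd] at hπ
  have : (3 : ℤ) ∣ p := ⟨3 * c ^ 2 - 3 * c * d + 3 * d ^ 2, by rw [← hπ]; ring⟩
  omega

/-- The Jacobi sum of the cubic character at `π` is `π` up to sign. -/
theorem jacobi_eq (hp3 : p % 3 = 1) (hπ : π.norm = p) (hprim : (3 : ℤ) ∣ π.im)
    (φ : Eis →+* ZMod p) (hφ : ∀ x, φ x = 0 ↔ π ∣ x) {χ : MulChar (ZMod p) Eis}
    (h1 : ∀ x : ZMod p, x ≠ 0 → φ (χ x) = x ^ ((p - 1) / 3))
    (h : ∀ x : ZMod p, x ≠ 0 → ∃ i : ℕ, χ x = w ^ i) (h' : ∃ x : ZMod p, x ≠ 0 ∧ χ x = w) :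
    jacobiSum χ χ = π ∨ jacobiSum χ χ = -π := by
  have hp2 := hp.out.two_le
  have hz : φ (jacobiSum χ χ) = 0 :=
    map_jacobiSum_eq_zero φ χ ((p - 1) / 3) (by omega) (by omega) h1
  rw [hφ] at hz
  obtain ⟨u, hu⟩ := hz
  have hJ := jacobi_mul_conj h h'
  have hpi := mul_conj_p hπ
  have hu1 : IsUnit u := by
    rw [isUnit_iff_norm]
    have := congrArg norm hJ
    rw [hu, norm_mul, norm_mul, norm_conj, norm_mul, hπ, norm_natCast] at this
    have hp0 : (p : ℤ) ≠ 0 := by exact_mod_cast hp.out.ne_zero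
    have h2 : u.norm ^ 2 = 1 := by
      apply mul_left_cancel₀ (pow_ne_zero 2 hp0)
      linear_combination this
    have := norm_nonneg u
    nlinarith
  have h3 := jacobi_mod_three hp3 h
  rw [hu] at h3
  rcases primary_unique hu1 hprim (re_not_dvd hp3 hπ hprim) (Or.inl h3) with h4 | h4
  · left; rw [hu, h4, mul_one]
  · right; rw [hu, h4]; ring

/-- **Lemma G**: the basic relation coming from Gauss sums. -/
theorem lemmaG (hp3 : p % 3 = 1) (hπ : π.norm = p) (hprim : (3 : ℤ) ∣ π.im) {l : Eis}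
    (hl : Prime l) (hl3 : ¬ l ∣ 3) (hlp : ¬ l ∣ (p : Eis)) :
    sym l π - sym l (conj π) = sym π ((N l : ℕ) : Eis) := by
  obtain ⟨φ, hφ⟩ := exists_hom hπ
  obtain ⟨χ, hχ1, hχ2, hχ3⟩ := exists_cubic_char hp3 φ
  have hJ := jacobi_eq hp3 hπ hprim φ hφ hχ1 hχ2 hχ3
  have hπ3 := not_dvd_three hπ hp3
  have hπpr := prime_of_norm_eq hπ
  have hpc := mul_conj_p hπ
  obtain ⟨q, hq, hlq, hn⟩ := exists_rational_prime hl
  have hqp : q ≠ p := by rintro rfl; exact hlp hlq
  have : Fact q.Prime := ⟨hq⟩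
  obtain ⟨n, hnN⟩ : ∃ n : ℕ, q ^ n = N l := by
    have := N_cast l
    rcases hn with hn | hn
    · refine ⟨1, ?_⟩
      rw [hn] at this
      rw [pow_one]; exact_mod_cast this.symm
    · refine ⟨2, ?_⟩
      rw [hn] at this
      exact_mod_cast this.symm
  -- the residue field
  let I : Ideal Eis := Ideal.span {l}
  have hI : I.IsPrime := (Ideal.span_singleton_prime hl.ne_zero).mpr hl
  have hI0 : I ≠ ⊥ := by
    intro h
    exact hl.ne_zero (Ideal.span_singleton_eq_bot.mp h)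
  have hImax : I.IsMaximal := IsPrime.to_maximal_ideal hI0
  let _ : Field (Eis ⧸ I) := Ideal.Quotient.field I
  let θ : Eis →+* Eis ⧸ I := Ideal.Quotient.mk I
  have hθ : ∀ x, θ x = 0 ↔ l ∣ x := fun x => by
    rw [Ideal.Quotient.eq_zero_iff_mem, Ideal.mem_span_singleton]
  have hchar : CharP (Eis ⧸ I) q := by
    have h0 : ((q : ℕ) : Eis ⧸ I) = 0 := by
      have := (hθ (q : Eis)).mpr hlq
      rwa [map_natCast] at this
    have := CharP.ringChar_of_prime_eq_zero hq h0
    rw [← this]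
    exact ringChar.charP _
  set χ' := χ.ringHomComp θ with hχ'
  have hord : orderOf χ' = 3 := by
    apply orderOf_eq_prime
    · rw [hχ', MulChar.ringHomComp_pow, char_cube hχ2, MulChar.ringHomComp_one]
    · intro h1
      obtain ⟨x, hx, hx2⟩ := hχ3
      have h2 : χ' x = 1 := by rw [h1]; exact MulChar.one_apply (isUnit_iff_ne_zero.mpr hx)
      rw [hχ', MulChar.ringHomComp_apply, hx2] at h2
      have h3 : θ (w - 1) = 0 := by rw [map_sub, h2, map_one, sub_self]
      rw [hθ] at h3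
      apply hl3
      refine h3.trans ⟨w ^ 2 - 1, by decide⟩
  have hkey := cubic_gauss (p := p) q hqp χ' hord n (by rw [hnN]; exact three_mul_div hl hl3)
  rw [hnN, hχ', jacobiSum_ringHomComp, MulChar.ringHomComp_apply] at hkey
  have hkey2 : θ (χ ((N l : ℕ) : ZMod p) * ((p : Eis) * jacobiSum χ χ) ^ ((N l - 1) / 3) - 1) = 0
      := by
    have e2 : θ (p : Eis) = ((p : ℕ) : Eis ⧸ I) := map_natCast _ _
    rw [map_sub, map_mul, map_pow, map_mul θ (p : Eis) (jacobiSum χ χ), e2, map_one, hkey,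
      sub_self]
  rw [hθ] at hkey2
  -- the value of χ at N l
  have hNp : ¬ π ∣ ((N l : ℕ) : Eis) := by
    intro h
    rw [← hφ, map_natCast, ZMod.natCast_eq_zero_iff, ← hnN] at h
    have := hp.out.dvd_of_dvd_pow h
    rw [Nat.prime_dvd_prime_iff_eq hp.out hq] at this
    exact hqp this.symm
  have hN0 : ((N l : ℕ) : ZMod p) ≠ 0 := by
    intro h
    apply hNp
    rw [← hφ, map_natCast, h]
  obtain ⟨i, hi⟩ := hχ2 _ hN0
  have hNpi : N π = p := by
    have := N_cast π
    rw [hπ] at this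
    exact_mod_cast this
  have hsym1 : (i : ZMod 3) = sym π ((N l : ℕ) : Eis) := by
    have h1 := hχ1 _ hN0
    have h2 := map_pow_eq hπpr hπ3 hNp φ ((hφ π).mpr dvd_rfl)
    rw [map_natCast, hNpi] at h2
    rw [h2, hi, ← map_pow, ← sub_eq_zero, ← map_sub, hφ] at h1
    have := w_pow_sub_dvd hπ3 h1
    rwa [ZMod.natCast_val, ZMod.cast_id', id] at this
  -- not divisible
  have hlπ : ¬ l ∣ π := fun h => hlp (h.trans (dvd_p hπ))
  have hlπ' : ¬ l ∣ conj π := fun h => hlp (h.trans (by rw [← hpc]; exact dvd_mul_left _ _))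
  have hlJ : sym l ((p : Eis) * jacobiSum χ χ) = 2 * sym l π + sym l (conj π) := by
    have e1 : sym l (jacobiSum χ χ) = sym l π := by
      rcases hJ with h | h
      · rw [h]
      · rw [h, sym_neg hl hl3 hlπ]
    have e2 : ¬ l ∣ jacobiSum χ χ := by
      rcases hJ with h | h
      · rw [h]; exact hlπ
      · rw [h]; rwa [dvd_neg]
    rw [sym_mul hl hl3 hlp e2, e1, ← hpc, sym_mul hl hl3 hlπ hlπ']
    ring
  have hlpJ : ¬ l ∣ (p : Eis) * jacobiSum χ χ := by
    intro h
    rcases hl.dvd_or_dvd h with h | h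
    · exact hlp h
    · rcases hJ with h2 | h2
      · rw [h2] at h; exact hlπ h
      · rw [h2, dvd_neg] at h; exact hlπ h
  have hs := sym_spec hl hl3 hlpJ
  rw [hi] at hkey2
  have h5 : l ∣ w ^ (i + (sym l ((p : Eis) * jacobiSum χ χ)).val) - w ^ 0 := by
    have e : w ^ (i + (sym l ((p : Eis) * jacobiSum χ χ)).val) - w ^ 0 =
      (w ^ i * ((p : Eis) * jacobiSum χ χ) ^ ((N l - 1) / 3) - 1) -
        w ^ i * (((p : Eis) * jacobiSum χ χ) ^ ((N l - 1) / 3) -
          w ^ (sym l ((p : Eis) * jacobiSum χ χ)).val) := by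
      rw [pow_add]; ring
    rw [e]
    exact dvd_sub hkey2 (dvd_mul_of_dvd_right hs _)
  have h6 := w_pow_sub_dvd hl3 h5
  push_cast at h6
  rw [ZMod.natCast_val, ZMod.cast_id', id, hlJ, hsym1] at h6
  have h3 : (3 : ZMod 3) = 0 := by decide
  linear_combination (-1 : ZMod 3) * h6 + sym l π * h3

end split

end Eis

end Pool.Agent.Lib_helper18
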