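import Pool.Agent.Lib_helper18.NJ
import Pool.Agent.Lib_helper18.Descent

/-!
# Preparations for Case II-b
-/

namespace Pool.Agent.Lib_helper18

open Eis Z9

/-- the real element attached to `γ` -/
def kap (γ : Eis) : Z9 := ⟨0, γ, w ^ 2 * conj γ⟩

/-- a unit -/
def th : Z9 := ⟨-1, w ^ 2, 1⟩

/-- minus its inverse -/
def th1 : Z9 := ⟨0, 1, w ^ 2⟩

theorem th_mul : th * th1 = -1 := by
  apply Z9.ext <;> simp only [th, th1, mul_a, mul_b, mul_c, neg_a, neg_b, neg_c, one_a, one_b,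
    one_c] <;> decide

theorem bar_th : bar th = th := by
  apply Z9.ext
  · rw [bar_a]; decide
  · rw [bar_b]; decide
  · rw [bar_c]; decide

theorem bar_kap (γ : Eis) : bar (kap γ) = kap γ := by
  have hw := w_cube
  apply Z9.ext
  · rw [bar_a]; simp [kap]
  · rw [bar_b]; simp only [kap, map_mul, map_pow, conj_w, conj_conj]
    linear_combination (w ^ 3 * γ + γ) * hw
  · rw [bar_c]; simp [kap]

theorem N_th : N th = 1 := by rw [N_def]; decide

theorem N_kap (γ : Eis) : N (kap γ) = w * γ ^ 3 + w ^ 2 * (conj γ) ^ 3 := by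
  rw [N_def]
  simp only [kap]
  have hw := w_cube
  linear_combination ((w ^ 5 + w ^ 2) * (conj γ) ^ 3) * hw

theorem three_vanish {F : Type*} [Field F] {α β χ s W : F} (h3 : (3 : F) ≠ 0) (hs : s ≠ 0)
    (hW : W ^ 2 + W + 1 = 0) (h0 : α + β * s + χ * s ^ 2 = 0)
    (h1 : α + β * (W * s) + χ * (W * s) ^ 2 = 0)
    (h2 : α + β * (W ^ 2 * s) + χ * (W ^ 2 * s) ^ 2 = 0) : α = 0 ∧ β = 0 ∧ χ = 0 := by
  have hW3 : W ^ 3 = 1 := by linear_combination (W - 1) * hW
  have e1 : 3 * α = 0 := by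
    linear_combination h0 + h1 + h2 - β * s * hW - χ * s ^ 2 * hW - χ * s ^ 2 * W * hW3
  have e2 : 3 * (β * s) = 0 := by
    linear_combination h0 + W ^ 2 * h1 + W * h2 - α * hW - 2 * β * s * hW3
      - χ * s ^ 2 * hW - (χ * s ^ 2 * (W + W ^ 2)) * hW3
  have e3 : 3 * (χ * s ^ 2) = 0 := by
    linear_combination h0 + W * h1 + W ^ 2 * h2 - α * hW - β * s * hW - β * s * W * hW3
      - (χ * s ^ 2 * (W ^ 3 + 2)) * hW3
  refine ⟨?_, ?_, ?_⟩
  · exact (mul_eq_zero.mp e1).resolve_left h3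
  · have := (mul_eq_zero.mp e2).resolve_left h3
    exact (mul_eq_zero.mp this).resolve_right hs
  · have := (mul_eq_zero.mp e3).resolve_left h3
    exact (mul_eq_zero.mp this).resolve_right (pow_ne_zero 2 hs)

end Pool.Agent.Lib_helper18
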