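import Pool.Agent.Lib_helper18.IIb1

/-!
# The set-up of Case II-b
-/

namespace Pool.Agent.Lib_helper18

open Eis Z9

/-- The data of Case II-b. -/
structure Ctx (p : ℕ) [Fact p.Prime] where
  π : Eis
  M : ℤ
  φ : Eis →+* ZMod p
  t : ZMod p
  m : ℕ
  ψ : MulChar (ZMod p) Z9
  γ : Eis
  s : ℤ
  e : ℕ
  hp9 : p % 9 = 1
  hπ : π.norm = p
  hM : π.im = 3 * M
  hφ : ∀ x, φ x = 0 ↔ conj π ∣ x
  ht : t ^ 3 = φ w
  hm : p - 1 = 9 * m
  hψ : IsPsi ψ t m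
  he : e = 1 ∨ e = 2
  hγ : Prim γ
  hcop : IsCoprime γ (conj γ)
  hs3 : ¬ (3 : ℤ) ∣ s
  hs : w * γ ^ 3 + w ^ 2 * (conj γ) ^ 3 = -((p : Eis) ^ e * (s : Eis) ^ 3)
  hkt : φ γ + φ (w ^ 2 * conj γ) * t = 0

namespace Ctx

variable {p : ℕ} [hp : Fact p.Prime] (X : Ctx p)

/-- image of the cube root of unity -/
def W : ZMod p := X.φ w

/-- the residue map at `π` -/
def φ' : Eis →+* ZMod p := X.φ.comp Eis.conj

include X in
theorem hp3 : p % 3 = 1 := by have := X.hp9; omega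

theorem φ'_zero (x : Eis) : X.φ' x = 0 ↔ X.π ∣ x := by
  rw [φ', RingHom.comp_apply, X.hφ, conj_dvd_iff]

theorem φ'_w : X.φ' w = X.W ^ 2 := comp_conj_w X.φ

theorem W_rel : X.W ^ 2 + X.W + 1 = 0 := hom_w X.φ

theorem W3 : X.W ^ 3 = 1 := by linear_combination (X.W - 1) * X.W_rel

theorem tW : X.t ^ 3 = X.W := X.ht

theorem t9 : X.t ^ 9 = 1 := t_pow_nine X.ht

theorem t_ne : X.t ≠ 0 := by
  intro h
  have := X.t9
  rw [h] at this
  norm_num at this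

theorem W_ne : X.W ≠ 0 := by
  rw [← X.tW]; exact pow_ne_zero _ X.t_ne

include X in
theorem three_ne : (3 : ZMod p) ≠ 0 := by
  intro h
  have h1 : ((3 : ℕ) : ZMod p) = 0 := by exact_mod_cast h
  rw [ZMod.natCast_eq_zero_iff] at h1
  have := (Nat.prime_dvd_prime_iff_eq hp.out Nat.prime_three).mp h1
  have := X.hp3
  omega

theorem W_ne_one : X.W - 1 ≠ 0 := by
  intro h
  have h1 : X.W = 1 := by linear_combination h
  have h2 := X.W_rel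
  rw [h1] at h2
  apply X.three_ne
  linear_combination h2

theorem W2_ne_one : X.W ^ 2 - 1 ≠ 0 := by
  intro h
  have h1 : (X.W ^ 2 - 1) * X.W = -(X.W - 1) := by linear_combination X.W3
  rw [h, zero_mul] at h1
  apply X.W_ne_one
  linear_combination h1

/-- the six evaluation maps -/
def E1 : Z9 →+* ZMod p := ev X.φ X.t X.ht
def E4 : Z9 →+* ZMod p := ev X.φ (X.t ^ 4) (by
  have := X.t9; rw [← X.ht]
  linear_combination (X.t ^ 3) * this)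
def E7 : Z9 →+* ZMod p := ev X.φ (X.t ^ 7) (by
  have := X.t9; rw [← X.ht]
  linear_combination (X.t ^ 12 + X.t ^ 3) * this)
def E2 : Z9 →+* ZMod p := ev X.φ' (X.t ^ 2) (by
  rw [X.φ'_w, ← X.tW]; ring)
def E5 : Z9 →+* ZMod p := ev X.φ' (X.t ^ 5) (by
  have := X.t9; rw [X.φ'_w, ← X.tW]
  linear_combination (X.t ^ 6) * this)
def E8 : Z9 →+* ZMod p := ev X.φ' (X.t ^ 8) (by
  have := X.t9; rw [X.φ'_w, ← X.tW]
  linear_combination (X.t ^ 15 + X.t ^ 6) * this)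

theorem E1_apply (x : Z9) : X.E1 x = X.φ x.a + X.φ x.b * X.t + X.φ x.c * X.t ^ 2 := rfl
theorem E4_apply (x : Z9) :
    X.E4 x = X.φ x.a + X.φ x.b * X.t ^ 4 + X.φ x.c * (X.t ^ 4) ^ 2 := rfl
theorem E7_apply (x : Z9) :
    X.E7 x = X.φ x.a + X.φ x.b * X.t ^ 7 + X.φ x.c * (X.t ^ 7) ^ 2 := rfl
theorem E2_apply (x : Z9) :
    X.E2 x = X.φ' x.a + X.φ' x.b * X.t ^ 2 + X.φ' x.c * (X.t ^ 2) ^ 2 := rfl
theorem E5_apply (x : Z9) :
    X.E5 x = X.φ' x.a + X.φ' x.b * X.t ^ 5 + X.φ' x.c * (X.t ^ 5) ^ 2 := rfl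
theorem E8_apply (x : Z9) :
    X.E8 x = X.φ' x.a + X.φ' x.b * X.t ^ 8 + X.φ' x.c * (X.t ^ 8) ^ 2 := rfl

theorem E1_z : X.E1 z = X.t ^ 1 := by rw [pow_one]; exact ev_z _ _ _
theorem E4_z : X.E4 z = X.t ^ 4 := ev_z _ _ _
theorem E7_z : X.E7 z = X.t ^ 7 := ev_z _ _ _
theorem E2_z : X.E2 z = X.t ^ 2 := ev_z _ _ _
theorem E5_z : X.E5 z = X.t ^ 5 := ev_z _ _ _
theorem E8_z : X.E8 z = X.t ^ 8 := ev_z _ _ _

theorem hcopp (l : Eis) (hl : Prime l) : ¬ (l ∣ X.γ ∧ l ∣ conj X.γ) := by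
  rintro ⟨h1, h2⟩
  exact hl.not_isUnit (X.hcop.isUnit_of_dvd' h1 h2)

theorem hπc : (conj X.π).norm = p := conj_norm X.hπ
theorem hπcpr : Prime (conj X.π) := prime_of_norm_eq X.hπc
theorem hπpr : Prime X.π := prime_of_norm_eq X.hπ

/-- the key nonvanishing -/
def H : ZMod p := X.φ (w ^ 2 * conj X.γ)

theorem g_eq : X.φ X.γ = -(X.H * X.t) := by
  have := X.hkt
  rw [H]; linear_combination this

theorem H_ne : X.H ≠ 0 := by
  intro h
  have h1 := X.g_eq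
  rw [h, zero_mul, neg_zero] at h1
  rw [H, map_mul] at h
  have h2 : X.φ (w ^ 2) ≠ 0 := by
    rw [map_pow]; exact pow_ne_zero _ X.W_ne
  have h3 := (mul_eq_zero.mp h).resolve_left h2
  rw [X.hφ] at h1 h3
  exact X.hcopp _ X.hπcpr ⟨h1, h3⟩

theorem φ'_γ : X.φ' X.γ = X.W * X.H := by
  rw [φ', RingHom.comp_apply, H, map_mul, map_pow]
  have := X.W3
  rw [W] at *
  linear_combination (-X.φ (conj X.γ)) * this

theorem φ'_γ' : X.φ' (w ^ 2 * conj X.γ) = -(X.W * X.H * X.t) := by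
  rw [φ', RingHom.comp_apply, map_mul, map_pow, conj_conj, conj_w, ← pow_mul, map_mul, map_pow,
    X.g_eq]
  have := X.W3
  rw [W] at *
  linear_combination (-X.H * X.t * X.φ w) * this

theorem E1_kap : X.E1 (kap X.γ) = 0 := by
  rw [E1_apply]; simp only [kap, map_zero]
  have h : X.φ (w ^ 2 * conj X.γ) = X.H := rfl
  rw [h, X.g_eq]; ring

theorem E4_kap : X.E4 (kap X.γ) = X.H * X.t ^ 5 * (X.W - 1) := by
  rw [E4_apply]; simp only [kap, map_zero]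
  have h : X.φ (w ^ 2 * conj X.γ) = X.H := rfl
  rw [h, X.g_eq, ← X.tW]; ring

theorem E7_kap : X.E7 (kap X.γ) = X.H * X.t ^ 8 * (X.W ^ 2 - 1) := by
  rw [E7_apply]; simp only [kap, map_zero]
  have h : X.φ (w ^ 2 * conj X.γ) = X.H := rfl
  rw [h, X.g_eq, ← X.tW]; ring

theorem E2_kap : X.E2 (kap X.γ) = -(X.W * X.H * X.t ^ 2 * (X.W - 1)) := by
  rw [E2_apply]; simp only [kap, map_zero]
  rw [X.φ'_γ, X.φ'_γ', ← X.tW]; ring

theorem E5_kap : X.E5 (kap X.γ) = -(X.W * X.H * X.t ^ 5 * (X.W ^ 2 - 1)) := by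
  rw [E5_apply]; simp only [kap, map_zero]
  rw [X.φ'_γ, X.φ'_γ', ← X.tW]; ring

theorem E8_kap : X.E8 (kap X.γ) = 0 := by
  rw [E8_apply]; simp only [kap, map_zero]
  rw [X.φ'_γ, X.φ'_γ']
  have := X.t9
  linear_combination (-X.W * X.H * X.t ^ 8) * this

/-- the normalised real element -/
def kp : Z9 := kap X.γ * th

theorem hom_th_ne {F : Type*} [Field F] (E : Z9 →+* F) : E th ≠ 0 := by
  intro h
  have h1 := congrArg E th_mul
  rw [map_mul, h, zero_mul, map_neg, map_one] at h1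
  have : (1 : F) = 0 := by linear_combination h1
  exact one_ne_zero this

theorem E1_kp : X.E1 X.kp = 0 := by rw [kp, map_mul, E1_kap, zero_mul]
theorem E8_kp : X.E8 X.kp = 0 := by rw [kp, map_mul, E8_kap, zero_mul]
theorem E4_kp_ne : X.E4 X.kp ≠ 0 := by
  rw [kp, map_mul, E4_kap]
  exact mul_ne_zero (mul_ne_zero (mul_ne_zero X.H_ne (pow_ne_zero _ X.t_ne)) X.W_ne_one)
    (hom_th_ne _)
theorem E7_kp_ne : X.E7 X.kp ≠ 0 := by
  rw [kp, map_mul, E7_kap]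
  exact mul_ne_zero (mul_ne_zero (mul_ne_zero X.H_ne (pow_ne_zero _ X.t_ne)) X.W2_ne_one)
    (hom_th_ne _)
theorem E2_kp_ne : X.E2 X.kp ≠ 0 := by
  rw [kp, map_mul, E2_kap]
  exact mul_ne_zero (neg_ne_zero.mpr (mul_ne_zero (mul_ne_zero (mul_ne_zero X.W_ne X.H_ne)
    (pow_ne_zero _ X.t_ne)) X.W_ne_one)) (hom_th_ne _)
theorem E5_kp_ne : X.E5 X.kp ≠ 0 := by
  rw [kp, map_mul, E5_kap]
  exact mul_ne_zero (neg_ne_zero.mpr (mul_ne_zero (mul_ne_zero (mul_ne_zero X.W_ne X.H_ne)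
    (pow_ne_zero _ X.t_ne)) X.W2_ne_one)) (hom_th_ne _)

theorem bar_kp : bar X.kp = X.kp := by rw [kp, map_mul, bar_kap, bar_th]

theorem N_kp : N X.kp = -((p : Eis) ^ X.e * (X.s : Eis) ^ 3) := by
  rw [kp, Z9.N_mul, N_th, N_kap, X.hs, mul_one]

/-- An element vanishing at all six places above `p` is divisible by `p`. -/
theorem exists_div {x : Z9} (h1 : X.E1 x = 0) (h4 : X.E4 x = 0) (h7 : X.E7 x = 0)
    (h2 : X.E2 x = 0) (h5 : X.E5 x = 0) (h8 : X.E8 x = 0) : ∃ G : Z9, (p : Z9) * G = x := by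
  have e4 : X.t ^ 4 = X.W * X.t := by rw [← X.tW]; ring
  have e7 : X.t ^ 7 = X.W ^ 2 * X.t := by rw [← X.tW]; ring
  rw [E1_apply] at h1
  rw [E4_apply, e4] at h4
  rw [E7_apply, e7] at h7
  obtain ⟨a1, b1, c1⟩ := three_vanish X.three_ne X.t_ne X.W_rel h1 h4 h7
  have e2 : X.t ^ 2 = X.t ^ 2 := rfl
  have e5 : X.t ^ 5 = X.W * X.t ^ 2 := by rw [← X.tW]; ring
  have e8 : X.t ^ 8 = X.W ^ 2 * X.t ^ 2 := by rw [← X.tW]; ring
  rw [E2_apply] at h2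
  rw [E5_apply, e5] at h5
  rw [E8_apply, e8] at h8
  obtain ⟨a2, b2, c2⟩ := three_vanish X.three_ne (pow_ne_zero 2 X.t_ne) X.W_rel h2 h5 h8
  have key : ∀ y : Eis, X.φ y = 0 → X.φ' y = 0 → ∃ y', y = (p : Eis) * y' := by
    intro y hy1 hy2
    rw [X.hφ] at hy1
    rw [X.φ'_zero] at hy2
    obtain ⟨y1, hy1⟩ := hy1
    rw [hy1] at hy2
    have h := (X.hπpr.dvd_or_dvd hy2).resolve_left (not_dvd_conj X.hp3 X.hπ)
    obtain ⟨y2, hy2⟩ := h
    refine ⟨y2, ?_⟩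
    rw [hy1, hy2, ← mul_conj_p X.hπ]; ring
  obtain ⟨a', ha⟩ := key _ a1 a2
  obtain ⟨b', hb⟩ := key _ b1 b2
  obtain ⟨c', hc⟩ := key _ c1 c2
  refine ⟨⟨a', b', c'⟩, ?_⟩
  apply Z9.ext
  · simp only [mul_a, natCast_a, natCast_b, natCast_c]; rw [ha]; ring
  · simp only [mul_b, natCast_a, natCast_b, natCast_c]; rw [hb]; ring
  · simp only [mul_c, natCast_a, natCast_b, natCast_c]; rw [hc]; ring

end Ctx

end Pool.Agent.Lib_helper18
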