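import Pool.Agent.Lib_helper18.IIb2

/-!
# The core of Case II-b
-/

namespace Pool.Agent.Lib_helper18

open Eis Z9

theorem three_coords (x : Z9) : ((3 : Z9) * x).a = 3 * x.a ∧ ((3 : Z9) * x).b = 3 * x.b ∧
    ((3 : Z9) * x).c = 3 * x.c := by
  have e : (3 : Z9) = ((3 : ℕ) : Z9) := by norm_num
  have e' : ((3 : ℕ) : Eis) = 3 := by norm_num
  rw [e]
  refine ⟨?_, ?_, ?_⟩
  · rw [mul_a, natCast_a, natCast_b, natCast_c, e']; ring
  · rw [mul_b, natCast_a, natCast_b, natCast_c, e']; ring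
  · rw [mul_c, natCast_a, natCast_b, natCast_c, e']; ring

theorem int_coords (n : ℤ) (x : Z9) : ((n : Z9) * x).a = n * x.a ∧ ((n : Z9) * x).b = n * x.b ∧
    ((n : Z9) * x).c = n * x.c := by
  refine ⟨?_, ?_, ?_⟩
  · rw [mul_a, intCast_a, intCast_b, intCast_c]; ring
  · rw [mul_b, intCast_a, intCast_b, intCast_c]; ring
  · rw [mul_c, intCast_a, intCast_b, intCast_c]; ring

theorem kap_eq {γ γ1 : Eis} {ε : ℤ} (h : γ = (ε : Eis) + 3 * γ1) :
    kap γ = (ε : Z9) * th1 + 3 * kap γ1 := by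
  obtain ⟨a1, b1, c1⟩ := three_coords (kap γ1)
  obtain ⟨a2, b2, c2⟩ := int_coords ε th1
  have h3 : conj (3 : Eis) = 3 := conj_natCast 3
  apply Z9.ext
  · rw [add_a, a1, a2]; simp [kap, th1]
  · rw [add_b, b1, b2]; simp only [kap, th1]; rw [h]; ring
  · rw [add_c, c1, c2]; simp only [kap, th1]; rw [h, map_add, map_mul, conj_intCast, h3]; ring

theorem three_T : (3 : Z9) = (-ι (w ^ 2) * (z ^ 2 + z + 1) ^ 2) * (z - 1) ^ 2 := by
  have h1 : (z ^ 2 + z + 1) ^ 2 * (z - 1) ^ 2 = (ι w - 1) ^ 2 := by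
    rw [← z_cube]; ring
  have h2 : (-ι (w ^ 2)) * (ι w - 1) ^ 2 = 3 := by
    have h3 : -(w ^ 2) * (w - 1) ^ 2 = 3 := by decide
    have := congrArg ι h3
    rw [map_mul, map_neg, map_pow ι (w - 1) 2, map_sub, map_one] at this
    rw [this]
    have e : (3 : Eis) = ((3 : ℕ) : Eis) := by norm_num
    rw [e, map_natCast]; norm_num
  calc (3 : Z9) = (-ι (w ^ 2)) * (ι w - 1) ^ 2 := h2.symm
    _ = (-ι (w ^ 2)) * ((z ^ 2 + z + 1) ^ 2 * (z - 1) ^ 2) := by rw [h1]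
    _ = _ := by ring

theorem lam_dvd_sub_conj (x : Eis) : lam ∣ x - conj x := by
  rw [lam_dvd_iff]
  simp only [sub_re, sub_im, conj_re, conj_im]
  exact ⟨x.im, by ring⟩

theorem conj_lam_eq : conj lam = -w ^ 2 * lam := by decide

theorem norm_cast_zmod (x : Eis) : (x.norm : ZMod 3) = ((x.re + x.im : ℤ) : ZMod 3) ^ 2 := by
  have h : x.norm = (x.re + x.im) ^ 2 - 3 * (x.re * x.im) := by rw [norm_def]; ring
  rw [h]
  push_cast
  have h3 : (3 : ZMod 3) = 0 := by decide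
  rw [h3]; ring

theorem lam_dvd_zmod {x : Eis} : lam ∣ x ↔ ((x.re + x.im : ℤ) : ZMod 3) = 0 := by
  rw [lam_dvd_iff, ZMod.intCast_zmod_eq_zero_iff_dvd]; norm_num

namespace Ctx

variable {p : ℕ} [hp : Fact p.Prime] (X : Ctx p)

theorem exists_kp : ∃ ε : ℤ, (ε = 1 ∨ ε = -1) ∧ ∃ k : Z9, X.kp = -(ε : Z9) + 3 * k := by
  obtain ⟨⟨d, hd⟩, h2⟩ := X.hγ
  obtain ⟨ε, hε, c, hc⟩ : ∃ ε : ℤ, (ε = 1 ∨ ε = -1) ∧ ∃ c, X.γ.re = ε + 3 * c := by
    have : X.γ.re % 3 = 1 ∨ X.γ.re % 3 = 2 := by omega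
    rcases this with h | h
    · exact ⟨1, Or.inl rfl, X.γ.re / 3, by omega⟩
    · exact ⟨-1, Or.inr rfl, (X.γ.re + 1) / 3, by omega⟩
  have h : X.γ = (ε : Eis) + 3 * ⟨c, d⟩ := by
    rw [three_eq_cast]
    ext
    · simp only [add_re, mul_re, intCast_re, intCast_im]; rw [hc]; ring
    · simp only [add_im, mul_im, intCast_re, intCast_im]; rw [hd]; ring
  refine ⟨ε, hε, kap ⟨c, d⟩ * th, ?_⟩
  rw [kp, kap_eq h]
  have := th_mul
  linear_combination (ε : Z9) * this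

/-- `G` modulo `(z-1)^2`. -/
theorem G_mod {A B : ℕ} {G : Z9} (R1 : G * JJ X.ψ (8 * A) = X.kp * JJ X.ψ B)
    {ε : ℤ} {k : Z9} (hk : X.kp = -(ε : Z9) + 3 * k) :
    ∃ Y : Z9, G = -(ε : Z9) + Y * (z - 1) ^ 2 := by
  obtain ⟨y1, h1⟩ := X.hψ.JJ_mod X.hm (8 * A)
  obtain ⟨y2, h2⟩ := X.hψ.JJ_mod X.hm B
  rw [h1, h2, hk] at R1
  refine ⟨G * y1 + (-ι (w ^ 2) * (z ^ 2 + z + 1) ^ 2) * k + (ε : Z9) * y2 - 3 * k * y2, ?_⟩
  have h3 := three_T
  linear_combination -R1 + k * h3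

theorem G_bar {A B : ℕ} (hA : ¬ 3 ∣ A) (hB : ¬ 3 ∣ B) {G : Z9}
    (R1 : G * JJ X.ψ (8 * A) = X.kp * JJ X.ψ B) : G * bar G = X.kp ^ 2 := by
  have h1 := congrArg bar R1
  rw [map_mul, map_mul, X.bar_kp, X.hψ.map_JJ bar 8 bar_z, X.hψ.map_JJ bar 8 bar_z,
    X.hψ.JJ_mod_nine (8 * (8 * A))] at h1
  have h2 : 8 * (8 * A) % 9 = A % 9 := by omega
  rw [h2, ← X.hψ.JJ_mod_nine] at h1
  have h3 := X.hψ.JJ_mul hA
  have h4 := X.hψ.JJ_mul hB
  have hp0 : (p : Z9) ≠ 0 := by exact_mod_cast hp.out.ne_zero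
  apply mul_right_cancel₀ hp0
  calc G * bar G * (p : Z9) = (G * JJ X.ψ (8 * A)) * (bar G * JJ X.ψ A) := by rw [← h3]; ring
    _ = (X.kp * JJ X.ψ B) * (X.kp * JJ X.ψ (8 * B)) := by rw [R1, h1]
    _ = X.kp ^ 2 * (JJ X.ψ B * JJ X.ψ (8 * B)) := by ring
    _ = X.kp ^ 2 * (p : Z9) := by rw [h4]

/-- The 3-adic shape of `G`. -/
theorem G_shape {A B : ℕ} (hA : ¬ 3 ∣ A) (hB : ¬ 3 ∣ B) {G : Z9}
    (R1 : G * JJ X.ψ (8 * A) = X.kp * JJ X.ψ B) :
    ¬ lam ∣ G.a ∧ ∃ b' c' : Eis, G.b = lam * b' ∧ G.c = lam * c' ∧ lam ∣ b' - c' := by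
  obtain ⟨ε, hε, k, hk⟩ := X.exists_kp
  obtain ⟨Y, hY⟩ := X.G_mod R1 hk
  have hbar := X.G_bar hA hB R1
  obtain ⟨ya, yb, yc⟩ := T2_coords Y
  have hGa : G.a = -(ε : Eis) + (Y.a + w * Y.b - 2 * w * Y.c) := by
    rw [hY, add_a, ya, neg_a, intCast_a]
  have hGb : G.b = -2 * Y.a + Y.b + w * Y.c := by
    rw [hY, add_b, yb, neg_b, intCast_b]; ring
  have hGc : G.c = Y.a - 2 * Y.b + Y.c := by
    rw [hY, add_c, yc, neg_c, intCast_c]; ring
  have h3l := three_eq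
  have hle := lam_eq
  have d1 : lam ∣ G.b - G.c := by
    refine ⟨w ^ 2 * lam * Y.a - w ^ 2 * lam * Y.b - Y.c, ?_⟩
    rw [hGb, hGc]
    linear_combination (-Y.a + Y.b) * h3l + Y.c * hle
  have d2 : lam ∣ G.a + (ε : Eis) - G.b := by
    refine ⟨-w ^ 2 * lam * Y.a - Y.b + w ^ 3 * lam * Y.c, ?_⟩
    rw [hGa, hGb]
    linear_combination (Y.a - w * Y.c) * h3l + Y.b * hle
  -- the norm condition
  have hεε : (ε : Z9) ^ 2 = 1 := by
    rcases hε with h | h <;> rw [h] <;> norm_num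
  have hsq : G * bar G = 1 + 3 * (-2 * (ε : Z9) * k + 3 * k ^ 2) := by
    rw [hbar, hk]; linear_combination hεε
  set X0 := -2 * (ε : Z9) * k + 3 * k ^ 2 with hX0
  obtain ⟨xa, xb, xc⟩ := three_coords X0
  have hw := w_cube
  have ca := congrArg Z9.a hsq
  rw [mul_a, bar_a, bar_b, bar_c, add_a, one_a, xa] at ca
  have cb := congrArg Z9.b hsq
  rw [mul_b, bar_a, bar_b, bar_c, add_b, one_b, xb] at cb
  have na : ((G.a.norm + G.b.norm + G.c.norm - 1 : ℤ) : Eis) = 3 * X0.a := by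
    push_cast
    rw [← mul_conj, ← mul_conj, ← mul_conj]
    linear_combination ca - (G.b * conj G.b + G.c * conj G.c) * hw
  have na2 : lam ∣ ((G.a.norm + G.b.norm + G.c.norm - 1 : ℤ) : Eis) := by
    rw [na]; exact Dvd.dvd.mul_right lam_dvd_three _
  rw [lam_dvd_zmod] at d1 d2 na2
  simp only [intCast_re, intCast_im, add_zero, sub_re, sub_im, add_re, add_im] at d1 d2 na2
  push_cast at d1 d2 na2
  rw [norm_cast_zmod, norm_cast_zmod, norm_cast_zmod] at na2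
  push_cast at na2
  have hε3 : (ε : ZMod 3) = 1 ∨ (ε : ZMod 3) = -1 := by
    rcases hε with h | h <;> rw [h]
    · left; norm_num
    · right; norm_num
  have hsolve : ∀ a b c E : ZMod 3, (E = 1 ∨ E = -1) → b - c = 0 → a + E - b = 0 →
      a ^ 2 + b ^ 2 + c ^ 2 - 1 = 0 → a ≠ 0 ∧ b = 0 ∧ c = 0 := by decide
  have hfin := hsolve ((G.a.re : ZMod 3) + G.a.im) ((G.b.re : ZMod 3) + G.b.im)
    ((G.c.re : ZMod 3) + G.c.im) (ε : ZMod 3) hε3 (by linear_combination d1)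
    (by linear_combination d2) (by linear_combination na2)
  obtain ⟨f1, f2, f3⟩ := hfin
  have g1 : ¬ lam ∣ G.a := by
    rw [lam_dvd_zmod]; push_cast; exact f1
  have g2 : lam ∣ G.b := by
    rw [lam_dvd_zmod]; push_cast; exact f2
  have g3 : lam ∣ G.c := by
    rw [lam_dvd_zmod]; push_cast; exact f3
  obtain ⟨b', hb'⟩ := g2
  obtain ⟨c', hc'⟩ := g3
  refine ⟨g1, b', c', hb', hc', ?_⟩
  have hlam0 : lam ≠ 0 := prime_lam.ne_zero
  have hcb : b' * conj G.a - w ^ 4 * (G.a * conj c') =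
      lam * (w ^ 5 * (c' * conj b') - w ^ 2 * X0.b) := by
    apply mul_left_cancel₀ hlam0
    rw [hb', hc', map_mul, map_mul, conj_lam_eq] at cb
    linear_combination cb + X0.b * h3l
  have hkey : lam ∣ G.a * (b' - c') := by
    have e : G.a * (b' - c') = (b' * conj G.a - w ^ 4 * (G.a * conj c')) +
        b' * (G.a - conj G.a) - G.a * (c' - conj c') + lam * (-(G.a * conj c')) := by
      rw [hle]
      linear_combination (w * (G.a * conj c')) * hw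
    rw [e, hcb]
    exact dvd_add (dvd_sub (dvd_add (dvd_mul_right _ _)
      (Dvd.dvd.mul_left (lam_dvd_sub_conj _) _)) (Dvd.dvd.mul_left (lam_dvd_sub_conj _) _))
      (dvd_mul_right _ _)
  exact (prime_lam.dvd_or_dvd hkey).resolve_left g1

/-- Killing the Jacobi sums. -/
theorem R4 {A B : ℕ} (hB : ¬ 3 ∣ B) {G : Z9} (R1 : G * JJ X.ψ (8 * A) = X.kp * JJ X.ψ B) :
    G * (JJ X.ψ (8 * A) * JJ X.ψ (8 * B) * th1) = -(kap X.γ * (p : Z9)) := by
  have h4 := X.hψ.JJ_mul hB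
  calc G * (JJ X.ψ (8 * A) * JJ X.ψ (8 * B) * th1) =
      (G * JJ X.ψ (8 * A)) * JJ X.ψ (8 * B) * th1 := by ring
    _ = X.kp * (JJ X.ψ B * JJ X.ψ (8 * B)) * th1 := by rw [R1]; ring
    _ = kap X.γ * (th * th1) * (p : Z9) := by rw [h4, kp]; ring
    _ = _ := by rw [th_mul]; ring

/-- H3 -/
theorem G_prim {A B : ℕ} (hB : ¬ 3 ∣ B) {G : Z9}
    (R1 : G * JJ X.ψ (8 * A) = X.kp * JJ X.ψ B) (n2 : X.E2 G ≠ 0) (l : Eis) (hl : Prime l)
    (hlne : ¬ Associated l (conj X.π)) : ¬ (l ∣ G.a ∧ l ∣ G.b ∧ l ∣ G.c) := by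
  rintro ⟨ha, hb, hc⟩
  by_cases hlp : l ∣ (p : Eis)
  · have h1 := (norm_of_dvd_p X.hπ hl hlp).2.resolve_right hlne
    apply n2
    rw [E2_apply, (X.φ'_zero _).mpr (h1.symm.dvd.trans ha),
      (X.φ'_zero _).mpr (h1.symm.dvd.trans hb), (X.φ'_zero _).mpr (h1.symm.dvd.trans hc)]
    ring
  · obtain ⟨Y, hR⟩ : ∃ Y : Z9, G * Y = -(kap X.γ * (p : Z9)) := ⟨_, X.R4 hB R1⟩
    have cb := congrArg Z9.b hR
    have cc := congrArg Z9.c hR
    rw [mul_b, neg_b, mul_b, natCast_a, natCast_b, natCast_c] at cb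
    rw [mul_c, neg_c, mul_c, natCast_a, natCast_b, natCast_c] at cc
    simp only [kap, mul_zero, zero_mul, zero_add, add_zero] at cb cc
    have d1 : l ∣ X.γ * (p : Eis) := by
      rw [← dvd_neg, ← cb]
      exact dvd_add (dvd_add (Dvd.dvd.mul_right ha _) (Dvd.dvd.mul_right hb _))
        (Dvd.dvd.mul_left (Dvd.dvd.mul_right hc _) _)
    have d2 : l ∣ w ^ 2 * conj X.γ * (p : Eis) := by
      rw [← dvd_neg, ← cc]
      exact dvd_add (dvd_add (Dvd.dvd.mul_right ha _) (Dvd.dvd.mul_right hb _))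
        (Dvd.dvd.mul_right hc _)
    have e1 := (hl.dvd_or_dvd d1).resolve_right hlp
    have e2 := (hl.dvd_or_dvd ((hl.dvd_or_dvd d2).resolve_right hlp)).resolve_left
      (not_dvd_of_isUnit hl (isUnit_w.pow 2))
    exact X.hcopp l hl ⟨e1, e2⟩

/-- H4 -/
theorem G_cop {A B : ℕ} (hB : ¬ 3 ∣ B) {G : Z9}
    (R1 : G * JJ X.ψ (8 * A) = X.kp * JJ X.ψ B) (n2 : X.E2 G ≠ 0) (n5 : X.E5 G ≠ 0)
    (l : Eis) (hl : Prime l) (hl3 : ¬ l ∣ 3) (hlne : ¬ Associated l (conj X.π))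
    (hlc : ¬ l ∣ G.c) (hD : l ∣ DD G) (hbc : l ∣ w ^ 2 * G.b ^ 3 - G.c ^ 3) : False := by
  -- general facts over a field
  have key : ∀ (K : Type) [Field K] (θ : Eis →+* K), (∀ x, θ x = 0 ↔ l ∣ x) →
      ∃ τ : K, τ ≠ 0 ∧ τ ^ 3 = θ w ∧
        θ G.a + θ G.b * (θ w * τ) + θ G.c * (θ w * τ) ^ 2 = 0 ∧
        θ G.a + θ G.b * (θ w ^ 2 * τ) + θ G.c * (θ w ^ 2 * τ) ^ 2 = 0 := by
    intro K _ θ hθ
    have hc0 : θ G.c ≠ 0 := fun h => hlc ((hθ _).mp h)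
    have hD' : θ G.b ^ 2 - θ G.a * θ G.c = 0 := by
      have := (hθ _).mpr hD
      simpa only [DD, map_sub, map_mul, map_pow] using this
    have hbc' : θ w ^ 2 * θ G.b ^ 3 - θ G.c ^ 3 = 0 := by
      have := (hθ _).mpr hbc
      simpa only [map_sub, map_mul, map_pow] using this
    have hw := hom_w θ
    have hw3 : θ w ^ 3 = 1 := by rw [← map_pow, w_cube, map_one]
    have hb0 : θ G.b ≠ 0 := by
      intro h
      rw [h] at hbc'
      apply hc0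
      have : θ G.c ^ 3 = 0 := by linear_combination -hbc'
      exact pow_eq_zero_iff (by norm_num) |>.mp this
    have ha : θ G.a = θ G.b ^ 2 / θ G.c := by
      rw [eq_div_iff hc0]; linear_combination -hD'
    refine ⟨θ G.b / θ G.c, div_ne_zero hb0 hc0, ?_, ?_, ?_⟩
    · rw [div_pow, div_eq_iff (pow_ne_zero 3 hc0)]
      linear_combination (θ w) * hbc' - (θ G.b ^ 3) * hw3
    · rw [ha]; field_simp
      linear_combination (θ G.b ^ 2) * hw
    · rw [ha]; field_simp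
      linear_combination (θ G.b ^ 2) * (hw + (θ w) * hw3)
  by_cases hlp : l ∣ (p : Eis)
  · have h1 := (norm_of_dvd_p X.hπ hl hlp).2.resolve_right hlne
    obtain ⟨τ, hτ0, hτ3, f1, f2⟩ := key (ZMod p) X.φ' (fun x => by
      rw [X.φ'_zero]; exact h1.symm.dvd_iff_dvd_left)
    rw [X.φ'_w] at hτ3 f1 f2
    have hW3 := X.W3
    have ht2 : (X.t ^ 2) ^ 3 = X.W ^ 2 := by rw [← X.tW]; ring
    have e5 : X.t ^ 5 = X.W * X.t ^ 2 := by rw [← X.tW]; ring
    have hfac : (τ - X.t ^ 2) * ((τ - X.W * X.t ^ 2) * (τ - X.W ^ 2 * X.t ^ 2)) = 0 := by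
      have hWr := X.W_rel
      linear_combination hτ3 - ht2 + (τ * X.t ^ 4 * X.W - τ ^ 2 * X.t ^ 2) * hWr
        - (X.t ^ 6) * hW3
    have n2' := n2
    have n5' := n5
    rw [E2_apply] at n2'
    rw [E5_apply, e5] at n5'
    rcases mul_eq_zero.mp hfac with h | h
    · -- τ = t^2 : W^4 τ = W t^2 = t^5
      have hτ : τ = X.t ^ 2 := sub_eq_zero.mp h
      apply n5'
      rw [hτ] at f2
      have e : (X.W ^ 2) ^ 2 * X.t ^ 2 = X.W * X.t ^ 2 := by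
        linear_combination (X.W * X.t ^ 2) * hW3
      rw [e] at f2
      exact f2
    · rcases mul_eq_zero.mp h with h | h
      · -- τ = W t^2 : W^2 τ = t^2
        have hτ : τ = X.W * X.t ^ 2 := sub_eq_zero.mp h
        apply n2'
        rw [hτ] at f1
        have e : X.W ^ 2 * (X.W * X.t ^ 2) = X.t ^ 2 := by
          linear_combination (X.t ^ 2) * hW3
        rw [e] at f1
        exact f1
      · -- τ = W^2 t^2 : W^2 τ = W t^2
        have hτ : τ = X.W ^ 2 * X.t ^ 2 := sub_eq_zero.mp h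
        apply n5'
        rw [hτ] at f1
        have e : X.W ^ 2 * (X.W ^ 2 * X.t ^ 2) = X.W * X.t ^ 2 := by
          linear_combination (X.W * X.t ^ 2) * hW3
        rw [e] at f1
        exact f1
  · -- l does not divide p
    let I : Ideal Eis := Ideal.span {l}
    have hI : I.IsPrime := (Ideal.span_singleton_prime hl.ne_zero).mpr hl
    have hI0 : I ≠ ⊥ := by
      intro h
      exact hl.ne_zero (Ideal.span_singleton_eq_bot.mp h)
    have hImax : I.IsMaximal := IsPrime.to_maximal_ideal hI0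
    let _ : Field (Eis ⧸ I) := Ideal.Quotient.field I
    let θ : Eis →+* Eis ⧸ I := Ideal.Quotient.mk I
    have hθ : ∀ x, θ x = 0 ↔ l ∣ x := fun x => by
      rw [Ideal.Quotient.eq_zero_iff_mem, Ideal.mem_span_singleton]
    obtain ⟨τ, hτ0, hτ3, f1, f2⟩ := key (Eis ⧸ I) θ hθ
    have hw := hom_w θ
    have hw3 : θ w ^ 3 = 1 := by rw [← map_pow, w_cube, map_one]
    have hw0 : θ w ≠ 0 := fun h => not_dvd_of_isUnit hl isUnit_w ((hθ _).mp h)
    have t1 : (θ w * τ) ^ 3 = θ w := by rw [mul_pow, hw3, hτ3, one_mul]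
    have t2 : (θ w ^ 2 * τ) ^ 3 = θ w := by
      rw [mul_pow, hτ3]; linear_combination (θ w) * (θ w ^ 3 + 1) * hw3
    have hp0 : θ (p : Eis) ≠ 0 := fun h => hlp ((hθ _).mp h)
    have hR := X.R4 hB R1
    have g : ∀ (τ' : Eis ⧸ I) (ht' : τ' ^ 3 = θ w), τ' ≠ 0 →
        θ G.a + θ G.b * τ' + θ G.c * τ' ^ 2 = 0 →
        θ X.γ + θ (w ^ 2 * conj X.γ) * τ' = 0 := by
      intro τ' ht' hτ'0 hG
      have h1 := congrArg (ev θ τ' ht') hR
      have h2 : ev θ τ' ht' G = 0 := hG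
      have h3 : ev θ τ' ht' (p : Z9) = θ (p : Eis) := by rw [map_natCast, map_natCast]
      rw [map_mul, h2, zero_mul, map_neg, map_mul, h3] at h1
      have h4 : ev θ τ' ht' (kap X.γ) = 0 := by
        rcases mul_eq_zero.mp (neg_eq_zero.mp h1.symm) with h | h
        · exact h
        · exact absurd h hp0
      rw [ev_apply] at h4
      simp only [kap, map_zero] at h4
      apply mul_left_cancel₀ hτ'0
      linear_combination h4
    have g1 := g _ t1 (mul_ne_zero hw0 hτ0) f1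
    have g2 := g _ t2 (mul_ne_zero (pow_ne_zero 2 hw0) hτ0) f2
    have hw1 : θ w - 1 ≠ 0 := by
      intro h
      have : θ (w - 1) = 0 := by rw [map_sub, map_one]; exact h
      rw [hθ] at this
      apply hl3
      exact this.trans ⟨w ^ 2 - 1, by decide⟩
    have g3 : θ (w ^ 2 * conj X.γ) = 0 := by
      have h1 : θ (w ^ 2 * conj X.γ) * (θ w * τ * (θ w - 1)) = 0 := by
        linear_combination g2 - g1
      exact (mul_eq_zero.mp h1).resolve_right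
        (mul_ne_zero (mul_ne_zero hw0 hτ0) hw1)
    have g4 : θ X.γ = 0 := by rw [g3, zero_mul, add_zero] at g1; exact g1
    rw [hθ] at g3 g4
    have g5 := (hl.dvd_or_dvd g3).resolve_left (not_dvd_of_isUnit hl (isUnit_w.pow 2))
    exact X.hcopp l hl ⟨g4, g5⟩

end Ctx

end Pool.Agent.Lib_helper18
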