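import Pool.Agent.Lib_helper18.IIb3

/-!
# Conclusion of Case II-b
-/

namespace Pool.Agent.Lib_helper18

open Eis Z9

namespace Ctx

variable {p : ℕ} [hp : Fact p.Prime] (X : Ctx p)

/-- cubic residue character as a power -/
def P (y : ZMod p) : ZMod p := y ^ (3 * X.m)

theorem P_mul (x y : ZMod p) : X.P (x * y) = X.P x * X.P y := mul_pow _ _ _

theorem P_pow (x : ZMod p) (n : ℕ) : X.P (x ^ n) = X.P x ^ n := by
  rw [P, P, ← pow_mul, ← pow_mul, mul_comm]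

theorem P_cube {x : ZMod p} (hx : x ≠ 0) : X.P x ^ 3 = 1 := by
  rw [P, ← pow_mul]
  have : 3 * X.m * 3 = p - 1 := by rw [X.hm]; ring
  rw [this]
  exact ZMod.pow_card_sub_one_eq_one hx

theorem P_neg_one : X.P (-1) = 1 := by
  rw [P]; exact ((m_even X.hm).mul_left 3).neg_one_pow

theorem P_W : X.P X.W = 1 := by
  rw [P, pow_mul, X.W3, one_pow]

theorem P_ne {x : ZMod p} (hx : x ≠ 0) : X.P x ≠ 0 := pow_ne_zero _ hx

theorem P_neg (x : ZMod p) : X.P (-x) = X.P x := by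
  have : -x = (-1) * x := by ring
  rw [this, P_mul, P_neg_one, one_mul]

theorem core {A B : ℕ} (hA : ¬ 3 ∣ A) (hB : ¬ 3 ∣ B) {G : Z9}
    (R1 : G * JJ X.ψ (8 * A) = X.kp * JJ X.ψ B) {f : ℕ} (hf : f = 1 ∨ f = 2) {S : Eis}
    (hS : ¬ lam ∣ S) (H1 : Z9.N G = conj X.π ^ f * S ^ 3)
    (n2 : X.E2 G ≠ 0) (n4 : X.E4 G ≠ 0) (n5 : X.E5 G ≠ 0) (n7 : X.E7 G ≠ 0) :
    X.P (X.E4 G) = X.P (X.E7 G) := by
  have e4 : X.t ^ 4 = X.W * X.t := by rw [← X.tW]; ring
  have e7 : X.t ^ 7 = X.W ^ 2 * X.t := by rw [← X.tW]; ring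
  have hprod : X.φ (Z9.N G) = X.E1 G * X.E4 G * X.E7 G := by
    rw [hom_N X.φ X.t X.ht, E1_apply, E4_apply, E7_apply, e4, e7]; rfl
  have hφc : X.φ (conj X.π) = 0 := (X.hφ _).mpr dvd_rfl
  have n1 : X.E1 G = 0 := by
    have hf0 : f ≠ 0 := by omega
    rw [H1, map_mul, map_pow, hφc, zero_pow hf0, zero_mul] at hprod
    rcases mul_eq_zero.mp hprod.symm with h | h
    · exact (mul_eq_zero.mp h).resolve_right n4
    · exact absurd h n7
  rw [E1_apply] at n1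
  obtain ⟨r1, r2, r3, r4⟩ := root_relations n1 X.tW X.W_rel
  set Δ1 := X.φ G.b - X.W * (X.φ G.c * X.t) with hΔ1
  set Δ2 := X.φ G.b - X.W ^ 2 * (X.φ G.c * X.t) with hΔ2
  have f4 : X.E4 G = (X.W - 1) * X.t * Δ2 := by rw [E4_apply, e4]; exact r1
  have f7 : X.E7 G = -(X.W ^ 2 * (X.W - 1) * X.t * Δ1) := by rw [E7_apply, e7]; exact r2
  have hU : X.φ (UU G) = Δ1 * Δ2 * Δ2 := by
    rw [← r4]
    simp only [UU, map_add, map_sub, map_mul, map_pow, map_one]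
    rfl
  have hΔ2ne : Δ2 ≠ 0 := by
    intro h; apply n4; rw [f4, h, mul_zero]
  have hΔ1ne : Δ1 ≠ 0 := by
    intro h; apply n7; rw [f7, h]; ring
  have H6 : ¬ conj X.π ∣ UU G := by
    rw [← X.hφ, hU]
    exact mul_ne_zero (mul_ne_zero hΔ1ne hΔ2ne) hΔ2ne
  obtain ⟨H2a, b', c', H2b, H2c, H2⟩ := X.G_shape hA hB R1
  have hM2 : (conj X.π).im = 3 * (-X.M) := by rw [conj_im, X.hM]; ring
  have hre := re_not_dvd X.hp3 X.hπ ⟨X.M, X.hM⟩
  -- H5
  have H5 : lam ∣ b' → sym (conj X.π) lam = 0 := by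
    intro hb
    have hc : lam ∣ c' := by
      have := dvd_sub hb H2
      simpa using this
    obtain ⟨b2, hb2⟩ := hb
    obtain ⟨c2, hc2⟩ := hc
    obtain ⟨C, hC, y, hy⟩ := cube_mod_nine H2a
    obtain ⟨C1, hC1, y1, hy1⟩ := cube_mod_nine hS
    have hw := w_cube
    have h9 : (9 : Eis) = w * lam ^ 4 := by decide
    have h3l := three_eq
    have hN : conj X.π ^ f * (C1 : Eis) = (C : Eis) + 9 * (y + w ^ 2 * lam ^ 2 *
        (w * b2 ^ 3 + w ^ 2 * c2 ^ 3) - 3 * w ^ 3 * (G.a * b2 * c2) - conj X.π ^ f * y1) := by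
      have h1 := H1
      rw [N_def, H2b, H2c, hb2, hc2, hy1, hy] at h1
      linear_combination -h1 + (w ^ 2 * lam ^ 2 * (w * b2 ^ 3 + w ^ 2 * c2 ^ 3)
        - 3 * w ^ 3 * (G.a * b2 * c2)) * (-h9) + (-(lam ^ 6 * (w * b2 ^ 3 + w ^ 2 * c2 ^ 3))
        + 3 * w * lam ^ 4 * (G.a * b2 * c2)) * hw
    have h9im : ∀ z : Eis, (9 * z : Eis).im = 9 * z.im := by
      intro z
      have : (9 : Eis) = ((9 : ℤ) : Eis) := by ext <;> simp
      rw [this, mul_im, intCast_re, intCast_im]; ring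
    have him := congrArg Eis.im hN
    rw [add_im, h9im, intCast_im, zero_add, mul_im, intCast_re, intCast_im, mul_zero, zero_add,
      mul_zero, sub_zero] at him
    have h10 : (9 : ℤ) ∣ (conj X.π ^ f).im := by
      have h11 : (9 : ℤ) ∣ (conj X.π ^ f).im * C1 := ⟨_, him⟩
      rcases hC1 with h | h <;> rw [h] at h11
      · simpa using h11
      · simpa using h11
    have h3M : (3 : ℤ) ∣ X.M := by
      rcases hf with h | h
      · rw [h, pow_one, hM2] at h10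
        omega
      · rw [h, pow_two, mul_im, hM2, conj_re, X.hM] at h10
        have h12 : (9 : ℤ) ∣ 6 * (X.π.re * X.M) := by
          have h13 : 6 * (X.π.re * X.M) = -((X.π.re - 3 * X.M) * (3 * -X.M) +
            3 * -X.M * (X.π.re - 3 * X.M) - 3 * -X.M * (3 * -X.M)) + 9 * X.M ^ 2 := by ring
          rw [h13]
          exact dvd_add (by rw [dvd_neg]; exact h10) (dvd_mul_right _ _)
        have h13 : (3 : ℤ) ∣ X.π.re * X.M := by omega
        exact (Int.prime_three.dvd_or_dvd h13).resolve_left hre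
    rw [sym_lam' X.hp9 X.hπc hM2]
    obtain ⟨c, hc⟩ := h3M
    rw [hc]
    push_cast
    have h3 : (3 : ZMod 3) = 0 := by decide
    rw [h3]; ring
  have hsym := sym_UU X.hp9 X.hπ X.hM hf H1 H2a H2b H2c H2
    (fun l hl _ hlne => X.G_prim hB R1 n2 l hl hlne)
    (fun l hl hl3 hlne _ hlc hD hbc => X.G_cop hB R1 n2 n5 l hl hl3 hlne hlc hD hbc) H5 H6
  have hNc : (Eis.N (conj X.π) - 1) / 3 = 3 * X.m := by
    have : Eis.N (conj X.π) = p := by
      have := N_cast (conj X.π)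
      rw [X.hπc] at this
      exact_mod_cast this
    have h2 := X.hm
    rw [this]; omega
  have hPU := map_pow_eq X.hπcpr (not_dvd_three X.hπc X.hp3) H6 X.φ hφc
  rw [hNc, hsym, ZMod.val_zero, pow_zero, hU] at hPU
  have hPU' : X.P Δ1 * X.P Δ2 * X.P Δ2 = 1 := by
    rw [← P_mul, ← P_mul]; exact hPU
  have hP3 := X.P_cube hΔ2ne
  have hPeq : X.P Δ1 = X.P Δ2 := by
    linear_combination (-X.P Δ1) * hP3 + X.P Δ2 * hPU'
  rw [f4, f7, P_neg, P_mul, P_mul, P_mul, P_mul, P_mul, P_pow, P_W, hPeq]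
  ring

end Ctx

end Pool.Agent.Lib_helper18
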