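import Pool.Agent.Lib_helper18.IIb4

/-!
# Case II-b
-/

namespace Pool.Agent.Lib_helper18

open Eis Z9

namespace Ctx

variable {p : ℕ} [hp : Fact p.Prime] (X : Ctx p)

theorem one_sub_W_ne : 1 - X.W ≠ 0 := by
  intro h
  apply X.W_ne_one
  linear_combination -h

theorem one_sub_t_ne : 1 - X.t ≠ 0 := by
  intro h
  have h1 : X.t = 1 := by linear_combination -h
  have h2 := X.tW
  rw [h1] at h2
  apply X.W_ne_one
  linear_combination -h2

theorem P_kp : X.P (X.E4 X.kp) * X.P (1 - X.W) = X.P (X.E7 X.kp) := by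
  have hWr := X.W_rel
  have htW := X.tW
  have hrel : X.t ^ 6 + X.t ^ 3 + 1 = 0 := by
    rw [← htW] at hWr; linear_combination hWr
  have e4 : X.E4 th = -1 + X.t + X.W ^ 2 * X.t ^ 2 := by
    rw [E4_apply]; simp only [th, map_neg, map_one, map_pow]
    have h : X.φ w = X.W := rfl
    rw [h, ← htW]
    have h9 := X.t9
    linear_combination (X.t) * h9
  have e7 : X.E7 th = -1 + X.W * X.t + X.W * X.t ^ 2 := by
    rw [E7_apply]; simp only [th, map_neg, map_one, map_pow]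
    have h : X.φ w = X.W := rfl
    rw [h, ← htW]
    have h9 := X.t9
    linear_combination (X.t ^ 4 + X.t ^ 5) * h9
  have hid : X.E4 th * (1 - X.W) = (1 - X.t) ^ 3 * X.E7 th := by
    rw [e4, e7, ← htW]
    linear_combination (-X.t ^ 5 + 3 * X.t ^ 2 - 2 * X.t) * hrel
  have hk : X.E4 (kap X.γ) = -X.E7 (kap X.γ) := by
    rw [E4_kap, E7_kap, ← htW]
    linear_combination (X.H * X.t ^ 5 * (X.t ^ 3 - 1)) * hrel
  rw [kp, map_mul, map_mul, hk]
  calc X.P (-X.E7 (kap X.γ) * X.E4 th) * X.P (1 - X.W)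
      = X.P (X.E7 (kap X.γ)) * X.P (X.E4 th * (1 - X.W)) := by
        rw [P_mul, P_mul, P_neg]; ring
    _ = X.P (X.E7 (kap X.γ)) * (X.P (1 - X.t) ^ 3 * X.P (X.E7 th)) := by
        rw [hid, P_mul, P_pow]
    _ = X.P (X.E7 (kap X.γ) * X.E7 th) := by
        rw [X.P_cube X.one_sub_t_ne, P_mul]; ring

/-- `(3m)!` modulo `p` -/
def f3 : ZMod p := (((3 * X.m).factorial : ℕ) : ZMod p)

theorem m_pos : 0 < X.m := by
  have h1 := X.hm
  have h2 := hp.out.two_le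
  omega

theorem f3_ne : X.f3 ≠ 0 := fact_ne_zero _ (by
  have h1 := X.hm
  have h2 := X.m_pos
  omega)

theorem j_ne {r : ℕ} (hr : 5 ≤ r) (hr2 : r ≤ 8) : jv p X.m r ≠ 0 := jv_ne_zero X.hm hr hr2

theorem P_ratio : X.P (jv p X.m 8) * X.P X.f3 = X.P (jv p X.m 5) := by
  have h := congrArg X.P (jv_ratio X.hm)
  have h4 : (((4 * X.m).factorial : ℕ) : ZMod p) ≠ 0 := fact_ne_zero _ (by
    have h1 := X.hm
    have h2 := X.m_pos
    omega)
  rw [P_mul, P_neg, P_mul, P_pow, X.P_cube (mul_ne_zero h4 (pow_ne_zero _ X.three_ne)),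
    one_mul] at h
  exact h

/-- norms of the Jacobi sums -/
theorem norms : ∃ u : Eis, (u = 1 ∨ u = -1) ∧
    Z9.N (JJ X.ψ 1) = u * (X.π * conj X.π ^ 2) ∧ Z9.N (JJ X.ψ 4) = u * (X.π * conj X.π ^ 2) ∧
    Z9.N (JJ X.ψ 8) = u * (conj X.π * X.π ^ 2) ∧ Z9.N (JJ X.ψ 5) = u * (conj X.π * X.π ^ 2) := by
  obtain ⟨u, hu, h1⟩ := norm_J X.hp9 X.hπ ⟨X.M, X.hM⟩ X.hφ X.ht X.hm X.hψ
  have h4 : Z9.N (JJ X.ψ 4) = u * (X.π * conj X.π ^ 2) := by
    have := X.hψ.map_JJ σ 4 σ_z 1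
    rw [← h1, ← N_σ (JJ X.ψ 1), this]
  have hcu : conj u = u := by
    rcases hu with h | h <;> rw [h]
    · exact map_one _
    · rw [map_neg, map_one]
  have h8 : Z9.N (JJ X.ψ 8) = u * (conj X.π * X.π ^ 2) := by
    have := X.hψ.map_JJ bar 8 bar_z 1
    have e : JJ X.ψ 8 = bar (JJ X.ψ 1) := this.symm
    rw [e, N_bar, h1, map_mul, map_mul, map_pow, conj_conj, hcu]
  have h5 : Z9.N (JJ X.ψ 5) = u * (conj X.π * X.π ^ 2) := by
    have := X.hψ.map_JJ bar 8 bar_z 4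
    rw [X.hψ.JJ_mod_nine (8 * 4)] at this
    have e : JJ X.ψ 5 = bar (JJ X.ψ 4) := this.symm
    rw [e, N_bar, h4, map_mul, map_mul, map_pow, conj_conj, hcu]
  exact ⟨u, hu, h1, h4, h8, h5⟩

theorem lam_s : ¬ lam ∣ (X.s : Eis) := by
  rw [lam_dvd_iff]
  simp only [intCast_re, intCast_im, add_zero]
  exact X.hs3

theorem pc_eq : (p : Eis) = X.π * conj X.π := (mul_conj_p X.hπ).symm

theorem u_ne {u : Eis} (hu : u = 1 ∨ u = -1) : u ≠ 0 := by
  rcases hu with h | h <;> rw [h]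
  · exact one_ne_zero
  · exact neg_ne_zero.mpr one_ne_zero

theorem rel_of_G {A B : ℕ} (hA : ¬ 3 ∣ A) (hB : ¬ 3 ∣ B) {G : Z9}
    (hG : (p : Z9) * G = X.kp * JJ X.ψ A * JJ X.ψ B) :
    G * JJ X.ψ (8 * A) = X.kp * JJ X.ψ B ∧ G * JJ X.ψ (8 * B) = X.kp * JJ X.ψ A := by
  have h1 := X.hψ.JJ_mul hA
  have h2 := X.hψ.JJ_mul hB
  have hp0 : (p : Z9) ≠ 0 := by exact_mod_cast hp.out.ne_zero
  constructor
  · apply mul_left_cancel₀ hp0
    linear_combination (JJ X.ψ (8 * A)) * hG + (X.kp * JJ X.ψ B) * h1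
  · apply mul_left_cancel₀ hp0
    linear_combination (JJ X.ψ (8 * B)) * hG + (X.kp * JJ X.ψ A) * h2

/-- the outcome for `e = 1` -/
theorem out_one (he : X.e = 1) : X.P (1 - X.W) * X.P X.f3 = 1 := by
  have hm := X.hm
  -- values
  have v1 : X.E1 X.kp = 0 := X.E1_kp
  obtain ⟨G, hG⟩ := X.exists_div (x := X.kp * JJ X.ψ 1 * JJ X.ψ 4)
    (by rw [map_mul, map_mul, v1]; ring)
    (by rw [map_mul, map_mul, X.hψ.ev_JJ hm X.E4 X.E4_z (a := 1) (r := 4) (by norm_num)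
          (by norm_num), jv_zero hm (by norm_num) (by norm_num)]; ring)
    (by rw [map_mul, map_mul, X.hψ.ev_JJ hm X.E7 X.E7_z (a := 4) (r := 1) (by norm_num)
          (by norm_num), jv_zero hm (by norm_num) (by norm_num)]; ring)
    (by rw [map_mul, map_mul, X.hψ.ev_JJ hm X.E2 X.E2_z (a := 1) (r := 2) (by norm_num)
          (by norm_num), jv_zero hm (by norm_num) (by norm_num)]; ring)
    (by rw [map_mul, map_mul, X.hψ.ev_JJ hm X.E5 X.E5_z (a := 4) (r := 2) (by norm_num)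
          (by norm_num), jv_zero hm (by norm_num) (by norm_num)]; ring)
    (by rw [map_mul, map_mul, X.E8_kp]; ring)
  obtain ⟨R1, R2⟩ := X.rel_of_G (by norm_num) (by norm_num) hG
  obtain ⟨u, hu, u1, u4, u8, u5⟩ := X.norms
  -- norm of G
  have hNG : Z9.N G = conj X.π ^ 2 * (-(X.s : Eis)) ^ 3 := by
    have h := congrArg Z9.N R1
    rw [Z9.N_mul, Z9.N_mul, X.N_kp, u4, he, pow_one] at h
    rw [show 8 * 1 = 8 from rfl, u8, X.pc_eq] at h
    have hne : u * (conj X.π * X.π ^ 2) ≠ 0 :=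
      mul_ne_zero (u_ne hu) (mul_ne_zero X.hπcpr.ne_zero (pow_ne_zero 2 X.hπpr.ne_zero))
    apply mul_right_cancel₀ hne
    linear_combination h
  -- evaluations
  have a2 := congrArg X.E2 R1
  rw [map_mul, map_mul, X.hψ.ev_JJ hm X.E2 X.E2_z (a := 4) (r := 8) (by norm_num)
    (by norm_num)] at a2
  have n2 : X.E2 G ≠ 0 := by
    intro h; rw [h, zero_mul] at a2
    exact mul_ne_zero X.E2_kp_ne (X.j_ne (by norm_num) (by norm_num)) a2.symm
  have a5 := congrArg X.E5 R2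
  rw [map_mul, map_mul, X.hψ.ev_JJ hm X.E5 X.E5_z (a := 1) (r := 5) (by norm_num)
    (by norm_num)] at a5
  have n5 : X.E5 G ≠ 0 := by
    intro h; rw [h, zero_mul] at a5
    exact mul_ne_zero X.E5_kp_ne (X.j_ne (by norm_num) (by norm_num)) a5.symm
  have a4 := congrArg X.E4 R1
  rw [map_mul, map_mul, X.hψ.ev_JJ hm X.E4 X.E4_z (a := 4) (r := 7) (by norm_num)
    (by norm_num), X.hψ.ev_JJ hm X.E4 X.E4_z (a := 8 * 1) (r := 5) (by norm_num)
    (by norm_num)] at a4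
  have n4 : X.E4 G ≠ 0 := by
    intro h; rw [h, zero_mul] at a4
    exact mul_ne_zero X.E4_kp_ne (X.j_ne (by norm_num) (by norm_num)) a4.symm
  have a7 := congrArg X.E7 R2
  rw [map_mul, map_mul, X.hψ.ev_JJ hm X.E7 X.E7_z (a := 1) (r := 7) (by norm_num)
    (by norm_num), X.hψ.ev_JJ hm X.E7 X.E7_z (a := 8 * 4) (r := 8) (by norm_num)
    (by norm_num)] at a7
  have n7 : X.E7 G ≠ 0 := by
    intro h; rw [h, zero_mul] at a7
    exact mul_ne_zero X.E7_kp_ne (X.j_ne (by norm_num) (by norm_num)) a7.symm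
  have hcore := X.core (by norm_num) (by norm_num) R1 (Or.inr rfl)
    (by rw [dvd_neg]; exact X.lam_s) hNG n2 n4 n5 n7
  have b4 := congrArg X.P a4
  have b7 := congrArg X.P a7
  rw [P_mul, P_mul] at b4 b7
  have hkp := X.P_kp
  have hr := X.P_ratio
  have ne7 := X.P_ne (X.j_ne (r := 7) (by norm_num) (by norm_num))
  have ne8 := X.P_ne (X.j_ne (r := 8) (by norm_num) (by norm_num))
  have neG := X.P_ne n4
  rw [← hcore, ← hkp] at b7
  -- g P5 = a P7 ; g P8 = a c P7 ; P8 F = P5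
  apply mul_left_cancel₀ (mul_ne_zero neG ne8)
  linear_combination X.P (1 - X.W) * X.P (X.E4 G) * hr + X.P (1 - X.W) * b4 - b7

/-- the outcome for `e = 2` -/
theorem out_two (he : X.e = 2) : X.P (1 - X.W) = X.P X.f3 := by
  have hm := X.hm
  have v1 : X.E1 X.kp = 0 := X.E1_kp
  obtain ⟨G, hG⟩ := X.exists_div (x := X.kp * JJ X.ψ 8 * JJ X.ψ 5)
    (by rw [map_mul, map_mul, v1]; ring)
    (by rw [map_mul, map_mul, X.hψ.ev_JJ hm X.E4 X.E4_z (a := 5) (r := 2) (by norm_num)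
          (by norm_num), jv_zero hm (by norm_num) (by norm_num)]; ring)
    (by rw [map_mul, map_mul, X.hψ.ev_JJ hm X.E7 X.E7_z (a := 8) (r := 2) (by norm_num)
          (by norm_num), jv_zero hm (by norm_num) (by norm_num)]; ring)
    (by rw [map_mul, map_mul, X.hψ.ev_JJ hm X.E2 X.E2_z (a := 5) (r := 1) (by norm_num)
          (by norm_num), jv_zero hm (by norm_num) (by norm_num)]; ring)
    (by rw [map_mul, map_mul, X.hψ.ev_JJ hm X.E5 X.E5_z (a := 8) (r := 4) (by norm_num)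
          (by norm_num), jv_zero hm (by norm_num) (by norm_num)]; ring)
    (by rw [map_mul, map_mul, X.E8_kp]; ring)
  obtain ⟨R1, R2⟩ := X.rel_of_G (by norm_num) (by norm_num) hG
  obtain ⟨u, hu, u1, u4, u8, u5⟩ := X.norms
  have hNG : Z9.N G = conj X.π ^ 1 * (-(X.π * (X.s : Eis))) ^ 3 := by
    have h := congrArg Z9.N R1
    rw [Z9.N_mul, Z9.N_mul, X.N_kp, u5, he] at h
    rw [X.hψ.JJ_mod_nine (8 * 8), show 8 * 8 % 9 = 1 from rfl, u1, X.pc_eq] at h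
    have hne : u * (X.π * conj X.π ^ 2) ≠ 0 :=
      mul_ne_zero (u_ne hu) (mul_ne_zero X.hπpr.ne_zero (pow_ne_zero 2 X.hπcpr.ne_zero))
    apply mul_right_cancel₀ hne
    linear_combination h
  have a2 := congrArg X.E2 R2
  rw [map_mul, map_mul, X.hψ.ev_JJ hm X.E2 X.E2_z (a := 8) (r := 7) (by norm_num)
    (by norm_num)] at a2
  have n2 : X.E2 G ≠ 0 := by
    intro h; rw [h, zero_mul] at a2
    exact mul_ne_zero X.E2_kp_ne (X.j_ne (by norm_num) (by norm_num)) a2.symm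
  have a5 := congrArg X.E5 R1
  rw [map_mul, map_mul, X.hψ.ev_JJ hm X.E5 X.E5_z (a := 5) (r := 7) (by norm_num)
    (by norm_num)] at a5
  have n5 : X.E5 G ≠ 0 := by
    intro h; rw [h, zero_mul] at a5
    exact mul_ne_zero X.E5_kp_ne (X.j_ne (by norm_num) (by norm_num)) a5.symm
  have a4 := congrArg X.E4 R2
  rw [map_mul, map_mul, X.hψ.ev_JJ hm X.E4 X.E4_z (a := 8) (r := 5) (by norm_num)
    (by norm_num), X.hψ.ev_JJ hm X.E4 X.E4_z (a := 8 * 5) (r := 7) (by norm_num)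
    (by norm_num)] at a4
  have n4 : X.E4 G ≠ 0 := by
    intro h; rw [h, zero_mul] at a4
    exact mul_ne_zero X.E4_kp_ne (X.j_ne (by norm_num) (by norm_num)) a4.symm
  have a7 := congrArg X.E7 R1
  rw [map_mul, map_mul, X.hψ.ev_JJ hm X.E7 X.E7_z (a := 5) (r := 8) (by norm_num)
    (by norm_num), X.hψ.ev_JJ hm X.E7 X.E7_z (a := 8 * 8) (r := 7) (by norm_num)
    (by norm_num)] at a7
  have n7 : X.E7 G ≠ 0 := by
    intro h; rw [h, zero_mul] at a7
    exact mul_ne_zero X.E7_kp_ne (X.j_ne (by norm_num) (by norm_num)) a7.symm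
  have hlamS : ¬ lam ∣ -(X.π * (X.s : Eis)) := by
    rw [dvd_neg]
    intro h
    rcases prime_lam.dvd_or_dvd h with h | h
    · exact (Prim.not_lam_dvd ⟨⟨X.M, X.hM⟩, re_not_dvd X.hp3 X.hπ ⟨X.M, X.hM⟩⟩) h
    · exact X.lam_s h
  have hcore := X.core (by norm_num) (by norm_num) R1 (Or.inl rfl) hlamS hNG n2 n4 n5 n7
  have b4 := congrArg X.P a4
  have b7 := congrArg X.P a7
  rw [P_mul, P_mul] at b4 b7
  have hkp := X.P_kp
  have hr := X.P_ratio
  have ne8 := X.P_ne (X.j_ne (r := 8) (by norm_num) (by norm_num))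
  have nek := X.P_ne X.E4_kp_ne
  rw [← hcore, ← hkp] at b7
  apply mul_left_cancel₀ (mul_ne_zero nek ne8)
  linear_combination b4 - b7 - X.P (X.E4 X.kp) * hr

/-- the value of `π` -/
theorem pi_value : ∃ δ : ZMod p, (δ = 1 ∨ δ = -1) ∧
    ((X.φ r3) ^ 3 * (X.M : ZMod p)) * X.f3 ^ 3 = δ := by
  have hp3 := X.hp3
  have hm := X.hm
  obtain ⟨χ, h1, h2, h3⟩ := exists_cubic_char hp3 X.φ
  have hJ := jacobi_eq hp3 X.hπc (conj_im_dvd ⟨X.M, X.hM⟩) X.φ X.hφ h1 h2 h3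
  have hcomp := char_conj h2
  have hJc : conj (jacobiSum χ χ) = jacobiSum χ⁻¹ χ⁻¹ := by
    rw [← jacobiSum_ringHomComp, hcomp]
  have hinv : χ⁻¹ = χ ^ 2 := by
    rw [inv_eq_iff_mul_eq_one, ← pow_succ', char_cube h2]
  have hval : X.φ (conj (jacobiSum χ χ)) = jv p X.m 6 := by
    rw [hJc, hinv]
    have hk : ∀ x : ZMod p, x ≠ 0 → X.φ ((χ ^ 2) x) = x ^ (X.m * 6) := by
      intro x hx
      rw [MulChar.pow_apply' _ (by norm_num), map_pow, h1 x hx, ← pow_mul]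
      congr 1; omega
    rw [map_jacobiSum X.φ (χ ^ 2) (X.m * 6) (Nat.mul_pos X.m_pos (by norm_num)) hk]
    rfl
  have hsix := jv_six hm
  have hpi := hom_pi X.φ X.hφ X.hM
  rcases hJ with h | h
  · rw [h, conj_conj] at hval
    refine ⟨-1, Or.inr rfl, ?_⟩
    rw [hval] at hpi
    rw [f3]
    linear_combination ((((3 * X.m).factorial : ℕ) : ZMod p) ^ 3) * hpi - hsix
  · rw [h, map_neg, conj_conj, map_neg] at hval
    refine ⟨1, Or.inl rfl, ?_⟩
    rw [f3]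
    linear_combination ((((3 * X.m).factorial : ℕ) : ZMod p) ^ 3) * hpi
      + (((3 * X.m).factorial : ℕ) : ZMod p) ^ 3 * hval + hsix

theorem conclusion : Concl p X.e X.M := by
  obtain ⟨δ, hδ, hM⟩ := X.pi_value
  have hr3 : X.φ r3 = X.W * (1 - X.W) := by
    rw [r3, lam_eq, map_mul, map_sub, map_one]; rfl
  have hr2 : (X.φ r3) ^ 2 = -3 := by rw [← map_pow, r3_sq, map_neg, hom_three]
  have hPr : X.P (X.φ r3) = X.P (1 - X.W) := by rw [hr3, P_mul, P_W, one_mul]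
  have hr0 : X.φ r3 ≠ 0 := by rw [hr3]; exact mul_ne_zero X.W_ne X.one_sub_W_ne
  have hf0 := X.f3_ne
  have hδm : δ ^ X.m = 1 := by
    rcases hδ with h | h
    · rw [h, one_pow]
    · rw [h]; exact (m_even X.hm).neg_one_pow
  have hδ0 : δ ≠ 0 := by
    rcases hδ with h | h <;> rw [h] <;> simp
  have hM0 : (X.M : ZMod p) ≠ 0 := by
    intro h; rw [h] at hM; apply hδ0; rw [← hM]; ring
  have hMm : (X.M : ZMod p) ^ X.m * (X.P (1 - X.W) * X.P X.f3) = 1 := by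
    have h1 : (((X.φ r3) ^ 3 * (X.M : ZMod p)) * X.f3 ^ 3) ^ X.m = δ ^ X.m := by rw [hM]
    rw [hδm, mul_pow, mul_pow, ← pow_mul, ← pow_mul] at h1
    rw [← hPr, P, P]
    linear_combination h1
  rcases X.he with he | he
  · have hout := X.out_one he
    rw [hout, mul_one] at hMm
    obtain ⟨τ, hτ⟩ := exists_root X.hm hM0 hMm
    refine ⟨τ, ?_⟩
    rw [he, hτ]; norm_num
  · have hout := X.out_two he
    have h27 : (27 : ZMod p) ≠ 0 := by
      have : (27 : ZMod p) = 3 ^ 3 := by norm_num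
      rw [this]; exact pow_ne_zero _ X.three_ne
    have h27m : (27 : ZMod p) ^ X.m = X.P (1 - X.W) ^ 2 := by
      have h1 : (27 : ZMod p) = -((X.φ r3) ^ 3) ^ 2 := by
        have : ((X.φ r3) ^ 3) ^ 2 = ((X.φ r3) ^ 2) ^ 3 := by ring
        rw [this, hr2]; norm_num
      rw [h1, neg_pow, (m_even X.hm).neg_one_pow, one_mul, ← pow_mul, ← pow_mul, ← hPr, P,
        ← pow_mul]
      congr 1; ring
    have hx0 : (X.M : ZMod p) ^ 2 / 27 ≠ 0 := div_ne_zero (pow_ne_zero 2 hM0) h27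
    have hc3 := X.P_cube X.one_sub_W_ne
    have hc0 := X.P_ne X.one_sub_W_ne
    rw [← hout] at hMm
    have hxm : ((X.M : ZMod p) ^ 2 / 27) ^ X.m = 1 := by
      rw [div_pow, h27m, div_eq_one_iff_eq (pow_ne_zero 2 hc0), ← pow_mul, mul_comm 2, pow_mul]
      -- M^m c^2 = 1 so M^m = c
      have h1 : (X.M : ZMod p) ^ X.m = X.P (1 - X.W) := by
        linear_combination (X.P (1 - X.W)) * hMm - (X.M : ZMod p) ^ X.m * hc3
      rw [h1]
    obtain ⟨τ, hτ⟩ := exists_root X.hm hx0 hxm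
    refine ⟨τ, ?_⟩
    rw [he, hτ]
    have : (27 : ZMod p) ^ (2 - 1) = 27 := by norm_num
    rw [this]; field_simp

end Ctx

/-- **Case II-b**. -/
theorem caseIIb {p : ℕ} [hp : Fact p.Prime] (hp9 : p % 9 = 1) {π : Eis} (hπ : π.norm = p)
    {M : ℤ} (hM : π.im = 3 * M) {e : ℕ} (he : e = 1 ∨ e = 2) (ξ γ : Eis) (s : ℤ)
    (hξ : ξ = γ ^ 3) (hγ3 : ¬ lam ∣ γ) (hcop : IsCoprime ξ (conj ξ))
    (hs : ξ.re + ξ.im = (p : ℤ) ^ e * s ^ 3) : Concl p e M := by
  have hp3 : p % 3 = 1 := by omega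
  obtain ⟨m, hm⟩ : ∃ m, p - 1 = 9 * m := ⟨(p - 1) / 9, by
    have := hp.out.two_le
    omega⟩
  obtain ⟨i, hi⟩ := exists_prim hγ3
  set γ' := γ * w ^ i with hγ'
  have hξ' : ξ = γ' ^ 3 := by
    rw [hξ, hγ', mul_pow, ← pow_mul, mul_comm i, pow_mul, w_cube, one_pow, mul_one]
  have hcop' : IsCoprime γ' (conj γ') := by
    have h1 : γ' ∣ ξ := by rw [hξ']; exact dvd_pow_self _ (by norm_num)
    exact (hcop.of_isCoprime_of_dvd_left h1).of_isCoprime_of_dvd_right (conj_dvd h1)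
  have hξprim : Prim ξ := by rw [hξ']; exact hi.pow 3
  have hs3 : ¬ (3 : ℤ) ∣ s := by
    intro h
    have h1 : (3 : ℤ) ∣ ξ.re + ξ.im := by
      rw [hs]; exact Dvd.dvd.mul_left (Dvd.dvd.pow h (by norm_num)) _
    have h2 := hξprim.1
    have h4 := hξprim.2
    omega
  have hsE : w * γ' ^ 3 + w ^ 2 * (conj γ') ^ 3 = -((p : Eis) ^ e * (s : Eis) ^ 3) := by
    have h1 := sum_eq ξ
    rw [hs, hξ', map_pow] at h1
    push_cast at h1
    linear_combination h1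
  obtain ⟨φ, hφ⟩ := exists_hom (conj_norm hπ)
  have hw3 : (φ w) ^ 3 = 1 := by rw [← map_pow, w_cube, map_one]
  have hw0 : φ w ≠ 0 := by
    intro h; rw [h] at hw3; norm_num at hw3
  have hp0 : φ (p : Eis) = 0 := by rw [map_natCast]; simp
  obtain ⟨t0, ht0⟩ := exists_root (p := p) (n := 3) (k := 3 * m) (by omega) hw0
    (by rw [pow_mul, hw3, one_pow])
  have ht00 : t0 ≠ 0 := by
    rintro rfl
    apply hw0; rw [← ht0]; norm_num
  have hprod := hom_N φ t0 ht0 (kap γ')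
  have he0 : e ≠ 0 := by omega
  rw [N_kap, hsE, map_neg, map_mul, map_pow, hp0, zero_pow he0, zero_mul, neg_zero] at hprod
  have hfac : ∀ s' : ZMod p, φ (kap γ').a + φ (kap γ').b * s' + φ (kap γ').c * s' ^ 2 =
      s' * (φ γ' + φ (w ^ 2 * conj γ') * s') := by
    intro s'
    simp only [kap, map_zero]; ring
  rw [hfac, hfac, hfac] at hprod
  obtain ⟨t, ht, ht1⟩ : ∃ t : ZMod p, t ^ 3 = φ w ∧ φ γ' + φ (w ^ 2 * conj γ') * t = 0 := by
    rcases mul_eq_zero.mp hprod.symm with h | h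
    · rcases mul_eq_zero.mp h with h | h
      · exact ⟨t0, ht0, (mul_eq_zero.mp h).resolve_left ht00⟩
      · refine ⟨φ w * t0, ?_, (mul_eq_zero.mp h).resolve_left (mul_ne_zero hw0 ht00)⟩
        rw [mul_pow, hw3, ht0, one_mul]
    · refine ⟨φ w ^ 2 * t0, ?_, (mul_eq_zero.mp h).resolve_left
        (mul_ne_zero (pow_ne_zero 2 hw0) ht00)⟩
      rw [mul_pow, ht0]
      linear_combination (φ w) * (φ w ^ 3 + 1) * hw3
  obtain ⟨ψ, hψ⟩ := exists_psi hp9 hm φ ht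
  exact Ctx.conclusion (p := p) ⟨π, M, φ, t, m, ψ, γ', s, e, hp9, hπ, hM, hφ, ht, hm, hψ, he, hi,
    hcop', hs3, hsE, ht1⟩

end Pool.Agent.Lib_helper18
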