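import Pool.Agent.Lib_helper18.ULemma

/-!
# The relative norm of the Jacobi sums of order nine
-/

namespace Pool.Agent.Lib_helper18

open Eis Z9

theorem T2_coords (y : Z9) : (y * (z - 1) ^ 2).a = y.a + w * y.b - 2 * w * y.c ∧
    (y * (z - 1) ^ 2).b = -2 * y.a + y.b + w * y.c ∧
    (y * (z - 1) ^ 2).c = y.a - 2 * y.b + y.c := by
  have e : (z - 1) ^ 2 = (⟨1, -2, 1⟩ : Z9) := by
    rw [pow_two]
    apply Z9.ext
    · simp
    · simp; ring
    · simp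
  rw [e]
  refine ⟨?_, ?_, ?_⟩
  · simp only [mul_a]; ring
  · simp only [mul_b]; ring
  · simp only [mul_c]; ring

theorem N_mod_three' {x y : Z9} (h : x = -1 + y * (z - 1) ^ 2) : (3 : Eis) ∣ N x + 1 := by
  obtain ⟨h1, h2, h3⟩ := T2_coords y
  have ha : x.a = -1 + y.a + w * y.b - 2 * w * y.c := by
    rw [h, add_a, h1, neg_a, one_a]; ring
  have hb : x.b = -2 * y.a + y.b + w * y.c := by
    rw [h, add_b, h2, neg_b, one_b]; ring
  have hc : x.c = y.a - 2 * y.b + y.c := by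
    rw [h, add_c, h3, neg_c, one_c]; ring
  rw [N_def, ha, hb, hc]
  generalize y.a = x, y.b = y, y.c = v
  have hw := w_rel
  refine ⟨-x ^ 3 * w - 2 * x ^ 2 * w - x ^ 2 - 3 * x * y * v * w - 3 * x * y * v + 3 * x * y * w
    + x * v * w - x * v + x + y ^ 3 * w + y ^ 3 - y ^ 2 * w + y ^ 2 - y * v * w - 2 * y * v + y * w
    - v ^ 3 + 3 * v ^ 2 * w + 3 * v ^ 2 - 2 * v * w, ?_⟩
  linear_combination (x ^ 3 - 3 * x * y * v * w + 9 * x * y * v + 3 * x * v + y ^ 3 * w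
    - 3 * y ^ 3 - 3 * y ^ 2 + 6 * y * v + v ^ 3 * w ^ 2 - 3 * v ^ 3 * w + 3 * v ^ 3
    - 9 * v ^ 2) * hw

theorem prim_of_three_dvd {x : Eis} (h : (3 : Eis) ∣ x + 1) : Prim x := by
  rw [three_dvd_iff] at h
  obtain ⟨h1, h2⟩ := h
  rw [add_re, one_re] at h1
  rw [add_im, one_im, add_zero] at h2
  exact ⟨h2, by omega⟩

variable {p : ℕ} [hp : Fact p.Prime] {π : Eis}

theorem IsPsi.JJ_mod_nine {ψ : MulChar (ZMod p) Z9} {t : ZMod p} {m : ℕ} (h : IsPsi ψ t m)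
    (a : ℕ) : JJ ψ a = JJ ψ (a % 9) := by
  have : ψ ^ a = ψ ^ (a % 9) := by
    conv_lhs => rw [← Nat.mod_add_div a 9]
    rw [pow_add, pow_mul, h.pow_nine, one_pow, mul_one]
  rw [JJ, JJ, this]

/-- the conjugate residue map composed with evaluation -/
theorem comp_conj_w (φ : Eis →+* ZMod p) : (φ.comp Eis.conj) w = (φ w) ^ 2 := by
  rw [RingHom.comp_apply, conj_w, map_pow]

theorem t_pow_nine {φ : Eis →+* ZMod p} {t : ZMod p} (ht : t ^ 3 = φ w) : t ^ 9 = 1 := by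
  have : t ^ 9 = (t ^ 3) ^ 3 := by ring
  rw [this, ht, ← map_pow, w_cube, map_one]

/-- relative norm of `J_1` -/
theorem norm_J (hp9 : p % 9 = 1) (hπ : π.norm = p) (hprim : (3 : ℤ) ∣ π.im)
    {φ : Eis →+* ZMod p} (hφ : ∀ x, φ x = 0 ↔ conj π ∣ x) {t : ZMod p} (ht : t ^ 3 = φ w)
    {m : ℕ} (hm : p - 1 = 9 * m) {ψ : MulChar (ZMod p) Z9} (hψ : IsPsi ψ t m) :
    ∃ u : Eis, (u = 1 ∨ u = -1) ∧ N (JJ ψ 1) = u * (π * conj π ^ 2) := by
  have hp3 : p % 3 = 1 := by omega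
  have hπpr := prime_of_norm_eq hπ
  have hπ3 := not_dvd_three hπ hp3
  have hre := re_not_dvd hp3 hπ hprim
  have hπc := conj_norm hπ
  have hπcpr := prime_of_norm_eq hπc
  have hpc := mul_conj_p hπ
  have ht9 := t_pow_nine ht
  have hnc := not_dvd_conj hp3 hπ
  have hnc' : ¬ conj π ∣ π := by
    have := not_dvd_conj hp3 hπc
    rwa [conj_conj] at this
  set n1 := N (JJ ψ 1) with hn1
  -- n1 * conj n1 = p^3
  have hnn : n1 * conj n1 = (p : Eis) ^ 3 := by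
    have h1 := hψ.JJ_mul (a := 1) (by norm_num)
    have h2 : JJ ψ (8 * 1) = bar (JJ ψ 1) := (hψ.map_JJ bar 8 bar_z 1).symm
    rw [h2] at h1
    have h3 := congrArg Z9.N h1
    rw [Z9.N_mul, N_bar, Z9.N_natCast] at h3
    exact h3
  -- conj π divides n1
  have hd1 : conj π ∣ n1 := by
    rw [← hφ, hn1, hom_N φ t ht]
    have : φ (JJ ψ 1).a + φ (JJ ψ 1).b * t + φ (JJ ψ 1).c * t ^ 2 = ev φ t ht (JJ ψ 1) := rfl
    rw [this, hψ.ev_JJ hm (ev φ t ht) (j := 1) (by rw [ev_z, pow_one]) (r := 1) (by norm_num)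
      (by norm_num), jv_zero hm (by norm_num) (by norm_num)]
    ring
  -- π divides n1
  have ht2 : (t ^ 2) ^ 3 = (φ.comp Eis.conj) w := by
    rw [comp_conj_w, ← ht]; ring
  have ht8 : (t ^ 8) ^ 3 = (φ.comp Eis.conj) w := by
    rw [comp_conj_w, ← ht]
    have : (t ^ 8) ^ 3 = (t ^ 9) ^ 2 * (t ^ 3) ^ 2 := by ring
    rw [this, ht9]; ring
  have hφ' : ∀ x, (φ.comp Eis.conj) x = 0 ↔ π ∣ x := by
    intro x
    rw [RingHom.comp_apply, hφ, conj_dvd_iff]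
  have hd2 : π ∣ n1 := by
    rw [← hφ', hn1, hom_N (φ.comp Eis.conj) (t ^ 2) ht2]
    have : (φ.comp Eis.conj) (JJ ψ 1).a + (φ.comp Eis.conj) (JJ ψ 1).b * (t ^ 2) +
      (φ.comp Eis.conj) (JJ ψ 1).c * (t ^ 2) ^ 2 = ev (φ.comp Eis.conj) (t ^ 2) ht2 (JJ ψ 1) := rfl
    rw [this, hψ.ev_JJ hm (ev _ _ ht2) (j := 2) (by rw [ev_z]) (r := 2) (by norm_num)
      (by norm_num), jv_zero hm (by norm_num) (by norm_num)]
    ring
  -- π² does not divide n1
  have hd3 : ¬ π ^ 2 ∣ n1 := by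
    rintro ⟨n', hn'⟩
    have hJ4 : σ (JJ ψ 1) = JJ ψ 4 := hψ.map_JJ σ 4 σ_z 1
    have hJ7 : σ (JJ ψ 4) = JJ ψ 16 := hψ.map_JJ σ 4 σ_z 4
    have h1 := ι_N (JJ ψ 1)
    rw [hJ4, hJ7, ← hn1, hn'] at h1
    have h2 := hψ.JJ_mul (a := 16) (by norm_num)
    have h3 : ι (conj π) * (JJ ψ 1 * JJ ψ 4) = ι π * (ι n' * JJ ψ (8 * 16)) := by
      have hι0 : ι π ≠ 0 := by
        intro h
        have := ι_injective (h.trans (map_zero ι).symm)
        exact hπpr.ne_zero this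
      apply mul_left_cancel₀ hι0
      have h4 : (p : Z9) = ι π * ι (conj π) := by
        rw [← map_mul, hpc, map_natCast]
      rw [map_mul, map_pow] at h1
      calc ι π * (ι (conj π) * (JJ ψ 1 * JJ ψ 4)) = JJ ψ 1 * JJ ψ 4 * (p : Z9) := by
            rw [h4]; ring
        _ = JJ ψ 1 * JJ ψ 4 * (JJ ψ 16 * JJ ψ (8 * 16)) := by rw [h2]
        _ = (JJ ψ 1 * JJ ψ 4 * JJ ψ 16) * JJ ψ (8 * 16) := by ring
        _ = ι π * (ι π * (ι n' * JJ ψ (8 * 16))) := by rw [← h1]; ring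
    have h5 := congrArg (ev (φ.comp Eis.conj) (t ^ 8) ht8) h3
    rw [map_mul, map_mul, map_mul, ev_ι, ev_ι, (hφ' π).mpr dvd_rfl, zero_mul,
      hψ.ev_JJ hm (ev _ _ ht8) (j := 8) (by rw [ev_z]) (a := 1) (r := 8) (by norm_num)
      (by norm_num),
      hψ.ev_JJ hm (ev _ _ ht8) (j := 8) (by rw [ev_z]) (a := 4) (r := 5) (by norm_num)
      (by norm_num)] at h5
    rcases mul_eq_zero.mp h5 with h6 | h6
    · rw [hφ'] at h6; exact hnc h6
    · rcases mul_eq_zero.mp h6 with h7 | h7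
      · exact jv_ne_zero hm (by norm_num) (by norm_num) h7
      · exact jv_ne_zero hm (by norm_num) (by norm_num) h7
  -- factorisation
  obtain ⟨n2, hn2⟩ := hd1
  have hd4 : π ∣ n2 := by
    rw [hn2] at hd2
    exact (hπpr.dvd_or_dvd hd2).resolve_left hnc
  obtain ⟨n3, hn3⟩ := hd4
  have hn3norm : n3.norm = p := by
    have h1 := congrArg Eis.norm hnn
    rw [Eis.norm_mul, norm_conj, Eis.norm_pow, Eis.norm_natCast, hn2, hn3, Eis.norm_mul,
      Eis.norm_mul, norm_conj, hπ] at h1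
    have hp0 : (p : ℤ) ≠ 0 := by exact_mod_cast hp.out.ne_zero
    have h2 : n3.norm ^ 2 = (p : ℤ) ^ 2 := by
      apply mul_left_cancel₀ (pow_ne_zero 4 hp0)
      linear_combination h1
    have h3 := norm_nonneg n3
    have h4 : (0 : ℤ) ≤ p := by positivity
    nlinarith [sq_nonneg (n3.norm - p)]
  have hn3pr := prime_of_norm_eq hn3norm
  have hn3p := dvd_p hn3norm
  have hass := (norm_of_dvd_p hπ hn3pr hn3p).2
  have hass2 : Associated (conj π) n3 := by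
    rcases hass with h | h
    · exfalso
      apply hd3
      rw [hn2, hn3, pow_two]
      exact Dvd.dvd.mul_left (mul_dvd_mul_left π h.symm.dvd) _
    · exact h.symm
  obtain ⟨u, hu⟩ := hass2
  have h3dvd : (3 : Eis) ∣ n1 + 1 := by
    obtain ⟨y, hy⟩ := hψ.JJ_mod hm 1
    exact N_mod_three' hy
  have hπprim : Prim π := ⟨hprim, hre⟩
  have hn1e : n1 = (π * conj π ^ 2) * u := by rw [hn2, hn3, ← hu]; ring
  have hprim2 : Prim ((π * conj π ^ 2) * u) := by rw [← hn1e]; exact prim_of_three_dvd h3dvd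
  have hu1 := (hπprim.mul (hπprim.conj.pow 2)).unit u.isUnit hprim2
  exact ⟨u, hu1, by rw [hn1e]; ring⟩

end Pool.Agent.Lib_helper18
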