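import Pool.Agent.Lib_helper18.Main
import Pool.Agent.Lib_helper18.FD7
import Pool.Agent.Lib_helper18.NPD

/-!
# The ninth power criterion applies to `p` or to `p ^ 2` if `3` is not a cube modulo `p`
-/

namespace Pool.Agent.Lib_helper18.NPD

open Eis

lemma exists_LM (p : ℕ) (hp : p.Prime) (h9 : p % 9 = 1) :
    ∃ L M : ℤ, 4 * (p : ℤ) = L ^ 2 + 27 * M ^ 2 := by
  obtain ⟨π, h1, M, hM⟩ := exists_pi hp (by omega)
  refine ⟨2 * π.re - 3 * M, M, ?_⟩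
  rw [norm_def, hM] at h1
  linear_combination -4 * h1

lemma cube_of {p : ℕ} [Fact p.Prime] (h9 : p % 9 = 1) {u : ZMod p} (h0 : (3 : ZMod p) ≠ 0)
    (h : (27 : ZMod p) = u ^ 9) : ∃ t : ZMod p, t ^ 3 = 3 := by
  have hp := Fact.out (p := p.Prime)
  obtain ⟨k, hk⟩ : ∃ k, p - 1 = 9 * k := ⟨(p - 1) / 9, by have := hp.two_le; omega⟩
  have hu : u ≠ 0 := by
    rintro rfl
    apply h0
    have : (3 : ZMod p) ^ 3 = 0 := by
      rw [show (3 : ZMod p) ^ 3 = 27 by norm_num, h]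
      ring
    exact pow_eq_zero_iff (by norm_num) |>.1 this
  have h1 : (3 : ZMod p) ^ (3 * k) = 1 := by
    rw [pow_mul, show (3 : ZMod p) ^ 3 = 27 by norm_num, h, ← pow_mul, ← hk]
    exact ZMod.pow_card_sub_one_eq_one hu
  obtain ⟨g, hg⟩ := IsCyclic.exists_generator (α := (ZMod p)ˣ)
  obtain ⟨m, hm⟩ := mem_powers_iff_mem_zpowers.2 (hg (Units.mk0 3 h0))
  have hm' : g ^ m = Units.mk0 3 h0 := hm
  have h2 : g ^ (m * (3 * k)) = 1 := by
    rw [pow_mul, hm']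
    ext
    push_cast
    rw [Units.val_mk0]
    exact h1
  have h3 : orderOf g = 9 * k := by
    rw [orderOf_eq_card_of_forall_mem_zpowers hg, Nat.card_eq_fintype_card,
      ZMod.card_units_eq_totient, Nat.totient_prime hp, hk]
  have h4 := orderOf_dvd_of_pow_eq_one h2
  rw [h3] at h4
  have hk0 : 0 < k := by
    have := hp.two_le
    omega
  have h5 : 3 ∣ m := by
    have h6 : 3 * k * 3 ∣ 3 * k * m := by
      have e1 : 3 * k * 3 = 9 * k := by ring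
      have e2 : 3 * k * m = m * (3 * k) := by ring
      rw [e1, e2]
      exact h4
    exact Nat.dvd_of_mul_dvd_mul_left (by omega) h6
  obtain ⟨n, rfl⟩ := h5
  refine ⟨((g ^ n : (ZMod p)ˣ) : ZMod p), ?_⟩
  have h7 : ((g ^ n) ^ 3 : (ZMod p)ˣ) = Units.mk0 3 h0 := by
    rw [← hm', ← pow_mul, mul_comm]
  have := congrArg (fun x : (ZMod p)ˣ => (x : ZMod p)) h7
  simpa using this

/-- One of the two curves has no rational point. -/
theorem one_of (p : ℕ) (hp : p.Prime) (h9 : p % 9 = 1) (h3 : ¬ ∃ t : ℤ, (p : ℤ) ∣ t ^ 3 - 3) :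
    ∃ g : ℕ, (g = 1 ∨ g = 2) ∧ ¬ ∃ X Y : ℚ, X ^ 3 + Y ^ 3 = (p : ℚ) ^ g := by
  by_contra hcon
  push Not at hcon
  have : Fact p.Prime := ⟨hp⟩
  obtain ⟨L, M, hLM⟩ := exists_LM p hp h9
  obtain ⟨X, Y, h1⟩ := hcon 1 (Or.inl rfl)
  obtain ⟨X', Y', h2⟩ := hcon 2 (Or.inr rfl)
  obtain ⟨σ, hσ⟩ := main p hp h9 L M hLM (e := 1) (Or.inl rfl) h1
  obtain ⟨τ, hτ⟩ := main p hp h9 L M hLM (e := 2) (Or.inr rfl) h2
  have hM : (M : ZMod p) ≠ 0 := by
    intro h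
    rw [ZMod.intCast_zmod_eq_zero_iff_dvd] at h
    obtain ⟨N, rfl⟩ := h
    have h1 : (p : ℤ) ∣ L ^ 2 := ⟨4 - 27 * p * N ^ 2, by linear_combination -hLM⟩
    obtain ⟨K, rfl⟩ := (Nat.prime_iff_prime_int.1 hp).dvd_of_dvd_pow h1
    have h2 : (4 : ℤ) = p * (K ^ 2 + 27 * N ^ 2) := by
      have hp0 : (p : ℤ) ≠ 0 := by exact_mod_cast hp.ne_zero
      refine mul_left_cancel₀ hp0 ?_
      linear_combination hLM
    have h3 : (p : ℤ) ∣ ((4 : ℕ) : ℤ) := ⟨_, h2⟩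
    have h4 : p ∣ 4 := by exact_mod_cast h3
    have h5 := Nat.le_of_dvd (by norm_num) h4
    have h6 := hp.two_le
    omega
  have h30 : (3 : ZMod p) ≠ 0 := by
    intro h
    have h' : ((3 : ℕ) : ZMod p) = 0 := by exact_mod_cast h
    rw [ZMod.natCast_eq_zero_iff] at h'
    have := (Nat.prime_dvd_prime_iff_eq hp Nat.prime_three).1 h'
    omega
  have hτ0 : τ ≠ 0 := by
    rintro rfl
    apply hM
    have : (M : ZMod p) ^ 2 = 0 := by
      rw [hτ]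
      ring
    exact pow_eq_zero_iff (by norm_num) |>.1 this
  have key : (27 : ZMod p) = (σ ^ 2 / τ) ^ 9 := by
    rw [div_pow, eq_div_iff (pow_ne_zero _ hτ0)]
    have e1 : (M : ZMod p) = σ ^ 9 := by simpa using hσ
    have e2 : (M : ZMod p) ^ 2 = 27 * τ ^ 9 := by simpa using hτ
    rw [← e2, e1]
    ring
  obtain ⟨t, ht⟩ := cube_of h9 h30 key
  refine h3 ⟨(t.val : ℤ), ?_⟩
  rw [← ZMod.intCast_zmod_eq_zero_iff_dvd]
  push_cast
  rw [ZMod.natCast_val, ZMod.cast_id', id, ht, sub_self]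

/-- The density of the primes for which one of the two curves has no rational point. -/
theorem dens_one_of : RI.DensityGE {p : ℕ | p % 9 = 1 ∧
    ∃ g : ℕ, (g = 1 ∨ g = 2) ∧ ¬ ∃ X Y : ℚ, X ^ 3 + Y ^ 3 = (p : ℚ) ^ g} (1 / 9) :=
  RI.PDGE_thm _ _ ∅ _ dens fun q hq hp _ => ⟨hq.1, one_of q hp hq.1 hq.2⟩

end Pool.Agent.Lib_helper18.NPD
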