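import Pool.Agent.Lib_helper18.GaussG

/-!
# Cubic reciprocity and the supplementary law
-/

namespace Pool.Agent.Lib_helper18

namespace Eis

/-- `wt n = (n - 1) / 3` modulo 3 -/
def wt (n : ℤ) : ZMod 3 := (((n - 1) / 3 : ℤ) : ZMod 3)

theorem wt_eq {n k : ℤ} (h : n = 1 + 3 * k) : wt n = (k : ZMod 3) := by
  rw [wt, h]
  congr 1
  omega

theorem wt_mul {m n : ℤ} (hm : m % 3 = 1) (hn : n % 3 = 1) : wt (m * n) = wt m + wt n := by
  obtain ⟨a, ha⟩ : ∃ a, m = 1 + 3 * a := ⟨m / 3, by omega⟩
  obtain ⟨b, hb⟩ : ∃ b, n = 1 + 3 * b := ⟨n / 3, by omega⟩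
  have h : m * n = 1 + 3 * (a + b + 3 * a * b) := by rw [ha, hb]; ring
  rw [wt_eq ha, wt_eq hb, wt_eq h]
  push_cast
  have h3 : (3 : ZMod 3) = 0 := by decide
  rw [h3]; ring

theorem wt_one : wt 1 = 0 := by rw [wt]; norm_num

theorem sq_mod_three {n : ℤ} (h : ¬ (3 : ℤ) ∣ n) : n ^ 2 % 3 = 1 := by
  have : n % 3 = 1 ∨ n % 3 = 2 := by omega
  rcases this with h | h <;> simp [pow_two, Int.mul_emod, h]

theorem sym_w' {l : Eis} (hl : Prime l) (h3 : ¬ l ∣ 3) : sym l w = wt l.norm := by
  rw [sym_w hl h3, wt]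
  have h1 := N_cast l
  have h2 := N_mod_three (not_lam_dvd_of_prime hl h3)
  have : ((((N l - 1) / 3 : ℕ) : ℤ)) = (l.norm - 1) / 3 := by rw [← h1]; omega
  rw [← this]; push_cast; rfl

theorem not_dvd_conj_three {l : Eis} (h3 : ¬ l ∣ 3) : ¬ conj l ∣ 3 := fun h => h3 (by
  have := conj_dvd h
  rw [conj_conj] at this
  have e : conj 3 = 3 := conj_natCast 3
  rwa [e] at this)

/-- A prime of norm `q^2` above `q` is associated to `q`. -/
theorem associated_of_norm_sq {l : Eis} {q : ℕ} (hq : q.Prime) (h : l ∣ (q : Eis))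
    (hn : l.norm = q ^ 2) : Associated l (q : Eis) := by
  obtain ⟨u, hu⟩ := h
  have h1 := congrArg norm hu
  rw [norm_mul, norm_natCast, hn] at h1
  have hq0 : ((q : ℤ) ^ 2) ≠ 0 := by
    have := hq.ne_zero
    positivity
  have h2 : u.norm = 1 := by
    apply mul_left_cancel₀ hq0
    rw [← h1, mul_one]
  obtain ⟨v, rfl⟩ := isUnit_iff_norm.mpr h2
  exact ⟨v, hu.symm⟩

section split

variable {p : ℕ} [hp : Fact p.Prime] {π : Eis}

theorem dvd_intCast_iff (hπ : π.norm = p) {s : ℤ} : π ∣ (s : Eis) ↔ (p : ℤ) ∣ s := by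
  obtain ⟨φ, hφ⟩ := exists_hom hπ
  rw [← hφ, map_intCast, ZMod.intCast_zmod_eq_zero_iff_dvd]

theorem dvd_natCast_iff (hπ : π.norm = p) {s : ℕ} : π ∣ (s : Eis) ↔ p ∣ s := by
  obtain ⟨φ, hφ⟩ := exists_hom hπ
  rw [← hφ, map_natCast, ZMod.natCast_eq_zero_iff]

/-- A prime dividing `p` has norm `p`. -/
theorem norm_of_dvd_p (hπ : π.norm = p) {l : Eis} (hl : Prime l) (h : l ∣ (p : Eis)) :
    l.norm = p ∧ (Associated l π ∨ Associated l (conj π)) := by
  rw [← mul_conj_p hπ] at h
  rcases hl.dvd_or_dvd h with h | h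
  · have := hl.associated_of_dvd (prime_of_norm_eq hπ) h
    refine ⟨?_, Or.inl this⟩
    obtain ⟨u, hu⟩ := this
    rw [← hπ, ← hu, norm_mul, isUnit_iff_norm.mp u.isUnit, mul_one]
  · have := hl.associated_of_dvd (prime_conj (prime_of_norm_eq hπ)) h
    refine ⟨?_, Or.inr this⟩
    obtain ⟨u, hu⟩ := this
    have h5 : l.norm = (conj π).norm := by
      rw [← hu, norm_mul, isUnit_iff_norm.mp u.isUnit, mul_one]
    rw [h5, norm_conj, hπ]

/-- **Lemma S** on natural numbers. -/
theorem lemmaS_nat (hp3 : p % 3 = 1) (hπ : π.norm = p) (hprim : (3 : ℤ) ∣ π.im) (c : ZMod 3)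
    (s : ℕ) (hs0 : s ≠ 0) (hs3 : ¬ 3 ∣ s) (hsp : ¬ p ∣ s)
    (H : ∀ l : Eis, Prime l → l ∣ (s : Eis) → sym l π - sym l (conj π) = c * wt l.norm) :
    2 * sym π (s : Eis) = c * wt ((s : ℤ) ^ 2) := by
  have hπpr := prime_of_norm_eq hπ
  have hπ3 := not_dvd_three hπ hp3
  induction s using Nat.recOnMul with
  | zero => exact absurd rfl hs0
  | one =>
    rw [Nat.cast_one, Nat.cast_one, one_pow, wt_one, sym_one hπpr hπ3]; ring
  | prime q hq =>
    have hq3 : ¬ (3 : ℤ) ∣ q := by exact_mod_cast hs3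
    have hnu : ¬ IsUnit (q : Eis) := by
      rw [isUnit_iff_norm, norm_natCast]
      intro h
      have := hq.two_le
      have h2 : (2 : ℤ) ≤ q := by exact_mod_cast this
      nlinarith
    obtain ⟨l, hl, hlq⟩ := WfDvdMonoid.exists_irreducible_factor hnu (by
      intro h
      have := congrArg Eis.re h
      simp at this
      exact hq.ne_zero this)
    have hlp := hl.prime
    have hl3 : ¬ l ∣ 3 := by
      intro h
      have h1 := (dvd_three_iff hlp).mp h
      have h2 : lam ∣ (q : Eis) := h1.symm.dvd.trans hlq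
      rw [lam_dvd_iff] at h2
      simp at h2
      exact hq3 h2
    have hlpp : ¬ l ∣ (p : Eis) := by
      intro h
      obtain ⟨h1, -⟩ := norm_of_dvd_p hπ hlp h
      have h2 : (p : ℤ) ∣ ((q : Eis)).norm := by
        obtain ⟨m, hm⟩ := hlq
        rw [hm, norm_mul, h1]; exact dvd_mul_right _ _
      rw [norm_natCast] at h2
      have h3 := (Nat.prime_iff_prime_int.mp hp.out).dvd_of_dvd_pow h2
      exact hsp (by exact_mod_cast h3)
    have hG := lemmaG hp3 hπ hprim hlp hl3 hlpp
    rw [H l hlp hlq] at hG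
    have hπq : ¬ π ∣ (q : Eis) := by rwa [dvd_natCast_iff hπ]
    -- norm of l
    obtain ⟨m, hm⟩ := hlq
    have hnorm : l.norm = q ∨ l.norm = q ^ 2 := by
      obtain ⟨q', hq', hlq', hn'⟩ := exists_rational_prime hlp
      have : q' = q := by
        by_contra hne
        have hco : IsCoprime ((q' : ℕ) : ℤ) (q : ℤ) :=
          Nat.Coprime.isCoprime ((Nat.coprime_primes hq' hq).mpr hne)
        obtain ⟨u, v, huv⟩ := hco
        have h1 : ((u : Eis)) * (q' : Eis) + (v : Eis) * (q : Eis) = 1 := by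
          have := congrArg (Int.cast : ℤ → Eis) huv
          push_cast at this; exact this
        have h2 : l ∣ 1 := by
          rw [← h1]
          exact dvd_add (dvd_mul_of_dvd_right hlq' _) (dvd_mul_of_dvd_right ⟨m, hm⟩ _)
        exact hlp.not_isUnit (isUnit_of_dvd_one h2)
      rw [this] at hn'; exact hn'
    have hNl := N_cast l
    rcases hnorm with hn | hn
    · have hNq : N l = q := by
        have : (N l : ℤ) = q := by rw [hNl, hn]
        exact_mod_cast this
      have hq1 : (q : ℤ) % 3 = 1 := by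
        have := norm_emod_three_of_not_lam_dvd (not_lam_dvd_of_prime hlp hl3)
        rwa [hn] at this
      rw [hNq, hn] at hG
      rw [← hG, pow_two, wt_mul hq1 hq1]; ring
    · have hNq : N l = q ^ 2 := by
        have : (N l : ℤ) = q ^ 2 := by rw [hNl, hn]
        exact_mod_cast this
      rw [hNq, hn] at hG
      push_cast at hG
      rw [sym_pow hπpr hπ3 hπq] at hG
      rw [hG]; push_cast; rfl
  | mul a b iha ihb =>
    have ha0 : a ≠ 0 := by rintro rfl; simp at hs0
    have hb0 : b ≠ 0 := by rintro rfl; simp at hs0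
    have ha3 : ¬ 3 ∣ a := fun h => hs3 (Dvd.dvd.mul_right h b)
    have hb3 : ¬ 3 ∣ b := fun h => hs3 (Dvd.dvd.mul_left h a)
    have hap : ¬ p ∣ a := fun h => hsp (Dvd.dvd.mul_right h b)
    have hbp : ¬ p ∣ b := fun h => hsp (Dvd.dvd.mul_left h a)
    have h1 := iha ha0 ha3 hap (fun l hl hla => H l hl (by
      rw [Nat.cast_mul]; exact Dvd.dvd.mul_right hla _))
    have h2 := ihb hb0 hb3 hbp (fun l hl hla => H l hl (by
      rw [Nat.cast_mul]; exact Dvd.dvd.mul_left hla _))
    have ha3' : ¬ (3 : ℤ) ∣ a := by exact_mod_cast ha3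
    have hb3' : ¬ (3 : ℤ) ∣ b := by exact_mod_cast hb3
    rw [Nat.cast_mul, sym_mul hπpr hπ3 (by rwa [dvd_natCast_iff hπ])
      (by rwa [dvd_natCast_iff hπ]), mul_add, h1, h2, Nat.cast_mul, mul_pow,
      wt_mul (sq_mod_three ha3') (sq_mod_three hb3')]
    ring

/-- **Lemma S**. -/
theorem lemmaS (hp3 : p % 3 = 1) (hπ : π.norm = p) (hprim : (3 : ℤ) ∣ π.im) (c : ZMod 3)
    (s : ℤ) (hs3 : ¬ (3 : ℤ) ∣ s) (hsp : ¬ (p : ℤ) ∣ s)
    (H : ∀ l : Eis, Prime l → l ∣ (s : Eis) → sym l π - sym l (conj π) = c * wt l.norm) :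
    2 * sym π (s : Eis) = c * wt (s ^ 2) := by
  have hπpr := prime_of_norm_eq hπ
  have hπ3 := not_dvd_three hπ hp3
  have hs0 : s ≠ 0 := by rintro rfl; simp at hs3
  have key : ∀ n : ℕ, (s = n ∨ s = -n) → 2 * sym π (s : Eis) = c * wt (s ^ 2) := by
    intro n hn
    have hn0 : n ≠ 0 := by rintro rfl; simp at hn; exact hs0 hn
    have hn3 : ¬ 3 ∣ n := by
      intro h
      have : (3 : ℤ) ∣ n := by exact_mod_cast h
      rcases hn with hn | hn
      · rw [hn] at hs3; exact hs3 this
      · rw [hn, dvd_neg] at hs3; exact hs3 this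
    have hnp : ¬ p ∣ n := by
      intro h
      have : (p : ℤ) ∣ n := by exact_mod_cast h
      rcases hn with hn | hn
      · rw [hn] at hsp; exact hsp this
      · rw [hn, dvd_neg] at hsp; exact hsp this
    have h1 := lemmaS_nat hp3 hπ hprim c n hn0 hn3 hnp (fun l hl hln => H l hl (by
      rcases hn with hn | hn <;> rw [hn] <;> push_cast
      · exact hln
      · rwa [dvd_neg]))
    rcases hn with hn | hn
    · rw [hn]; push_cast; exact h1
    · rw [hn]; push_cast
      rw [sym_neg hπpr hπ3 (by rwa [dvd_natCast_iff hπ]), neg_pow]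
      simpa using h1
  exact key s.natAbs (Int.natAbs_eq s)

theorem trace_not_dvd (hp3 : p % 3 = 1) (hπ : π.norm = p) :
    ¬ (p : ℤ) ∣ 2 * π.re - π.im := by
  rintro ⟨k, hk⟩
  have hp2 := hp.out.two_le
  have h1 : (2 * π.re - π.im) ^ 2 = 4 * p - 3 * π.im ^ 2 := by
    rw [← hπ, norm_def]; ring
  have hp7 : (4 : ℤ) < p := by
    have : 4 < p := by
      by_contra h
      push Not at h
      have : p = 4 := by omega
      exact absurd hp.out (by rw [this]; norm_num)
    exact_mod_cast this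
  rw [hk] at h1
  have hk0 : k = 0 := by
    by_contra hne
    have : 1 ≤ k ^ 2 := by
      have : 0 < k ^ 2 := by positivity
      omega
    nlinarith [sq_nonneg π.im, mul_pos (by linarith : (0 : ℤ) < p) (by linarith : (0 : ℤ) < p)]
  rw [hk0] at h1
  have : (3 : ℤ) ∣ 4 * p := ⟨π.im ^ 2, by linarith⟩
  omega

theorem not_dvd_conj (hp3 : p % 3 = 1) (hπ : π.norm = p) : ¬ π ∣ conj π := by
  intro h
  have h1 : π ∣ ((2 * π.re - π.im : ℤ) : Eis) := by
    have e : ((2 * π.re - π.im : ℤ) : Eis) = π + conj π := by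
      ext
      · simp only [intCast_re, add_re, conj_re]; ring
      · simp only [intCast_im, add_im, conj_im]; ring
    rw [e]
    exact dvd_add dvd_rfl h
  rw [dvd_intCast_iff hπ] at h1
  exact trace_not_dvd hp3 hπ h1

/-- `π̄` is a cube modulo `π`. -/
theorem sym_conj_self (hp3 : p % 3 = 1) (hπ : π.norm = p) (hprim : (3 : ℤ) ∣ π.im) :
    sym π (conj π) = 0 := by
  have hπpr := prime_of_norm_eq hπ
  have hπ3 := not_dvd_three hπ hp3
  have hre := re_not_dvd hp3 hπ hprim
  have e : ((2 * π.re - π.im : ℤ) : Eis) = π + conj π := by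
    ext
    · simp only [intCast_re, add_re, conj_re]; ring
    · simp only [intCast_im, add_im, conj_im]; ring
  have h1 := lemmaS hp3 hπ hprim 0 (2 * π.re - π.im) (by omega) (trace_not_dvd hp3 hπ) (by
    intro l hl hls
    rw [e] at hls
    rw [zero_mul, sub_eq_zero]
    have hlc : ¬ l ∣ conj π := by
      intro h
      have h2 : l ∣ π := by
        have := dvd_sub hls h
        simpa using this
      have h3 := hl.associated_of_dvd hπpr h2
      exact not_dvd_conj hp3 hπ (h3.symm.dvd.trans h)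
    have hl3 : ¬ l ∣ 3 := by
      intro h
      have h1 := (dvd_three_iff hl).mp h
      have h2 : lam ∣ ((2 * π.re - π.im : ℤ) : Eis) := by rw [e]; exact h1.symm.dvd.trans hls
      rw [lam_dvd_iff] at h2
      simp only [intCast_re, intCast_im] at h2
      omega
    rw [← sym_neg hl hl3 hlc]
    apply sym_congr
    rw [sub_neg_eq_add]; exact hls)
  rw [zero_mul] at h1
  have h2 : sym π ((2 * π.re - π.im : ℤ) : Eis) = 0 := by
    generalize sym π ((2 * π.re - π.im : ℤ) : Eis) = x at h1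
    revert x; decide
  rw [← h2]
  apply sym_congr
  rw [e]; simp

end split

/-- a primary prime -/
def Prim (x : Eis) : Prop := (3 : ℤ) ∣ x.im ∧ ¬ (3 : ℤ) ∣ x.re

theorem Prim.unit {x u : Eis} (hx : Prim x) (hu : IsUnit u) (h : Prim (x * u)) :
    u = 1 ∨ u = -1 := by
  obtain ⟨h1, h2⟩ := hx
  obtain ⟨h3, h4⟩ := h
  obtain ⟨i, hi, hu | hu⟩ := unit_cases hu
  · interval_cases i
    · left; rw [hu, pow_zero]
    · exfalso; rw [hu, pow_one, mul_im, w_re, w_im] at h3
      apply h2; omega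
    · exfalso; rw [hu, w_sq, mul_im] at h3
      simp only [sub_re, sub_im, neg_re, neg_im, one_re, one_im, w_re, w_im] at h3
      apply h2; omega
  · interval_cases i
    · right; rw [hu, pow_zero]
    · exfalso; rw [hu, pow_one, mul_im, neg_re, neg_im, w_re, w_im] at h3
      apply h2; omega
    · exfalso; rw [hu, w_sq, mul_im] at h3
      simp only [sub_re, sub_im, neg_re, neg_im, one_re, one_im, w_re, w_im] at h3
      apply h2; omega

theorem Prim.conj {x : Eis} (hx : Prim x) : Prim (conj x) := by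
  obtain ⟨h1, h2⟩ := hx
  refine ⟨?_, ?_⟩
  · simpa using h1
  · simp only [conj_re]; omega

theorem prim_natCast {n : ℕ} (h : ¬ 3 ∣ n) : Prim (n : Eis) := by
  refine ⟨by simp, ?_⟩
  simp only [natCast_re]; exact_mod_cast h

theorem exists_prim {x : Eis} (hx : ¬ lam ∣ x) : ∃ i : ℕ, Prim (x * w ^ i) := by
  rw [lam_dvd_iff] at hx
  have h1 : x.re % 3 = 0 ∨ x.re % 3 = 1 ∨ x.re % 3 = 2 := by omega
  have h2 : x.im % 3 = 0 ∨ x.im % 3 = 1 ∨ x.im % 3 = 2 := by omega
  rcases h2 with h2 | h2 | h2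
  · refine ⟨0, ?_, ?_⟩ <;> simp only [pow_zero, mul_one] <;> omega
  all_goals
    rcases h1 with h1 | h1 | h1
    · refine ⟨2, ?_, ?_⟩ <;> rw [w_sq] <;>
        simp only [mul_im, mul_re, sub_re, sub_im, neg_re, neg_im, one_re, one_im, w_re, w_im] <;>
        omega
    · first
      | (exfalso; apply hx; omega)
      | (refine ⟨1, ?_, ?_⟩ <;> rw [pow_one] <;>
        simp only [mul_im, mul_re, w_re, w_im] <;> omega)
    · first
      | (exfalso; apply hx; omega)
      | (refine ⟨1, ?_, ?_⟩ <;> rw [pow_one] <;>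
        simp only [mul_im, mul_re, w_re, w_im] <;> omega)

section split

variable {p : ℕ} [hp : Fact p.Prime] {π : Eis}

/-- **Cubic reciprocity** with one of the primes split. -/
theorem recip (hp3 : p % 3 = 1) (hπ : π.norm = p) (hprim : (3 : ℤ) ∣ π.im) {l : Eis}
    (hl : Prime l) (hl3 : ¬ l ∣ 3) (hlprim : Prim l) (hne : ¬ Associated l π) :
    sym π l = sym l π := by
  have hπpr := prime_of_norm_eq hπ
  have hπ3 := not_dvd_three hπ hp3
  have hre := re_not_dvd hp3 hπ hprim
  have hπprim : Prim π := ⟨hprim, hre⟩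
  by_cases hlp : l ∣ (p : Eis)
  · obtain ⟨h1, h2⟩ := norm_of_dvd_p hπ hl hlp
    have h3 := h2.resolve_left hne
    obtain ⟨u, hu⟩ := h3
    have h4 : Prim (l * u) := by rw [hu]; exact hπprim.conj
    have h5 := hlprim.unit u.isUnit h4
    have h6 : sym π l = 0 := by
      have hs := sym_conj_self hp3 hπ hprim
      rcases h5 with h5 | h5
      · rw [h5, mul_one] at hu; rw [hu]; exact hs
      · rw [h5] at hu
        have : l = - conj π := by rw [← hu]; ring
        rw [this, sym_neg hπpr hπ3 (not_dvd_conj hp3 hπ)]; exact hs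
    have h7 : sym l π = 0 := by
      have h8 : Associated l (conj π) := ⟨u, hu⟩
      rw [sym_associated h8]
      have h9 := sym_conj hπpr hπ3 (not_dvd_conj hp3 hπ)
      rw [conj_conj, sym_conj_self hp3 hπ hprim, neg_zero] at h9
      exact h9
    rw [h6, h7]
  · have hG := lemmaG hp3 hπ hprim hl hl3 hlp
    obtain ⟨q, hq, hlq, hn⟩ := exists_rational_prime hl
    have hNl := N_cast l
    have hq3 : ¬ 3 ∣ q := by
      intro h
      have := (Nat.prime_dvd_prime_iff_eq Nat.prime_three hq).mp h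
      rw [← this] at hlq
      exact hl3 (by exact_mod_cast hlq)
    have hπq : ¬ π ∣ (q : Eis) := by
      rw [dvd_natCast_iff hπ]
      intro h
      have := (Nat.prime_dvd_prime_iff_eq hp.out hq).mp h
      rw [this] at hlp
      exact hlp hlq
    rcases hn with hn | hn
    · -- split
      have hNq : N l = q := by
        have : (N l : ℤ) = q := by rw [hNl, hn]
        exact_mod_cast this
      have hq1 : q % 3 = 1 := by
        have := norm_emod_three_of_not_lam_dvd (not_lam_dvd_of_prime hl hl3)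
        rw [hn] at this
        omega
      have : Fact q.Prime := ⟨hq⟩
      have hG2 := lemmaG hq1 hn hlprim.1 hπpr hπ3 hπq
      have hNπ : N π = p := by
        have := N_cast π
        rw [hπ] at this
        exact_mod_cast this
      rw [hNq] at hG
      rw [hNπ] at hG2
      have hlc := mul_conj_p hn
      have hπc := mul_conj_p hπ
      have n1 : ¬ π ∣ l := fun h => hπq (h.trans hlq)
      have n2 : ¬ π ∣ conj l := fun h => hπq (h.trans (by rw [← hlc]; exact dvd_mul_left _ _))
      have n3 : ¬ l ∣ π := fun h => hlp (h.trans (dvd_p hπ))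
      have n4 : ¬ l ∣ conj π := fun h => hlp (h.trans (by rw [← hπc]; exact dvd_mul_left _ _))
      rw [← hlc, sym_mul hπpr hπ3 n1 n2] at hG
      rw [← hπc, sym_mul hl hl3 n3 n4] at hG2
      have h3 : (3 : ZMod 3) = 0 := by decide
      linear_combination hG - hG2 + (sym π l - sym l π) * h3
    · -- inert
      have hNq : N l = q ^ 2 := by
        have : (N l : ℤ) = q ^ 2 := by rw [hNl, hn]
        exact_mod_cast this
      have has := associated_of_norm_sq hq hlq hn
      obtain ⟨u, hu⟩ := has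
      have hqprim : Prim (l * u) := by rw [hu]; exact prim_natCast hq3
      have hu1 := hlprim.unit u.isUnit hqprim
      rw [hNq] at hG
      push_cast at hG
      rw [sym_pow hπpr hπ3 hπq] at hG
      have n3 : ¬ l ∣ π := fun h => hlp (h.trans (dvd_p hπ))
      have has' : Associated (Eis.conj l) l := by
        have h1 : Associated l (q : Eis) := ⟨u, hu⟩
        have h2 : Associated (Eis.conj l) (q : Eis) := by
          refine ⟨Units.map Eis.conj.toMonoidHom u, ?_⟩
          have := congrArg Eis.conj hu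
          rw [map_mul, conj_natCast] at this
          exact this
        exact h2.trans h1.symm
      have hsc := sym_conj hl hl3 n3
      rw [sym_associated has'] at hsc
      have hlq' : sym π l = sym π (q : Eis) := by
        rcases hu1 with h | h
        · rw [h, mul_one] at hu; rw [hu]
        · rw [h] at hu
          have : l = -(q : Eis) := by rw [← hu]; ring
          rw [this, sym_neg hπpr hπ3 hπq]
      rw [hlq']
      rw [hsc] at hG
      push_cast at hG
      have h3 : (3 : ZMod 3) = 0 := by decide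
      linear_combination (1 : ZMod 3) * hG + sym π (q : Eis) * h3 - sym l π * h3

theorem sym_unit (hp9 : p % 9 = 1) (hπ : π.norm = p) {u : Eis} (hu : IsUnit u) :
    sym π u = 0 := by
  have hp3 : p % 3 = 1 := by omega
  have hπpr := prime_of_norm_eq hπ
  have hπ3 := not_dvd_three hπ hp3
  have hw : sym π w = 0 := by
    rw [sym_w' hπpr hπ3, hπ]
    have : (p : ℤ) = 1 + 3 * (3 * (p / 9 : ℤ)) := by omega
    rw [wt_eq this]
    push_cast
    have h3 : (3 : ZMod 3) = 0 := by decide
    rw [h3]; ring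
  have hwi : ∀ i : ℕ, sym π (w ^ i) = 0 := fun i => by
    rw [sym_pow hπpr hπ3 (not_dvd_of_isUnit hπpr isUnit_w), hw, mul_zero]
  obtain ⟨i, hi, hu | hu⟩ := unit_cases hu
  · rw [hu]; exact hwi i
  · rw [hu, sym_neg hπpr hπ3 (not_dvd_of_isUnit hπpr (isUnit_w.pow i))]; exact hwi i

/-- **Lemma R**. -/
theorem lemmaR (hp9 : p % 9 = 1) (hπ : π.norm = p) (hprim : (3 : ℤ) ∣ π.im) (c : ZMod 3)
    (x : Eis) (hx0 : x ≠ 0) (hx3 : ¬ lam ∣ x) (hxπ : ¬ π ∣ x)
    (H : ∀ l : Eis, Prime l → l ∣ x → sym l π = c * wt l.norm) :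
    sym π x = c * wt x.norm := by
  have hp3 : p % 3 = 1 := by omega
  have hπpr := prime_of_norm_eq hπ
  have hπ3 := not_dvd_three hπ hp3
  induction x using UniqueFactorizationMonoid.induction_on_prime with
  | h₁ => exact absurd rfl hx0
  | h₂ u hu => rw [sym_unit hp9 hπ hu, isUnit_iff_norm.mp hu, wt_one, mul_zero]
  | h₃ a l ha0 hl ih =>
    have hla : ¬ lam ∣ a := fun h => hx3 (Dvd.dvd.mul_left h l)
    have hll : ¬ lam ∣ l := fun h => hx3 (Dvd.dvd.mul_right h a)
    have hπa : ¬ π ∣ a := fun h => hxπ (Dvd.dvd.mul_left h l)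
    have hπl : ¬ π ∣ l := fun h => hxπ (Dvd.dvd.mul_right h a)
    have h1 := ih ha0 hla hπa (fun m hm hma => H m hm (Dvd.dvd.mul_left hma l))
    have hl3 : ¬ l ∣ 3 := fun h => hll ((dvd_three_iff hl).mp h).symm.dvd
    obtain ⟨i, hi⟩ := exists_prim hll
    have hass : Associated (l * w ^ i) l := ⟨(isUnit_w.pow i).unit⁻¹, by
      rw [mul_assoc]; simp⟩
    have hl' : Prime (l * w ^ i) := (hass.symm.prime hl)
    have hl3' : ¬ (l * w ^ i) ∣ 3 := fun h => hl3 (hass.symm.dvd.trans h)
    have hne : ¬ Associated (l * w ^ i) π := fun h => hπl (h.symm.dvd.trans hass.dvd)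
    have h2 := recip hp3 hπ hprim hl' hl3' hi hne
    rw [sym_associated hass, sym_mul hπpr hπ3 hπl (not_dvd_of_isUnit hπpr (isUnit_w.pow i)),
      sym_unit hp9 hπ (isUnit_w.pow i), add_zero, H l hl (dvd_mul_right _ _)] at h2
    rw [sym_mul hπpr hπ3 hπl hπa, h1, h2, norm_mul,
      wt_mul (norm_emod_three_of_not_lam_dvd hll) (norm_emod_three_of_not_lam_dvd hla)]
    ring

end split

end Eis

end Pool.Agent.Lib_helper18
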