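import Pool.Agent.Lib_helper18.Recip

/-!
# The supplementary law for the prime above 3
-/

namespace Pool.Agent.Lib_helper18

namespace Eis

section split

variable {p : ℕ} [hp : Fact p.Prime] {π : Eis}

theorem four_lt (hp3 : p % 3 = 1) : (4 : ℤ) < p := by
  have hp2 := hp.out.two_le
  have : 4 < p := by
    by_contra h
    push Not at h
    have : p = 4 := by omega
    exact absurd hp.out (by rw [this]; norm_num)
  exact_mod_cast this

theorem not_dvd_of_sq_le (hp3 : p % 3 = 1) {s : ℤ} (hs : s ^ 2 ≤ 4 * p) (hs0 : s ≠ 0) :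
    ¬ (p : ℤ) ∣ s := by
  rintro ⟨k, hk⟩
  have h4 := four_lt hp3
  have hk0 : k ≠ 0 := by rintro rfl; simp at hk; exact hs0 hk
  have : 1 ≤ k ^ 2 := by
    have : 0 < k ^ 2 := by positivity
    omega
  rw [hk] at hs
  nlinarith [mul_pos (by linarith : (0 : ℤ) < p) (by linarith : (0 : ℤ) < p)]

/-- the supplementary law -/
theorem sym_lam (hp3 : p % 3 = 1) (hπ : π.norm = p) {M : ℤ} (hM : π.im = 3 * M) :
    sym π lam = 2 * wt (π.re ^ 2) := by
  have hπpr := prime_of_norm_eq hπ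
  have hπ3 := not_dvd_three hπ hp3
  have hprim : (3 : ℤ) ∣ π.im := ⟨M, hM⟩
  have hre := re_not_dvd hp3 hπ hprim
  obtain ⟨a, b⟩ := π
  simp only at hM hre hprim
  subst hM
  set π : Eis := ⟨a, 3 * M⟩ with hπdef
  show sym π lam = 2 * wt (a ^ 2)
  have hn : a ^ 2 - 3 * a * M + 9 * M ^ 2 = p := by
    have := hπ
    rw [norm_def] at this
    simp only [hπdef] at this
    linear_combination this
  have hpos : (0 : ℤ) < p := by have := four_lt (hp := hp) hp3; linarith
  have ha0 : a ≠ 0 := by rintro rfl; simp at hre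
  have hs3 : ¬ (3 : ℤ) ∣ a + 3 * M := by omega
  have hs0 : a + 3 * M ≠ 0 := by intro h; rw [h] at hs3; simp at hs3
  have hpa : ¬ (p : ℤ) ∣ a := not_dvd_of_sq_le hp3 (by
    nlinarith [sq_nonneg (a - 6 * M), sq_nonneg a]) ha0
  have hps : ¬ (p : ℤ) ∣ a + 3 * M := not_dvd_of_sq_le hp3 (by
    nlinarith [sq_nonneg (a - 3 * M), sq_nonneg a]) hs0
  -- coprimality facts
  have hnoM : ∀ l : Eis, Prime l → ¬ (l ∣ π ∧ l ∣ conj π) := by
    rintro l hl ⟨h1, h2⟩
    have := hl.associated_of_dvd hπpr h1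
    exact not_dvd_conj hp3 hπ (this.symm.dvd.trans h2)
  have eπ : π = (a : Eis) + ((3 * M : ℤ) : Eis) * w := by
    ext <;> simp only [hπdef, add_re, add_im, mul_re, mul_im, intCast_re, intCast_im, w_re, w_im]
      <;> ring
  have eπ' : conj π = (a : Eis) + ((3 * M : ℤ) : Eis) * w ^ 2 := by
    rw [eπ, map_add, map_mul, conj_intCast, conj_intCast, conj_w]
  -- primes dividing a
  have hSa := lemmaS hp3 hπ hprim (-1) a hre hpa (by
    intro l hl hla
    have hl3 : ¬ l ∣ 3 := by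
      intro h
      have h1 := (dvd_three_iff hl).mp h
      have h2 : lam ∣ (a : Eis) := h1.symm.dvd.trans hla
      rw [lam_dvd_iff] at h2
      simp only [intCast_re, intCast_im] at h2
      omega
    have hlM : ¬ l ∣ ((3 * M : ℤ) : Eis) := by
      intro h
      apply hnoM l hl
      rw [eπ', eπ]
      exact ⟨dvd_add hla (dvd_mul_of_dvd_left h _), dvd_add hla (dvd_mul_of_dvd_left h _)⟩
    have e1 : sym l π = sym l (((3 * M : ℤ) : Eis) * w) := sym_congr (by rw [eπ]; simpa using hla)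
    have e2 : sym l (conj π) = sym l (((3 * M : ℤ) : Eis) * w ^ 2) :=
      sym_congr (by rw [eπ']; simpa using hla)
    have hlw := not_dvd_of_isUnit hl isUnit_w
    have hlw2 := not_dvd_of_isUnit hl (isUnit_w.pow 2)
    rw [e1, e2, sym_mul hl hl3 hlM hlw, sym_mul hl hl3 hlM hlw2, sym_pow hl hl3 hlw,
      sym_w' hl hl3]
    push_cast; ring)
  have hSs := lemmaS hp3 hπ hprim 1 (a + 3 * M) hs3 hps (by
    intro l hl hla
    have hl3 : ¬ l ∣ 3 := by
      intro h
      have h1 := (dvd_three_iff hl).mp h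
      have h2 : lam ∣ ((a + 3 * M : ℤ) : Eis) := h1.symm.dvd.trans hla
      rw [lam_dvd_iff] at h2
      simp only [intCast_re, intCast_im] at h2
      omega
    have hla' : l ∣ (a : Eis) + ((3 * M : ℤ) : Eis) := by
      have e : ((a + 3 * M : ℤ) : Eis) = (a : Eis) + ((3 * M : ℤ) : Eis) := by push_cast; ring
      rwa [e] at hla
    have hlM : ¬ l ∣ ((3 * M : ℤ) : Eis) := by
      intro h
      apply hnoM l hl
      have hla2 : l ∣ (a : Eis) := by
        have := dvd_sub hla' h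
        simpa using this
      rw [eπ', eπ]
      exact ⟨dvd_add hla2 (dvd_mul_of_dvd_left h _), dvd_add hla2 (dvd_mul_of_dvd_left h _)⟩
    have hllam : ¬ l ∣ lam := fun h => hl3 (h.trans lam_dvd_three)
    have hlw := not_dvd_of_isUnit hl isUnit_w
    have hlw2 := not_dvd_of_isUnit hl (isUnit_w.pow 2)
    have e1 : sym l π = sym l (-(((3 * M : ℤ) : Eis) * lam)) := sym_congr (by
      have e : π - -(((3 * M : ℤ) : Eis) * lam) = (a : Eis) + ((3 * M : ℤ) : Eis) := by
        rw [eπ, lam_eq]; ring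
      rw [e]; exact hla')
    have e2 : sym l (conj π) = sym l (((3 * M : ℤ) : Eis) * lam * w ^ 2) := sym_congr (by
      have e : conj π - ((3 * M : ℤ) : Eis) * lam * w ^ 2 = (a : Eis) + ((3 * M : ℤ) : Eis) := by
        rw [eπ', lam_eq]
        have := w_cube
        linear_combination ((3 * M : ℤ) : Eis) * this
      rw [e]; exact hla')
    have hlMl : ¬ l ∣ ((3 * M : ℤ) : Eis) * lam := fun h => (hl.dvd_or_dvd h).elim hlM hllam
    rw [e1, e2, sym_neg hl hl3 hlMl, sym_mul hl hl3 hlMl hlw2, sym_pow hl hl3 hlw,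
      sym_w' hl hl3]
    push_cast
    have h3 : (3 : ZMod 3) = 0 := by decide
    linear_combination (-wt l.norm) * h3)
  -- relations at π
  have hπM : ¬ π ∣ ((3 * M : ℤ) : Eis) := by
    intro h
    have h1 : π ∣ (a : Eis) := by
      have : π ∣ π - ((3 * M : ℤ) : Eis) * w := dvd_sub dvd_rfl (dvd_mul_of_dvd_left h _)
      have e : π - ((3 * M : ℤ) : Eis) * w = (a : Eis) := by
        conv_lhs => rw [eπ]
        ring
      rwa [e] at this
    rw [dvd_intCast_iff hπ] at h1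
    exact hpa h1
  have hπw := not_dvd_of_isUnit hπpr isUnit_w
  have hπlam : ¬ π ∣ lam := fun h => hπ3 (h.trans lam_dvd_three)
  have r1 : sym π (a : Eis) = sym π ((3 * M : ℤ) : Eis) + sym π w := by
    rw [← sym_mul hπpr hπ3 hπM hπw, ← sym_neg hπpr hπ3 (x := ((3 * M : ℤ) : Eis) * w)
      (fun h => (hπpr.dvd_or_dvd h).elim hπM hπw)]
    apply sym_congr
    have e : (a : Eis) - -(((3 * M : ℤ) : Eis) * w) = π := by rw [eπ]; ring
    rw [e]
  have r2 : sym π ((a + 3 * M : ℤ) : Eis) = sym π ((3 * M : ℤ) : Eis) + sym π lam := by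
    rw [← sym_mul hπpr hπ3 hπM hπlam]
    apply sym_congr
    have e : ((a + 3 * M : ℤ) : Eis) - ((3 * M : ℤ) : Eis) * lam = π := by
      rw [eπ, lam_eq]; push_cast; ring
    rw [e]
  have r3 : sym π w = wt p := by rw [sym_w' hπpr hπ3, hπ]
  -- weights
  obtain ⟨α, hα⟩ : ∃ α, a ^ 2 = 1 + 3 * α := ⟨a ^ 2 / 3, by
    have := sq_mod_three hre; omega⟩
  have w1 : wt (a ^ 2) = (α : ZMod 3) := wt_eq hα
  have w2 : wt ((a + 3 * M) ^ 2) = ((α + 2 * a * M + 3 * M ^ 2 : ℤ) : ZMod 3) :=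
    wt_eq (by linear_combination hα)
  have w3 : wt p = ((α - a * M + 3 * M ^ 2 : ℤ) : ZMod 3) :=
    wt_eq (by rw [← hn]; linear_combination hα)
  rw [w1]
  rw [w1] at hSa
  rw [w2] at hSs
  rw [w3] at r3
  push_cast at hSa hSs r3
  have h3 : (3 : ZMod 3) = 0 := by decide
  have h2 : 2 * sym π lam = (α : ZMod 3) := by
    push_cast at r1 r2
    linear_combination hSs - hSa - 2 * r2 + 2 * r1 + 2 * r3 + (α + 3 * M ^ 2) * h3
  linear_combination 2 * h2 - sym π lam * h3

/-- the supplementary law for `p ≡ 1` modulo 9 -/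
theorem sym_lam' (hp9 : p % 9 = 1) (hπ : π.norm = p) {M : ℤ} (hM : π.im = 3 * M) :
    sym π lam = 2 * ((π.re * M : ℤ) : ZMod 3) := by
  have hp3 : p % 3 = 1 := by omega
  rw [sym_lam hp3 hπ hM]
  congr 1
  obtain ⟨k, hk⟩ : ∃ k : ℤ, (p : ℤ) = 1 + 9 * k := ⟨p / 9, by omega⟩
  have hn : π.re ^ 2 - 3 * π.re * M + 9 * M ^ 2 = p := by
    rw [← hπ, norm_def, hM]; ring
  have h1 : π.re ^ 2 = 1 + 3 * (π.re * M + 3 * k - 3 * M ^ 2) := by linear_combination hn + hk
  rw [wt_eq h1]
  push_cast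
  have h3 : (3 : ZMod 3) = 0 := by decide
  linear_combination (k - M ^ 2 : ZMod 3) * h3

end split

end Eis

end Pool.Agent.Lib_helper18
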