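import Pool.Agent.Lib_helper18.ToricFam

/-!
# The two bounds are asymptotically equal (helper18)
-/

set_option autoImplicit false
set_option linter.unusedSectionVars false

open Finset Filter Topology

namespace ToricMMP

/-- the bound for the number of steps -/
def upperBound (d ρ : ℕ) : ℕ := ρ.multichoose ((d + 1) / 2) + ρ.multichoose (d / 2)

lemma mc_succ (n k : ℕ) : (k + 1) * n.multichoose (k + 1) = n.multichoose k * (n + k) := by
  rw [Nat.multichoose_eq, Nat.multichoose_eq]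
  rcases Nat.eq_zero_or_pos (n + k) with h | h
  · have h1 : n = 0 := by omega
    have h2 : k = 0 := by omega
    subst h1 h2
    simp
  · obtain ⟨q, hq⟩ : ∃ q, n + k = q + 1 := ⟨n + k - 1, by omega⟩
    have h1 : n + (k + 1) - 1 = q + 1 := by omega
    have h2 : n + k - 1 = q := by omega
    rw [h1, h2, hq]
    have := Nat.add_one_mul_choose_eq q k
    linarith

lemma tendsto_shift (c k : ℕ) :
    Tendsto (fun ρ : ℕ => (((ρ - c : ℕ) : ℝ) + k) / ρ) atTop (𝓝 1) := by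
  have h1 : Tendsto (fun ρ : ℕ => 1 + ((k : ℝ) - c) / ρ) atTop (𝓝 (1 + 0)) :=
    tendsto_const_nhds.add (tendsto_const_div_atTop_nhds_zero_nat _)
  rw [add_zero] at h1
  apply h1.congr'
  filter_upwards [eventually_ge_atTop (c + 1)] with ρ hρ
  have h2 : (ρ : ℝ) ≠ 0 := by
    have : 0 < ρ := by omega
    positivity
  rw [Nat.cast_sub (by omega)]
  field_simp
  ring

lemma tendsto_mc (c k : ℕ) :
    Tendsto (fun ρ : ℕ => ((ρ - c).multichoose k : ℝ) / (ρ : ℝ) ^ k) atTop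
      (𝓝 (1 / (k.factorial : ℝ))) := by
  induction k with
  | zero => simp
  | succ k ih =>
    have h1 := (ih.mul (tendsto_shift c k)).mul_const (1 / ((k : ℝ) + 1))
    have h2 : 1 / (k.factorial : ℝ) * 1 * (1 / ((k : ℝ) + 1)) =
        1 / ((k + 1).factorial : ℝ) := by
      rw [Nat.factorial_succ]
      push_cast
      have h3 : (k.factorial : ℝ) ≠ 0 := by exact_mod_cast k.factorial_ne_zero
      have h4 : (k : ℝ) + 1 ≠ 0 := by positivity
      field_simp
    rw [h2] at h1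
    apply h1.congr
    intro ρ
    have h3 : ((k : ℝ) + 1) * ((ρ - c).multichoose (k + 1) : ℝ) =
        ((ρ - c).multichoose k : ℝ) * (((ρ - c : ℕ) : ℝ) + k) := by
      exact_mod_cast mc_succ (ρ - c) k
    have h4 : (k : ℝ) + 1 ≠ 0 := by positivity
    have h5 : ((ρ - c).multichoose (k + 1) : ℝ) =
        ((ρ - c).multichoose k : ℝ) * (((ρ - c : ℕ) : ℝ) + k) / ((k : ℝ) + 1) := by
      rw [← h3]
      field_simp
    rw [h5, pow_succ]
    ring

lemma tendsto_mc_le (c k m : ℕ) (hk : k ≤ m) :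
    Tendsto (fun ρ : ℕ => ((ρ - c).multichoose k : ℝ) / (ρ : ℝ) ^ m) atTop
      (𝓝 (if k = m then 1 / (m.factorial : ℝ) else 0)) := by
  by_cases h : k = m
  · rw [if_pos h, h]
    exact tendsto_mc c m
  · rw [if_neg h]
    have h1 : Tendsto (fun ρ : ℕ => ((ρ : ℝ) ^ (m - k))⁻¹) atTop (𝓝 0) := by
      have h2 : Tendsto (fun ρ : ℕ => (ρ : ℝ) ^ (m - k)) atTop atTop :=
        (tendsto_pow_atTop (by omega)).comp tendsto_natCast_atTop_atTop
      exact h2.inv_tendsto_atTop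
    have h2 := (tendsto_mc c k).mul h1
    rw [mul_zero] at h2
    apply h2.congr'
    filter_upwards [eventually_ge_atTop 1] with ρ hρ
    have h3 : (ρ : ℝ) ≠ 0 := by
      have : 0 < ρ := by omega
      positivity
    have h4 : (ρ : ℝ) ^ m = (ρ : ℝ) ^ k * (ρ : ℝ) ^ (m - k) := by
      rw [← pow_add]
      congr 1
      omega
    rw [h4]
    field_simp

/-- the limit -/
noncomputable def lim (d : ℕ) : ℝ :=
  1 / (((d + 1) / 2).factorial : ℝ) + if Even d then 1 / (((d + 1) / 2).factorial : ℝ) else 0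

lemma lim_pos (d : ℕ) : 0 < lim d := by
  unfold lim
  have : (0 : ℝ) < (((d + 1) / 2).factorial : ℝ) := by exact_mod_cast Nat.factorial_pos _
  split_ifs <;> positivity

lemma tendsto_lower (d : ℕ) :
    Tendsto (fun ρ : ℕ => (lowerBound d ρ : ℝ) / (ρ : ℝ) ^ ((d + 1) / 2)) atTop (𝓝 (lim d)) := by
  unfold lowerBound lim
  by_cases h : Even d
  · simp only [if_pos h]
    have h2 : d / 2 = (d + 1) / 2 := by
      obtain ⟨m, rfl⟩ := h
      omega
    rw [h2]
    have h3 := (tendsto_mc 1 ((d + 1) / 2)).add (tendsto_mc 2 ((d + 1) / 2))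
    apply h3.congr
    intro ρ
    push_cast
    ring
  · simp only [if_neg h, add_zero]
    exact tendsto_mc 1 ((d + 1) / 2)

lemma tendsto_upper (d : ℕ) :
    Tendsto (fun ρ : ℕ => (upperBound d ρ : ℝ) / (ρ : ℝ) ^ ((d + 1) / 2)) atTop (𝓝 (lim d)) := by
  have h1 := (tendsto_mc_le 0 ((d + 1) / 2) ((d + 1) / 2) le_rfl).add
    (tendsto_mc_le 0 (d / 2) ((d + 1) / 2) (by omega))
  rw [if_pos rfl] at h1
  have h2 : (if d / 2 = (d + 1) / 2 then 1 / (((d + 1) / 2).factorial : ℝ) else 0) =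
      if Even d then 1 / (((d + 1) / 2).factorial : ℝ) else 0 := by
    by_cases h : Even d
    · rw [if_pos h, if_pos]
      obtain ⟨q, rfl⟩ := h
      omega
    · rw [if_neg h, if_neg]
      rw [Nat.not_even_iff_odd] at h
      obtain ⟨q, rfl⟩ := h
      omega
  rw [h2] at h1
  apply h1.congr
  intro ρ
  unfold upperBound
  push_cast
  simp only [Nat.sub_zero]
  rw [add_div]

/-- the two bounds are asymptotically equal -/
theorem tendsto_ratio (d : ℕ) :
    Tendsto (fun ρ : ℕ => (upperBound d ρ : ℝ) / (lowerBound d ρ : ℝ)) atTop (𝓝 1) := by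
  have h1 := (tendsto_upper d).div (tendsto_lower d) (lim_pos d).ne'
  rw [div_self (lim_pos d).ne'] at h1
  apply h1.congr'
  filter_upwards [eventually_ge_atTop 1] with ρ hρ
  have h3 : (ρ : ℝ) ≠ 0 := by
    have : 0 < ρ := by omega
    positivity
  have h4 : (ρ : ℝ) ^ ((d + 1) / 2) ≠ 0 := pow_ne_zero _ h3
  show (upperBound d ρ : ℝ) / (ρ : ℝ) ^ ((d + 1) / 2) /
    ((lowerBound d ρ : ℝ) / (ρ : ℝ) ^ ((d + 1) / 2)) = _
  rw [div_div_div_cancel_right₀ h4]

/-- the examples -/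
theorem examples (d ρ : ℕ) (hd : 3 ≤ d) (hρ : 1 ≤ ρ) :
    ∃ (w : Fin (ρ + d) → Fin d → ℤ) (a : Fin (ρ + d) → ℝ) (T : ℕ → Set (Finset (Fin (ρ + d)))),
      (∀ i, -1 < a i ∧ a i < 0) ∧
      (∀ s ≤ lowerBound d ρ, IsFan (fun i k => (w i k : ℝ)) (T s) ∧
        IsProjective (fun i k => (w i k : ℝ)) (T s) ∧ ∀ i, {i} ∈ T s) ∧
      (∀ s < lowerBound d ρ, IsStep (fun i k => (w i k : ℝ)) a (T s) (T (s + 1))) := by
  obtain ⟨K, hK⟩ : ∃ K, ρ + d = K + 1 := ⟨ρ + d - 1, by omega⟩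
  obtain ⟨x, F, hx, hinj, hF, hc⟩ := nodes K d ρ hd hρ hK
  obtain ⟨T, h1, h2⟩ := Nod.lower_nat (d := d) hx hd (by omega) hinj F hF
  rw [hc] at h1 h2
  rw [hK]
  have hv : (fun (i : Fin (K + 1)) (k : Fin d) =>
      (((if i = Fin.last K then - ∑ j ∈ Nod.fi K, x j ^ (k : ℕ) else x i ^ (k : ℕ)) : ℤ) : ℝ)) =
      Nod.v d (fun i : Fin (K + 1) => x i) := by
    funext i k
    unfold Nod.v Nod.t
    split_ifs
    · push_cast
      rfl
    · push_cast
      rfl
  refine ⟨fun i k => if i = Fin.last K then - ∑ j ∈ Nod.fi K, x j ^ (k : ℕ) else x i ^ (k : ℕ),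
    Nod.aa d (fun i : Fin (K + 1) => x i), T, fun i => Nod.aa_range i, ?_, ?_⟩
  · rw [hv]
    exact h1
  · rw [hv]
    exact h2

end ToricMMP
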