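import Pool.Agent.Lib_helper18.ToricTransport

/-!
# Toric minimal model program: faces in a chain of steps (helper18)
-/

set_option autoImplicit false
set_option linter.unusedSectionVars false

open Finset

namespace ToricMMP

variable {ι E : Type*} [Fintype ι] [DecidableEq ι] [AddCommGroup E] [Module ℝ E]

/-- the data of a step -/
structure Dat (v : ι → E) (a : ι → ℝ) (T T' : Set (Finset ι)) (l : ι → ℝ)
    (L : Set (Finset ι)) : Prop where
  rel : ∑ i, l i • v i = 0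
  negative : ∑ i, a i * l i < 0
  hp : 2 ≤ (pos l).card
  hn : 1 ≤ (neg l).card
  hL : ∅ ∈ L
  h1 : ∀ F, neg l ⊆ F → (F ∈ T ↔ ¬ pos l ⊆ F ∧ F \ (pos l ∪ neg l) ∈ L) ∧ F ∉ T'
  h2 : ∀ F, pos l ⊆ F → ¬ neg l ⊆ F → F ∉ T ∧ (F ∈ T' ↔ F \ (pos l ∪ neg l) ∈ L)
  h3 : ∀ F, ¬ pos l ⊆ F → ¬ neg l ⊆ F → (F ∈ T ↔ F ∈ T')

lemma isStep_iff (v : ι → E) (a : ι → ℝ) (T T' : Set (Finset ι)) :
    IsStep v a T T' ↔ ∃ l L, Dat v a T T' l L := by
  constructor
  · rintro ⟨l, L, a1, a2, a3, a4, a5, a6, a7, a8⟩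
    exact ⟨l, L, a1, a2, a3, a4, a5, a6, a7, a8⟩
  · rintro ⟨l, L, h⟩
    exact ⟨l, L, h.rel, h.negative, h.hp, h.hn, h.hL, h.h1, h.h2, h.h3⟩

lemma pos_neg_disj {l : ι → ℝ} {i : ι} (h : i ∈ pos l) (h' : i ∈ neg l) : False := by
  rw [mem_pos] at h
  rw [mem_neg] at h'
  linarith

section Dat

variable {v : ι → E} {a : ι → ℝ} {T T' : Set (Finset ι)} {l : ι → ℝ} {L : Set (Finset ι)}

lemma Dat.step (h : Dat v a T T' l L) {c : ι → ℝ} (hc : ∀ i, 0 ≤ c i) (hF : su c ∈ T) :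
    ∃ c' : ι → ℝ, (∀ i, 0 ≤ c' i) ∧ su c' ∈ T' ∧ V v c' = V v c ∧
      ((neg l ⊆ su c ∧ ∑ i, a i * c' i < ∑ i, a i * c i) ∨ (¬ neg l ⊆ su c ∧ c' = c)) :=
  step_transport h.rel h.negative h.hn h.h1 h.h2 h.h3 hc hF

lemma Dat.not_pos_subset_neg (h : Dat v a T T' l L) {F : Finset ι} (hF : F ⊆ neg l) :
    ¬ pos l ⊆ F := by
  intro h'
  obtain ⟨i, hi⟩ := Finset.card_pos.mp (lt_of_lt_of_le zero_lt_two h.hp)
  exact pos_neg_disj hi (hF (h' hi))

lemma Dat.not_neg_subset_pos (h : Dat v a T T' l L) {F : Finset ι} (hF : F ⊆ pos l) :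
    ¬ neg l ⊆ F := by
  intro h'
  obtain ⟨i, hi⟩ := Finset.card_pos.mp h.hn
  exact pos_neg_disj (hF (h' hi)) hi

lemma sdiff_eq_empty' {l : ι → ℝ} {G : Finset ι} (hG : G ⊆ pos l ∪ neg l) :
    G \ (pos l ∪ neg l) = ∅ := by
  rw [Finset.sdiff_eq_empty_iff_subset]
  exact hG

/-- the faces of `T` inside the circuit -/
lemma Dat.face (h : Dat v a T T' l L) (hT : IsFan v T) {G : Finset ι}
    (hG : G ⊆ pos l ∪ neg l) : G ∈ T ↔ ¬ pos l ⊆ G := by
  by_cases hn : neg l ⊆ G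
  · rw [(h.h1 G hn).1, sdiff_eq_empty' hG]
    exact ⟨fun h' => h'.1, fun h' => ⟨h', h.hL⟩⟩
  · by_cases hp : pos l ⊆ G
    · exact ⟨fun h' => absurd h' (h.h2 G hp hn).1, fun h' => absurd hp h'⟩
    · refine ⟨fun _ => hp, fun _ => ?_⟩
      have h1 : neg l ⊆ G ∪ neg l := Finset.subset_union_right
      have h2 : G ∪ neg l ⊆ pos l ∪ neg l :=
        Finset.union_subset hG Finset.subset_union_right
      have h3 : G ∪ neg l ∈ T := by
        rw [(h.h1 _ h1).1, sdiff_eq_empty' h2]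
        refine ⟨?_, h.hL⟩
        intro h4
        apply hp
        intro i hi
        rcases Finset.mem_union.mp (h4 hi) with h5 | h5
        · exact h5
        · exact absurd h5 (fun h6 => pos_neg_disj hi h6)
      exact hT.down _ h3 _ Finset.subset_union_left

/-- the faces of `T'` inside the circuit -/
lemma Dat.face' (h : Dat v a T T' l L) (hT : IsFan v T) {G : Finset ι}
    (hG : G ⊆ pos l ∪ neg l) : G ∈ T' ↔ ¬ neg l ⊆ G := by
  by_cases hn : neg l ⊆ G
  · exact ⟨fun h' => absurd h' (h.h1 G hn).2, fun h' => absurd hn h'⟩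
  · by_cases hp : pos l ⊆ G
    · rw [(h.h2 G hp hn).2, sdiff_eq_empty' hG]
      exact ⟨fun _ => hn, fun _ => h.hL⟩
    · rw [← h.h3 G hp hn, h.face hT hG]
      exact ⟨fun _ => hn, fun _ => hp⟩

lemma Dat.card_le [Module.Finite ℝ E] (h : Dat v a T T' l L) (hT : IsFan v T) :
    (pos l).card + (neg l).card ≤ Module.finrank ℝ E + 1 := by
  obtain ⟨i, hi⟩ := Finset.card_pos.mp (lt_of_lt_of_le zero_lt_two h.hp)
  have h1 : (pos l ∪ neg l).erase i ∈ T := by
    rw [h.face hT (Finset.erase_subset _ _)]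
    intro h2
    exact absurd (h2 hi) (Finset.notMem_erase i _)
  have h2 := hT.indep _ h1
  have h3 : ((pos l ∪ neg l).erase i).card ≤ Module.finrank ℝ E := by
    have h5 := h2.linearIndependent.fintype_card_le_finrank
    simpa only [Finset.coe_sort_coe, Fintype.card_coe] using h5
  have h4 : (pos l ∪ neg l).card = (pos l).card + (neg l).card := by
    apply Finset.card_union_of_disjoint
    rw [Finset.disjoint_left]
    intro j hj hj'
    exact pos_neg_disj hj hj'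
  rw [Finset.card_erase_of_mem (Finset.mem_union_left _ hi), h4] at h3
  have := h.hp
  omega

end Dat

section Chain

variable {v : ι → E} {a : ι → ℝ} {N : ℕ} {T : ℕ → Set (Finset ι)} {l : ℕ → ι → ℝ}
  {L : ℕ → Set (Finset ι)}

lemma chain_transport (hs : ∀ s < N, Dat v a (T s) (T (s + 1)) (l s) (L s)) {u : ℕ}
    {c : ι → ℝ} (hc : ∀ i, 0 ≤ c i) (hF : su c ∈ T u) (m : ℕ) (hm : u + m ≤ N) :
    ∃ c' : ι → ℝ, (∀ i, 0 ≤ c' i) ∧ su c' ∈ T (u + m) ∧ V v c' = V v c ∧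
      ∑ i, a i * c' i ≤ ∑ i, a i * c i := by
  induction m with
  | zero => exact ⟨c, hc, hF, rfl, le_refl _⟩
  | succ m ih =>
    obtain ⟨c1, g1, g2, g3, g4⟩ := ih (by omega)
    obtain ⟨c2, k1, k2, k3, k4⟩ := (hs (u + m) (by omega)).step g1 g2
    refine ⟨c2, k1, k2, by rw [k3, g3], ?_⟩
    rcases k4 with ⟨-, k4⟩ | ⟨-, k4⟩
    · exact (lt_of_lt_of_le k4 g4).le
    · rw [k4]
      exact g4

/-- a removed face never returns -/
lemma removed (hT : ∀ s ≤ N, IsFan v (T s))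
    (hs : ∀ s < N, Dat v a (T s) (T (s + 1)) (l s) (L s)) {s u : ℕ} (hsu : s < u) (hu : u ≤ N)
    {G : Finset ι} (hG : neg (l s) ⊆ G) (hGs : G ∈ T s) : G ∉ T u := by
  intro hGu
  have hsN : s < N := lt_of_lt_of_le hsu hu
  obtain ⟨c1, k1, k2, k3, k4⟩ := (hs s hsN).step (one_nonneg G) (by rw [su_one]; exact hGs)
  rw [su_one] at k4
  have k5 : ∑ i, a i * c1 i < ∑ i, a i * one G i := by
    rcases k4 with ⟨-, k4⟩ | ⟨k4, -⟩
    · exact k4
    · exact absurd hG k4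
  obtain ⟨m, rfl⟩ := Nat.exists_eq_add_of_lt hsu
  obtain ⟨c2, g1, g2, g3, g4⟩ := chain_transport hs k1 k2 m (by omega)
  have h1 : s + 1 + m = s + m + 1 := by ring
  rw [h1] at g2
  have h2 : c2 = one G := (hT _ hu).eq g1 (one_nonneg G) g2 (by rw [su_one]; exact hGu)
    (by rw [g3, k3])
  rw [h2] at g4
  exact absurd g4 (not_le.mpr k5)

/-- a created face did not exist before -/
lemma created (hT : ∀ s ≤ N, IsFan v (T s))
    (hs : ∀ s < N, Dat v a (T s) (T (s + 1)) (l s) (L s)) {s u : ℕ} (hus : u ≤ s) (hsN : s < N)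
    {G : Finset ι} (hG : pos (l s) ⊆ G) (hGs : G ∈ T (s + 1)) : G ∉ T u := by
  intro hGu
  obtain ⟨m, rfl⟩ := Nat.exists_eq_add_of_le hus
  obtain ⟨c1, k1, k2, k3, k4⟩ := chain_transport hs (one_nonneg G)
    (by rw [su_one]; exact hGu) m (by omega)
  obtain ⟨c2, g1, g2, g3, g4⟩ := (hs (u + m) hsN).step k1 k2
  have h2 : c2 = one G := (hT _ (by omega)).eq g1 (one_nonneg G) g2
    (by rw [su_one]; exact hGs) (by rw [g3, k3])
  rcases g4 with ⟨-, g4⟩ | ⟨g4, g5⟩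
  · rw [h2] at g4
    exact absurd k4 (not_le.mpr g4)
  · rw [← g5, h2, su_one] at g4 k2
    exact ((hs (u + m) hsN).h2 G hG g4).1 k2

/-- a circuit is not contained in a face -/
lemma Dat.not_subset_face {T T' T'' : Set (Finset ι)} {l : ι → ℝ} {L : Set (Finset ι)}
    (h : Dat v a T T' l L) (hT : IsFan v T'') {G : Finset ι} (hG : G ∈ T'') :
    ¬ pos l ∪ neg l ⊆ G := by
  intro hsub
  have h1 := hT.indep G hG
  rw [linearIndepOn_finset_iff] at h1
  have h2 : ∑ i ∈ G, l i • v i = 0 := by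
    rw [← h.rel]
    apply Finset.sum_subset (Finset.subset_univ G)
    intro i _ hi
    have h3 : i ∉ pos l ∪ neg l := fun h4 => hi (hsub h4)
    rw [Finset.mem_union, mem_pos, mem_neg, not_or, not_lt, not_lt] at h3
    rw [le_antisymm h3.1 h3.2, zero_smul]
  obtain ⟨i, hi⟩ := Finset.card_pos.mp (lt_of_lt_of_le zero_lt_two h.hp)
  have h3 := h1 l h2 i (hsub (Finset.mem_union_left _ hi))
  rw [mem_pos, h3] at hi
  exact lt_irrefl _ hi

lemma class_pos (hT : ∀ s ≤ N, IsFan v (T s))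
    (hs : ∀ s < N, Dat v a (T s) (T (s + 1)) (l s) (L s)) {s i : ℕ} (hsi : s < i) (hi : i < N) :
    ¬ pos (l i) ⊆ pos (l s) ∪ neg (l s) := by
  intro hsub
  have h1 : pos (l i) ∈ T (i + 1) := by
    rw [(hs i hi).face' (hT i hi.le) Finset.subset_union_left]
    exact (hs i hi).not_neg_subset_pos (Finset.Subset.refl _)
  have h2 : pos (l i) ∉ T s := created hT hs hsi.le hi (Finset.Subset.refl _) h1
  have h3 : pos (l i) ∉ T (s + 1) := created hT hs hsi hi (Finset.Subset.refl _) h1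
  have hsN : s < N := hsi.trans hi
  rw [(hs s hsN).face (hT s hsN.le) hsub, not_not] at h2
  rw [(hs s hsN).face' (hT s hsN.le) hsub, not_not] at h3
  exact (hs s hsN).not_subset_face (hT _ hi) h1 (Finset.union_subset h2 h3)

lemma class_neg (hT : ∀ s ≤ N, IsFan v (T s))
    (hs : ∀ s < N, Dat v a (T s) (T (s + 1)) (l s) (L s)) {s i : ℕ} (his : i < s) (hsN : s < N) :
    ¬ neg (l i) ⊆ pos (l s) ∪ neg (l s) := by
  intro hsub
  have hi : i < N := his.trans hsN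
  have h1 : neg (l i) ∈ T i := by
    rw [(hs i hi).face (hT i hi.le) Finset.subset_union_right]
    exact (hs i hi).not_pos_subset_neg (Finset.Subset.refl _)
  have h2 : neg (l i) ∉ T s := removed hT hs his hsN.le (Finset.Subset.refl _) h1
  have h3 : neg (l i) ∉ T (s + 1) := removed hT hs (by omega) hsN (Finset.Subset.refl _) h1
  rw [(hs s hsN).face (hT s hsN.le) hsub, not_not] at h2
  rw [(hs s hsN).face' (hT s hsN.le) hsub, not_not] at h3
  exact (hs s hsN).not_subset_face (hT _ hi.le) h1 (Finset.union_subset h2 h3)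

end Chain

end ToricMMP
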