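import Pool.Agent.Lib_helper18.ToricMain

/-!
# Circuits, regular fans and wall crossing (helper18)
-/

set_option autoImplicit false
set_option linter.unusedSectionVars false

open Finset

namespace ToricMMP

variable {ι E : Type*} [Fintype ι] [DecidableEq ι] [AddCommGroup E] [Module ℝ E]

/-- dot product -/
def dot (h l : ι → ℝ) : ℝ := ∑ i, h i * l i

lemma dot_add (h x y : ι → ℝ) : dot h (x + y) = dot h x + dot h y := by
  unfold dot
  rw [← Finset.sum_add_distrib]
  apply Finset.sum_congr rfl
  intro i _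
  rw [Pi.add_apply]
  ring

lemma dot_smul (h : ι → ℝ) (t : ℝ) (x : ι → ℝ) : dot h (t • x) = t * dot h x := by
  unfold dot
  rw [Finset.mul_sum]
  apply Finset.sum_congr rfl
  intro i _
  rw [Pi.smul_apply, smul_eq_mul]
  ring

lemma dot_neg (h x : ι → ℝ) : dot h (-x) = - dot h x := by
  have := dot_smul h (-1) x
  rw [neg_one_smul, neg_one_mul] at this
  exact this

/-- conformal -/
def Conf (x l : ι → ℝ) : Prop := ∀ i, (0 < x i → 0 < l i) ∧ (x i < 0 → l i < 0)

lemma Conf.trans {x y z : ι → ℝ} (h : Conf x y) (h' : Conf y z) : Conf x z :=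
  fun i => ⟨fun a => (h' i).1 ((h i).1 a), fun a => (h' i).2 ((h i).2 a)⟩

lemma Conf.su {x y : ι → ℝ} (h : Conf x y) : su x ⊆ su y := by
  intro i hi
  rw [mem_su] at hi ⊢
  rcases lt_or_gt_of_ne hi with h1 | h1
  · exact ((h i).2 h1).ne
  · exact ((h i).1 h1).ne'

/-- a circuit of a space of relations -/
structure Circ (K : Submodule ℝ (ι → ℝ)) (l : ι → ℝ) : Prop where
  mem : l ∈ K
  ne : l ≠ 0
  prop : ∀ u ∈ K, su u ⊆ su l → ∃ t : ℝ, u = t • l

/-- move from l in direction -u until a coordinate vanishes -/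
lemma kill (l u : ι → ℝ) (hu : ∃ j, 0 < u j * l j) (hsu : su u ⊆ su l) :
    ∃ t : ℝ, 0 < t ∧ Conf (l - t • u) l ∧ su (l - t • u) ⊂ su l := by
  have hne : (univ.filter (fun j => 0 < u j * l j)).Nonempty := by
    obtain ⟨j, hj⟩ := hu
    exact ⟨j, by simp [hj]⟩
  obtain ⟨j0, hj0, hmin⟩ := Finset.exists_min_image (univ.filter (fun j => 0 < u j * l j))
    (fun j => l j / u j) hne
  rw [Finset.mem_filter] at hj0
  have h0 : 0 < u j0 * l j0 := hj0.2
  have hu0 : u j0 ≠ 0 := fun h => by rw [h, zero_mul] at h0; exact lt_irrefl _ h0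
  have hl0 : l j0 ≠ 0 := fun h => by rw [h, mul_zero] at h0; exact lt_irrefl _ h0
  set t := l j0 / u j0 with ht
  have htpos : 0 < t := by
    rw [ht, ← mul_div_mul_left _ _ hu0]
    exact div_pos h0 (mul_self_pos.mpr hu0)
  have hconf : Conf (l - t • u) l := by
    intro i
    rw [Pi.sub_apply, Pi.smul_apply, smul_eq_mul]
    constructor
    · intro h1
      by_contra h2
      rw [not_lt] at h2
      rcases lt_or_eq_of_le h2 with h3 | h3
      · -- l i < 0, so u i < 0
        have h4 : u i < 0 := by
          by_contra h5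
          rw [not_lt] at h5
          have := mul_nonneg htpos.le h5
          linarith
        have h5 : 0 < u i * l i := mul_pos_of_neg_of_neg h4 h3
        have h6 := hmin i (by simp [h5])
        have h7 : t ≤ l i / u i := h6
        rw [le_div_iff_of_neg h4] at h7
        linarith
      · have h4 : i ∉ su u := fun h5 => by
          have := hsu h5
          rw [mem_su] at this
          exact this h3
        rw [mem_su, not_not] at h4
        rw [h3, h4] at h1
        linarith
    · intro h1
      by_contra h2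
      rw [not_lt] at h2
      rcases lt_or_eq_of_le h2 with h3 | h3
      · have h4 : 0 < u i := by
          by_contra h5
          rw [not_lt] at h5
          have := mul_nonpos_of_nonneg_of_nonpos htpos.le h5
          linarith
        have h5 : 0 < u i * l i := mul_pos h4 h3
        have h6 := hmin i (by simp [h5])
        have h7 : t ≤ l i / u i := h6
        rw [le_div_iff₀ h4] at h7
        linarith
      · have h4 : i ∉ su u := fun h5 => by
          have := hsu h5
          rw [mem_su] at this
          exact this h3.symm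
        rw [mem_su, not_not] at h4
        rw [← h3, h4] at h1
        linarith
  refine ⟨t, htpos, hconf, ?_⟩
  rw [Finset.ssubset_iff_of_subset hconf.su]
  refine ⟨j0, by rw [mem_su]; exact hl0, ?_⟩
  rw [mem_su, not_not, Pi.sub_apply, Pi.smul_apply, smul_eq_mul, ht,
    div_mul_cancel₀ _ hu0, sub_self]

/-- induction along a conformal decomposition into circuits -/
lemma conf_induction (K : Submodule ℝ (ι → ℝ)) (Q : (ι → ℝ) → Prop)
    (hadd : ∀ x y, Q x → Q y → Q (x + y)) (hsmul : ∀ (t : ℝ) x, 0 < t → Q x → Q (t • x)) :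
    ∀ (n : ℕ) (l : ι → ℝ), l ∈ K → l ≠ 0 → (su l).card ≤ n →
      (∀ u, Circ K u → Conf u l → Q u) → Q l := by
  intro n
  induction n with
  | zero =>
    intro l _ hl hn _
    exfalso
    apply hl
    funext i
    by_contra h
    have h1 : i ∈ su l := (mem_su l i).mpr h
    rw [Nat.le_zero, Finset.card_eq_zero] at hn
    rw [hn] at h1
    exact Finset.notMem_empty _ h1
  | succ n ih =>
    intro l hl hl0 hn hQ
    by_cases hcirc : ∀ u ∈ K, su u ⊆ su l → ∃ t : ℝ, u = t • l
    · exact hQ l ⟨hl, hl0, hcirc⟩ (fun i => ⟨fun h => h, fun h => h⟩)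
    · push Not at hcirc
      obtain ⟨u, huK, hsu, hu⟩ := hcirc
      have hu0 : u ≠ 0 := by
        intro h
        apply hu 0
        rw [h, zero_smul]
      -- a conformal vector with smaller support
      have step1 : ∃ u1 ∈ K, u1 ≠ 0 ∧ Conf u1 l ∧ su u1 ⊂ su l := by
        obtain ⟨j, hj⟩ : ∃ j, u j ≠ 0 := by
          by_contra h
          push Not at h
          exact hu0 (funext h)
        have hlj : l j ≠ 0 := (mem_su l j).mp (hsu ((mem_su u j).mpr hj))
        rcases lt_or_gt_of_ne (mul_ne_zero hj hlj) with h1 | h1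
        · obtain ⟨t, ht, hc, hs⟩ := kill l (-u) ⟨j, by
            rw [Pi.neg_apply, neg_mul]; linarith⟩ (by
              intro i hi
              apply hsu
              rw [mem_su] at hi ⊢
              rw [Pi.neg_apply, neg_ne_zero] at hi
              exact hi)
          refine ⟨l - t • (-u), ?_, ?_, hc, hs⟩
          · exact K.sub_mem hl (K.smul_mem _ (K.neg_mem huK))
          · intro h
            apply hu (-(t⁻¹))
            have h2 : l = t • (-u) := sub_eq_zero.mp h
            rw [h2, smul_smul, neg_mul, inv_mul_cancel₀ ht.ne', neg_smul, one_smul, neg_neg]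
        · obtain ⟨t, ht, hc, hs⟩ := kill l u ⟨j, h1⟩ hsu
          refine ⟨l - t • u, K.sub_mem hl (K.smul_mem _ huK), ?_, hc, hs⟩
          intro h
          apply hu (t⁻¹)
          have h2 : l = t • u := sub_eq_zero.mp h
          rw [h2, smul_smul, inv_mul_cancel₀ ht.ne', one_smul]
      obtain ⟨u1, hu1K, hu1, hc1, hs1⟩ := step1
      have hpos : ∃ j, 0 < u1 j * l j := by
        obtain ⟨j, hj⟩ : ∃ j, u1 j ≠ 0 := by
          by_contra h
          push Not at h
          exact hu1 (funext h)
        refine ⟨j, ?_⟩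
        rcases lt_or_gt_of_ne hj with h1 | h1
        · exact mul_pos_of_neg_of_neg h1 ((hc1 j).2 h1)
        · exact mul_pos h1 ((hc1 j).1 h1)
      obtain ⟨t, ht, hc2, hs2⟩ := kill l u1 hpos hc1.su
      have hne2 : l - t • u1 ≠ 0 := by
        intro h
        have h2 : l = t • u1 := sub_eq_zero.mp h
        have h3 : su l ⊆ su u1 := by
          intro i hi
          rw [mem_su] at hi ⊢
          rw [h2, Pi.smul_apply, smul_eq_mul] at hi
          exact right_ne_zero_of_mul hi
        exact hs1.2 h3
      have q1 : Q u1 := ih u1 hu1K hu1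
        (Nat.lt_succ_iff.mp (lt_of_lt_of_le (Finset.card_lt_card hs1) hn))
        (fun w hw hw' => hQ w hw (hw'.trans hc1))
      have q2 : Q (l - t • u1) := ih (l - t • u1) (K.sub_mem hl (K.smul_mem _ hu1K)) hne2
        (Nat.lt_succ_iff.mp (lt_of_lt_of_le (Finset.card_lt_card hs2) hn))
        (fun w hw hw' => hQ w hw (hw'.trans hc2))
      have h5 := hadd _ _ (hsmul t u1 ht q1) q2
      rw [add_sub_cancel] at h5
      exact h5

lemma dot_pos_of_circ (K : Submodule ℝ (ι → ℝ)) (h l : ι → ℝ) (hl : l ∈ K) (hl0 : l ≠ 0)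
    (hc : ∀ u, Circ K u → Conf u l → 0 < dot h u) : 0 < dot h l :=
  conf_induction K (fun x => 0 < dot h x)
    (fun x y hx hy => by show 0 < dot h (x + y); rw [dot_add]; exact add_pos hx hy)
    (fun t x ht hx => by show 0 < dot h (t • x); rw [dot_smul]; exact mul_pos ht hx)
    _ l hl hl0 le_rfl hc

lemma dot_nonneg_of_circ (K : Submodule ℝ (ι → ℝ)) (h l : ι → ℝ) (hl : l ∈ K) (hl0 : l ≠ 0)
    (hc : ∀ u, Circ K u → Conf u l → 0 ≤ dot h u) : 0 ≤ dot h l :=
  conf_induction K (fun x => 0 ≤ dot h x)
    (fun x y hx hy => by show 0 ≤ dot h (x + y); rw [dot_add]; exact add_nonneg hx hy)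
    (fun t x ht hx => by show 0 ≤ dot h (t • x); rw [dot_smul]; exact mul_nonneg ht.le hx)
    _ l hl hl0 le_rfl hc

end ToricMMP
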