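import Mathlib

/-!
# Triangular families of monomials restricted to a subspace (helper18)
-/

set_option autoImplicit false
set_option linter.unusedSectionVars false

open Finset

namespace ToricMMP

section Triangular

/-- triangular families of functions are linearly independent -/
lemma linearIndependent_of_triangular {α X : Type*} [LinearOrder α] (f : α → X → ℝ) (p : α → X)
    (h1 : ∀ i, f i (p i) ≠ 0) (h2 : ∀ s i, s < i → f i (p s) = 0) : LinearIndependent ℝ f := by
  rw [linearIndependent_iff']
  intro s g hg i hi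
  by_contra hne
  have hS : (s.filter (fun j => g j ≠ 0)).Nonempty := ⟨i, by simp [hi, hne]⟩
  set i0 := (s.filter (fun j => g j ≠ 0)).min' hS with hi0
  have hmem := (s.filter (fun j => g j ≠ 0)).min'_mem hS
  rw [← hi0, Finset.mem_filter] at hmem
  have h3 := congrFun hg (p i0)
  rw [Finset.sum_apply] at h3
  have h4 : ∑ c ∈ s, (g c • f c) (p i0) = (g i0 • f i0) (p i0) := by
    apply Finset.sum_eq_single_of_mem _ hmem.1
    intro j hj hji
    rcases lt_or_gt_of_ne hji with h | h
    · have h5 : g j = 0 := by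
        by_contra h6
        have := (s.filter (fun j => g j ≠ 0)).min'_le j (by simp [hj, h6])
        rw [← hi0] at this
        exact absurd h (not_lt.mpr this)
      rw [h5, zero_smul]
      rfl
    · rw [Pi.smul_apply, h2 i0 j h, smul_zero]
  rw [h4, Pi.smul_apply, smul_eq_mul, Pi.zero_apply] at h3
  exact absurd h3 (mul_ne_zero hmem.2 (h1 i0))

/-- the span of the monomials of degree `k` in `r` variables, as functions -/
noncomputable def W (r k : ℕ) : Submodule ℝ ((Fin r → ℝ) → ℝ) :=
  Submodule.span ℝ (Set.range fun σ : Sym (Fin r) k => fun y : Fin r → ℝ => (σ.1.map y).prod)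

lemma W_finrank (r k : ℕ) : Module.finrank ℝ (W r k) ≤ Nat.multichoose r k := by
  have h := finrank_range_le_card (R := ℝ)
    (fun σ : Sym (Fin r) k => fun y : Fin r → ℝ => (σ.1.map y).prod)
  rw [Sym.card_sym_fin_eq_multichoose] at h
  exact h

instance W_fin (r k : ℕ) : Module.Finite ℝ (W r k) :=
  FiniteDimensional.span_of_finite ℝ (Set.finite_range _)

lemma W_mul {r k : ℕ} (c : Fin r → ℝ) {f : (Fin r → ℝ) → ℝ} (hf : f ∈ W r k) :
    (fun y => (∑ m, y m * c m) * f y) ∈ W r (k + 1) := by
  unfold W at hf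
  induction hf using Submodule.span_induction with
  | mem x h =>
    obtain ⟨σ, rfl⟩ := h
    have h1 : (fun y : Fin r → ℝ => (∑ m, y m * c m) * (σ.1.map y).prod) =
        ∑ m, c m • (fun y : Fin r → ℝ => ((m ::ₛ σ).1.map y).prod) := by
      funext y
      rw [Finset.sum_apply, Finset.sum_mul]
      apply Finset.sum_congr rfl
      intro m _
      rw [Pi.smul_apply, smul_eq_mul]
      show y m * c m * (σ.1.map y).prod = c m * ((m ::ₘ σ.1).map y).prod
      rw [Multiset.map_cons, Multiset.prod_cons]
      ring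
    show (fun y : Fin r → ℝ => (∑ m, y m * c m) * (σ.1.map y).prod) ∈ W r (k + 1)
    rw [h1]
    apply Submodule.sum_mem
    intro m _
    apply Submodule.smul_mem
    apply Submodule.subset_span
    exact ⟨m ::ₛ σ, rfl⟩
  | zero =>
    have h1 : (fun y : Fin r → ℝ => (∑ m, y m * c m) * (0 : (Fin r → ℝ) → ℝ) y) = 0 := by
      funext y
      simp
    rw [h1]
    exact Submodule.zero_mem _
  | add x y _ _ hx hy =>
    have h1 : (fun z : Fin r → ℝ => (∑ m, z m * c m) * (x + y) z) =
        (fun z => (∑ m, z m * c m) * x z) + (fun z => (∑ m, z m * c m) * y z) := by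
      funext z
      simp only [Pi.add_apply]
      ring
    rw [h1]
    exact Submodule.add_mem _ hx hy
  | smul t x _ hx =>
    have h1 : (fun z : Fin r → ℝ => (∑ m, z m * c m) * (t • x) z) =
        t • (fun z => (∑ m, z m * c m) * x z) := by
      funext z
      simp only [Pi.smul_apply, smul_eq_mul]
      ring
    rw [h1]
    exact Submodule.smul_mem _ _ hx

lemma prod_mem_W {ι : Type*} [DecidableEq ι] {r : ℕ} (b : ι → Fin r → ℝ) (A : Finset ι) :
    (fun y : Fin r → ℝ => ∏ j ∈ A, ∑ m, y m * b j m) ∈ W r A.card := by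
  induction A using Finset.induction_on with
  | empty =>
    apply Submodule.subset_span
    refine ⟨Sym.nil, ?_⟩
    funext y
    simp
  | insert j A hj ih =>
    rw [Finset.card_insert_of_notMem hj]
    have h1 : (fun y : Fin r → ℝ => ∏ i ∈ insert j A, ∑ m, y m * b i m) =
        fun y => (∑ m, y m * b j m) * (fun y : Fin r → ℝ => ∏ i ∈ A, ∑ m, y m * b i m) y := by
      funext y
      rw [Finset.prod_insert hj]
    rw [h1]
    exact W_mul (b j) ih

lemma W_mul_pow {r k : ℕ} (c : Fin r → ℝ) {f : (Fin r → ℝ) → ℝ} (hf : f ∈ W r k) (n : ℕ) :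
    (fun y => (∑ m, y m * c m) ^ n * f y) ∈ W r (k + n) := by
  induction n with
  | zero => simpa using hf
  | succ n ih =>
    have h1 := W_mul c ih
    have h2 : (fun y : Fin r → ℝ => (∑ m, y m * c m) ^ (n + 1) * f y) =
        fun y => (∑ m, y m * c m) * (fun y => (∑ m, y m * c m) ^ n * f y) y := by
      funext y
      dsimp only
      ring
    rw [h2]
    exact h1

/-- the counting lemma -/
lemma card_le_of_triangular {ι α : Type*} [Fintype ι] [DecidableEq ι] [LinearOrder α]
    [Fintype α] (K : Submodule ℝ (ι → ℝ)) (k : ℕ) (A : α → Finset ι) (hA : ∀ i, (A i).card ≤ k)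
    (a : ι → ℝ) (p : α → ι → ℝ) (hp : ∀ i, p i ∈ K) (ha : ∀ i, ∑ j, a j * p i j ≠ 0)
    (h1 : ∀ i, ∀ j ∈ A i, p i j ≠ 0) (h2 : ∀ s i, s < i → ∃ j ∈ A i, p s j = 0) :
    Fintype.card α ≤ Nat.multichoose (Module.finrank ℝ K) k := by
  set r := Module.finrank ℝ K with hr
  let b : Module.Basis (Fin r) ℝ K := Module.finBasis ℝ K
  let B : ι → Fin r → ℝ := fun j m => (b m : ι → ℝ) j
  let c : Fin r → ℝ := fun m => ∑ j, a j * B j m
  let f : α → (Fin r → ℝ) → ℝ := fun i y =>
    (∑ m, y m * c m) ^ (k - (A i).card) * ∏ j ∈ A i, ∑ m, y m * B j m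
  let q : α → Fin r → ℝ := fun i m => b.repr ⟨p i, hp i⟩ m
  have key : ∀ (i : α) (j : ι), ∑ m, q i m * B j m = p i j := by
    intro i j
    have h3 := congrArg (fun x : K => (x : ι → ℝ) j) (b.sum_repr ⟨p i, hp i⟩)
    simp only [Submodule.coe_sum, Submodule.coe_smul, Finset.sum_apply, Pi.smul_apply,
      smul_eq_mul] at h3
    exact h3
  have keya : ∀ i : α, ∑ m, q i m * c m = ∑ j, a j * p i j := by
    intro i
    have h3 : ∀ m, q i m * c m = ∑ j, a j * (q i m * B j m) := by
      intro m
      rw [Finset.mul_sum]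
      apply Finset.sum_congr rfl
      intro j _
      ring
    simp only [h3]
    rw [Finset.sum_comm]
    apply Finset.sum_congr rfl
    intro j _
    rw [← Finset.mul_sum, key]
  have hli : LinearIndependent ℝ f := by
    apply linearIndependent_of_triangular f q
    · intro i
      apply mul_ne_zero
      · apply pow_ne_zero
        rw [keya]
        exact ha i
      · apply Finset.prod_ne_zero_iff.mpr
        intro j hj
        rw [key]
        exact h1 i j hj
    · intro s i hsi
      obtain ⟨j, hj, hj0⟩ := h2 s i hsi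
      have h3 : ∏ j ∈ A i, ∑ m, q s m * B j m = 0 := by
        apply Finset.prod_eq_zero hj
        rw [key]
        exact hj0
      show (∑ m, q s m * c m) ^ (k - (A i).card) * ∏ j ∈ A i, ∑ m, q s m * B j m = 0
      rw [h3, mul_zero]
  have hmem : Submodule.span ℝ (Set.range f) ≤ W r k := by
    rw [Submodule.span_le]
    rintro _ ⟨i, rfl⟩
    have h3 := W_mul_pow c (prod_mem_W B (A i)) (k - (A i).card)
    rw [Nat.add_sub_cancel' (hA i)] at h3
    exact h3
  have h4 := finrank_span_eq_card hli
  have h5 := Submodule.finrank_mono hmem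
  rw [h4] at h5
  exact h5.trans (W_finrank r k)

end Triangular

end ToricMMP
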