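import Pool.Agent.Lib_helper18.ToricNodeLow

/-!
# Two choices of nodes and the number of the steps (helper18)
-/

set_option autoImplicit false
set_option linter.unusedSectionVars false

open Finset

namespace ToricMMP

/-- the number of steps in the examples -/
def lowerBound (d ρ : ℕ) : ℕ :=
  (ρ - 1).multichoose ((d + 1) / 2) + if Even d then (ρ - 2).multichoose (d / 2) else 0

lemma sum_two_lt {K : ℕ} {Z : Finset ℕ} (hZ : Z ⊆ range K) :
    (∑ j ∈ Z, (2 : ℤ) ^ j) < 2 ^ K := by
  have h := Nat.geomSum_lt (m := 2) (n := K) (s := Z) (le_refl 2)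
    (fun k hk => Finset.mem_range.mp (hZ hk))
  exact_mod_cast h

lemma sum_two_inj {Z Z' : Finset ℕ} (h : ∑ j ∈ Z, (2 : ℤ) ^ j = ∑ j ∈ Z', (2 : ℤ) ^ j) :
    Z = Z' := by
  have h1 : Function.Injective (fun s : Finset ℕ => ∑ i ∈ s, 2 ^ i) :=
    Finset.geomSum_injective (le_refl 2)
  apply h1
  dsimp only
  exact_mod_cast h

lemma two_strictMono : StrictMono (fun j : ℕ => (2 : ℤ) ^ j) := by
  intro a b hab
  exact pow_lt_pow_right₀ (by norm_num) hab

lemma sum_nonneg_two (Z : Finset ℕ) : 0 ≤ ∑ j ∈ Z, (2 : ℤ) ^ j :=
  Finset.sum_nonneg (fun _ _ => by positivity)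

/-- shifted copies -/
lemma succ_not_zero (W : Finset ℕ) : 0 ∉ W.map ⟨Nat.succ, Nat.succ_injective⟩ := by
  rw [Finset.mem_map]
  rintro ⟨j, -, hj⟩
  exact Nat.succ_ne_zero j hj

lemma nodes (K d ρ : ℕ) (hd : 3 ≤ d) (hρ : 1 ≤ ρ) (hK : ρ + d = K + 1) :
    ∃ (x : ℕ → ℤ) (F : Finset (Finset ℕ)), StrictMono x ∧
      (∀ Z Z' : Finset ℕ, Z ⊆ range K → Z' ⊆ range K → Z.card = d + 1 →
        Z'.card = d + 1 → ∑ j ∈ Z, x j = ∑ j ∈ Z', x j → Z = Z') ∧
      (∀ Z ∈ F, Z ⊆ range K ∧ Z.card = d + 1 ∧
        ((∑ j ∈ Z, x j < 0 ∧ ∀ i < K, i ∉ Z → 0 < ∏ j ∈ Z, ((x i : ℝ) - x j)) ∨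
          (0 < ∑ j ∈ Z, x j ∧ ∀ i < K, i ∉ Z → ∏ j ∈ Z, ((x i : ℝ) - x j) < 0))) ∧
      F.card = lowerBound d ρ := by
  rcases Nat.even_or_odd' d with ⟨m, rfl | rfl⟩
  · -- d = 2 m
    set x : ℕ → ℤ := fun j => 2 ^ j - (if j = 0 then 2 ^ (K + 1) + 1 else 0) with hx
    have hx0 : x 0 = - 2 ^ (K + 1) := by rw [hx]; simp
    have hxs : ∀ j, j ≠ 0 → x j = 2 ^ j := by
      intro j hj
      rw [hx]
      simp [hj]
    have hmono : StrictMono x := by
      intro a b hab
      have hb : b ≠ 0 := by omega
      rw [hxs b hb]
      by_cases ha : a = 0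
      · rw [ha, hx0]
        have h1 : (0 : ℤ) < 2 ^ (K + 1) := by positivity
        have h2 : (0 : ℤ) < 2 ^ b := by positivity
        linarith
      · rw [hxs a ha]
        exact two_strictMono hab
    have hmonoR : ∀ a b : ℕ, a < b → (x a : ℝ) < x b := by
      intro a b hab
      exact_mod_cast hmono hab
    have hsum : ∀ Z : Finset ℕ, ∑ j ∈ Z, x j =
        ∑ j ∈ Z, (2 : ℤ) ^ j - (if 0 ∈ Z then 2 ^ (K + 1) + 1 else 0) := by
      intro Z
      rw [hx]
      rw [Finset.sum_sub_distrib, Finset.sum_ite_eq']
    have hpow : (2 : ℤ) ^ (K + 1) = 2 * 2 ^ K := by ring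
    set F1 := (P (K - 1) m).image (fun Z => insert 0 (Z.map ⟨Nat.succ, Nat.succ_injective⟩))
      with hF1
    set F2 := (P (K - 2) m).image (fun Z => insert (K - 1) (Z.map ⟨Nat.succ, Nat.succ_injective⟩))
      with hF2
    have hK4 : 4 ≤ K := by omega
    have hlastnot : ∀ W : Finset ℕ, W ⊆ range (K - 2) →
        K - 1 ∉ W.map ⟨Nat.succ, Nat.succ_injective⟩ := by
      intro W hW h
      rw [Finset.mem_map] at h
      obtain ⟨j, hj, h1⟩ := h
      have h2 := Finset.mem_range.mp (hW hj)
      have h3 : j + 1 = K - 1 := h1
      omega
    refine ⟨x, F1 ∪ F2, hmono, ?_, ?_, ?_⟩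
    · intro Z Z' hZ hZ' _ _ h
      rw [hsum, hsum] at h
      have b1 := sum_two_lt hZ
      have b2 := sum_two_lt hZ'
      have b3 := sum_nonneg_two Z
      have b4 := sum_nonneg_two Z'
      apply sum_two_inj
      split_ifs at h
      · linarith
      · linarith
      · linarith
      · linarith
    · intro Z hZ
      rw [Finset.mem_union] at hZ
      rcases hZ with hZ | hZ
      · rw [hF1, Finset.mem_image] at hZ
        obtain ⟨W, hW, rfl⟩ := hZ
        have h1 := P_sub _ _ W hW
        have hsub : insert 0 (W.map ⟨Nat.succ, Nat.succ_injective⟩) ⊆ range K := by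
          intro i hi
          rw [Finset.mem_insert, Finset.mem_map] at hi
          rw [Finset.mem_range]
          rcases hi with h2 | ⟨j, hj, h2⟩
          · omega
          · have h3 := Finset.mem_range.mp (h1 hj)
            have h4 : j + 1 = i := h2
            omega
        refine ⟨hsub, ?_, ?_⟩
        · rw [Finset.card_insert_of_notMem (succ_not_zero W), Finset.card_map, P_card _ _ W hW]
        · left
          constructor
          · rw [hsum, if_pos (Finset.mem_insert_self _ _)]
            have := sum_two_lt hsub
            have h5 : (0 : ℤ) < 2 ^ K := by positivity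
            linarith
          · intro i _ hi
            rw [Finset.mem_insert, not_or] at hi
            rw [Finset.prod_insert (succ_not_zero W), Finset.prod_map]
            obtain ⟨i', rfl⟩ := Nat.exists_eq_succ_of_ne_zero hi.1
            have hi' : i' ∉ W := by
              intro h2
              apply hi.2
              rw [Finset.mem_map]
              exact ⟨i', h2, rfl⟩
            have hxm : StrictMono (fun j : ℕ => (x (j + 1) : ℝ)) := by
              intro a b hab
              exact hmonoR _ _ (by omega)
            have h2 := P_pos hxm _ _ W hW i' hi'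
            apply mul_pos _ h2
            have := hmonoR 0 (i' + 1) (by omega)
            show 0 < (x (i' + 1) : ℝ) - x 0
            linarith
      · rw [hF2, Finset.mem_image] at hZ
        obtain ⟨W, hW, rfl⟩ := hZ
        have h1 := P_sub _ _ W hW
        have hln := hlastnot W h1
        have hsub : insert (K - 1) (W.map ⟨Nat.succ, Nat.succ_injective⟩) ⊆ range K := by
          intro i hi
          rw [Finset.mem_insert, Finset.mem_map] at hi
          rw [Finset.mem_range]
          rcases hi with h2 | ⟨j, hj, h2⟩
          · omega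
          · have h3 := Finset.mem_range.mp (h1 hj)
            have h4 : j + 1 = i := h2
            omega
        refine ⟨hsub, ?_, ?_⟩
        · rw [Finset.card_insert_of_notMem hln, Finset.card_map, P_card _ _ W hW]
        · right
          have h0 : 0 ∉ insert (K - 1) (W.map ⟨Nat.succ, Nat.succ_injective⟩) := by
            rw [Finset.mem_insert, not_or]
            exact ⟨by omega, succ_not_zero W⟩
          constructor
          · rw [hsum, if_neg h0, sub_zero]
            apply Finset.sum_pos
            · intro j _
              positivity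
            · exact ⟨K - 1, Finset.mem_insert_self _ _⟩
          · intro i hiK hi
            rw [Finset.mem_insert, not_or] at hi
            rw [Finset.prod_insert hln, Finset.prod_map]
            have hneg : (x i : ℝ) - x (K - 1) < 0 := by
              have := hmonoR i (K - 1) (by have := hi.1; omega)
              linarith
            apply mul_neg_of_neg_of_pos hneg
            have hxm : StrictMono (fun j : ℕ => (x (j + 1) : ℝ)) := by
              intro a b hab
              exact hmonoR _ _ (by omega)
            rcases Nat.eq_zero_or_pos i with hi0 | hi0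
            · -- all factors are negative, there are 2 m of them
              have h2 : ∀ n, ∀ k, ∀ W ∈ P n k,
                  0 < ∏ j ∈ W, ((x 0 : ℝ) - x (j + 1)) := by
                intro n k W hW
                have h3 := P_card n k W hW
                have h4 : ∏ j ∈ W, ((x 0 : ℝ) - x (j + 1)) =
                    (-1) ^ W.card * ∏ j ∈ W, ((x (j + 1) : ℝ) - x 0) := by
                  rw [← Finset.prod_const, ← Finset.prod_mul_distrib]
                  apply Finset.prod_congr rfl
                  intro j _
                  ring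
                rw [h4, h3, pow_mul]
                norm_num
                apply Finset.prod_pos
                intro j _
                have := hmonoR 0 (j + 1) (by omega)
                linarith
              rw [hi0]
              exact h2 _ _ W hW
            · obtain ⟨i', rfl⟩ := Nat.exists_eq_succ_of_ne_zero (by omega : i ≠ 0)
              have hi' : i' ∉ W := by
                intro h2
                apply hi.2
                rw [Finset.mem_map]
                exact ⟨i', h2, rfl⟩
              exact P_pos hxm _ _ W hW i' hi'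
    · have hdisj : Disjoint F1 F2 := by
        rw [Finset.disjoint_left]
        intro Z hZ hZ'
        rw [hF1, Finset.mem_image] at hZ
        rw [hF2, Finset.mem_image] at hZ'
        obtain ⟨W, hW, rfl⟩ := hZ
        obtain ⟨W', hW', h⟩ := hZ'
        have h1 : 0 ∈ insert (K - 1) (W'.map ⟨Nat.succ, Nat.succ_injective⟩) := by
          rw [h]
          exact Finset.mem_insert_self _ _
        rw [Finset.mem_insert] at h1
        rcases h1 with h1 | h1
        · omega
        · exact succ_not_zero _ h1
      have hc1 : F1.card = (K - 1 - m).choose m := by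
        rw [hF1, Finset.card_image_of_injective, P_num]
        intro Z Z' h
        have h1 := congrArg (fun W => Finset.erase W 0) h
        dsimp only at h1
        rw [Finset.erase_insert (succ_not_zero Z), Finset.erase_insert (succ_not_zero Z')] at h1
        exact Finset.map_injective _ h1
      have hc2 : F2.card = (K - 2 - m).choose m := by
        rw [hF2, Finset.card_image_of_injOn, P_num]
        intro Z hZ Z' hZ' h
        have h1 := congrArg (fun W => Finset.erase W (K - 1)) h
        dsimp only at h1
        rw [Finset.erase_insert (hlastnot Z (P_sub _ _ Z hZ)),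
          Finset.erase_insert (hlastnot Z' (P_sub _ _ Z' hZ'))] at h1
        exact Finset.map_injective _ h1
      rw [Finset.card_union_of_disjoint hdisj, hc1, hc2]
      unfold lowerBound
      rw [if_pos (even_two_mul m), Nat.multichoose_eq, Nat.multichoose_eq]
      congr 1
      · congr 1
        · omega
        · omega
      · rcases Nat.lt_or_ge ρ 2 with h | h
        · rw [Nat.choose_eq_zero_of_lt (by omega), Nat.choose_eq_zero_of_lt (by omega)]
        · congr 1
          · omega
          · omega
  · -- d = 2 m + 1
    set x : ℕ → ℤ := fun j => 2 ^ j - 2 ^ K with hx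
    have hmono : StrictMono x := by
      intro a b hab
      have := two_strictMono hab
      rw [hx]
      dsimp only at this ⊢
      linarith
    have hmonoR : StrictMono (fun j : ℕ => (x j : ℝ)) := by
      intro a b hab
      show (x a : ℝ) < x b
      exact_mod_cast hmono hab
    have hsum : ∀ Z : Finset ℕ, ∑ j ∈ Z, x j = ∑ j ∈ Z, (2 : ℤ) ^ j - Z.card * 2 ^ K := by
      intro Z
      rw [hx]
      rw [Finset.sum_sub_distrib, Finset.sum_const, nsmul_eq_mul]
    refine ⟨x, P K (m + 1), hmono, ?_, ?_, ?_⟩
    · intro Z Z' hZ hZ' hc hc' h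
      rw [hsum, hsum, hc, hc'] at h
      apply sum_two_inj
      linarith
    · intro Z hZ
      have hsub := P_sub _ _ Z hZ
      have hc : Z.card = 2 * m + 1 + 1 := by
        rw [P_card _ _ Z hZ]
        ring
      refine ⟨hsub, hc, Or.inl ⟨?_, ?_⟩⟩
      · rw [hsum, hc]
        have h1 := sum_two_lt hsub
        have h2 : (0 : ℤ) < 2 ^ K := by positivity
        have h3 : (2 : ℤ) ^ K ≤ ((2 * m + 1 + 1 : ℕ) : ℤ) * 2 ^ K := by
          have h4 : (1 : ℤ) ≤ ((2 * m + 1 + 1 : ℕ) : ℤ) := by
            push_cast
            omega
          nlinarith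
        linarith
      · intro i _ hi
        exact P_pos hmonoR _ _ Z hZ i hi
    · rw [P_num]
      unfold lowerBound
      rw [if_neg (by rw [Nat.not_even_iff_odd]; exact odd_two_mul_add_one m), add_zero,
        Nat.multichoose_eq]
      congr 1
      · omega
      · omega

end ToricMMP
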