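import Mathlib

/-!
# Unions of pairs of neighbours (helper18)
-/

set_option autoImplicit false
set_option linter.unusedSectionVars false

open Finset

namespace ToricMMP

/-- unions of `m` disjoint pairs `{j, j + 1}` in `{0, …, n - 1}` -/
def P : ℕ → ℕ → Finset (Finset ℕ)
  | _, 0 => {∅}
  | 0, _ + 1 => ∅
  | 1, _ + 1 => ∅
  | n + 2, m + 1 => P (n + 1) (m + 1) ∪ (P n m).image (fun Z => insert n (insert (n + 1) Z))

lemma P_sub : ∀ (n m : ℕ) (Z : Finset ℕ), Z ∈ P n m → Z ⊆ range n
  | n, 0, Z, h => by
    cases n <;> (simp [P] at h; simp [h])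
  | 0, m + 1, Z, h => by simp [P] at h
  | 1, m + 1, Z, h => by simp [P] at h
  | n + 2, m + 1, Z, h => by
    rw [P, Finset.mem_union, Finset.mem_image] at h
    rcases h with h | ⟨W, hW, rfl⟩
    · exact (P_sub (n + 1) (m + 1) Z h).trans (Finset.range_subset_range.mpr (by omega))
    · have h1 := P_sub n m W hW
      intro i hi
      rw [Finset.mem_insert, Finset.mem_insert] at hi
      rw [Finset.mem_range]
      rcases hi with h2 | h2 | h2
      · omega
      · omega
      · have := Finset.mem_range.mp (h1 h2)
        omega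

lemma P_card : ∀ (n m : ℕ) (Z : Finset ℕ), Z ∈ P n m → Z.card = 2 * m
  | n, 0, Z, h => by
    cases n <;> (simp [P] at h; simp [h])
  | 0, m + 1, Z, h => by simp [P] at h
  | 1, m + 1, Z, h => by simp [P] at h
  | n + 2, m + 1, Z, h => by
    rw [P, Finset.mem_union, Finset.mem_image] at h
    rcases h with h | ⟨W, hW, rfl⟩
    · exact P_card (n + 1) (m + 1) Z h
    · have h1 := P_sub n m W hW
      have h2 := P_card n m W hW
      rw [Finset.card_insert_of_notMem, Finset.card_insert_of_notMem, h2]
      · ring
      · intro h3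
        have := Finset.mem_range.mp (h1 h3)
        omega
      · intro h3
        rw [Finset.mem_insert] at h3
        rcases h3 with h3 | h3
        · omega
        · have := Finset.mem_range.mp (h1 h3)
          omega

lemma P_pos {x : ℕ → ℝ} (hx : StrictMono x) : ∀ (n m : ℕ) (Z : Finset ℕ), Z ∈ P n m →
    ∀ i, i ∉ Z → 0 < ∏ j ∈ Z, (x i - x j)
  | n, 0, Z, h => by
    intro i _
    cases n <;> (simp [P] at h; simp [h])
  | 0, m + 1, Z, h => by simp [P] at h
  | 1, m + 1, Z, h => by simp [P] at h
  | n + 2, m + 1, Z, h => by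
    intro i hi
    rw [P, Finset.mem_union, Finset.mem_image] at h
    rcases h with h | ⟨W, hW, rfl⟩
    · exact P_pos hx (n + 1) (m + 1) Z h i hi
    · have h1 := P_sub n m W hW
      rw [Finset.mem_insert, Finset.mem_insert, not_or, not_or] at hi
      have h2 := P_pos hx n m W hW i hi.2.2
      rw [Finset.prod_insert, Finset.prod_insert, ← mul_assoc]
      · apply mul_pos _ h2
        rcases lt_or_gt_of_ne hi.1 with h3 | h3
        · have h4 := hx h3
          have h5 := hx (by omega : i < n + 1)
          exact mul_pos_of_neg_of_neg (by linarith) (by linarith)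
        · have h4 := hx h3
          have h5 := hx (by have := hi.2.1; omega : n + 1 < i)
          exact mul_pos (by linarith) (by linarith)
      · intro h3
        have := Finset.mem_range.mp (h1 h3)
        omega
      · intro h3
        rw [Finset.mem_insert] at h3
        rcases h3 with h3 | h3
        · omega
        · have := Finset.mem_range.mp (h1 h3)
          omega

lemma P_num : ∀ (n m : ℕ), (P n m).card = (n - m).choose m
  | n, 0 => by
    cases n <;> simp [P]
  | 0, m + 1 => by simp [P]
  | 1, m + 1 => by
    rw [P, Finset.card_empty]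
    symm
    apply Nat.choose_eq_zero_of_lt
    omega
  | n + 2, m + 1 => by
    rw [P, Finset.card_union_of_disjoint, Finset.card_image_of_injOn, P_num (n + 1) (m + 1),
      P_num n m]
    · rcases Nat.lt_or_ge n m with h | h
      · rw [Nat.choose_eq_zero_of_lt (by omega : n + 1 - (m + 1) < m + 1),
          Nat.choose_eq_zero_of_lt (by omega : n - m < m),
          Nat.choose_eq_zero_of_lt (by omega : n + 2 - (m + 1) < m + 1)]
      · have h1 : n + 2 - (m + 1) = (n - m) + 1 := by omega
        have h2 : n + 1 - (m + 1) = n - m := by omega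
        rw [h1, h2, Nat.choose_succ_succ]
        ring
    · intro W hW W' hW' h
      have h1 := P_sub n m W hW
      have h2 := P_sub n m W' hW'
      have h3 : ∀ (U : Finset ℕ), U ⊆ range n → ∀ i, i ∈ U ↔
          i ∈ insert n (insert (n + 1) U) ∧ i < n := by
        intro U hU i
        constructor
        · intro h4
          exact ⟨Finset.mem_insert_of_mem (Finset.mem_insert_of_mem h4),
            Finset.mem_range.mp (hU h4)⟩
        · rintro ⟨h4, h5⟩
          rw [Finset.mem_insert, Finset.mem_insert] at h4
          rcases h4 with h4 | h4 | h4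
          · omega
          · omega
          · exact h4
      ext i
      rw [h3 W h1, h3 W' h2]
      dsimp only at h
      rw [h]
    · rw [Finset.disjoint_left]
      intro Z hZ hZ'
      rw [Finset.mem_image] at hZ'
      obtain ⟨W, hW, rfl⟩ := hZ'
      have h1 := P_sub (n + 1) (m + 1) _ hZ
      have h2 : n + 1 ∈ insert n (insert (n + 1) W) := by simp
      have h3 := Finset.mem_range.mp (h1 h2)
      omega

/-- a large family of sets satisfying the evenness condition -/
lemma family (K d ρ : ℕ) (hd : 2 ≤ d) (hρ : 1 ≤ ρ) (hK : ρ + d = K + 1) :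
    ∃ F : Finset (Finset ℕ), (∀ Z ∈ F, Z ⊆ range K ∧ Z.card = d + 1 ∧
      ∀ i, i ∉ Z → 0 < ∏ j ∈ Z, ((2 : ℝ) ^ i - 2 ^ j)) ∧
      F.card = (ρ - 1).multichoose ((d + 1) / 2) := by
  rcases Nat.even_or_odd' d with ⟨m, rfl | rfl⟩
  · -- d = 2 m
    refine ⟨(P (K - 1) m).image (fun Z => insert 0 (Z.map ⟨Nat.succ, Nat.succ_injective⟩)), ?_, ?_⟩
    · intro Z hZ
      rw [Finset.mem_image] at hZ
      obtain ⟨W, hW, rfl⟩ := hZ
      have h1 := P_sub _ _ W hW
      have h0 : 0 ∉ W.map ⟨Nat.succ, Nat.succ_injective⟩ := by
        rw [Finset.mem_map]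
        rintro ⟨j, -, hj⟩
        exact Nat.succ_ne_zero j hj
      refine ⟨?_, ?_, ?_⟩
      · intro i hi
        rw [Finset.mem_insert, Finset.mem_map] at hi
        rw [Finset.mem_range]
        rcases hi with h2 | ⟨j, hj, h2⟩
        · omega
        · have h3 := Finset.mem_range.mp (h1 hj)
          have h4 : j + 1 = i := h2
          omega
      · rw [Finset.card_insert_of_notMem h0, Finset.card_map, P_card _ _ W hW]
      · intro i hi
        rw [Finset.mem_insert, not_or] at hi
        rw [Finset.prod_insert h0, Finset.prod_map]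
        obtain ⟨i', rfl⟩ := Nat.exists_eq_succ_of_ne_zero hi.1
        have hi' : i' ∉ W := by
          intro h2
          apply hi.2
          rw [Finset.mem_map]
          exact ⟨i', h2, rfl⟩
        have hx : StrictMono (fun j : ℕ => (2 : ℝ) ^ (j + 1)) := by
          intro a b hab
          exact pow_lt_pow_right₀ (by norm_num) (by omega)
        have h2 := P_pos hx _ _ W hW i' hi'
        apply mul_pos _ h2
        have h3 : (1 : ℝ) < 2 ^ (i' + 1) := one_lt_pow₀ (by norm_num) (by omega)
        have h4 : (2 : ℝ) ^ (Nat.succ i') = 2 ^ (i' + 1) := rfl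
        rw [h4, pow_zero]
        linarith
    · rw [Finset.card_image_of_injective, P_num, Nat.multichoose_eq]
      · congr 1
        · omega
        · omega
      · intro Z Z' h
        have h0 : ∀ W : Finset ℕ, 0 ∉ W.map ⟨Nat.succ, Nat.succ_injective⟩ := by
          intro W
          rw [Finset.mem_map]
          rintro ⟨j, -, hj⟩
          exact Nat.succ_ne_zero j hj
        have h1 := congrArg (fun W => Finset.erase W 0) h
        dsimp only at h1
        rw [Finset.erase_insert (h0 Z), Finset.erase_insert (h0 Z')] at h1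
        exact Finset.map_injective _ h1
  · -- d = 2 m + 1
    refine ⟨P K (m + 1), ?_, ?_⟩
    · intro Z hZ
      refine ⟨P_sub _ _ Z hZ, ?_, ?_⟩
      · rw [P_card _ _ Z hZ]
        ring
      · have hx : StrictMono (fun j : ℕ => (2 : ℝ) ^ j) := by
          intro a b hab
          exact pow_lt_pow_right₀ (by norm_num) hab
        exact P_pos hx _ _ Z hZ
    · rw [P_num, Nat.multichoose_eq]
      congr 1
      · omega
      · omega

end ToricMMP
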