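import Mathlib

/-!
# Toric minimal model program: simplicial fans and the steps of the program

Definitions for MP_fa3f7f_ag (the minimal model conjecture), by helper18.
-/

set_option autoImplicit false

namespace ToricMMP

variable {ι E : Type*} [Fintype ι] [DecidableEq ι] [AddCommGroup E] [Module ℝ E]

/-- The cone spanned by the vectors `v i` with `i ∈ F`. -/
def cone (v : ι → E) (F : Finset ι) : Set E :=
  {x | ∃ c : ι → ℝ, (∀ i, 0 ≤ c i) ∧ ∑ i ∈ F, c i • v i = x}

/-- A simplicial fan whose rays are among the rays spanned by the vectors `v i`.  The set `T`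
consists of the sets `F` of indices such that the cone spanned by the `v i`, `i ∈ F`, belongs to the
fan: a face of a cone of the fan is a cone of the fan, the generators of each cone are linearly
independent, and two cones of the fan meet in the cone spanned by their common generators. -/
structure IsFan (v : ι → E) (T : Set (Finset ι)) : Prop where
  down : ∀ F ∈ T, ∀ G : Finset ι, G ⊆ F → G ∈ T
  indep : ∀ F ∈ T, LinearIndepOn ℝ v (F : Set ι)
  inter : ∀ F ∈ T, ∀ G ∈ T, cone v F ∩ cone v G = cone v (F ∩ G)

/-- The indices at which `l` is positive. -/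
noncomputable def pos (l : ι → ℝ) : Finset ι := {i | 0 < l i}

/-- The indices at which `l` is negative. -/
noncomputable def neg (l : ι → ℝ) : Finset ι := {i | l i < 0}

/-- One step `X ⇢ X'` of the minimal model program for the divisor `D = ∑ a i • D i` on the toric
variety `X` of the simplicial fan `T`; `X'` is the toric variety of the simplicial fan `T'`.

The numbers `l i` are the intersection numbers of the divisors `D i` with a curve of `X` that
generates the contracted ray; they form a linear relation `∑ l i • v i = 0` between the generators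
of the rays, and `D` is negative on the curve.  With `P = pos l` and `Q = neg l`, the cones of `T`
that contain `Q` are the `Q ∪ A ∪ G` with `A` a proper subset of `P` and `G` in `L`, those of `T'`
that contain `P` are the `P ∪ B ∪ G` with `B` a proper subset of `Q` and `G` in `L`, and all other
cones of `T` and of `T'` are the same.  The step is a flip if `2 ≤ Q.card` and the contraction of a
divisor if `Q.card = 1`. -/
def IsStep (v : ι → E) (a : ι → ℝ) (T T' : Set (Finset ι)) : Prop :=
  ∃ (l : ι → ℝ) (L : Set (Finset ι)),
    ∑ i, l i • v i = 0 ∧ ∑ i, a i * l i < 0 ∧ 2 ≤ (pos l).card ∧ 1 ≤ (neg l).card ∧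
    ∅ ∈ L ∧
    (∀ F, neg l ⊆ F → (F ∈ T ↔ ¬ pos l ⊆ F ∧ F \ (pos l ∪ neg l) ∈ L) ∧ F ∉ T') ∧
    (∀ F, pos l ⊆ F → ¬ neg l ⊆ F → F ∉ T ∧ (F ∈ T' ↔ F \ (pos l ∪ neg l) ∈ L)) ∧
    (∀ F, ¬ pos l ⊆ F → ¬ neg l ⊆ F → (F ∈ T ↔ F ∈ T'))

end ToricMMP
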