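import Pool.Agent.Lib_helper18.ToricChain
import Pool.Agent.Lib_helper18.ToricCount

/-!
# Toric minimal model program: the bound for the number of steps (helper18)
-/

set_option autoImplicit false
set_option linter.unusedSectionVars false

open Finset

namespace ToricMMP

variable {ι E : Type*} [Fintype ι] [DecidableEq ι] [AddCommGroup E] [Module ℝ E]

section Bound

variable {v : ι → E} {a : ι → ℝ} {N : ℕ} {T : ℕ → Set (Finset ι)} {l : ℕ → ι → ℝ}
  {L : ℕ → Set (Finset ι)}

/-- the relations between the generators -/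
noncomputable def rels (v : ι → E) : Submodule ℝ (ι → ℝ) :=
  LinearMap.ker (Fintype.linearCombination ℝ v)

lemma mem_rels (v : ι → E) (x : ι → ℝ) : x ∈ rels v ↔ ∑ i, x i • v i = 0 := by
  unfold rels
  rw [LinearMap.mem_ker, Fintype.linearCombination_apply]

lemma not_subset_iff_zero {l : ι → ℝ} {A : Finset ι} (h : ¬ A ⊆ pos l ∪ neg l) :
    ∃ j ∈ A, l j = 0 := by
  rw [Finset.not_subset] at h
  obtain ⟨j, hj, hj'⟩ := h
  refine ⟨j, hj, ?_⟩
  rw [Finset.mem_union, mem_pos, mem_neg, not_or, not_lt, not_lt] at hj'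
  exact le_antisymm hj'.1 hj'.2

lemma class_pos_card (hT : ∀ s ≤ N, IsFan v (T s))
    (hs : ∀ s < N, Dat v a (T s) (T (s + 1)) (l s) (L s)) (k : ℕ) :
    ((range N).filter (fun s => (pos (l s)).card ≤ k)).card ≤
      Nat.multichoose (Module.finrank ℝ (rels v)) k := by
  have hr : ∀ s : {s // s ∈ (range N).filter (fun s => (pos (l s)).card ≤ k)}, s.1 < N :=
    fun s => Finset.mem_range.mp (Finset.mem_filter.mp s.2).1
  have h := card_le_of_triangular (α := {s // s ∈ (range N).filter
    (fun s => (pos (l s)).card ≤ k)}) (rels v) k (fun s => pos (l s.1))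
    (fun s => (Finset.mem_filter.mp s.2).2) a (fun s => l s.1)
    (fun s => (mem_rels v _).mpr (hs s.1 (hr s)).rel)
    (fun s => (hs s.1 (hr s)).negative.ne)
    (fun s j hj => ((mem_pos _ _).mp hj).ne') (fun s i hsi => not_subset_iff_zero
      (class_pos hT hs hsi (hr i)))
  rwa [Fintype.card_coe] at h

lemma class_neg_card (hT : ∀ s ≤ N, IsFan v (T s))
    (hs : ∀ s < N, Dat v a (T s) (T (s + 1)) (l s) (L s)) (k : ℕ) :
    ((range N).filter (fun s => (neg (l s)).card ≤ k)).card ≤
      Nat.multichoose (Module.finrank ℝ (rels v)) k := by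
  have hr : ∀ s : ({s // s ∈ (range N).filter (fun s => (neg (l s)).card ≤ k)})ᵒᵈ,
      (OrderDual.ofDual s).1 < N :=
    fun s => Finset.mem_range.mp (Finset.mem_filter.mp (OrderDual.ofDual s).2).1
  have h := card_le_of_triangular (α := ({s // s ∈ (range N).filter
    (fun s => (neg (l s)).card ≤ k)})ᵒᵈ) (rels v) k (fun s => neg (l (OrderDual.ofDual s).1))
    (fun s => (Finset.mem_filter.mp (OrderDual.ofDual s).2).2) a
    (fun s => l (OrderDual.ofDual s).1)
    (fun s => (mem_rels v _).mpr (hs _ (hr s)).rel)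
    (fun s => (hs _ (hr s)).negative.ne)
    (fun s j hj => ((mem_neg _ _).mp hj).ne) (fun s i hsi => not_subset_iff_zero
      (class_neg hT hs (OrderDual.ofDual_lt_ofDual.mpr hsi) (hr s)))
  rw [Fintype.card_orderDual, Fintype.card_coe] at h
  exact h

/-- the bound -/
theorem bound [Module.Finite ℝ E] (hT : ∀ s ≤ N, IsFan v (T s))
    (hs : ∀ s < N, IsStep v a (T s) (T (s + 1))) :
    N ≤ Nat.multichoose (Module.finrank ℝ (rels v)) ((Module.finrank ℝ E + 1) / 2) +
      Nat.multichoose (Module.finrank ℝ (rels v)) (Module.finrank ℝ E / 2) := by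
  have hs' : ∀ s, ∃ l L, s < N → Dat v a (T s) (T (s + 1)) l L := by
    intro s
    by_cases h : s < N
    · obtain ⟨l, L, h'⟩ := (isStep_iff v a _ _).mp (hs s h)
      exact ⟨l, L, fun _ => h'⟩
    · exact ⟨0, ∅, fun h' => absurd h' h⟩
  choose l L hl using hs'
  set d := Module.finrank ℝ E
  have h1 := class_pos_card hT hl ((d + 1) / 2)
  have h2 := class_neg_card hT hl (d / 2)
  have h3 : range N ⊆ (range N).filter (fun s => (pos (l s)).card ≤ (d + 1) / 2) ∪
      (range N).filter (fun s => (neg (l s)).card ≤ d / 2) := by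
    intro s hs1
    have h4 := (hl s (Finset.mem_range.mp hs1)).card_le (hT s (Finset.mem_range.mp hs1).le)
    rw [Finset.mem_union, Finset.mem_filter, Finset.mem_filter]
    by_cases h5 : (pos (l s)).card ≤ (d + 1) / 2
    · exact Or.inl ⟨hs1, h5⟩
    · right
      refine ⟨hs1, ?_⟩
      omega
  have h4 := (Finset.card_le_card h3).trans (Finset.card_union_le _ _)
  rw [Finset.card_range] at h4
  omega

lemma finrank_rels [Module.Finite ℝ E] (hv : Submodule.span ℝ (Set.range v) = ⊤) :
    Module.finrank ℝ (rels v) = Fintype.card ι - Module.finrank ℝ E := by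
  have h1 := LinearMap.finrank_range_add_finrank_ker (Fintype.linearCombination ℝ v)
  rw [Fintype.range_linearCombination, hv, finrank_top, Module.finrank_fintype_fun_eq_card] at h1
  unfold rels
  omega

end Bound

end ToricMMP
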