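import Pool.Agent.Lib_helper18.ToricProj

/-!
# Cyclic configurations with integral nodes: relations and circuits (helper18)
-/

set_option autoImplicit false
set_option linter.unusedSectionVars false

open Finset Polynomial

namespace ToricMMP

namespace Nod

/-- the nodes -/
noncomputable def t {K : ℕ} (τ : Fin (K + 1) → ℤ) (i : Fin (K + 1)) : ℝ := (τ i : ℝ)

/-- the finite indices -/
def fi (K : ℕ) : Finset (Fin (K + 1)) := univ.erase (Fin.last K)

/-- the generators -/
noncomputable def v {K : ℕ} (d : ℕ) (τ : Fin (K + 1) → ℤ) (i : Fin (K + 1)) (k : Fin d) : ℝ :=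
  if i = Fin.last K then - ∑ j ∈ fi K, t τ j ^ (k : ℕ) else t τ i ^ (k : ℕ)

variable {K d : ℕ} {τ : Fin (K + 1) → ℤ}

lemma t_strictMono (hτ : StrictMono τ) : StrictMono (t τ) := by
  intro i j hij
  unfold t
  exact_mod_cast hτ hij

lemma t_inj (hτ : StrictMono τ) : Function.Injective (t τ) := (t_strictMono hτ).injective

lemma mem_fi (i : Fin (K + 1)) : i ∈ fi K ↔ i ≠ Fin.last K := by
  simp [fi]

lemma sum_v (l : Fin (K + 1) → ℝ) (k : Fin d) :
    (∑ i, l i • v d τ i) k = ∑ i ∈ fi K, (l i - l (Fin.last K)) * t τ i ^ (k : ℕ) := by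
  rw [Finset.sum_apply, ← Finset.add_sum_erase univ _ (Finset.mem_univ (Fin.last K))]
  have h1 : (l (Fin.last K) • v d τ (Fin.last K)) k =
      - ∑ j ∈ fi K, l (Fin.last K) * t τ j ^ (k : ℕ) := by
    rw [Pi.smul_apply, smul_eq_mul]
    unfold v
    rw [if_pos rfl, mul_neg, Finset.mul_sum]
  have h2 : ∑ x ∈ univ.erase (Fin.last K), (l x • v d τ x) k =
      ∑ x ∈ fi K, l x * t τ x ^ (k : ℕ) := by
    apply Finset.sum_congr rfl
    intro i hi
    rw [Pi.smul_apply, smul_eq_mul]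
    unfold v
    rw [if_neg (Finset.ne_of_mem_erase hi)]
  rw [h1, h2]
  simp only [sub_mul, Finset.sum_sub_distrib]
  ring

lemma mem_rels_cyc (l : Fin (K + 1) → ℝ) : l ∈ rels (v d τ) ↔
    ∀ k : Fin d, ∑ i ∈ fi K, (l i - l (Fin.last K)) * t τ i ^ (k : ℕ) = 0 := by
  rw [mem_rels]
  constructor
  · intro h k
    rw [← sum_v, h, Pi.zero_apply]
  · intro h
    funext k
    rw [sum_v, h, Pi.zero_apply]

lemma rels_poly {l : Fin (K + 1) → ℝ} (hl : l ∈ rels (v d τ)) {p : ℝ[X]}
    (hp : p.natDegree < d) : ∑ i ∈ fi K, (l i - l (Fin.last K)) * p.eval (t τ i) = 0 := by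
  have h := (mem_rels_cyc l).mp hl
  have h1 : ∀ i, (l i - l (Fin.last K)) * p.eval (t τ i) =
      ∑ k : Fin d, p.coeff k * ((l i - l (Fin.last K)) * t τ i ^ (k : ℕ)) := by
    intro i
    rw [Polynomial.eval_eq_sum_range' hp, Finset.mul_sum, ← Fin.sum_univ_eq_sum_range
      (fun k => (l i - l (Fin.last K)) * (p.coeff k * t τ i ^ k)) d]
    apply Finset.sum_congr rfl
    intro k _
    ring
  simp only [h1]
  rw [Finset.sum_comm]
  apply Finset.sum_eq_zero
  intro k _
  rw [← Finset.mul_sum, h k, mul_zero]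

/-- relations with small support vanish -/
lemma small_support (hτ : StrictMono τ) {l : Fin (K + 1) → ℝ} (hl : l ∈ rels (v d τ)) (h0 : l (Fin.last K) = 0)
    (hc : (su l).card ≤ d) : l = 0 := by
  by_contra hne
  obtain ⟨i, hi⟩ : ∃ i, l i ≠ 0 := by
    by_contra h
    push Not at h
    exact hne (funext h)
  have hi' : i ∈ su l := (mem_su l i).mpr hi
  set p : ℝ[X] := ∏ j ∈ (su l).erase i, (X - C (t τ j)) with hp
  have hdeg : p.natDegree < d := by
    rw [hp, Polynomial.natDegree_prod_of_monic _ _ (fun j _ => monic_X_sub_C _)]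
    simp only [natDegree_X_sub_C, Finset.sum_const, smul_eq_mul, mul_one]
    rw [Finset.card_erase_of_mem hi']
    have := Finset.card_pos.mpr ⟨i, hi'⟩
    omega
  have h1 := rels_poly hl hdeg
  rw [h0] at h1
  have h2 : ∑ j ∈ fi K, (l j - 0) * p.eval (t τ j) = l i * p.eval (t τ i) := by
    rw [Finset.sum_eq_single_of_mem i]
    · rw [sub_zero]
    · rw [mem_fi]
      intro h
      rw [h] at hi
      exact hi h0
    · intro j _ hji
      by_cases hj : j ∈ su l
      · have h3 : p.eval (t τ j) = 0 := by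
          rw [hp, Polynomial.eval_prod]
          apply Finset.prod_eq_zero (Finset.mem_erase.mpr ⟨hji, hj⟩)
          simp
        rw [h3, mul_zero]
      · rw [mem_su, not_not] at hj
        rw [hj, sub_zero, zero_mul]
  rw [h2] at h1
  rcases mul_eq_zero.mp h1 with h3 | h3
  · exact hi h3
  · rw [hp, Polynomial.eval_prod, Finset.prod_eq_zero_iff] at h3
    obtain ⟨j, hj, hj'⟩ := h3
    rw [Polynomial.eval_sub, Polynomial.eval_X, Polynomial.eval_C, sub_eq_zero] at hj'
    exact (Finset.ne_of_mem_erase hj) (t_inj hτ hj').symm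

/-- the relation of a set of d + 1 finite indices -/
noncomputable def lz {K : ℕ} (τ : Fin (K + 1) → ℤ) (Z : Finset (Fin (K + 1))) (i : Fin (K + 1)) : ℝ :=
  if i ∈ Z then (∏ j ∈ Z.erase i, (t τ i - t τ j))⁻¹ else 0

lemma prod_ne (hτ : StrictMono τ) (Z : Finset (Fin (K + 1))) (i : Fin (K + 1)) :
    ∏ j ∈ Z.erase i, (t τ i - t τ j) ≠ 0 := by
  rw [Finset.prod_ne_zero_iff]
  intro j hj h
  exact (Finset.ne_of_mem_erase hj) (t_inj hτ (sub_eq_zero.mp h)).symm

lemma su_lz (hτ : StrictMono τ) (Z : Finset (Fin (K + 1))) : su (lz τ Z) = Z := by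
  ext i
  rw [mem_su]
  unfold lz
  split_ifs with h
  · exact ⟨fun _ => h, fun _ => inv_ne_zero (prod_ne hτ Z i)⟩
  · exact ⟨fun h' => absurd rfl h', fun h' => absurd h' h⟩

/-- divided differences -/
lemma sum_lz (hτ : StrictMono τ) {Z : Finset (Fin (K + 1))} (hZ : Z ⊆ fi K) (hc : Z.card = d + 1) {p : ℝ[X]}
    (hp : p.degree < ((d + 1 : ℕ) : WithBot ℕ)) :
    ∑ i ∈ fi K, lz τ Z i * p.eval (t τ i) = p.coeff d := by
  have h := Lagrange.coeff_eq_sum (s := Z) (v := t τ) ((t_inj hτ).injOn) (P := p) (by rw [hc]; exact hp)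
  rw [hc] at h
  simp only [Nat.add_sub_cancel] at h
  rw [h, ← Finset.sum_subset hZ]
  · apply Finset.sum_congr rfl
    intro i hi
    unfold lz
    rw [if_pos hi]
    ring
  · intro i _ hi
    unfold lz
    rw [if_neg hi, zero_mul]

lemma lz_last {Z : Finset (Fin (K + 1))} (hZ : Z ⊆ fi K) : lz τ Z (Fin.last K) = 0 := by
  unfold lz
  rw [if_neg]
  intro h
  exact (mem_fi _).mp (hZ h) rfl

lemma lz_mem (hτ : StrictMono τ) {Z : Finset (Fin (K + 1))} (hZ : Z ⊆ fi K) (hc : Z.card = d + 1) :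
    lz τ Z ∈ rels (v d τ) := by
  rw [mem_rels_cyc]
  intro k
  have h := sum_lz hτ hZ hc (p := X ^ (k : ℕ)) (by
    rw [Polynomial.degree_X_pow]
    exact_mod_cast (k.2.trans (Nat.lt_succ_self d)))
  rw [Polynomial.coeff_X_pow, if_neg (by have := k.2; omega)] at h
  rw [← h]
  apply Finset.sum_congr rfl
  intro i _
  rw [lz_last hZ, sub_zero, Polynomial.eval_pow, Polynomial.eval_X]

lemma lz_ne (hτ : StrictMono τ) {Z : Finset (Fin (K + 1))} (hc : Z.card = d + 1) : lz τ Z ≠ 0 := by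
  intro h
  have h1 := su_lz hτ Z
  rw [h] at h1
  have h2 : su (0 : Fin (K + 1) → ℝ) = ∅ := by
    ext i
    rw [mem_su]
    simp
  rw [h2] at h1
  rw [← h1] at hc
  simp at hc

lemma lz_circ (hτ : StrictMono τ) {Z : Finset (Fin (K + 1))} (hZ : Z ⊆ fi K) (hc : Z.card = d + 1) :
    Circ (rels (v d τ)) (lz τ Z) := by
  refine ⟨lz_mem hτ hZ hc, lz_ne hτ hc, ?_⟩
  intro u hu hsu
  rw [su_lz hτ] at hsu
  obtain ⟨i, hi⟩ := Finset.card_pos.mp (by rw [hc]; exact Nat.succ_pos d)
  have hi0 : lz τ Z i ≠ 0 := by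
    have : i ∈ su (lz τ Z) := by rw [su_lz hτ]; exact hi
    exact (mem_su _ _).mp this
  refine ⟨u i / lz τ Z i, ?_⟩
  have hlast : u (Fin.last K) = 0 := by
    by_contra h
    exact (mem_fi _).mp (hZ (hsu ((mem_su _ _).mpr h))) rfl
  have h1 : u - (u i / lz τ Z i) • lz τ Z = 0 := by
    apply small_support (d := d) hτ ((rels (v d τ)).sub_mem hu ((rels (v d τ)).smul_mem _
      (lz_mem hτ hZ hc)))
    · rw [Pi.sub_apply, Pi.smul_apply, lz_last hZ, smul_zero, hlast, sub_zero]
    · have h2 : su (u - (u i / lz τ Z i) • lz τ Z) ⊆ Z.erase i := by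
        intro j hj
        rw [mem_su, Pi.sub_apply, Pi.smul_apply, smul_eq_mul] at hj
        rw [Finset.mem_erase]
        constructor
        · rintro rfl
          apply hj
          rw [div_mul_cancel₀ _ hi0, sub_self]
        · by_contra h3
          apply hj
          have h4 : u j = 0 := by
            by_contra h5
            exact h3 (hsu ((mem_su _ _).mpr h5))
          have h5 : lz τ Z j = 0 := by
            unfold lz
            rw [if_neg h3]
          rw [h4, h5, mul_zero, sub_zero]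
      have h3 := Finset.card_le_card h2
      rw [Finset.card_erase_of_mem hi, hc] at h3
      exact h3
  exact sub_eq_zero.mp h1

/-- the circuits that do not involve the last index -/
lemma circ_cases (hτ : StrictMono τ) {l : Fin (K + 1) → ℝ} (hl : Circ (rels (v d τ)) l)
    (h0 : l (Fin.last K) = 0) :
    ∃ (Z : Finset (Fin (K + 1))) (c : ℝ), Z ⊆ fi K ∧ Z.card = d + 1 ∧ c ≠ 0 ∧ l = c • lz τ Z := by
  have h1 : d + 1 ≤ (su l).card := by
    by_contra h
    exact hl.ne (small_support hτ hl.mem h0 (by omega))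
  obtain ⟨Z, hZ, hc⟩ := Finset.exists_subset_card_eq h1
  have hZf : Z ⊆ fi K := by
    intro i hi
    rw [mem_fi]
    rintro rfl
    exact (mem_su _ _).mp (hZ hi) h0
  obtain ⟨r, hr⟩ := hl.prop (lz τ Z) (lz_mem hτ hZf hc) (by rw [su_lz hτ]; exact hZ)
  have hr0 : r ≠ 0 := by
    intro h
    apply lz_ne (d := d) hτ hc
    rw [hr, h, zero_smul]
  exact ⟨Z, r⁻¹, hZf, hc, inv_ne_zero hr0, by rw [hr, smul_smul, inv_mul_cancel₀ hr0, one_smul]⟩

end Nod

end ToricMMP
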