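import Pool.Agent.Lib_helper18.ToricNode

/-!
# Cyclic configurations with integral nodes: heights, projectivity (helper18)
-/

set_option autoImplicit false
set_option linter.unusedSectionVars false

open Finset Polynomial

namespace ToricMMP

namespace Nod

variable {K d : ℕ} {τ : Fin (K + 1) → ℤ}

/-- the heights `α t ^ (d + 1) + β t ^ d`, and `H` at the last index -/
noncomputable def hh {K : ℕ} (d : ℕ) (τ : Fin (K + 1) → ℤ) (H α β : ℝ) (i : Fin (K + 1)) : ℝ :=
  if i = Fin.last K then H else α * t τ i ^ (d + 1) + β * t τ i ^ d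

lemma dot_split (h l : Fin (K + 1) → ℝ) :
    dot h l = h (Fin.last K) * l (Fin.last K) + ∑ i ∈ fi K, h i * l i := by
  unfold dot fi
  rw [← Finset.add_sum_erase univ _ (Finset.mem_univ (Fin.last K))]

lemma dot_hh (H α β : ℝ) (l : Fin (K + 1) → ℝ) : dot (hh d τ H α β) l =
    H * l (Fin.last K) + ∑ i ∈ fi K, (α * t τ i ^ (d + 1) + β * t τ i ^ d) * l i := by
  rw [dot_split]
  congr 1
  · unfold hh
    rw [if_pos rfl]
  · apply Finset.sum_congr rfl
    intro i hi
    unfold hh
    rw [if_neg ((mem_fi i).mp hi)]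

lemma sum_lz_pow (hτ : StrictMono τ) {Z : Finset (Fin (K + 1))} (hZ : Z ⊆ fi K)
    (hc : Z.card = d + 1) {k : ℕ} (hk : k ≤ d) :
    ∑ i ∈ fi K, lz τ Z i * t τ i ^ k = if k = d then 1 else 0 := by
  have h := sum_lz hτ hZ hc (p := (X ^ k : ℝ[X])) (by
    rw [Polynomial.degree_X_pow]
    exact_mod_cast Nat.lt_succ_of_le hk)
  rw [Polynomial.coeff_X_pow] at h
  simp only [Polynomial.eval_pow, Polynomial.eval_X] at h
  rw [h]
  by_cases h1 : k = d
  · rw [if_pos h1, if_pos h1.symm]
  · rw [if_neg h1, if_neg (fun h2 => h1 h2.symm)]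

lemma sum_lz_top (hτ : StrictMono τ) {Z : Finset (Fin (K + 1))} (hZ : Z ⊆ fi K)
    (hc : Z.card = d + 1) :
    ∑ i ∈ fi K, lz τ Z i * t τ i ^ (d + 1) = ∑ i ∈ Z, t τ i := by
  set q : ℝ[X] := ∏ j ∈ Z, (X - C (t τ j)) with hq
  have hqm : q.Monic := monic_prod_of_monic _ _ (fun j _ => monic_X_sub_C _)
  have hqd : q.natDegree = d + 1 := by
    rw [hq, Polynomial.natDegree_prod_of_monic _ _ (fun j _ => monic_X_sub_C _)]
    simp [hc]
  have hqd' : q.degree = ((d + 1 : ℕ) : WithBot ℕ) := by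
    rw [Polynomial.degree_eq_natDegree hqm.ne_zero, hqd]
  have hlt1 : (X ^ (d + 1) - q).degree < ((d + 1 : ℕ) : WithBot ℕ) := by
    have h1 := Polynomial.degree_sub_lt_left (p := (X ^ (d + 1) : ℝ[X])) (q := q)
      (by rw [Polynomial.degree_X_pow, hqd']) (pow_ne_zero _ Polynomial.X_ne_zero) (by
        rw [hqm.leadingCoeff, Polynomial.leadingCoeff_X_pow])
    rwa [Polynomial.degree_X_pow] at h1
  have h := sum_lz hτ hZ hc hlt1
  have hco : (X ^ (d + 1) - q : ℝ[X]).coeff d = ∑ i ∈ Z, t τ i := by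
    rw [Polynomial.coeff_sub, Polynomial.coeff_X_pow, if_neg (by omega)]
    have h2 := Polynomial.prod_X_sub_C_coeff_card_pred Z (fun j => t τ j) (by rw [hc]; omega)
    rw [hc] at h2
    simp only [Nat.add_sub_cancel] at h2
    rw [← hq] at h2
    rw [h2]
    ring
  rw [hco] at h
  rw [← h]
  apply Finset.sum_congr rfl
  intro i hi
  by_cases hiZ : i ∈ Z
  · have h3 : q.eval (t τ i) = 0 := by
      rw [hq, Polynomial.eval_prod]
      apply Finset.prod_eq_zero hiZ
      simp
    simp only [Polynomial.eval_sub, Polynomial.eval_pow, Polynomial.eval_X, h3]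
    ring
  · unfold lz
    rw [if_neg hiZ]
    ring

/-- the sum of the nodes -/
def nz {K : ℕ} (τ : Fin (K + 1) → ℤ) (Z : Finset (Fin (K + 1))) : ℤ := ∑ i ∈ Z, τ i

lemma nz_cast (Z : Finset (Fin (K + 1))) : ∑ i ∈ Z, t τ i = (nz τ Z : ℝ) := by
  unfold nz t
  push_cast
  rfl

/-- value of the heights on the circuits -/
lemma dot_hh_lz (hτ : StrictMono τ) (H α β : ℝ) {Z : Finset (Fin (K + 1))} (hZ : Z ⊆ fi K)
    (hc : Z.card = d + 1) : dot (hh d τ H α β) (lz τ Z) = α * nz τ Z + β := by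
  rw [dot_hh, lz_last hZ, mul_zero, zero_add]
  have h1 : ∑ i ∈ fi K, (α * t τ i ^ (d + 1) + β * t τ i ^ d) * lz τ Z i =
      α * ∑ i ∈ fi K, lz τ Z i * t τ i ^ (d + 1) + β * ∑ i ∈ fi K, lz τ Z i * t τ i ^ d := by
    rw [Finset.mul_sum, Finset.mul_sum, ← Finset.sum_add_distrib]
    apply Finset.sum_congr rfl
    intro i _
    ring
  rw [h1, sum_lz_top hτ hZ hc, sum_lz_pow hτ hZ hc (le_refl d), if_pos rfl, nz_cast, mul_one]

/-- normalised circuits through the last index are finite in number -/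
lemma finB (K d : ℕ) (τ : Fin (K + 1) → ℤ) :
    {l | Circ (rels (v d τ)) l ∧ l (Fin.last K) = 1}.Finite := by
  apply Set.Finite.of_finite_image (f := su) (Set.toFinite _)
  intro l hl l' hl' h
  obtain ⟨r, hr⟩ := hl.1.prop l' hl'.1.mem (by rw [← h])
  have h1 := congrFun hr (Fin.last K)
  rw [Pi.smul_apply, hl.2, hl'.2, smul_eq_mul, mul_one] at h1
  rw [hr, ← h1, one_smul]

/-- bound of one height -/
noncomputable def bd {K : ℕ} (d : ℕ) (τ : Fin (K + 1) → ℤ) (M : ℝ) (i : Fin (K + 1)) : ℝ :=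
  |t τ i| ^ (d + 1) + M * |t τ i| ^ d

/-- the height of the last generator -/
noncomputable def HH {K : ℕ} (d : ℕ) (τ : Fin (K + 1) → ℤ) (M : ℝ) : ℝ :=
  (∑ l ∈ (finB K d τ).toFinset, ∑ i ∈ fi K, bd d τ M i * |l i|) +
    K * (1 + ∑ i ∈ fi K, bd d τ M i) + 1

lemma coef_bound {M α β : ℝ} (hα : |α| ≤ 1) (hβ : |β| ≤ M) (i : Fin (K + 1)) :
    |α * t τ i ^ (d + 1) + β * t τ i ^ d| ≤ bd d τ M i := by
  have h2 : 0 ≤ |t τ i| ^ (d + 1) := pow_nonneg (abs_nonneg _) _
  have h3 : 0 ≤ |t τ i| ^ d := pow_nonneg (abs_nonneg _) _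
  unfold bd
  calc |α * t τ i ^ (d + 1) + β * t τ i ^ d| ≤ |α * t τ i ^ (d + 1)| + |β * t τ i ^ d| :=
        abs_add_le _ _
    _ = |α| * |t τ i| ^ (d + 1) + |β| * |t τ i| ^ d := by
      rw [abs_mul, abs_mul, abs_pow, abs_pow]
    _ ≤ _ := by
      have h4 := mul_le_mul_of_nonneg_right hα h2
      have h5 := mul_le_mul_of_nonneg_right hβ h3
      linarith

lemma M_nonneg {M s : ℝ} (hs : |s| ≤ M) : 0 ≤ M := (abs_nonneg s).trans hs

lemma bd_nonneg {M : ℝ} (hM : 0 ≤ M) (i : Fin (K + 1)) : 0 ≤ bd d τ M i := by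
  unfold bd
  positivity

lemma typeB_norm {M α β : ℝ} (hα : |α| ≤ 1) (hβ : |β| ≤ M) {l : Fin (K + 1) → ℝ}
    (hl : Circ (rels (v d τ)) l) (h1 : l (Fin.last K) = 1) :
    0 < dot (hh d τ (HH d τ M) α β) l := by
  have hM := M_nonneg hβ
  rw [dot_hh, h1, mul_one]
  have h2 : |∑ i ∈ fi K, (α * t τ i ^ (d + 1) + β * t τ i ^ d) * l i| ≤
      ∑ i ∈ fi K, bd d τ M i * |l i| := by
    apply (Finset.abs_sum_le_sum_abs _ _).trans
    apply Finset.sum_le_sum
    intro i _
    rw [abs_mul]
    exact mul_le_mul_of_nonneg_right (coef_bound hα hβ i) (abs_nonneg _)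
  have h3 : ∑ i ∈ fi K, bd d τ M i * |l i| ≤
      ∑ l ∈ (finB K d τ).toFinset, ∑ i ∈ fi K, bd d τ M i * |l i| := by
    apply Finset.single_le_sum
      (f := fun l : Fin (K + 1) → ℝ => ∑ i ∈ fi K, bd d τ M i * |l i|)
    · intro l _
      apply Finset.sum_nonneg
      intro i _
      exact mul_nonneg (bd_nonneg hM i) (abs_nonneg _)
    · rw [Set.Finite.mem_toFinset]
      exact ⟨hl, h1⟩
  have h4 : 0 ≤ (K : ℝ) * (1 + ∑ i ∈ fi K, bd d τ M i) := by
    apply mul_nonneg (Nat.cast_nonneg _)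
    have : 0 ≤ ∑ i ∈ fi K, bd d τ M i :=
      Finset.sum_nonneg (fun i _ => bd_nonneg hM i)
    linarith
  have h5 := neg_abs_le (∑ i ∈ fi K, (α * t τ i ^ (d + 1) + β * t τ i ^ d) * l i)
  unfold HH
  linarith

lemma typeB {M α β : ℝ} (hα : |α| ≤ 1) (hβ : |β| ≤ M) {l : Fin (K + 1) → ℝ}
    (hl : Circ (rels (v d τ)) l) (h0 : l (Fin.last K) ≠ 0) :
    (0 < dot (hh d τ (HH d τ M) α β) l ↔ 0 < l (Fin.last K)) ∧
      dot (hh d τ (HH d τ M) α β) l ≠ 0 := by
  have h1 := typeB_norm hα hβ (hl.smul (inv_ne_zero h0)) (by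
    rw [Pi.smul_apply, smul_eq_mul, inv_mul_cancel₀ h0])
  rw [dot_smul] at h1
  set x := dot (hh d τ (HH d τ M) α β) l
  set y := l (Fin.last K)
  have h2 : 0 < y * x := by
    have h3 : y * x = y ^ 2 * (y⁻¹ * x) := by
      field_simp
    rw [h3]
    exact mul_pos (by positivity) h1
  constructor
  · constructor
    · intro hx
      exact pos_of_mul_pos_left h2 hx.le
    · intro hy
      exact pos_of_mul_pos_right h2 hy.le
  · intro hx
    rw [hx, mul_zero] at h2
    exact lt_irrefl _ h2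

/-- relations without the last index have at least two positive coefficients -/
lemma two_le_pos (hτ : StrictMono τ) (hd : 3 ≤ d) {l : Fin (K + 1) → ℝ}
    (hl : l ∈ rels (v d τ)) (h0 : l (Fin.last K) = 0) (hne : l ≠ 0) : 2 ≤ (pos l).card := by
  by_contra h
  obtain ⟨z, hz⟩ : ∃ z, ∀ i ∈ pos l, i = z := by
    rcases Finset.card_le_one_iff_subset_singleton.mp (by omega : (pos l).card ≤ 1) with ⟨z, hz⟩
    exact ⟨z, fun i hi => Finset.mem_singleton.mp (hz hi)⟩
  have hdeg : ((X - C (t τ z)) ^ 2 : ℝ[X]).natDegree < d := by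
    rw [Polynomial.natDegree_pow, Polynomial.natDegree_X_sub_C]
    omega
  have h1 := rels_poly hl hdeg
  rw [h0] at h1
  simp only [sub_zero, Polynomial.eval_pow, Polynomial.eval_sub, Polynomial.eval_X,
    Polynomial.eval_C] at h1
  have hnp : ∀ i ∈ fi K, l i * (t τ i - t τ z) ^ 2 ≤ 0 := by
    intro i _
    by_cases hi : i = z
    · rw [hi, sub_self]
      norm_num
    · have h2 : l i ≤ 0 := by
        by_contra h3
        exact hi (hz i ((mem_pos _ _).mpr (not_le.mp h3)))
      exact mul_nonpos_of_nonpos_of_nonneg h2 (sq_nonneg _)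
  have h2 := (Finset.sum_eq_zero_iff_of_nonpos hnp).mp h1
  have h3 : ∀ i, i ≠ z → l i = 0 := by
    intro i hi
    by_cases hi' : i = Fin.last K
    · rw [hi', h0]
    · rcases mul_eq_zero.mp (h2 i ((mem_fi i).mpr hi')) with h4 | h4
      · exact h4
      · exfalso
        have h5 : t τ i - t τ z = 0 := by
          exact pow_eq_zero_iff (two_ne_zero) |>.mp h4
        exact hi (t_inj hτ (sub_eq_zero.mp h5))
  have h4 : (su l).card ≤ d := by
    have h5 : su l ⊆ {z} := by
      intro i hi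
      rw [mem_su] at hi
      rw [Finset.mem_singleton]
      by_contra h6
      exact hi (h3 i h6)
    have := Finset.card_le_card h5
    rw [Finset.card_singleton] at this
    omega
  exact hne (small_support hτ hl h0 h4)

lemma two_le_neg (hτ : StrictMono τ) (hd : 3 ≤ d) {l : Fin (K + 1) → ℝ}
    (hl : l ∈ rels (v d τ)) (h0 : l (Fin.last K) = 0) (hne : l ≠ 0) : 2 ≤ (neg l).card := by
  have h := two_le_pos hτ hd (l := -l) ((rels (v d τ)).neg_mem hl) (by
    rw [Pi.neg_apply, h0, neg_zero]) (neg_ne_zero.mpr hne)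
  rwa [pos_neg'] at h

lemma card_fi : (fi K).card = K := by
  unfold fi
  rw [Finset.card_erase_of_mem (Finset.mem_univ _), Finset.card_univ, Fintype.card_fin]
  rfl

lemma rels_zero (hd : 1 ≤ d) {l : Fin (K + 1) → ℝ} (hl : l ∈ rels (v d τ)) :
    ∑ i ∈ fi K, (l i - l (Fin.last K)) = 0 := by
  have h := (mem_rels_cyc l).mp hl ⟨0, by omega⟩
  simpa using h

/-- every vector is a nonnegative combination of the generators -/
lemma surj (hτ : StrictMono τ) (hK : d ≤ K) (x : Fin d → ℝ) :
    ∃ c : Fin (K + 1) → ℝ, (∀ i, 0 ≤ c i) ∧ V (v d τ) c = x := by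
  have hs : ∃ c : Fin (K + 1) → ℝ, V (v d τ) c = x := by
    let emb : Fin d → Fin (K + 1) := fun i => ⟨i, by omega⟩
    have hemb : Function.Injective emb := by
      intro i j hij
      have := congrArg Fin.val hij
      exact Fin.ext this
    let f : (Fin d → ℝ) →ₗ[ℝ] (Fin (K + 1) → ℝ) := Function.ExtendByZero.linearMap ℝ emb
    let g : (Fin d → ℝ) →ₗ[ℝ] (Fin d → ℝ) := (Fintype.linearCombination ℝ (v d τ)).comp f
    have hsupp : ∀ c, su (f c) ⊆ univ.image emb := by
      intro c i hi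
      rw [mem_su] at hi
      by_contra h
      apply hi
      apply Function.extend_apply'
      rintro ⟨j, hj⟩
      apply h
      rw [Finset.mem_image]
      exact ⟨j, Finset.mem_univ _, hj⟩
    have hinj : Function.Injective g := by
      rw [← LinearMap.ker_eq_bot, LinearMap.ker_eq_bot']
      intro c hc
      have h1 : f c = 0 := by
        apply small_support (d := d) hτ
        · exact hc
        · by_contra h
          have h2 := hsupp c ((mem_su _ _).mpr h)
          rw [Finset.mem_image] at h2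
          obtain ⟨j, -, hj⟩ := h2
          have h3 := congrArg Fin.val hj
          have h4 : (j : ℕ) = K := h3
          have := j.2
          omega
        · apply (Finset.card_le_card (hsupp c)).trans
          apply Finset.card_image_le.trans
          rw [Finset.card_univ, Fintype.card_fin]
      funext i
      have h2 := congrFun h1 (emb i)
      have h3 : f c (emb i) = c i := hemb.extend_apply c 0 i
      rw [h3] at h2
      exact h2
    obtain ⟨c, hc⟩ := (LinearMap.injective_iff_surjective.mp hinj) x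
    exact ⟨f c, by rw [← hc]; rfl⟩
  obtain ⟨c, hc⟩ := hs
  refine ⟨fun i => c i + ∑ j, |c j|, ?_, ?_⟩
  · intro i
    have h1 : |c i| ≤ ∑ j, |c j| :=
      Finset.single_le_sum (f := fun j => |c j|) (fun j _ => abs_nonneg _) (Finset.mem_univ i)
    have h2 := neg_abs_le (c i)
    show 0 ≤ c i + ∑ j, |c j|
    linarith
  · rw [← hc]
    have h1 : (fun i => (c i + ∑ j, |c j|) - c i) ∈ rels (v d τ) := by
      rw [mem_rels_cyc]
      intro k
      apply Finset.sum_eq_zero
      intro i _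
      ring
    have h2 := (mem_rels _ _).mp h1
    have h3 : V (v d τ) (fun i => c i + ∑ j, |c j|) - V (v d τ) c = 0 := by
      rw [← h2]
      unfold V
      rw [← Finset.sum_sub_distrib]
      apply Finset.sum_congr rfl
      intro i _
      rw [sub_smul]
    exact sub_eq_zero.mp h3

lemma proj (hτ : StrictMono τ) (hd : 1 ≤ d) (hK : d ≤ K) {M α β : ℝ} (hα : |α| ≤ 1)
    (hβ : |β| ≤ M) (hgen : ∀ Z : Finset (Fin (K + 1)), Z ⊆ fi K → Z.card = d + 1 →
      α * nz τ Z + β ≠ 0) :
    IsProjective (v d τ) (Reg (v d τ) (hh d τ (HH d τ M) α β)) := by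
  have hM := M_nonneg hβ
  set C := 1 + ∑ i ∈ fi K, bd d τ M i with hC
  set h := hh d τ (HH d τ M) α β with hh'
  have hsum : 0 ≤ ∑ i ∈ fi K, bd d τ M i := Finset.sum_nonneg (fun i _ => bd_nonneg hM i)
  have hlasth : h (Fin.last K) = HH d τ M := by
    rw [hh']
    unfold hh
    rw [if_pos rfl]
  apply Reg_projective (g := fun i => if i = Fin.last K then h i - K * C else h i + C)
  · intro i
    split_ifs with hi
    · rw [hi, hlasth]
      unfold HH
      have h1 : 0 ≤ ∑ l ∈ (finB K d τ).toFinset, ∑ i ∈ fi K, bd d τ M i * |l i| := by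
        apply Finset.sum_nonneg
        intro l _
        apply Finset.sum_nonneg
        intro i _
        exact mul_nonneg (bd_nonneg hM i) (abs_nonneg _)
      linarith
    · have h1 : h i = α * t τ i ^ (d + 1) + β * t τ i ^ d := by
        rw [hh']
        unfold hh
        rw [if_neg hi]
      have h2 := coef_bound (d := d) (τ := τ) hα hβ i
      have h3 : bd d τ M i ≤ ∑ i ∈ fi K, bd d τ M i :=
        Finset.single_le_sum (f := fun i => bd d τ M i)
          (fun i _ => bd_nonneg hM i) ((mem_fi i).mpr hi)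
      rw [← h1] at h2
      have h4 := neg_abs_le (h i)
      linarith
  · intro l hl
    rw [dot_split, dot_split, if_pos rfl]
    have h1 : ∑ i ∈ fi K, (if i = Fin.last K then h i - K * C else h i + C) * l i =
        ∑ i ∈ fi K, h i * l i + C * ∑ i ∈ fi K, l i := by
      rw [Finset.mul_sum, ← Finset.sum_add_distrib]
      apply Finset.sum_congr rfl
      intro i hi
      rw [if_neg ((mem_fi i).mp hi)]
      ring
    rw [h1]
    have h2 := rels_zero hd hl
    rw [Finset.sum_sub_distrib, Finset.sum_const, card_fi, nsmul_eq_mul] at h2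
    have h3 : ∑ i ∈ fi K, l i = K * l (Fin.last K) := by linarith
    rw [h3]
    ring
  · intro l hl
    by_cases h0 : l (Fin.last K) = 0
    · obtain ⟨Z, c, hZ, hc, hc0, rfl⟩ := circ_cases hτ hl h0
      rw [dot_smul, hh', dot_hh_lz hτ _ _ _ hZ hc]
      exact mul_ne_zero hc0 (hgen Z hZ hc)
    · exact (typeB hα hβ hl h0).2
  · exact surj hτ hK

/-- all rays are used -/
lemma rays (hτ : StrictMono τ) (hd : 3 ≤ d) (hK : d ≤ K) {M α β : ℝ} (hα : |α| ≤ 1)
    (hβ : |β| ≤ M) (i : Fin (K + 1)) : {i} ∈ Reg (v d τ) (hh d τ (HH d τ M) α β) := by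
  rw [mem_Reg]
  intro l hl h1
  by_cases h0 : l (Fin.last K) = 0
  · exfalso
    have h2 := two_le_neg hτ hd hl.mem h0 hl.ne
    have h3 : neg l ⊆ {i} := by
      intro j hj
      by_contra h4
      exact absurd (h1 j h4) (not_le.mpr ((mem_neg _ _).mp hj))
    have h4 := Finset.card_le_card h3
    rw [Finset.card_singleton] at h4
    omega
  · rw [(typeB hα hβ hl h0).1]
    by_contra h2
    have h3 : l (Fin.last K) < 0 := lt_of_le_of_ne (not_lt.mp h2) h0
    have h4 : i = Fin.last K := by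
      by_contra h5
      have h6 : Fin.last K ∉ ({i} : Finset (Fin (K + 1))) := by
        rw [Finset.mem_singleton]
        exact fun h => h5 h.symm
      have := h1 _ h6
      linarith
    have h5 : 0 < ∑ j ∈ fi K, (l j - l (Fin.last K)) := by
      apply Finset.sum_pos
      · intro j hj
        have h6 : j ∉ ({i} : Finset (Fin (K + 1))) := by
          rw [Finset.mem_singleton, h4]
          exact (mem_fi j).mp hj
        have := h1 j h6
        linarith
      · rw [← Finset.card_pos, card_fi]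
        omega
    rw [rels_zero (by omega) hl.mem] at h5
    exact lt_irrefl _ h5

end Nod

end ToricMMP
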