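import Pool.Agent.Lib_helper18.ToricNodeStep
import Pool.Agent.Lib_helper18.ToricGale

/-!
# Cyclic configurations with integral nodes: the chain (helper18)
-/

set_option autoImplicit false
set_option linter.unusedSectionVars false

open Finset

namespace ToricMMP

namespace Nod

variable {K d : ℕ} {τ : Fin (K + 1) → ℤ}

/-- bound of the sums of the nodes -/
def Mx {K : ℕ} (τ : Fin (K + 1) → ℤ) : ℕ := ∑ i ∈ fi K, (τ i).natAbs

lemma nz_natAbs_le {Z : Finset (Fin (K + 1))} (hZ : Z ⊆ fi K) : (nz τ Z).natAbs ≤ Mx τ := by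
  unfold nz Mx
  exact (Int.natAbs_sum_le _ _).trans (Finset.sum_le_sum_of_subset hZ)

/-- the coefficient of `t ^ (d + 1)` -/
def al {K : ℕ} (τ : Fin (K + 1) → ℤ) (S : ℕ) : ℤ := if S ≤ Mx τ then 1 else -1

/-- the coefficient of `t ^ d` -/
noncomputable def be {K : ℕ} (τ : Fin (K + 1) → ℤ) (S : ℕ) : ℝ :=
  if S ≤ Mx τ then (S : ℝ) + 1 / 2 else 2 * (Mx τ : ℝ) + 3 / 2 - S

/-- the fans -/
noncomputable def TT {K : ℕ} (d : ℕ) (τ : Fin (K + 1) → ℤ) (S : ℕ) : Set (Finset (Fin (K + 1))) :=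
  Reg (v d τ) (hh d τ (HH d τ ((Mx τ : ℝ) + 1)) (al τ S) (be τ S))

lemma al_cases (S : ℕ) : al τ S = 1 ∨ al τ S = -1 := by
  unfold al
  split_ifs
  · exact Or.inl rfl
  · exact Or.inr rfl

lemma be_bound {S : ℕ} (hS : S ≤ 2 * Mx τ + 1) : |be τ S| ≤ (Mx τ : ℝ) + 1 := by
  have h0 : (0 : ℝ) ≤ S := Nat.cast_nonneg _
  have h1 : (0 : ℝ) ≤ (Mx τ : ℝ) := Nat.cast_nonneg _
  have h2 : (S : ℝ) ≤ 2 * (Mx τ : ℝ) + 1 := by exact_mod_cast hS
  unfold be
  split_ifs with h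
  · have h3 : (S : ℝ) ≤ (Mx τ : ℝ) := by exact_mod_cast h
    rw [abs_le]
    constructor <;> linarith
  · have h3 : (Mx τ : ℝ) + 1 ≤ S := by exact_mod_cast (by omega : Mx τ + 1 ≤ S)
    rw [abs_le]
    constructor <;> linarith

lemma int_half_ne (n : ℤ) : (n : ℝ) + 1 / 2 ≠ 0 := by
  intro h
  have h1 : (2 * n + 1 : ℝ) = 0 := by linarith
  have h2 : 2 * n + 1 = 0 := by exact_mod_cast h1
  omega

lemma gen_TT (S : ℕ) (n : ℤ) : (al τ S : ℝ) * n + be τ S ≠ 0 := by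
  unfold al be
  split_ifs with h
  · have h1 := int_half_ne (n + S)
    push_cast at h1 ⊢
    intro h2
    apply h1
    linarith
  · have h1 := int_half_ne (-n + 2 * Mx τ + 1 - S)
    push_cast at h1 ⊢
    intro h2
    apply h1
    linarith

/-- consecutive fans -/
lemma TT_step (hτ : StrictMono τ) (hd : 3 ≤ d)
    (hinj : ∀ Z Z' : Finset (Fin (K + 1)), Z ⊆ fi K → Z' ⊆ fi K → Z.card = d + 1 →
      Z'.card = d + 1 → nz τ Z = nz τ Z' → Z = Z') (S : ℕ) (hS : S < 2 * Mx τ + 1) :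
    (TT d τ S = TT d τ (S + 1) ∨
      IsStep (v d τ) (aa d τ) (TT d τ S) (TT d τ (S + 1))) ∧
    (∀ Z : Finset (Fin (K + 1)), Z ⊆ fi K → Z.card = d + 1 →
      (nz τ Z = -((S : ℤ) + 1) ∧ S < Mx τ ∧ Gale τ 1 Z) ∨
      (nz τ Z = 2 * (Mx τ : ℤ) + 1 - S ∧ Mx τ < S ∧ Gale τ (-1) Z) →
      TT d τ S ≠ TT d τ (S + 1)) := by
  rcases lt_trichotomy S (Mx τ) with h | h | h
  · have hM : (((S + 1 : ℕ) : ℤ) : ℝ) + 1 / 2 ≤ (Mx τ : ℝ) + 1 := by
      have : ((S + 1 : ℕ) : ℝ) ≤ (Mx τ : ℝ) := by exact_mod_cast h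
      push_cast at this ⊢
      linarith
    have hc := cross hτ hd (M := (Mx τ : ℝ) + 1) (α := 1) (b := ((S + 1 : ℕ) : ℤ)) (Or.inl rfl)
      (by positivity) hM hinj
    have e1 : TT d τ S = Reg (v d τ) (hh d τ (HH d τ ((Mx τ : ℝ) + 1)) ((1 : ℤ) : ℝ)
        ((((S + 1 : ℕ) : ℤ) : ℝ) - ((1 : ℤ) : ℝ) / 2)) := by
      unfold TT al be
      rw [if_pos h.le, if_pos h.le]
      congr 2
      push_cast
      ring
    have e2 : TT d τ (S + 1) = Reg (v d τ) (hh d τ (HH d τ ((Mx τ : ℝ) + 1)) ((1 : ℤ) : ℝ)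
        ((((S + 1 : ℕ) : ℤ) : ℝ) + ((1 : ℤ) : ℝ) / 2)) := by
      unfold TT al be
      rw [if_pos (by omega), if_pos (by omega)]
      congr 2
      push_cast
      ring
    rw [e1, e2]
    refine ⟨hc.1, ?_⟩
    rintro Z hZ hZc (⟨h1, -, h3⟩ | ⟨-, h2, -⟩)
    · exact hc.2 Z hZ hZc (by rw [h1]; push_cast; ring) h3
    · omega
  · have e : TT d τ S = TT d τ (S + 1) := by
      unfold TT al be
      rw [if_pos h.le, if_pos h.le, if_neg (by omega), if_neg (by omega)]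
      apply Reg_congr
      intro l hl
      have hb1 : |(S : ℝ) + 1 / 2| ≤ (Mx τ : ℝ) + 1 := by
        have := be_bound (τ := τ) (S := S) (by omega)
        unfold be at this
        rwa [if_pos h.le] at this
      have hb2 : |2 * (Mx τ : ℝ) + 3 / 2 - ((S + 1 : ℕ) : ℝ)| ≤ (Mx τ : ℝ) + 1 := by
        have := be_bound (τ := τ) (S := S + 1) (by omega)
        unfold be at this
        rwa [if_neg (by omega)] at this
      by_cases h0 : l (Fin.last K) = 0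
      · obtain ⟨Z, c, hZ, hZc, hc0, rfl⟩ := circ_cases hτ hl h0
        rw [dot_smul, dot_smul, dot_hh_lz hτ _ _ _ hZ hZc, dot_hh_lz hτ _ _ _ hZ hZc]
        have hn := nz_natAbs_le (τ := τ) hZ
        have hn' : |(nz τ Z : ℝ)| ≤ (Mx τ : ℝ) := by
          have h1 : |nz τ Z| ≤ (Mx τ : ℤ) := by
            rw [Int.abs_eq_natAbs]
            exact_mod_cast hn
          exact_mod_cast h1
        rw [abs_le] at hn'
        have hSM : (S : ℝ) = (Mx τ : ℝ) := by rw [h]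
        have p1 : 0 < ((1 : ℤ) : ℝ) * nz τ Z + ((S : ℝ) + 1 / 2) := by
          push_cast
          linarith
        have p2 : 0 < ((-1 : ℤ) : ℝ) * nz τ Z + (2 * (Mx τ : ℝ) + 3 / 2 - ((S + 1 : ℕ) : ℝ)) := by
          push_cast
          linarith
        constructor
        · intro h1
          exact mul_pos (pos_of_mul_pos_left h1 p1.le) p2
        · intro h1
          exact mul_pos (pos_of_mul_pos_left h1 p2.le) p1
      · rw [(typeB (abs_sgn (Or.inl rfl)) hb1 hl h0).1, (typeB (abs_sgn (Or.inr rfl)) hb2 hl h0).1]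
    refine ⟨Or.inl e, ?_⟩
    rintro Z hZ hZc (⟨-, h2, -⟩ | ⟨-, h2, -⟩)
    · omega
    · omega
  · obtain ⟨b, hb⟩ : ∃ b : ℕ, S + b = 2 * Mx τ + 1 := ⟨2 * Mx τ + 1 - S, by omega⟩
    have hb0 : 0 < b := by omega
    have hbR : (S : ℝ) + b = 2 * (Mx τ : ℝ) + 1 := by exact_mod_cast hb
    have hM : (((b : ℕ) : ℤ) : ℝ) + 1 / 2 ≤ (Mx τ : ℝ) + 1 := by
      have : (b : ℝ) ≤ (Mx τ : ℝ) := by exact_mod_cast (by omega : b ≤ Mx τ)
      push_cast
      linarith
    have hc := cross hτ hd (M := (Mx τ : ℝ) + 1) (α := -1) (b := ((b : ℕ) : ℤ)) (Or.inr rfl)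
      (by exact_mod_cast hb0) hM hinj
    have e1 : TT d τ S = Reg (v d τ) (hh d τ (HH d τ ((Mx τ : ℝ) + 1)) ((-1 : ℤ) : ℝ)
        ((((b : ℕ) : ℤ) : ℝ) - ((-1 : ℤ) : ℝ) / 2)) := by
      unfold TT al be
      rw [if_neg (by omega), if_neg (by omega)]
      congr 2
      push_cast
      linarith
    have e2 : TT d τ (S + 1) = Reg (v d τ) (hh d τ (HH d τ ((Mx τ : ℝ) + 1)) ((-1 : ℤ) : ℝ)
        ((((b : ℕ) : ℤ) : ℝ) + ((-1 : ℤ) : ℝ) / 2)) := by
      unfold TT al be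
      rw [if_neg (by omega), if_neg (by omega)]
      congr 2
      push_cast
      linarith
    rw [e1, e2]
    refine ⟨hc.1, ?_⟩
    rintro Z hZ hZc (⟨-, h2, -⟩ | ⟨h1, -, h3⟩)
    · omega
    · apply hc.2 Z hZ hZc _ h3
      rw [h1]
      have : (b : ℤ) = 2 * (Mx τ : ℤ) + 1 - S := by omega
      rw [this]
      ring

open Classical in
/-- the chain -/
theorem lower_gen (hτ : StrictMono τ) (hd : 3 ≤ d) (hK : d ≤ K)
    (hinj : ∀ Z Z' : Finset (Fin (K + 1)), Z ⊆ fi K → Z' ⊆ fi K → Z.card = d + 1 →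
      Z'.card = d + 1 → nz τ Z = nz τ Z' → Z = Z')
    (F : Finset (Finset (Fin (K + 1)))) (hF : ∀ Z ∈ F, Z ⊆ fi K ∧ Z.card = d + 1 ∧
      ((nz τ Z < 0 ∧ Gale τ 1 Z) ∨ (0 < nz τ Z ∧ Gale τ (-1) Z))) :
    ∃ T : ℕ → Set (Finset (Fin (K + 1))),
      (∀ s ≤ F.card, IsFan (v d τ) (T s) ∧ IsProjective (v d τ) (T s) ∧ ∀ i, {i} ∈ T s) ∧
      (∀ s < F.card, IsStep (v d τ) (aa d τ) (T s) (T (s + 1))) := by
  obtain ⟨T', -, -, h2, h3⟩ := chain_extract (TT d τ) (IsStep (v d τ) (aa d τ))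
    (2 * Mx τ + 1) (fun S hS => (TT_step hτ hd hinj S hS).1)
  have hcount : F.card ≤
      ((range (2 * Mx τ + 1)).filter (fun S => TT d τ S ≠ TT d τ (S + 1))).card := by
    apply Finset.card_le_card_of_injOn
      (fun Z => if nz τ Z < 0 then (nz τ Z).natAbs - 1 else 2 * Mx τ + 1 - (nz τ Z).natAbs)
    · intro Z hZ
      obtain ⟨hZ1, hZ2, hZ3⟩ := hF Z hZ
      have hle := nz_natAbs_le (τ := τ) hZ1
      rw [Finset.mem_coe, Finset.mem_filter, Finset.mem_range]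
      rcases hZ3 with ⟨h4, h5⟩ | ⟨h4, h5⟩
      · simp only [h4, if_true]
        refine ⟨by omega, ?_⟩
        apply (TT_step hτ hd hinj ((nz τ Z).natAbs - 1) (by omega)).2 Z hZ1 hZ2
        left
        exact ⟨by omega, by omega, h5⟩
      · simp only [not_lt.mpr h4.le, if_false]
        refine ⟨by omega, ?_⟩
        apply (TT_step hτ hd hinj (2 * Mx τ + 1 - (nz τ Z).natAbs) (by omega)).2 Z hZ1 hZ2
        right
        exact ⟨by omega, by omega, h5⟩
    · intro Z hZ Z' hZ' h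
      obtain ⟨hZ1, hZ2, hZ3⟩ := hF Z hZ
      obtain ⟨hZ1', hZ2', hZ3'⟩ := hF Z' hZ'
      have hle := nz_natAbs_le (τ := τ) hZ1
      have hle' := nz_natAbs_le (τ := τ) hZ1'
      apply hinj Z Z' hZ1 hZ1' hZ2 hZ2'
      dsimp only at h
      rcases hZ3 with ⟨h4, -⟩ | ⟨h4, -⟩ <;> rcases hZ3' with ⟨h5, -⟩ | ⟨h5, -⟩
      · rw [if_pos h4, if_pos h5] at h
        omega
      · rw [if_pos h4, if_neg (by omega)] at h
        omega
      · rw [if_neg (by omega), if_pos h5] at h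
        omega
      · rw [if_neg (by omega), if_neg (by omega)] at h
        omega
  refine ⟨T', ?_, ?_⟩
  · intro s hs
    obtain ⟨S, hS, hS'⟩ := h2 s (hs.trans hcount)
    rw [hS']
    refine ⟨Reg_isFan _ _, ?_, ?_⟩
    · exact proj hτ (by omega) hK (abs_sgn (al_cases S)) (be_bound hS)
        (fun Z _ _ => gen_TT S (nz τ Z))
    · intro i
      exact rays hτ hd hK (abs_sgn (al_cases S)) (be_bound hS) i
  · intro s hs
    exact h3 s (lt_of_lt_of_le hs hcount)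

/-- transfer of index sets -/
def ph (K : ℕ) (Z : Finset ℕ) : Finset (Fin (K + 1)) := univ.filter (fun i => (i : ℕ) ∈ Z)

lemma ph_map {Z : Finset ℕ} (hZ : Z ⊆ range K) : (ph K Z).map Fin.valEmbedding = Z := by
  ext i
  rw [Finset.mem_map]
  unfold ph
  constructor
  · rintro ⟨j, hj, rfl⟩
    exact (Finset.mem_filter.mp hj).2
  · intro hi
    have h1 := Finset.mem_range.mp (hZ hi)
    exact ⟨⟨i, by omega⟩, by rw [Finset.mem_filter]; exact ⟨Finset.mem_univ _, hi⟩, rfl⟩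

lemma ph_card {Z : Finset ℕ} (hZ : Z ⊆ range K) : (ph K Z).card = Z.card := by
  rw [← Finset.card_map Fin.valEmbedding, ph_map hZ]

lemma ph_fi {Z : Finset ℕ} (hZ : Z ⊆ range K) : ph K Z ⊆ fi K := by
  intro i hi
  unfold ph at hi
  rw [Finset.mem_filter] at hi
  rw [mem_fi]
  rintro rfl
  have := Finset.mem_range.mp (hZ hi.2)
  rw [Fin.val_last] at this
  exact lt_irrefl _ this

lemma map_sub {Z : Finset (Fin (K + 1))} (hZ : Z ⊆ fi K) :
    Z.map Fin.valEmbedding ⊆ range K := by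
  intro i hi
  rw [Finset.mem_map] at hi
  obtain ⟨j, hj, rfl⟩ := hi
  rw [Finset.mem_range]
  have h1 := (mem_fi _).mp (hZ hj)
  have h2 := j.2
  have h3 : (j : ℕ) ≠ K := by
    intro h
    apply h1
    exact Fin.ext h
  show (j : ℕ) < K
  omega

/-- the chain, in terms of integral nodes indexed by the natural numbers -/
theorem lower_nat {x : ℕ → ℤ} (hx : StrictMono x) (hd : 3 ≤ d) (hK : d ≤ K)
    (hinj : ∀ Z Z' : Finset ℕ, Z ⊆ range K → Z' ⊆ range K → Z.card = d + 1 →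
      Z'.card = d + 1 → ∑ j ∈ Z, x j = ∑ j ∈ Z', x j → Z = Z')
    (F : Finset (Finset ℕ)) (hF : ∀ Z ∈ F, Z ⊆ range K ∧ Z.card = d + 1 ∧
      ((∑ j ∈ Z, x j < 0 ∧ ∀ i < K, i ∉ Z → 0 < ∏ j ∈ Z, ((x i : ℝ) - x j)) ∨
        (0 < ∑ j ∈ Z, x j ∧ ∀ i < K, i ∉ Z → ∏ j ∈ Z, ((x i : ℝ) - x j) < 0))) :
    ∃ T : ℕ → Set (Finset (Fin (K + 1))),
      (∀ s ≤ F.card, IsFan (v d (fun i : Fin (K + 1) => x i)) (T s) ∧
        IsProjective (v d (fun i : Fin (K + 1) => x i)) (T s) ∧ ∀ i, {i} ∈ T s) ∧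
      (∀ s < F.card, IsStep (v d (fun i : Fin (K + 1) => x i))
        (aa d (fun i : Fin (K + 1) => x i)) (T s) (T (s + 1))) := by
  set τ : Fin (K + 1) → ℤ := fun i => x i with hτdef
  have hτ : StrictMono τ := fun i j hij => hx hij
  have hnz : ∀ Z : Finset (Fin (K + 1)), nz τ Z = ∑ j ∈ Z.map Fin.valEmbedding, x j := by
    intro Z
    rw [Finset.sum_map]
    rfl
  have hcard : (F.image (ph K)).card = F.card := by
    apply Finset.card_image_of_injOn
    intro Z hZ Z' hZ' h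
    rw [← ph_map (hF Z hZ).1, ← ph_map (hF Z' hZ').1, h]
  rw [← hcard]
  apply lower_gen hτ hd hK
  · intro Z Z' hZ hZ' hc hc' h
    rw [hnz, hnz] at h
    have h1 := hinj _ _ (map_sub hZ) (map_sub hZ') (by rw [Finset.card_map, hc])
      (by rw [Finset.card_map, hc']) h
    exact Finset.map_injective _ h1
  · intro Z hZ
    rw [Finset.mem_image] at hZ
    obtain ⟨W, hW, rfl⟩ := hZ
    obtain ⟨h1, h2, h3⟩ := hF W hW
    refine ⟨ph_fi h1, by rw [ph_card h1, h2], ?_⟩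
    rw [hnz, ph_map h1]
    have hprod : ∀ i : Fin (K + 1), ∏ j ∈ ph K W, (t τ i - t τ j) =
        ∏ j ∈ W, ((x i : ℝ) - x j) := by
      intro i
      conv_rhs => rw [← ph_map h1]
      rw [Finset.prod_map]
      rfl
    have hmem : ∀ i ∈ fi K, i ∉ ph K W → (i : ℕ) < K ∧ (i : ℕ) ∉ W := by
      intro i hi hi'
      constructor
      · have h4 := (mem_fi i).mp hi
        have h5 := i.2
        have h6 : (i : ℕ) ≠ K := fun h => h4 (Fin.ext h)
        omega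
      · intro h4
        apply hi'
        unfold ph
        rw [Finset.mem_filter]
        exact ⟨Finset.mem_univ _, h4⟩
    rcases h3 with ⟨h4, h5⟩ | ⟨h4, h5⟩
    · left
      refine ⟨h4, ?_⟩
      intro i hi hi'
      rw [hprod]
      obtain ⟨h6, h7⟩ := hmem i hi hi'
      have := h5 i h6 h7
      push_cast
      linarith
    · right
      refine ⟨h4, ?_⟩
      intro i hi hi'
      rw [hprod]
      obtain ⟨h6, h7⟩ := hmem i hi hi'
      have := h5 i h6 h7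
      push_cast
      linarith

end Nod

end ToricMMP
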