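import Pool.Agent.Lib_helper18.ToricNodeHt

/-!
# Cyclic configurations with integral nodes: the steps (helper18)
-/

set_option autoImplicit false
set_option linter.unusedSectionVars false

open Finset Polynomial

namespace ToricMMP

/-- a step changes the fan -/
lemma step_ne {ι E : Type*} [Fintype ι] [DecidableEq ι] [AddCommGroup E] [Module ℝ E]
    {v : ι → E} {a : ι → ℝ} {T T' : Set (Finset ι)} (hT : IsFan v T) (h : IsStep v a T T') :
    T ≠ T' := by
  rw [isStep_iff] at h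
  obtain ⟨l, L, h⟩ := h
  intro heq
  have h1 : neg l ∈ T := by
    rw [h.face hT Finset.subset_union_right]
    exact h.not_pos_subset_neg (Finset.Subset.refl _)
  rw [heq] at h1
  exact (h.h1 _ (Finset.Subset.refl _)).2 h1

open Classical in
/-- extraction of a chain -/
lemma chain_extract {X : Type*} (T : ℕ → X) (R : X → X → Prop) (M : ℕ)
    (h : ∀ S < M, T S = T (S + 1) ∨ R (T S) (T (S + 1))) :
    ∃ T' : ℕ → X, T' 0 = T 0 ∧
      T' ((range M).filter (fun S => T S ≠ T (S + 1))).card = T M ∧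
      (∀ k ≤ ((range M).filter (fun S => T S ≠ T (S + 1))).card, ∃ S ≤ M, T' k = T S) ∧
      (∀ k < ((range M).filter (fun S => T S ≠ T (S + 1))).card, R (T' k) (T' (k + 1))) := by
  induction M with
  | zero =>
    refine ⟨T, rfl, ?_, ?_, ?_⟩
    · simp
    · intro k hk
      simp at hk
      exact ⟨0, le_refl _, by rw [hk]⟩
    · intro k hk
      simp at hk
  | succ M ih =>
    obtain ⟨T', h0, h1, h2, h3⟩ := ih (fun S hS => h S (by omega))
    by_cases heq : T M = T (M + 1)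
    · have hf : (range (M + 1)).filter (fun S => T S ≠ T (S + 1)) =
          (range M).filter (fun S => T S ≠ T (S + 1)) := by
        rw [Finset.range_add_one, Finset.filter_insert, if_neg (by simpa using heq)]
      rw [hf]
      refine ⟨T', h0, h1.trans heq, ?_, h3⟩
      intro k hk
      obtain ⟨S, hS, hS'⟩ := h2 k hk
      exact ⟨S, by omega, hS'⟩
    · have hR : R (T M) (T (M + 1)) := (h M (by omega)).resolve_left heq
      set n := ((range M).filter (fun S => T S ≠ T (S + 1))).card with hn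
      have hf : ((range (M + 1)).filter (fun S => T S ≠ T (S + 1))).card = n + 1 := by
        rw [Finset.range_add_one, Finset.filter_insert, if_pos (by simpa using heq),
          Finset.card_insert_of_notMem (by simp)]
      rw [hf]
      refine ⟨fun k => if k ≤ n then T' k else T (M + 1), ?_, ?_, ?_, ?_⟩
      · simp [h0]
      · simp
      · intro k hk
        dsimp only
        split_ifs with h4
        · obtain ⟨S, hS, hS'⟩ := h2 k h4
          exact ⟨S, by omega, hS'⟩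
        · exact ⟨M + 1, le_refl _, rfl⟩
      · intro k hk
        dsimp only
        rw [if_pos (by omega : k ≤ n)]
        split_ifs with h4
        · exact h3 k (by omega)
        · have h5 : k = n := by omega
          rw [h5, h1]
          exact hR

namespace Nod

variable {K d : ℕ} {τ : Fin (K + 1) → ℤ}

lemma sign_lemma {c δ : ℝ} {n : ℤ} (hn : n ≠ 0) (hδ : |δ| ≤ 1 / 2) :
    0 < c * ((n : ℝ) + δ) ↔ 0 < c * (n : ℝ) := by
  rw [abs_le] at hδ
  rcases lt_or_gt_of_ne hn with h | h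
  · have h1 : (n : ℝ) ≤ -1 := by exact_mod_cast (by omega : n ≤ -1)
    have h2 : (n : ℝ) + δ < 0 := by linarith
    have h3 : (n : ℝ) < 0 := by linarith
    constructor
    · intro h4
      have h5 : c < 0 := by
        by_contra h6
        have := mul_nonpos_of_nonneg_of_nonpos (not_lt.mp h6) h2.le
        linarith
      exact mul_pos_of_neg_of_neg h5 h3
    · intro h4
      have h5 : c < 0 := by
        by_contra h6
        have := mul_nonpos_of_nonneg_of_nonpos (not_lt.mp h6) h3.le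
        linarith
      exact mul_pos_of_neg_of_neg h5 h2
  · have h1 : (1 : ℝ) ≤ n := by exact_mod_cast (by omega : 1 ≤ n)
    have h2 : 0 < (n : ℝ) + δ := by linarith
    have h3 : 0 < (n : ℝ) := by linarith
    constructor
    · intro h4
      exact mul_pos (pos_of_mul_pos_left h4 h2.le) h3
    · intro h4
      exact mul_pos (pos_of_mul_pos_left h4 h3.le) h2

lemma abs_sgn {α : ℤ} (hα : α = 1 ∨ α = -1) : |(α : ℝ)| ≤ 1 := by
  rcases hα with rfl | rfl <;> norm_num

lemma same_sign (hτ : StrictMono τ) {M δ : ℝ} {α b : ℤ} (hα : α = 1 ∨ α = -1)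
    (hδ : |δ| ≤ 1 / 2) (hM : |(b : ℝ) + δ| ≤ M) (hM' : |(b : ℝ)| ≤ M)
    {l : Fin (K + 1) → ℝ} (hl : Circ (rels (v d τ)) l)
    (hne : ∀ (Z : Finset (Fin (K + 1))), Z ⊆ fi K → Z.card = d + 1 → α * nz τ Z + b = 0 →
      ∀ t : ℝ, l ≠ t • lz τ Z) :
    (0 < dot (hh d τ (HH d τ M) α ((b : ℝ) + δ)) l ↔ 0 < dot (hh d τ (HH d τ M) α b) l) := by
  by_cases h0 : l (Fin.last K) = 0
  · obtain ⟨Z, c, hZ, hc, hc0, rfl⟩ := circ_cases hτ hl h0
    rw [dot_smul, dot_smul, dot_hh_lz hτ _ _ _ hZ hc, dot_hh_lz hτ _ _ _ hZ hc]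
    have h1 : (α : ℝ) * nz τ Z + ((b : ℝ) + δ) = ((α * nz τ Z + b : ℤ) : ℝ) + δ := by
      push_cast
      ring
    have h2 : (α : ℝ) * nz τ Z + (b : ℝ) = ((α * nz τ Z + b : ℤ) : ℝ) := by
      push_cast
      ring
    rw [h1, h2]
    apply sign_lemma _ hδ
    intro h
    exact hne Z hZ hc h c rfl
  · rw [(typeB (abs_sgn hα) hM hl h0).1, (typeB (abs_sgn hα) hM' hl h0).1]

lemma pos_union_neg (l : Fin (K + 1) → ℝ) : pos l ∪ neg l = su l := by
  ext i
  rw [Finset.mem_union, mem_pos, mem_neg, mem_su]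
  constructor
  · rintro (h1 | h1)
    · exact h1.ne'
    · exact h1.ne
  · intro h1
    rcases lt_or_gt_of_ne h1 with h2 | h2
    · exact Or.inr h2
    · exact Or.inl h2

lemma su_smul {c : ℝ} (hc : c ≠ 0) (l : Fin (K + 1) → ℝ) : su (c • l) = su l := by
  ext i
  rw [mem_su, mem_su, Pi.smul_apply, smul_eq_mul]
  constructor
  · intro h h1
    apply h
    rw [h1, mul_zero]
  · intro h
    exact mul_ne_zero hc h

/-- evenness condition, with a sign -/
def Gale {K : ℕ} (τ : Fin (K + 1) → ℤ) (α : ℤ) (Z : Finset (Fin (K + 1))) : Prop :=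
  ∀ i ∈ fi K, i ∉ Z → 0 < (α : ℝ) * ∏ j ∈ Z, (t τ i - t τ j)

lemma cond_gale (hτ : StrictMono τ) (hd : 3 ≤ d) {M c : ℝ} {α b : ℤ} (hα : α = 1 ∨ α = -1)
    (hc0 : c ≠ 0) {Z : Finset (Fin (K + 1))} (hZ : Z ⊆ fi K)
    (hc : Z.card = d + 1) (hn : α * nz τ Z + b = 0) (hG : Gale τ α Z) (hM : |(b : ℝ)| ≤ M) :
    Cond (v d τ) (c • lz τ Z) (hh d τ (HH d τ M) α b) (pos (c • lz τ Z) ∪ neg (c • lz τ Z)) := by
  rw [pos_union_neg, su_smul hc0, su_lz hτ]
  intro l hl hlt h1
  have hlastZ : Fin.last K ∉ Z := fun h => (mem_fi _).mp (hZ h) rfl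
  by_cases h0 : l (Fin.last K) = 0
  · rw [dot_hh, h0, mul_zero, zero_add]
    set q : ℝ[X] := ∏ j ∈ Z, (X - C (t τ j)) with hq
    have hqm : q.Monic := monic_prod_of_monic _ _ (fun j _ => monic_X_sub_C _)
    have hqd : q.natDegree = d + 1 := by
      rw [hq, Polynomial.natDegree_prod_of_monic _ _ (fun j _ => monic_X_sub_C _)]
      simp [hc]
    have hq1 : q.coeff d = - (nz τ Z : ℝ) := by
      have h2 := Polynomial.prod_X_sub_C_coeff_card_pred Z (fun j => t τ j) (by rw [hc]; omega)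
      rw [hc] at h2
      simp only [Nat.add_sub_cancel] at h2
      rw [← hq] at h2
      rw [h2, nz_cast]
    have hq2 : q.coeff (d + 1) = 1 := by
      rw [← hqd]
      exact hqm.coeff_natDegree
    have hnR : (α : ℝ) * nz τ Z + b = 0 := by exact_mod_cast hn
    set p : ℝ[X] := C (α : ℝ) * X ^ (d + 1) + C (b : ℝ) * X ^ d - C (α : ℝ) * q with hp
    have hdeg : p.natDegree < d := by
      by_cases hp0 : p = 0
      · rw [hp0, Polynomial.natDegree_zero]
        omega
      · rw [Polynomial.natDegree_lt_iff_degree_lt hp0, Polynomial.degree_lt_iff_coeff_zero]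
        intro m hm
        rw [hp, Polynomial.coeff_sub, Polynomial.coeff_add, Polynomial.coeff_C_mul,
          Polynomial.coeff_C_mul, Polynomial.coeff_C_mul, Polynomial.coeff_X_pow,
          Polynomial.coeff_X_pow]
        rcases Nat.lt_or_ge (d + 1) m with h2 | h2
        · rw [if_neg (by omega), if_neg (by omega),
            Polynomial.coeff_eq_zero_of_natDegree_lt (by rw [hqd]; exact h2)]
          ring
        · rcases Nat.lt_or_ge d m with h3 | h3
          · have h4 : m = d + 1 := by omega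
            rw [h4, if_pos rfl, if_neg (by omega), hq2]
            ring
          · have h4 : m = d := by omega
            rw [h4, if_neg (by omega), if_pos rfl, hq1]
            linarith
    have h2 := rels_poly hl.mem hdeg
    rw [h0] at h2
    have h3 : ∑ i ∈ fi K, ((α : ℝ) * t τ i ^ (d + 1) + (b : ℝ) * t τ i ^ d) * l i =
        ∑ i ∈ fi K, (α : ℝ) * q.eval (t τ i) * l i := by
      rw [← sub_eq_zero, ← Finset.sum_sub_distrib, ← h2]
      apply Finset.sum_congr rfl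
      intro i _
      rw [hp]
      simp only [Polynomial.eval_sub, Polynomial.eval_add, Polynomial.eval_mul,
        Polynomial.eval_pow, Polynomial.eval_X, Polynomial.eval_C]
      ring
    rw [h3]
    have hqp : ∀ i ∈ fi K, i ∉ Z → 0 < (α : ℝ) * q.eval (t τ i) := by
      intro i hi hiZ
      rw [hq, Polynomial.eval_prod]
      simp only [Polynomial.eval_sub, Polynomial.eval_X, Polynomial.eval_C]
      exact hG i hi hiZ
    have hnn : ∀ i ∈ fi K, 0 ≤ (α : ℝ) * q.eval (t τ i) * l i := by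
      intro i hi
      by_cases hiZ : i ∈ Z
      · have h4 : q.eval (t τ i) = 0 := by
          rw [hq, Polynomial.eval_prod]
          apply Finset.prod_eq_zero hiZ
          simp
        rw [h4, mul_zero, zero_mul]
      · exact mul_nonneg (hqp i hi hiZ).le (h1 i hiZ)
    apply lt_of_le_of_ne (Finset.sum_nonneg hnn)
    intro h4
    have h5 := (Finset.sum_eq_zero_iff_of_nonneg hnn).mp h4.symm
    have h6 : su l ⊆ su (lz τ Z) := by
      rw [su_lz hτ]
      intro i hi
      rw [mem_su] at hi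
      by_contra hiZ
      have hi' : i ∈ fi K := by
        rw [mem_fi]
        rintro rfl
        exact hi h0
      rcases mul_eq_zero.mp (h5 i hi') with h8 | h8
      · have h9 := hqp i hi' hiZ
        rw [h8] at h9
        exact lt_irrefl _ h9
      · exact hi h8
    obtain ⟨r, hr⟩ := (lz_circ hτ hZ hc).prop l hl.mem h6
    apply hlt (r * c⁻¹)
    rw [smul_smul, mul_assoc, inv_mul_cancel₀ hc0, mul_one]
    exact hr
  · rw [(typeB (abs_sgn hα) hM hl h0).1]
    exact lt_of_le_of_ne (h1 _ hlastZ) (Ne.symm h0)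

/-- the constants of the divisor -/
noncomputable def CC {K : ℕ} (d : ℕ) (τ : Fin (K + 1) → ℤ) : ℝ :=
  ∑ i ∈ fi K, |t τ i| ^ (d + 1) + 1

/-- the divisor -/
noncomputable def aa {K : ℕ} (d : ℕ) (τ : Fin (K + 1) → ℤ) (i : Fin (K + 1)) : ℝ :=
  if i = Fin.last K then - (2 * CC d τ + 1)⁻¹
  else - ((2 * CC d τ + 1)⁻¹ * (t τ i ^ (d + 1) + CC d τ))

lemma one_le_CC : 1 ≤ CC d τ := by
  unfold CC
  have : 0 ≤ ∑ i ∈ fi K, |t τ i| ^ (d + 1) :=
    Finset.sum_nonneg (fun i _ => pow_nonneg (abs_nonneg _) _)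
  linarith

lemma aa_range (i : Fin (K + 1)) : -1 < aa d τ i ∧ aa d τ i < 0 := by
  have h1 := one_le_CC (d := d) (τ := τ)
  have h2 : 0 < (2 * CC d τ + 1)⁻¹ := inv_pos.mpr (by linarith)
  unfold aa
  split_ifs with hi
  · have h3 : (2 * CC d τ + 1)⁻¹ < 1 := inv_lt_one_of_one_lt₀ (by linarith)
    constructor <;> linarith
  · have h3 : |t τ i| ^ (d + 1) ≤ ∑ i ∈ fi K, |t τ i| ^ (d + 1) :=
      Finset.single_le_sum (f := fun i => |t τ i| ^ (d + 1))
        (fun i _ => pow_nonneg (abs_nonneg _) _) ((mem_fi i).mpr hi)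
    have h4 : |t τ i ^ (d + 1)| ≤ CC d τ - 1 := by
      rw [abs_pow]
      unfold CC
      linarith
    rw [abs_le] at h4
    have h5 : 0 < t τ i ^ (d + 1) + CC d τ := by linarith
    have h6 : (2 * CC d τ + 1)⁻¹ * (t τ i ^ (d + 1) + CC d τ) < 1 := by
      rw [inv_mul_lt_iff₀ (by linarith)]
      linarith
    have h7 := mul_pos h2 h5
    constructor <;> linarith

lemma dot_aa (hτ : StrictMono τ) (hd : 1 ≤ d) {Z : Finset (Fin (K + 1))} (hZ : Z ⊆ fi K)
    (hc : Z.card = d + 1) :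
    dot (aa d τ) (lz τ Z) = - ((2 * CC d τ + 1)⁻¹ * nz τ Z) := by
  rw [dot_split, lz_last hZ, mul_zero, zero_add]
  have h1 : ∑ i ∈ fi K, aa d τ i * lz τ Z i =
      - (2 * CC d τ + 1)⁻¹ * ∑ i ∈ fi K, lz τ Z i * t τ i ^ (d + 1) -
      (2 * CC d τ + 1)⁻¹ * CC d τ * ∑ i ∈ fi K, lz τ Z i * t τ i ^ 0 := by
    rw [Finset.mul_sum, Finset.mul_sum, ← Finset.sum_sub_distrib]
    apply Finset.sum_congr rfl
    intro i hi
    unfold aa
    rw [if_neg ((mem_fi i).mp hi)]
    ring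
  rw [h1, sum_lz_top hτ hZ hc, sum_lz_pow hτ hZ hc (by omega), if_neg (by omega), nz_cast]
  ring

/-- crossing the wall `b` -/
lemma cross (hτ : StrictMono τ) (hd : 3 ≤ d) {M : ℝ} {α b : ℤ} (hα : α = 1 ∨ α = -1)
    (hb : 0 < b) (hM : (b : ℝ) + 1 / 2 ≤ M)
    (hinj : ∀ Z Z' : Finset (Fin (K + 1)), Z ⊆ fi K → Z' ⊆ fi K → Z.card = d + 1 →
      Z'.card = d + 1 → nz τ Z = nz τ Z' → Z = Z') :
    (Reg (v d τ) (hh d τ (HH d τ M) α ((b : ℝ) - α / 2)) =
        Reg (v d τ) (hh d τ (HH d τ M) α ((b : ℝ) + α / 2)) ∨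
      IsStep (v d τ) (aa d τ) (Reg (v d τ) (hh d τ (HH d τ M) α ((b : ℝ) - α / 2)))
        (Reg (v d τ) (hh d τ (HH d τ M) α ((b : ℝ) + α / 2)))) ∧
    (∀ Z : Finset (Fin (K + 1)), Z ⊆ fi K → Z.card = d + 1 → α * nz τ Z + b = 0 → Gale τ α Z →
      Reg (v d τ) (hh d τ (HH d τ M) α ((b : ℝ) - α / 2)) ≠
        Reg (v d τ) (hh d τ (HH d τ M) α ((b : ℝ) + α / 2))) := by
  have hbR : (0 : ℝ) < b := by exact_mod_cast hb
  have hα2 : |(α : ℝ) / 2| ≤ 1 / 2 := by
    rcases hα with rfl | rfl <;> norm_num [abs_div]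
  have hα2' : |-((α : ℝ) / 2)| ≤ 1 / 2 := by rw [abs_neg]; exact hα2
  have hα3 := abs_le.mp hα2
  have hM0 : |(b : ℝ)| ≤ M := by rw [abs_of_pos hbR]; linarith
  have hM1 : |(b : ℝ) + -((α : ℝ) / 2)| ≤ M := by
    have hb1 : (1 : ℝ) ≤ b := by exact_mod_cast hb
    rw [abs_of_pos (by linarith)]
    linarith
  have hM2 : |(b : ℝ) + (α : ℝ) / 2| ≤ M := by
    have hb1 : (1 : ℝ) ≤ b := by exact_mod_cast hb
    rw [abs_of_pos (by linarith)]
    linarith
  have hαα : (α : ℝ) * α = 1 := by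
    rcases hα with rfl | rfl <;> norm_num
  have hα0 : (α : ℝ) ≠ 0 := by
    intro h
    rw [h, mul_zero] at hαα
    exact zero_ne_one hαα
  rw [sub_eq_add_neg]
  -- data at a wall
  have data : ∀ Z : Finset (Fin (K + 1)), Z ⊆ fi K → Z.card = d + 1 → α * nz τ Z + b = 0 →
      0 < dot (hh d τ (HH d τ M) α ((b : ℝ) + -((α : ℝ) / 2))) ((-(α : ℝ)) • lz τ Z) ∧
      dot (hh d τ (HH d τ M) α ((b : ℝ) + (α : ℝ) / 2)) ((-(α : ℝ)) • lz τ Z) < 0 ∧
      dot (hh d τ (HH d τ M) α (b : ℝ)) ((-(α : ℝ)) • lz τ Z) = 0 ∧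
      (∀ l, Circ (rels (v d τ)) l → (∀ t : ℝ, l ≠ t • ((-(α : ℝ)) • lz τ Z)) →
        (0 < dot (hh d τ (HH d τ M) α ((b : ℝ) + -((α : ℝ) / 2))) l ↔
          0 < dot (hh d τ (HH d τ M) α (b : ℝ)) l)) ∧
      (∀ l, Circ (rels (v d τ)) l → (∀ t : ℝ, l ≠ t • ((-(α : ℝ)) • lz τ Z)) →
        (0 < dot (hh d τ (HH d τ M) α ((b : ℝ) + (α : ℝ) / 2)) l ↔
          0 < dot (hh d τ (HH d τ M) α (b : ℝ)) l)) ∧
      dot (aa d τ) ((-(α : ℝ)) • lz τ Z) < 0 := by
    intro Z hZ hc hn
    have hnR : (α : ℝ) * nz τ Z + b = 0 := by exact_mod_cast hn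
    have hnR' : (α : ℝ) * nz τ Z = - b := by linarith
    have key : ∀ l : Fin (K + 1) → ℝ, (∀ t : ℝ, l ≠ t • ((-(α : ℝ)) • lz τ Z)) →
        ∀ (W : Finset (Fin (K + 1))), W ⊆ fi K → W.card = d + 1 → α * nz τ W + b = 0 →
        ∀ t : ℝ, l ≠ t • lz τ W := by
      intro l hl W hW hWc hWn t ht
      have h1 : nz τ W = nz τ Z := by
        rcases hα with rfl | rfl <;> omega
      have h2 : W = Z := hinj W Z hW hZ hWc hc h1
      apply hl (- t * α)
      rw [ht, h2, smul_smul]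
      congr 1
      have : - t * (α : ℝ) * -α = t * (α * α) := by ring
      rw [this, hαα, mul_one]
    refine ⟨?_, ?_, ?_, ?_, ?_, ?_⟩
    · rw [dot_smul, dot_hh_lz hτ _ _ _ hZ hc, hnR']
      have : -(α : ℝ) * (-b + (b + -(α / 2))) = (α * α) / 2 := by ring
      rw [this, hαα]
      norm_num
    · rw [dot_smul, dot_hh_lz hτ _ _ _ hZ hc, hnR']
      have : -(α : ℝ) * (-b + (b + α / 2)) = - ((α * α) / 2) := by ring
      rw [this, hαα]
      norm_num
    · rw [dot_smul, dot_hh_lz hτ _ _ _ hZ hc, hnR]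
      ring
    · intro l hl hlt
      exact same_sign hτ hα hα2' hM1 hM0 hl (key l hlt)
    · intro l hl hlt
      exact same_sign hτ hα hα2 hM2 hM0 hl (key l hlt)
    · rw [dot_smul, dot_aa hτ (by omega) hZ hc]
      have h1 : -(α : ℝ) * -((2 * CC d τ + 1)⁻¹ * nz τ Z) =
          (2 * CC d τ + 1)⁻¹ * (α * nz τ Z) := by ring
      rw [h1, hnR']
      have h2 := one_le_CC (d := d) (τ := τ)
      have h3 : 0 < (2 * CC d τ + 1)⁻¹ := inv_pos.mpr (by linarith)
      have h4 := mul_pos h3 hbR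
      linarith
  have circ : ∀ Z : Finset (Fin (K + 1)), Z ⊆ fi K → Z.card = d + 1 →
      Circ (rels (v d τ)) ((-(α : ℝ)) • lz τ Z) :=
    fun Z hZ hc => (lz_circ hτ hZ hc).smul (neg_ne_zero.mpr hα0)
  have hlast : ∀ Z : Finset (Fin (K + 1)), Z ⊆ fi K →
      ((-(α : ℝ)) • lz τ Z) (Fin.last K) = 0 := by
    intro Z hZ
    rw [Pi.smul_apply, lz_last hZ, smul_zero]
  constructor
  · by_cases h : ∃ Z : Finset (Fin (K + 1)), Z ⊆ fi K ∧ Z.card = d + 1 ∧ α * nz τ Z + b = 0
    · obtain ⟨Z, hZ, hc, hn⟩ := h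
      obtain ⟨d0, d1, ds, same0, same1, ha⟩ := data Z hZ hc hn
      have hcirc := circ Z hZ hc
      by_cases hC : Cond (v d τ) ((-(α : ℝ)) • lz τ Z) (hh d τ (HH d τ M) α (b : ℝ))
        (pos ((-(α : ℝ)) • lz τ Z) ∪ neg ((-(α : ℝ)) • lz τ Z))
      · right
        exact wall_step hcirc (two_le_pos hτ hd hcirc.mem (hlast Z hZ) hcirc.ne)
          (by have := two_le_neg hτ hd hcirc.mem (hlast Z hZ) hcirc.ne; omega)
          d0 d1 ds same0 same1 ha hC
      · left
        exact wall_trivial hcirc d0 d1 ds same0 same1 hC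
    · left
      push Not at h
      apply Reg_congr
      intro l hl
      have key : ∀ (W : Finset (Fin (K + 1))), W ⊆ fi K → W.card = d + 1 →
          α * nz τ W + b = 0 → ∀ t : ℝ, l ≠ t • lz τ W :=
        fun W h1 h2 h3 => absurd h3 (h W h1 h2)
      rw [same_sign hτ hα hα2' hM1 hM0 hl key, same_sign hτ hα hα2 hM2 hM0 hl key]
  · intro Z hZ hc hn hG
    obtain ⟨d0, d1, ds, same0, same1, ha⟩ := data Z hZ hc hn
    have hcirc := circ Z hZ hc
    apply step_ne (v := v d τ) (a := aa d τ) (Reg_isFan _ _)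
    exact wall_step hcirc (two_le_pos hτ hd hcirc.mem (hlast Z hZ) hcirc.ne)
      (by have := two_le_neg hτ hd hcirc.mem (hlast Z hZ) hcirc.ne; omega)
      d0 d1 ds same0 same1 ha
      (cond_gale hτ hd hα (neg_ne_zero.mpr hα0) hZ hc hn hG hM0)

end Nod

end ToricMMP
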