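import Pool.Agent.Lib_helper18.ToricReg

/-!
# Projective fans, completeness of generic regular fans (helper18)
-/

set_option autoImplicit false
set_option linter.unusedSectionVars false

open Finset

namespace ToricMMP

variable {ι E : Type*} [Fintype ι] [DecidableEq ι] [AddCommGroup E] [Module ℝ E]

/-- The toric variety of the simplicial fan `T` is complete and projective: the cones of `T` cover
the space, and for some values `h i` the function that is linear on every cone of `T` and takes the
value `h i` at the generator `v i` is strictly convex, that is, for every cone `F` of `T` the linear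
combination which expresses the generator `v j` of another ray of `T` by the `v i`, `i ∈ F`,
takes on the `h i` a value smaller than `h j`. -/
def IsProjective (v : ι → E) (T : Set (Finset ι)) : Prop :=
  (∀ x : E, ∃ F ∈ T, x ∈ cone v F) ∧
    ∃ h : ι → ℝ, ∀ F ∈ T, ∀ j, {j} ∈ T → j ∉ F → ∀ c : ι → ℝ,
      ∑ i ∈ F, c i • v i = v j → ∑ i ∈ F, c i * h i < h j

lemma Reg_convex {v : ι → E} (h : ι → ℝ) {F : Finset ι} (hF : F ∈ Reg v h) {j : ι}
    (hj : j ∉ F) {c : ι → ℝ} (hc : ∑ i ∈ F, c i • v i = v j) :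
    ∑ i ∈ F, c i * h i < h j := by
  set l : ι → ℝ := fun i => (if i = j then 1 else 0) - (if i ∈ F then c i else 0) with hl
  have h1 : l ∈ rels v := by
    rw [mem_rels, hl]
    simp only [sub_smul, ite_smul, one_smul, zero_smul, Finset.sum_sub_distrib,
      Finset.sum_ite_eq', Finset.mem_univ, if_true]
    rw [← Finset.sum_filter, Finset.filter_mem_eq_inter, Finset.univ_inter, hc, sub_self]
  have h2 : l j = 1 := by
    rw [hl]
    simp [hj]
  have h3 : l ≠ 0 := by
    intro h4
    rw [h4, Pi.zero_apply] at h2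
    exact zero_ne_one h2
  have h4 := hF l h1 h3 (by
    intro i hi
    rw [hl]
    simp only [hi, if_false, sub_zero]
    split_ifs <;> norm_num)
  have h5 : dot h l = h j - ∑ i ∈ F, c i * h i := by
    unfold dot
    rw [hl]
    simp only [mul_sub, mul_ite, mul_one, mul_zero, Finset.sum_sub_distrib, Finset.sum_ite_eq',
      Finset.mem_univ, if_true]
    congr 1
    rw [← Finset.sum_filter, Finset.filter_mem_eq_inter, Finset.univ_inter]
    apply Finset.sum_congr rfl
    intro i _
    ring
  rw [h5] at h4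
  linarith

lemma exists_small {c l : ι → ℝ} (hc : ∀ i, 0 ≤ c i) (hl : ∀ i, i ∉ su c → 0 ≤ l i) :
    ∃ e : ℝ, 0 < e ∧ ∀ i, 0 ≤ c i + e * l i := by
  have h1 : ∃ m : ℝ, 0 < m ∧ ∀ i ∈ su c, m ≤ c i := by
    by_cases hne : (su c).Nonempty
    · obtain ⟨j, hj, hmin⟩ := Finset.exists_min_image (su c) c hne
      exact ⟨c j, lt_of_le_of_ne (hc j) (Ne.symm ((mem_su c j).mp hj)), hmin⟩
    · refine ⟨1, one_pos, ?_⟩
      intro i hi
      exact absurd ⟨i, hi⟩ hne
  obtain ⟨m, hm, hm'⟩ := h1
  set M := ∑ i, |l i| with hM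
  have hM0 : 0 ≤ M := Finset.sum_nonneg (fun i _ => abs_nonneg _)
  refine ⟨m / (M + 1), div_pos hm (by linarith), ?_⟩
  intro i
  by_cases hi : i ∈ su c
  · have h2 := hm' i hi
    have h3 : |l i| ≤ M := Finset.single_le_sum (f := fun i => |l i|)
      (fun i _ => abs_nonneg _) (Finset.mem_univ i)
    have h4 : m / (M + 1) * |l i| ≤ m := by
      rw [div_mul_eq_mul_div, div_le_iff₀ (by linarith)]
      apply mul_le_mul_of_nonneg_left _ hm.le
      linarith
    have h5 : - |l i| ≤ l i := neg_abs_le (l i)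
    have h6 : m / (M + 1) * (-|l i|) ≤ m / (M + 1) * l i :=
      mul_le_mul_of_nonneg_left h5 (div_nonneg hm.le (by linarith))
    linarith
  · have h2 := hl i hi
    have h3 : 0 ≤ m / (M + 1) * l i := mul_nonneg (div_nonneg hm.le (by linarith)) h2
    linarith [hc i]

lemma continuous_dot (h : ι → ℝ) : Continuous (dot h) := by
  unfold dot
  fun_prop

/-- the cones of a generic regular fan cover everything that the generators cover -/
lemma Reg_covers {v : ι → E} {h g : ι → ℝ} (hg : ∀ i, 0 < g i)
    (hgh : ∀ l ∈ rels v, dot g l = dot h l) (hgen : ∀ l, Circ (rels v) l → dot h l ≠ 0)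
    {c0 : ι → ℝ} (hc0 : ∀ i, 0 ≤ c0 i) :
    ∃ c : ι → ℝ, (∀ i, 0 ≤ c i) ∧ su c ∈ Reg v h ∧ V v c = V v c0 := by
  set S : Set (ι → ℝ) := {c | (∀ i, 0 ≤ c i) ∧ c - c0 ∈ rels v ∧ dot g c ≤ dot g c0} with hS
  have hclosed : IsClosed S := by
    have h1 : IsClosed {c : ι → ℝ | ∀ i, 0 ≤ c i} := by
      simp only [Set.ofPred_forall]
      apply isClosed_iInter
      intro i
      exact isClosed_le continuous_const (continuous_apply i)
    have h2 : IsClosed {c : ι → ℝ | c - c0 ∈ rels v} := by
      have h3 : IsClosed ((rels v : Submodule ℝ (ι → ℝ)) : Set (ι → ℝ)) :=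
        Submodule.closed_of_finiteDimensional _
      exact h3.preimage (continuous_id.sub continuous_const)
    have h3 : IsClosed {c : ι → ℝ | dot g c ≤ dot g c0} :=
      isClosed_le (continuous_dot g) continuous_const
    exact h1.inter (h2.inter h3)
  have hbdd : S ⊆ Set.Icc (0 : ι → ℝ) (fun i => dot g c0 / g i) := by
    intro c hc
    refine ⟨fun i => hc.1 i, fun i => ?_⟩
    rw [le_div_iff₀ (hg i)]
    have h1 : g i * c i ≤ dot g c :=
      Finset.single_le_sum (f := fun i => g i * c i)
        (fun i _ => mul_nonneg (hg i).le (hc.1 i)) (Finset.mem_univ i)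
    have h2 := hc.2.2
    linarith
  have hcomp : IsCompact S := isCompact_Icc.of_isClosed_subset hclosed hbdd
  have hne : S.Nonempty := ⟨c0, hc0, by rw [sub_self]; exact (rels v).zero_mem, le_rfl⟩
  obtain ⟨c, hcS, hmin⟩ := hcomp.exists_isMinOn hne (continuous_dot g).continuousOn
  refine ⟨c, hcS.1, ?_, ?_⟩
  · rw [mem_Reg]
    intro l hl hl1
    obtain ⟨e, he, he'⟩ := exists_small hcS.1 hl1
    rw [← hgh l hl.mem]
    apply lt_of_le_of_ne
    · by_contra h1
      rw [not_le] at h1
      have h2 : dot g (c + e • l) < dot g c := by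
        rw [dot_add, dot_smul]
        have := mul_neg_of_pos_of_neg he h1
        linarith
      have h3 : c + e • l ∈ S := by
        refine ⟨he', ?_, ?_⟩
        · rw [add_sub_right_comm]
          exact (rels v).add_mem hcS.2.1 ((rels v).smul_mem _ hl.mem)
        · exact h2.le.trans hcS.2.2
      have h4 := hmin h3
      exact absurd h4 (not_le.mpr h2)
    · rw [hgh l hl.mem]
      exact Ne.symm (hgen l hl)
  · have h1 := (mem_rels v _).mp hcS.2.1
    have h2 : V v c - V v c0 = 0 := by
      rw [← h1]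
      unfold V
      rw [← Finset.sum_sub_distrib]
      apply Finset.sum_congr rfl
      intro i _
      rw [Pi.sub_apply, sub_smul]
    exact sub_eq_zero.mp h2

lemma Reg_projective {v : ι → E} {h g : ι → ℝ} (hg : ∀ i, 0 < g i)
    (hgh : ∀ l ∈ rels v, dot g l = dot h l) (hgen : ∀ l, Circ (rels v) l → dot h l ≠ 0)
    (hspan : ∀ x : E, ∃ c : ι → ℝ, (∀ i, 0 ≤ c i) ∧ V v c = x) :
    IsProjective v (Reg v h) := by
  constructor
  · intro x
    obtain ⟨c0, hc0, hx⟩ := hspan x
    obtain ⟨c, hc, hF, hV⟩ := Reg_covers hg hgh hgen hc0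
    exact ⟨su c, hF, c, hc, by rw [V_su, hV, hx]⟩
  · exact ⟨h, fun F hF j _ hj c hc => Reg_convex h hF hj hc⟩

end ToricMMP
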