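import Pool.Agent.Lib_helper18.ToricCircuit

/-!
# Regular fans and wall crossing (helper18)
-/

set_option autoImplicit false
set_option linter.unusedSectionVars false

open Finset

namespace ToricMMP

variable {ι E : Type*} [Fintype ι] [DecidableEq ι] [AddCommGroup E] [Module ℝ E]

/-- a family with unique coordinates is a fan -/
lemma isFan_of_unique {v : ι → E} {T : Set (Finset ι)}
    (down : ∀ F ∈ T, ∀ G : Finset ι, G ⊆ F → G ∈ T)
    (uniq : ∀ c c' : ι → ℝ, (∀ i, 0 ≤ c i) → (∀ i, 0 ≤ c' i) → su c ∈ T → su c' ∈ T →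
      V v c = V v c' → c = c') : IsFan v T := by
  refine ⟨down, ?_, ?_⟩
  · intro F hF
    rw [linearIndepOn_finset_iff]
    intro g hg i hi
    set c : ι → ℝ := fun j => if j ∈ F then max (g j) 0 else 0 with hc
    set c' : ι → ℝ := fun j => if j ∈ F then max (-g j) 0 else 0 with hc'
    have h1 : su c ∈ T := by
      apply down F hF
      intro j hj
      rw [mem_su] at hj
      by_contra h
      apply hj
      rw [hc]
      simp only [h, if_false]
    have h2 : su c' ∈ T := by
      apply down F hF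
      intro j hj
      rw [mem_su] at hj
      by_contra h
      apply hj
      rw [hc']
      simp only [h, if_false]
    have h3 : V v c = V v c' := by
      rw [← sub_eq_zero]
      unfold V
      rw [← Finset.sum_sub_distrib, ← hg]
      rw [← Finset.sum_subset (Finset.subset_univ F)]
      · apply Finset.sum_congr rfl
        intro j hj
        rw [← sub_smul]
        congr 1
        rw [hc, hc']
        simp only [hj, if_true]
        rcases le_total (g j) 0 with h | h
        · rw [max_eq_right h, max_eq_left (by linarith)]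
          ring
        · rw [max_eq_left h, max_eq_right (by linarith)]
          ring
      · intro j _ hj
        rw [← sub_smul, hc, hc']
        simp only [hj, if_false, sub_self, zero_smul]
    have h4 := uniq c c' (fun j => by
        rw [hc]; dsimp only; split_ifs
        · exact le_max_right _ _
        · exact le_refl _) (fun j => by
        rw [hc']; dsimp only; split_ifs
        · exact le_max_right _ _
        · exact le_refl _) h1 h2 h3
    have h5 := congrFun h4 i
    rw [hc, hc'] at h5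
    simp only [hi, if_true] at h5
    rcases le_total (g i) 0 with h | h
    · rw [max_eq_right h, max_eq_left (by linarith)] at h5
      linarith
    · rw [max_eq_left h, max_eq_right (by linarith)] at h5
      linarith
  · intro F hF G hG
    have ext : ∀ (H : Finset ι) (c : ι → ℝ), V v (fun i => if i ∈ H then c i else 0) =
        ∑ i ∈ H, c i • v i := by
      intro H c
      unfold V
      rw [← Finset.sum_subset (Finset.subset_univ H)]
      · apply Finset.sum_congr rfl
        intro i hi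
        simp only [hi, if_true]
      · intro i _ hi
        simp only [hi, if_false, zero_smul]
    have hsu : ∀ (H : Finset ι) (c : ι → ℝ), su (fun i => if i ∈ H then c i else 0) ⊆ H := by
      intro H c i hi
      rw [mem_su] at hi
      by_contra h
      apply hi
      simp only [h, if_false]
    have hnn : ∀ (H : Finset ι) (c : ι → ℝ), (∀ i, 0 ≤ c i) → ∀ i,
        0 ≤ (fun i => if i ∈ H then c i else 0) i := by
      intro H c hc i
      dsimp only
      split_ifs
      · exact hc i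
      · exact le_refl _
    apply Set.Subset.antisymm
    · rintro x ⟨⟨c, hc, hx⟩, ⟨c', hc', hx'⟩⟩
      have h1 := uniq _ _ (hnn F c hc) (hnn G c' hc') (down F hF _ (hsu F c))
        (down G hG _ (hsu G c')) (by rw [ext, ext, hx, hx'])
      refine ⟨c, hc, ?_⟩
      rw [← hx, ← ext F c, ← ext (F ∩ G) c]
      congr 1
      funext i
      by_cases hF' : i ∈ F
      · by_cases hG' : i ∈ G
        · simp [hF', hG']
        · have h2 := congrFun h1 i
          simp only [hF', hG', if_true, if_false] at h2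
          simp [hF', hG', h2]
      · simp [hF']
    · rintro x ⟨c, hc, hx⟩
      have h1 : ∀ H : Finset ι, F ∩ G ⊆ H → x ∈ cone v H := by
        intro H hH
        refine ⟨fun i => if i ∈ F ∩ G then c i else 0, hnn _ c hc, ?_⟩
        rw [← hx, ← Finset.sum_subset hH]
        · apply Finset.sum_congr rfl
          intro i hi
          simp only [hi, if_true]
        · intro i _ hi
          simp only [hi, if_false, zero_smul]
      exact ⟨h1 F Finset.inter_subset_left, h1 G Finset.inter_subset_right⟩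

/-- the fan of a height function -/
def Reg (v : ι → E) (h : ι → ℝ) : Set (Finset ι) :=
  {F | ∀ l ∈ rels v, l ≠ 0 → (∀ i, i ∉ F → 0 ≤ l i) → 0 < dot h l}

lemma mem_Reg {v : ι → E} {h : ι → ℝ} {F : Finset ι} : F ∈ Reg v h ↔
    ∀ l, Circ (rels v) l → (∀ i, i ∉ F → 0 ≤ l i) → 0 < dot h l := by
  constructor
  · intro hF l hl h1
    exact hF l hl.mem hl.ne h1
  · intro hF l hl hl0 h1
    apply dot_pos_of_circ (rels v) h l hl hl0
    intro u hu huc
    apply hF u hu
    intro i hi
    by_contra h2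
    rw [not_le] at h2
    exact absurd (h1 i hi) (not_le.mpr ((huc i).2 h2))

lemma V_sub_mem {v : ι → E} {c c' : ι → ℝ} (h : V v c = V v c') : c' - c ∈ rels v := by
  rw [mem_rels]
  have h1 : ∑ i, (c' - c) i • v i = V v c' - V v c := by
    unfold V
    rw [← Finset.sum_sub_distrib]
    apply Finset.sum_congr rfl
    intro i _
    rw [Pi.sub_apply, sub_smul]
  rw [h1, h, sub_self]

lemma Reg_strict {v : ι → E} {h : ι → ℝ} {F : Finset ι} (hF : F ∈ Reg v h) {c c' : ι → ℝ}
    (hc' : ∀ i, 0 ≤ c' i) (hcF : ∀ i, i ∉ F → c i = 0) (hV : V v c = V v c') (hne : c ≠ c') :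
    dot h c < dot h c' := by
  have h1 := hF (c' - c) (V_sub_mem hV) (sub_ne_zero.mpr (Ne.symm hne)) (by
    intro i hi
    rw [Pi.sub_apply, hcF i hi, sub_zero]
    exact hc' i)
  have h2 : dot h (c' - c) = dot h c' - dot h c := by
    rw [sub_eq_add_neg, dot_add, dot_neg, sub_eq_add_neg]
  rw [h2] at h1
  linarith

lemma Reg_isFan (v : ι → E) (h : ι → ℝ) : IsFan v (Reg v h) := by
  apply isFan_of_unique
  · intro F hF G hG l hl hl0 h1
    exact hF l hl hl0 (fun i hi => h1 i (fun hi' => hi (hG hi')))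
  · intro c c' hc hc' hF hF' hV
    by_contra hne
    have h1 := Reg_strict hF hc' (fun i hi => by rwa [mem_su, not_not] at hi) hV hne
    have h2 := Reg_strict hF' hc (fun i hi => by rwa [mem_su, not_not] at hi) hV.symm
      (Ne.symm hne)
    linarith

/-- the condition on circuits other than the multiples of `l0` -/
def Cond (v : ι → E) (l0 h : ι → ℝ) (F : Finset ι) : Prop :=
  ∀ l, Circ (rels v) l → (∀ t : ℝ, l ≠ t • l0) → (∀ i, i ∉ F → 0 ≤ l i) → 0 < dot h l

lemma Circ.smul {K : Submodule ℝ (ι → ℝ)} {l : ι → ℝ} (h : Circ K l) {t : ℝ} (ht : t ≠ 0) :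
    Circ K (t • l) := by
  refine ⟨K.smul_mem _ h.mem, smul_ne_zero ht h.ne, ?_⟩
  intro u hu hsu
  obtain ⟨r, hr⟩ := h.prop u hu (by
    intro i hi
    have := hsu hi
    rw [mem_su, Pi.smul_apply, smul_eq_mul] at this
    rw [mem_su]
    exact right_ne_zero_of_mul this)
  refine ⟨r * t⁻¹, ?_⟩
  rw [hr, smul_smul, mul_assoc, inv_mul_cancel₀ ht, mul_one]

/-- enlarging by the circuit -/
lemma Cond_union {v : ι → E} {l0 h : ι → ℝ} (hl0 : l0 ∈ rels v) (hd : dot h l0 = 0)
    {F : Finset ι} (hF : neg l0 ⊆ F) (hC : Cond v l0 h F) :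
    Cond v l0 h (F ∪ (pos l0 ∪ neg l0)) := by
  intro l hl hlt h1
  -- add a large multiple of l0
  obtain ⟨M, hM⟩ : ∃ M : ℝ, ∀ i ∈ pos l0, 0 ≤ l i + M * l0 i := by
    refine ⟨∑ j ∈ pos l0, |l j| / l0 j, ?_⟩
    intro i hi
    have h2 : 0 < l0 i := (mem_pos _ _).mp hi
    have h3 : |l i| / l0 i ≤ ∑ j ∈ pos l0, |l j| / l0 j :=
      Finset.single_le_sum (f := fun j => |l j| / l0 j)
        (fun j hj => div_nonneg (abs_nonneg _) ((mem_pos _ _).mp hj).le) hi
    have h4 : |l i| ≤ (∑ j ∈ pos l0, |l j| / l0 j) * l0 i := by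
      rw [div_le_iff₀ h2] at h3
      exact h3
    have h5 := neg_abs_le (l i)
    linarith
  have hmem : l + M • l0 ∈ rels v := (rels v).add_mem hl.mem ((rels v).smul_mem _ hl0)
  have hne : l + M • l0 ≠ 0 := by
    intro h2
    apply hlt (-M)
    rw [neg_smul]
    exact eq_neg_of_add_eq_zero_left h2
  have hnn : ∀ i, i ∉ F → 0 ≤ (l + M • l0) i := by
    intro i hi
    rw [Pi.add_apply, Pi.smul_apply, smul_eq_mul]
    by_cases hp : i ∈ pos l0
    · exact hM i hp
    · have hn : i ∉ neg l0 := fun h2 => hi (hF h2)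
      have h2 : l0 i = 0 := by
        rw [mem_pos, not_lt] at hp
        rw [mem_neg, not_lt] at hn
        exact le_antisymm hp hn
      rw [h2, mul_zero, add_zero]
      apply h1
      rw [Finset.mem_union, Finset.mem_union]
      tauto
  have h6 : dot h l = dot h (l + M • l0) := by
    rw [dot_add, dot_smul, hd, mul_zero, add_zero]
  have key : (∃ t : ℝ, l + M • l0 = t • l0) ∨ 0 < dot h (l + M • l0) := by
    apply conf_induction (rels v) (fun x => (∃ t : ℝ, x = t • l0) ∨ 0 < dot h x) ?_ ?_ _ _ hmem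
      hne le_rfl
    · intro u hu huc
      by_cases hut : ∃ t : ℝ, u = t • l0
      · exact Or.inl hut
      · push Not at hut
        right
        apply hC u hu hut
        intro i hi
        by_contra h2
        rw [not_le] at h2
        exact absurd (hnn i hi) (not_le.mpr ((huc i).2 h2))
    · rintro x y (⟨t, ht⟩ | hx) (⟨r, hr⟩ | hy)
      · left
        exact ⟨t + r, by rw [ht, hr, add_smul]⟩
      · right
        rw [dot_add, ht, dot_smul, hd, mul_zero, zero_add]
        exact hy
      · right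
        rw [dot_add, hr, dot_smul, hd, mul_zero, add_zero]
        exact hx
      · right
        rw [dot_add]
        exact add_pos hx hy
    · rintro t x ht (⟨r, hr⟩ | hx)
      · left
        exact ⟨t * r, by rw [hr, smul_smul]⟩
      · right
        rw [dot_smul]
        exact mul_pos ht hx
  rcases key with ⟨t, ht⟩ | h7
  · exfalso
    apply hlt (t - M)
    rw [sub_smul, ← ht, add_sub_cancel_right]
  · rw [h6]
    exact h7

lemma Cond_mono {v : ι → E} {l0 h : ι → ℝ} {F G : Finset ι} (hFG : F ⊆ G)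
    (hC : Cond v l0 h G) : Cond v l0 h F :=
  fun l hl hlt h1 => hC l hl hlt (fun i hi => h1 i (fun hi' => hi (hFG hi')))

lemma Cond_neg {v : ι → E} {l0 h : ι → ℝ} {F : Finset ι} (hC : Cond v l0 h F) :
    Cond v (-l0) h F := by
  intro l hl hlt h1
  apply hC l hl _ h1
  intro t ht
  apply hlt (-t)
  rw [ht, smul_neg, neg_smul, neg_neg]

lemma pos_neg' (l : ι → ℝ) : pos (-l) = neg l := by
  ext i
  rw [mem_pos, mem_neg, Pi.neg_apply, neg_pos]

lemma neg_neg' (l : ι → ℝ) : neg (-l) = pos l := by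
  ext i
  rw [mem_pos, mem_neg, Pi.neg_apply, neg_lt_zero]

lemma Cond_union' {v : ι → E} {l0 h : ι → ℝ} (hl0 : l0 ∈ rels v) (hd : dot h l0 = 0)
    {F : Finset ι} (hF : pos l0 ⊆ F) (hC : Cond v l0 h F) :
    Cond v l0 h (F ∪ (pos l0 ∪ neg l0)) := by
  have h1 := Cond_union (v := v) (l0 := -l0) (h := h) ((rels v).neg_mem hl0)
    (by rw [dot_neg, hd, neg_zero]) (by rw [neg_neg']; exact hF) (Cond_neg hC)
  have h2 := Cond_neg h1
  rw [neg_neg, pos_neg', neg_neg', Finset.union_comm (neg l0)] at h2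
  exact h2

section Wall

variable {v : ι → E} {l0 h0 h1 hs : ι → ℝ}

lemma mem_Reg_wall0 (hc : Circ (rels v) l0) (d0 : 0 < dot h0 l0)
    (same : ∀ l, Circ (rels v) l → (∀ t : ℝ, l ≠ t • l0) → (0 < dot h0 l ↔ 0 < dot hs l))
    (F : Finset ι) : F ∈ Reg v h0 ↔ Cond v l0 hs F ∧ ¬ pos l0 ⊆ F := by
  rw [mem_Reg]
  constructor
  · intro hF
    refine ⟨fun l hl hlt h2 => (same l hl hlt).mp (hF l hl h2), fun hsub => ?_⟩
    have h3 : Circ (rels v) (-l0) := by
      have := hc.smul (t := -1) (by norm_num)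
      rwa [neg_one_smul] at this
    have h4 := hF (-l0) h3 (by
      intro i hi
      have h5 : i ∉ pos l0 := fun h6 => hi (hsub h6)
      rw [mem_pos, not_lt] at h5
      rw [Pi.neg_apply]
      linarith)
    rw [dot_neg] at h4
    linarith
  · rintro ⟨hC, hsub⟩ l hl h2
    by_cases hlt : ∃ t : ℝ, l = t • l0
    · obtain ⟨t, ht⟩ := hlt
      have ht0 : t ≠ 0 := by
        intro h3
        apply hl.ne
        rw [ht, h3, zero_smul]
      rcases lt_or_gt_of_ne ht0 with h3 | h3
      · exfalso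
        apply hsub
        intro i hi
        by_contra h4
        have h5 := h2 i h4
        rw [ht, Pi.smul_apply, smul_eq_mul] at h5
        have h6 := mul_neg_of_neg_of_pos h3 ((mem_pos _ _).mp hi)
        linarith
      · rw [ht, dot_smul]
        exact mul_pos h3 d0
    · push Not at hlt
      exact (same l hl hlt).mpr (hC l hl hlt h2)

lemma mem_Reg_wall1 (hc : Circ (rels v) l0) (d1 : dot h1 l0 < 0)
    (same : ∀ l, Circ (rels v) l → (∀ t : ℝ, l ≠ t • l0) → (0 < dot h1 l ↔ 0 < dot hs l))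
    (F : Finset ι) : F ∈ Reg v h1 ↔ Cond v l0 hs F ∧ ¬ neg l0 ⊆ F := by
  have hc' : Circ (rels v) (-l0) := by
    have := hc.smul (t := -1) (by norm_num)
    rwa [neg_one_smul] at this
  have h2 := mem_Reg_wall0 (v := v) (l0 := -l0) (h0 := h1) (hs := hs) hc'
    (by rw [dot_neg]; linarith) (by
      intro l hl hlt
      apply same l hl
      intro t ht
      apply hlt (-t)
      rw [ht, smul_neg, neg_smul, neg_neg]) F
  rw [h2, pos_neg']
  constructor
  · rintro ⟨h3, h4⟩
    have h5 := Cond_neg h3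
    rw [neg_neg] at h5
    exact ⟨h5, h4⟩
  · rintro ⟨h3, h4⟩
    exact ⟨Cond_neg h3, h4⟩

/-- wall crossing: the step -/
lemma wall_step (hc : Circ (rels v) l0) (hp : 2 ≤ (pos l0).card) (hn : 1 ≤ (neg l0).card)
    (d0 : 0 < dot h0 l0) (d1 : dot h1 l0 < 0) (ds : dot hs l0 = 0)
    (same0 : ∀ l, Circ (rels v) l → (∀ t : ℝ, l ≠ t • l0) → (0 < dot h0 l ↔ 0 < dot hs l))
    (same1 : ∀ l, Circ (rels v) l → (∀ t : ℝ, l ≠ t • l0) → (0 < dot h1 l ↔ 0 < dot hs l))
    {a : ι → ℝ} (ha : dot a l0 < 0) (hC : Cond v l0 hs (pos l0 ∪ neg l0)) :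
    IsStep v a (Reg v h0) (Reg v h1) := by
  have hsd : ∀ F : Finset ι, F \ (pos l0 ∪ neg l0) ∪ (pos l0 ∪ neg l0) =
      F ∪ (pos l0 ∪ neg l0) := fun F => Finset.sdiff_union_self_eq_union
  refine ⟨l0, {G | Cond v l0 hs (G ∪ (pos l0 ∪ neg l0))}, (mem_rels v l0).mp hc.mem, ha, hp, hn,
    ?_, ?_, ?_, ?_⟩
  · show Cond v l0 hs (∅ ∪ (pos l0 ∪ neg l0))
    rw [Finset.empty_union]
    exact hC
  · intro F hF
    rw [mem_Reg_wall0 hc d0 same0, mem_Reg_wall1 hc d1 same1]
    refine ⟨?_, fun h => h.2 hF⟩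
    show _ ↔ _ ∧ Cond v l0 hs (F \ (pos l0 ∪ neg l0) ∪ (pos l0 ∪ neg l0))
    rw [hsd]
    constructor
    · rintro ⟨h2, h3⟩
      exact ⟨h3, Cond_union hc.mem ds hF h2⟩
    · rintro ⟨h3, h2⟩
      exact ⟨Cond_mono Finset.subset_union_left h2, h3⟩
  · intro F hF hF'
    rw [mem_Reg_wall0 hc d0 same0, mem_Reg_wall1 hc d1 same1]
    refine ⟨fun h => h.2 hF, ?_⟩
    show _ ↔ Cond v l0 hs (F \ (pos l0 ∪ neg l0) ∪ (pos l0 ∪ neg l0))
    rw [hsd]
    constructor
    · rintro ⟨h2, -⟩
      exact Cond_union' hc.mem ds hF h2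
    · intro h2
      exact ⟨Cond_mono Finset.subset_union_left h2, hF'⟩
  · intro F hF hF'
    rw [mem_Reg_wall0 hc d0 same0, mem_Reg_wall1 hc d1 same1]
    exact ⟨fun h => ⟨h.1, hF'⟩, fun h => ⟨h.1, hF⟩⟩

/-- wall crossing: nothing happens -/
lemma wall_trivial (hc : Circ (rels v) l0)
    (d0 : 0 < dot h0 l0) (d1 : dot h1 l0 < 0) (ds : dot hs l0 = 0)
    (same0 : ∀ l, Circ (rels v) l → (∀ t : ℝ, l ≠ t • l0) → (0 < dot h0 l ↔ 0 < dot hs l))
    (same1 : ∀ l, Circ (rels v) l → (∀ t : ℝ, l ≠ t • l0) → (0 < dot h1 l ↔ 0 < dot hs l))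
    (hC : ¬ Cond v l0 hs (pos l0 ∪ neg l0)) : Reg v h0 = Reg v h1 := by
  ext F
  rw [mem_Reg_wall0 hc d0 same0, mem_Reg_wall1 hc d1 same1]
  constructor
  · rintro ⟨h2, h3⟩
    refine ⟨h2, fun h4 => hC ?_⟩
    exact Cond_mono Finset.subset_union_right (Cond_union hc.mem ds h4 h2)
  · rintro ⟨h2, h3⟩
    refine ⟨h2, fun h4 => hC ?_⟩
    exact Cond_mono Finset.subset_union_right (Cond_union' hc.mem ds h4 h2)

lemma Reg_congr (same : ∀ l, Circ (rels v) l → (0 < dot h0 l ↔ 0 < dot h1 l)) :
    Reg v h0 = Reg v h1 := by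
  ext F
  rw [mem_Reg, mem_Reg]
  exact ⟨fun h l hl h2 => (same l hl).mp (h l hl h2), fun h l hl h2 => (same l hl).mpr (h l hl h2)⟩

end Wall

end ToricMMP
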