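import Pool.Agent.Lib_helper18.ToricMMP

/-!
# Toric minimal model program: transport of coordinates (helper18)
-/

set_option autoImplicit false
set_option linter.unusedSectionVars false

open Finset

namespace ToricMMP

variable {ι E : Type*} [Fintype ι] [DecidableEq ι] [AddCommGroup E] [Module ℝ E]

/-- support of a function -/
noncomputable def su (c : ι → ℝ) : Finset ι := univ.filter (fun i => c i ≠ 0)

lemma mem_su (c : ι → ℝ) (i : ι) : i ∈ su c ↔ c i ≠ 0 := by simp [su]

lemma mem_pos (l : ι → ℝ) (i : ι) : i ∈ pos l ↔ 0 < l i := by simp [pos]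

lemma mem_neg (l : ι → ℝ) (i : ι) : i ∈ neg l ↔ l i < 0 := by simp [neg]

/-- the indicator of a set -/
noncomputable def one (F : Finset ι) : ι → ℝ := fun i => if i ∈ F then 1 else 0

lemma one_nonneg (F : Finset ι) (i : ι) : 0 ≤ one F i := by
  unfold one
  split_ifs <;> norm_num

lemma su_one (F : Finset ι) : su (one F) = F := by
  ext i
  rw [mem_su]
  unfold one
  split_ifs with h <;> simp [h]

/-- the value of a function on a linear combination -/
def V (v : ι → E) (c : ι → ℝ) : E := ∑ i, c i • v i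

lemma V_su (v : ι → E) (c : ι → ℝ) : ∑ i ∈ su c, c i • v i = V v c := by
  unfold V su
  rw [Finset.sum_filter]
  apply Finset.sum_congr rfl
  intro i _
  by_cases h : c i = 0
  · simp [h]
  · rw [if_pos h]

lemma IsFan.eq_aux {v : ι → E} {T : Set (Finset ι)} (hT : IsFan v T) {c c' : ι → ℝ}
    (hc : ∀ i, 0 ≤ c i) (hc' : ∀ i, 0 ≤ c' i) (hF : su c ∈ T) (hG : su c' ∈ T)
    (h : V v c = V v c') : ∃ e : ι → ℝ, (∀ i, i ∉ su c ∩ su c' → e i = 0) ∧
      ∑ i, e i • v i = V v c := by
  have h1 : V v c ∈ cone v (su c) ∩ cone v (su c') :=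
    ⟨⟨c, hc, V_su v c⟩, ⟨c', hc', by rw [V_su, h]⟩⟩
  rw [hT.inter _ hF _ hG] at h1
  obtain ⟨e, -, he⟩ := h1
  refine ⟨fun i => if i ∈ su c ∩ su c' then e i else 0, ?_, ?_⟩
  · intro i hi
    simp only [hi, if_false]
  · rw [← he]
    symm
    have h3 : ∀ i, (fun i => if i ∈ su c ∩ su c' then e i else 0) i • v i =
        if i ∈ su c ∩ su c' then e i • v i else 0 := by
      intro i
      by_cases hi : i ∈ su c ∩ su c'
      · simp only [hi, if_true]
      · simp only [hi, if_false, zero_smul]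
    simp only [h3]
    rw [← Finset.sum_filter]
    congr 1
    ext i
    simp

lemma IsFan.eq_aux2 {v : ι → E} {T : Set (Finset ι)} (hT : IsFan v T) {c e : ι → ℝ}
    (hF : su c ∈ T) (he : ∀ i, i ∉ su c → e i = 0) (h : ∑ i, e i • v i = V v c) : c = e := by
  have h1 := hT.indep _ hF
  rw [linearIndepOn_finset_iff] at h1
  have h2 : ∑ i ∈ su c, (c i - e i) • v i = 0 := by
    have h3 : ∑ i ∈ su c, (c i - e i) • v i = ∑ i, (c i - e i) • v i := by
      apply Finset.sum_subset (Finset.subset_univ _)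
      intro i _ hi
      rw [he i hi]
      rw [mem_su, not_not] at hi
      rw [hi, sub_zero, zero_smul]
    rw [h3]
    simp only [sub_smul]
    rw [Finset.sum_sub_distrib, h]
    exact sub_self _
  have h4 := h1 _ h2
  funext i
  by_cases hi : i ∈ su c
  · have := h4 i hi
    linarith
  · rw [he i hi]
    rw [mem_su, not_not] at hi
    exact hi

lemma IsFan.eq {v : ι → E} {T : Set (Finset ι)} (hT : IsFan v T) {c c' : ι → ℝ}
    (hc : ∀ i, 0 ≤ c i) (hc' : ∀ i, 0 ≤ c' i) (hF : su c ∈ T) (hG : su c' ∈ T)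
    (h : V v c = V v c') : c = c' := by
  obtain ⟨e, he, he'⟩ := hT.eq_aux hc hc' hF hG h
  have h1 : c = e := hT.eq_aux2 hF (fun i hi => he i (by
    intro h; exact hi (Finset.mem_inter.mp h).1)) he'
  have h2 : c' = e := hT.eq_aux2 hG (fun i hi => he i (by
    intro h; exact hi (Finset.mem_inter.mp h).2)) (by rw [he', h])
  rw [h1, h2]

/-- transport of coordinates in one step -/
lemma step_transport {v : ι → E} {a : ι → ℝ} {T T' : Set (Finset ι)} {l : ι → ℝ}
    {L : Set (Finset ι)} (h0 : ∑ i, l i • v i = 0) (ha : ∑ i, a i * l i < 0)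
    (hn : 1 ≤ (neg l).card)
    (h1 : ∀ F, neg l ⊆ F → (F ∈ T ↔ ¬ pos l ⊆ F ∧ F \ (pos l ∪ neg l) ∈ L) ∧ F ∉ T')
    (h2 : ∀ F, pos l ⊆ F → ¬ neg l ⊆ F → F ∉ T ∧ (F ∈ T' ↔ F \ (pos l ∪ neg l) ∈ L))
    (h3 : ∀ F, ¬ pos l ⊆ F → ¬ neg l ⊆ F → (F ∈ T ↔ F ∈ T'))
    {c : ι → ℝ} (hc : ∀ i, 0 ≤ c i) (hF : su c ∈ T) :
    ∃ c' : ι → ℝ, (∀ i, 0 ≤ c' i) ∧ su c' ∈ T' ∧ V v c' = V v c ∧
      ((neg l ⊆ su c ∧ ∑ i, a i * c' i < ∑ i, a i * c i) ∨ (¬ neg l ⊆ su c ∧ c' = c)) := by
  by_cases hsub : neg l ⊆ su c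
  · obtain ⟨hp, hL⟩ := (h1 _ hsub).1.mp hF
    obtain ⟨j0, hj0, hmin⟩ := Finset.exists_min_image (neg l) (fun j => c j / (- l j))
      (Finset.card_pos.mp hn)
    set t := c j0 / (- l j0) with ht
    have hl0 : l j0 < 0 := (mem_neg l j0).mp hj0
    have hc0 : 0 < c j0 := lt_of_le_of_ne (hc j0) (Ne.symm ((mem_su c j0).mp (hsub hj0)))
    have htpos : 0 < t := div_pos hc0 (neg_pos.mpr hl0)
    have hneg : ∀ j ∈ neg l, 0 ≤ c j + t * l j := by
      intro j hj
      have h4 := hmin j hj
      have h5 : 0 < - l j := neg_pos.mpr ((mem_neg l j).mp hj)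
      have h6 : t ≤ c j / (- l j) := h4
      rw [le_div_iff₀ h5] at h6
      linarith
    have hj0' : c j0 + t * l j0 = 0 := by
      have h5 : - l j0 ≠ 0 := (neg_pos.mpr hl0).ne'
      have h6 : t * (- l j0) = c j0 := div_mul_cancel₀ _ h5
      linarith
    have hpos : ∀ j ∈ pos l, 0 < c j + t * l j := by
      intro j hj
      have h5 := (mem_pos l j).mp hj
      have h6 := mul_pos htpos h5
      have h7 := hc j
      linarith
    have hzero : ∀ j, j ∉ pos l ∪ neg l → c j + t * l j = c j := by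
      intro j hj
      rw [Finset.mem_union, mem_pos, mem_neg, not_or, not_lt, not_lt] at hj
      have h5 : l j = 0 := le_antisymm hj.1 hj.2
      rw [h5, mul_zero, add_zero]
    refine ⟨fun i => c i + t * l i, ?_, ?_, ?_, Or.inl ⟨hsub, ?_⟩⟩
    · intro i
      by_cases hi : i ∈ neg l
      · exact hneg i hi
      · by_cases hi2 : i ∈ pos l
        · exact (hpos i hi2).le
        · show 0 ≤ c i + t * l i
          rw [hzero i (by rw [Finset.mem_union]; tauto)]
          exact hc i
    · have hP : pos l ⊆ su (fun i => c i + t * l i) := by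
        intro i hi
        rw [mem_su]
        exact (hpos i hi).ne'
      have hN : ¬ neg l ⊆ su (fun i => c i + t * l i) := by
        intro h
        have := h hj0
        rw [mem_su] at this
        exact this hj0'
      rw [(h2 _ hP hN).2]
      have h8 : su (fun i => c i + t * l i) \ (pos l ∪ neg l) = su c \ (pos l ∪ neg l) := by
        ext i
        rw [Finset.mem_sdiff, Finset.mem_sdiff, mem_su, mem_su]
        constructor
        · rintro ⟨h5, h6⟩
          rw [hzero i h6] at h5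
          exact ⟨h5, h6⟩
        · rintro ⟨h5, h6⟩
          refine ⟨?_, h6⟩
          rw [hzero i h6]
          exact h5
      rw [h8]
      exact hL
    · unfold V
      simp only [add_smul, Finset.sum_add_distrib, mul_smul]
      rw [← Finset.smul_sum, h0, smul_zero, add_zero]
    · simp only [mul_add, Finset.sum_add_distrib]
      have h5 : ∑ i, a i * (t * l i) = t * ∑ i, a i * l i := by
        rw [Finset.mul_sum]
        apply Finset.sum_congr rfl
        intro i _
        ring
      rw [h5]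
      have h6 := mul_neg_of_pos_of_neg htpos ha
      linarith
  · refine ⟨c, hc, ?_, rfl, Or.inr ⟨hsub, rfl⟩⟩
    by_cases hp : pos l ⊆ su c
    · exact absurd hF (h2 _ hp hsub).1
    · exact (h3 _ hp hsub).mp hF

end ToricMMP
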