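import Pool.Agent.Lib_helper18.Z9Jac
import Pool.Agent.Lib_helper18.Suppl

/-!
# The auxiliary element `U`
-/

namespace Pool.Agent.Lib_helper18

open Eis Z9

/-- the element `U` -/
def UU (G : Z9) : Eis := G.b ^ 3 - G.c ^ 3 + (w ^ 2 - 1) * (G.a * G.b * G.c)

/-- the element `D` -/
def DD (G : Z9) : Eis := G.b ^ 2 - G.a * G.c

/-- the element `V` -/
def VV (G : Z9) : Eis := G.b ^ 3 - w ^ 2 * G.c ^ 3 + (w - 1) * (G.a * G.b * G.c)

theorem UV_identity (G : Z9) : G.c ^ 3 * N G + DD G ^ 3 = UU G * VV G := by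
  simp only [N_def, DD, UU, VV]
  have h := w_rel
  linear_combination (-G.a ^ 2 * G.b ^ 2 * G.c ^ 2 * w + 2 * G.a ^ 2 * G.b ^ 2 * G.c ^ 2
    - G.a * G.b ^ 4 * G.c + G.a * G.b * G.c ^ 4 * w ^ 2 - G.a * G.b * G.c ^ 4 * w
    - G.a * G.b * G.c ^ 4 + G.b ^ 3 * G.c ^ 3) * h

/-- relations at a root -/
theorem root_relations {R : Type*} [CommRing R] {a b c t W : R} (h0 : a + b * t + c * t ^ 2 = 0)
    (hW : t ^ 3 = W) (hrel : W ^ 2 + W + 1 = 0) :
    a + b * (W * t) + c * (W * t) ^ 2 = (W - 1) * t * (b - W ^ 2 * (c * t)) ∧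
    a + b * (W ^ 2 * t) + c * (W ^ 2 * t) ^ 2 = -(W ^ 2 * (W - 1) * t * (b - W * (c * t))) ∧
    b ^ 2 - a * c = (b - W * (c * t)) * (b - W ^ 2 * (c * t)) ∧
    b ^ 3 - c ^ 3 + (W ^ 2 - 1) * (a * b * c) =
      (b - W * (c * t)) * (b - W ^ 2 * (c * t)) * (b - W ^ 2 * (c * t)) := by
  have ha : a = -(b * t) - c * t ^ 2 := by linear_combination h0
  subst ha
  subst hW
  have hφ : t ^ 6 + t ^ 3 + 1 = 0 := by linear_combination hrel
  refine ⟨?_, ?_, ?_, ?_⟩
  · linear_combination (c * t ^ 5 - c * t ^ 2) * hφ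
  · linear_combination (b * t ^ 4 - b * t + c * t ^ 5 - c * t ^ 2) * hφ
  · linear_combination (b * c * t - c ^ 2 * t ^ 5 + c ^ 2 * t ^ 2) * hφ
  · linear_combination (c ^ 3 * t ^ 3 - c ^ 3) * hφ
      + (b * c * t - c ^ 2 * t ^ 5 + c ^ 2 * t ^ 2) * (b - (t ^ 3) ^ 2 * (c * t)) * hφ

variable {p : ℕ} [hp : Fact p.Prime] {π : Eis}

/-- The symbol of `U` at `conj π` is trivial. -/
theorem sym_UU (hp9 : p % 9 = 1) (hπ : π.norm = p) {M : ℤ} (hM : π.im = 3 * M)
    {G : Z9} {f : ℕ} (hf : f = 1 ∨ f = 2) {S : Eis} (H1 : N G = conj π ^ f * S ^ 3)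
    (H2a : ¬ lam ∣ G.a) {b' c' : Eis} (H2b : G.b = lam * b') (H2c : G.c = lam * c')
    (H2 : lam ∣ b' - c')
    (H3 : ∀ l : Eis, Prime l → ¬ l ∣ 3 → ¬ Associated l (conj π) →
      ¬ (l ∣ G.a ∧ l ∣ G.b ∧ l ∣ G.c))
    (H4 : ∀ l : Eis, Prime l → ¬ l ∣ 3 → ¬ Associated l (conj π) → l ∣ S → ¬ l ∣ G.c →
      l ∣ DD G → l ∣ w ^ 2 * G.b ^ 3 - G.c ^ 3 → False)
    (H5 : lam ∣ b' → sym (conj π) lam = 0) (H6 : ¬ conj π ∣ UU G) :
    sym (conj π) (UU G) = 0 := by
  have hp3 : p % 3 = 1 := by omega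
  have hprim : (3 : ℤ) ∣ π.im := ⟨M, hM⟩
  have hπc := conj_norm hπ
  have hπcpr := prime_of_norm_eq hπc
  have hπc3 := not_dvd_three hπc hp3
  have hcprim := conj_im_dvd hprim
  have hlam : ¬ conj π ∣ lam := fun h => hπc3 (h.trans lam_dvd_three)
  have hff : ∀ x : ZMod 3, (f : ZMod 3) * x = 0 → x = 0 := by
    rcases hf with rfl | rfl
    · intro x; simp
    · intro x; push_cast; revert x; decide
  -- primes dividing U
  have hUprime : ∀ l : Eis, Prime l → ¬ l ∣ 3 → l ∣ UU G → sym l (conj π) = 0 := by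
    intro l hl hl3 hlU
    have hlne : ¬ Associated l (conj π) := fun h => H6 (h.symm.dvd.trans hlU)
    have hlc : ¬ l ∣ conj π := fun h => hlne (hl.associated_of_dvd hπcpr h)
    -- reduce to the norm
    have hred : ¬ l ∣ N G → sym l (N G) = 0 → sym l (conj π) = 0 := by
      intro h1 h2
      have hlS : ¬ l ∣ S := fun h => h1 (by
        rw [H1]; exact Dvd.dvd.mul_left (Dvd.dvd.pow h (by norm_num)) _)
      rw [H1, sym_mul hl hl3 (fun h => hlc (hl.dvd_of_dvd_pow h))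
        (fun h => hlS (hl.dvd_of_dvd_pow h)), sym_cube hl hl3 hlS, sym_pow hl hl3 hlc,
        add_zero] at h2
      exact hff _ h2
    by_cases hlG : l ∣ G.c
    · have hlb : l ∣ G.b := by
        have h1 : G.b ^ 3 = UU G + G.c * (G.c ^ 2 - (w ^ 2 - 1) * (G.a * G.b)) := by
          simp only [UU]; ring
        have h2 : l ∣ G.b ^ 3 := by
          rw [h1]; exact dvd_add hlU (Dvd.dvd.mul_right hlG _)
        exact hl.dvd_of_dvd_pow h2
      have hla : ¬ l ∣ G.a := fun h => H3 l hl hl3 hlne ⟨h, hlb, hlG⟩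
      have h1 : l ∣ N G - G.a ^ 3 := by
        have : N G - G.a ^ 3 = G.b * (w * G.b ^ 2 - 3 * w * (G.a * G.c)) +
            G.c * (w ^ 2 * G.c ^ 2) := by
          rw [N_def]; ring
        rw [this]
        exact dvd_add (Dvd.dvd.mul_right hlb _) (Dvd.dvd.mul_right hlG _)
      apply hred
      · intro h
        have := dvd_sub h h1
        have e : N G - (N G - G.a ^ 3) = G.a ^ 3 := by ring
        rw [e] at this
        exact hla (hl.dvd_of_dvd_pow this)
      · rw [sym_congr h1, sym_cube hl hl3 hla]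
    · by_cases hlN : l ∣ N G
      · exfalso
        have hlS : l ∣ S := by
          rw [H1] at hlN
          rcases hl.dvd_or_dvd hlN with h | h
          · exact absurd (hl.dvd_of_dvd_pow h) hlc
          · exact hl.dvd_of_dvd_pow h
        have h1 : l ∣ DD G ^ 3 := by
          have h2 : DD G ^ 3 = UU G * VV G - G.c ^ 3 * N G := by
            rw [← UV_identity]; ring
          rw [h2]
          exact dvd_sub (Dvd.dvd.mul_right hlU _) (Dvd.dvd.mul_left hlN _)
        have hD := hl.dvd_of_dvd_pow h1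
        apply H4 l hl hl3 hlne hlS hlG hD
        have h3 : w ^ 2 * G.b ^ 3 - G.c ^ 3 = UU G + (w ^ 2 - 1) * G.b * DD G := by
          simp only [UU, DD]; ring
        rw [h3]
        exact dvd_add hlU (Dvd.dvd.mul_left hD _)
      · apply hred hlN
        have h1 : l ∣ G.c ^ 3 * N G - -(DD G ^ 3) := by
          rw [sub_neg_eq_add, UV_identity]
          exact Dvd.dvd.mul_right hlU _
        have hlc3 : ¬ l ∣ G.c ^ 3 := fun h => hlG (hl.dvd_of_dvd_pow h)
        have hlD : ¬ l ∣ DD G := by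
          intro h
          have h2 : l ∣ -(DD G ^ 3) := by
            rw [dvd_neg]; exact Dvd.dvd.pow h (by norm_num)
          have h3 := dvd_add h1 h2
          have e : G.c ^ 3 * N G - -(DD G ^ 3) + -(DD G ^ 3) = G.c ^ 3 * N G := by ring
          rw [e] at h3
          exact (hl.dvd_or_dvd h3).elim hlc3 hlN
        have h2 := sym_congr h1
        rw [sym_mul hl hl3 hlc3 hlN, sym_cube hl hl3 hlG, zero_add,
          sym_neg hl hl3 (fun h => hlD (hl.dvd_of_dvd_pow h)), sym_cube hl hl3 hlD] at h2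
        exact h2
  -- the 3-part
  have hU3 : UU G = lam ^ 3 * (b' ^ 3 - c' ^ 3 + w ^ 2 * (G.a * b' * c')) := by
    simp only [UU, H2b, H2c]
    have e : w ^ 2 - 1 = w ^ 2 * lam := by
      rw [lam_eq]; have := w_cube; linear_combination (1 : Eis) * this
    rw [e]; ring
  have hU0 : UU G ≠ 0 := by
    intro h; apply H6; rw [h]; exact dvd_zero _
  have hfact : ∃ v : ℕ, ∃ U' : Eis, UU G = lam ^ v * U' ∧ ¬ lam ∣ U' ∧
      (v : ZMod 3) * sym (conj π) lam = 0 := by
    by_cases hb : lam ∣ b'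
    · obtain ⟨v, U', h1, h2⟩ := WfDvdMonoid.max_power_factor hU0 prime_lam.irreducible
      exact ⟨v, U', h2, h1, by rw [H5 hb, mul_zero]⟩
    · refine ⟨3, _, hU3, ?_, ?_⟩
      · intro h
        have h1 : lam ∣ b' ^ 3 - c' ^ 3 := H2.trans (sub_dvd_pow_sub_pow _ _ _)
        have h2 := dvd_sub h h1
        have e : b' ^ 3 - c' ^ 3 + w ^ 2 * (G.a * b' * c') - (b' ^ 3 - c' ^ 3) =
          w ^ 2 * (G.a * b' * c') := by ring
        rw [e] at h2
        have hcc : ¬ lam ∣ c' := fun h' => hb (by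
          have := dvd_add H2 h'
          simpa using this)
        rcases prime_lam.dvd_or_dvd h2 with h3 | h3
        · exact not_dvd_of_isUnit prime_lam (isUnit_w.pow 2) h3
        · rcases prime_lam.dvd_or_dvd h3 with h4 | h4
          · rcases prime_lam.dvd_or_dvd h4 with h5 | h5
            · exact H2a h5
            · exact hb h5
          · exact hcc h4
      · have : ((3 : ℕ) : ZMod 3) = 0 := by decide
        rw [this, zero_mul]
  obtain ⟨v, U', hU', hlU', hv⟩ := hfact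
  have hU'0 : U' ≠ 0 := by rintro rfl; exact hlU' (dvd_zero _)
  have hcU' : ¬ conj π ∣ U' := fun h => H6 (by rw [hU']; exact Dvd.dvd.mul_left h _)
  have h1 := lemmaR hp9 hπc hcprim 0 U' hU'0 hlU' hcU' (by
    intro l hl hlU
    rw [zero_mul]
    have hl3 : ¬ l ∣ 3 := fun h => hlU' (((dvd_three_iff hl).mp h).symm.dvd.trans hlU)
    exact hUprime l hl hl3 (by rw [hU']; exact Dvd.dvd.mul_left hlU _))
  rw [hU', sym_mul hπcpr hπc3 (fun h => hlam (hπcpr.dvd_of_dvd_pow h)) hcU',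
    sym_pow hπcpr hπc3 hlam, h1, hv, zero_mul, add_zero]

end Pool.Agent.Lib_helper18
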