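import Pool.Agent.Lib_helper18.GaussG

/-!
# The ring of integers of the ninth cyclotomic field, as a cubic extension of the Eisenstein
integers
-/

namespace Pool.Agent.Lib_helper18

open Eis

/-- `a + b z + c z^2` with `z^3 = w` -/
@[ext] structure Z9 where
  a : Eis
  b : Eis
  c : Eis

namespace Z9

instance : Zero Z9 := ⟨⟨0, 0, 0⟩⟩
instance : One Z9 := ⟨⟨1, 0, 0⟩⟩
instance : Add Z9 := ⟨fun x y => ⟨x.a + y.a, x.b + y.b, x.c + y.c⟩⟩
instance : Neg Z9 := ⟨fun x => ⟨-x.a, -x.b, -x.c⟩⟩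
instance : Sub Z9 := ⟨fun x y => ⟨x.a - y.a, x.b - y.b, x.c - y.c⟩⟩
instance : Mul Z9 := ⟨fun x y => ⟨x.a * y.a + w * (x.b * y.c + x.c * y.b),
  x.a * y.b + x.b * y.a + w * (x.c * y.c), x.a * y.c + x.b * y.b + x.c * y.a⟩⟩
instance : NatCast Z9 := ⟨fun n => ⟨n, 0, 0⟩⟩
instance : IntCast Z9 := ⟨fun n => ⟨n, 0, 0⟩⟩

@[simp] theorem zero_a : (0 : Z9).a = 0 := rfl
@[simp] theorem zero_b : (0 : Z9).b = 0 := rfl
@[simp] theorem zero_c : (0 : Z9).c = 0 := rfl
@[simp] theorem one_a : (1 : Z9).a = 1 := rfl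
@[simp] theorem one_b : (1 : Z9).b = 0 := rfl
@[simp] theorem one_c : (1 : Z9).c = 0 := rfl
@[simp] theorem add_a (x y : Z9) : (x + y).a = x.a + y.a := rfl
@[simp] theorem add_b (x y : Z9) : (x + y).b = x.b + y.b := rfl
@[simp] theorem add_c (x y : Z9) : (x + y).c = x.c + y.c := rfl
@[simp] theorem neg_a (x : Z9) : (-x).a = -x.a := rfl
@[simp] theorem neg_b (x : Z9) : (-x).b = -x.b := rfl
@[simp] theorem neg_c (x : Z9) : (-x).c = -x.c := rfl
@[simp] theorem sub_a (x y : Z9) : (x - y).a = x.a - y.a := rfl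
@[simp] theorem sub_b (x y : Z9) : (x - y).b = x.b - y.b := rfl
@[simp] theorem sub_c (x y : Z9) : (x - y).c = x.c - y.c := rfl
@[simp] theorem mul_a (x y : Z9) :
    (x * y).a = x.a * y.a + w * (x.b * y.c + x.c * y.b) := rfl
@[simp] theorem mul_b (x y : Z9) :
    (x * y).b = x.a * y.b + x.b * y.a + w * (x.c * y.c) := rfl
@[simp] theorem mul_c (x y : Z9) :
    (x * y).c = x.a * y.c + x.b * y.b + x.c * y.a := rfl
@[simp] theorem natCast_a (n : ℕ) : (n : Z9).a = n := rfl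
@[simp] theorem natCast_b (n : ℕ) : (n : Z9).b = 0 := rfl
@[simp] theorem natCast_c (n : ℕ) : (n : Z9).c = 0 := rfl
@[simp] theorem intCast_a (n : ℤ) : (n : Z9).a = n := rfl
@[simp] theorem intCast_b (n : ℤ) : (n : Z9).b = 0 := rfl
@[simp] theorem intCast_c (n : ℤ) : (n : Z9).c = 0 := rfl

instance : CommRing Z9 where
  add_assoc x y z := by apply Z9.ext <;> simp [add_assoc]
  zero_add x := by apply Z9.ext <;> simp
  add_zero x := by apply Z9.ext <;> simp
  add_comm x y := by apply Z9.ext <;> simp [add_comm]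
  neg_add_cancel x := by apply Z9.ext <;> simp
  sub_eq_add_neg x y := by apply Z9.ext <;> simp [sub_eq_add_neg]
  left_distrib x y z := by apply Z9.ext <;> simp only [mul_a, mul_b, mul_c, add_a, add_b, add_c]
    <;> ring
  right_distrib x y z := by apply Z9.ext <;> simp only [mul_a, mul_b, mul_c, add_a, add_b, add_c]
    <;> ring
  zero_mul x := by apply Z9.ext <;> simp
  mul_zero x := by apply Z9.ext <;> simp
  mul_assoc x y z := by apply Z9.ext <;> simp only [mul_a, mul_b, mul_c] <;> ring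
  one_mul x := by apply Z9.ext <;> simp
  mul_one x := by apply Z9.ext <;> simp
  mul_comm x y := by apply Z9.ext <;> simp only [mul_a, mul_b, mul_c] <;> ring
  nsmul := nsmulRec
  zsmul := zsmulRec
  natCast_zero := by apply Z9.ext <;> simp
  natCast_succ n := by apply Z9.ext <;> simp
  intCast_ofNat n := by apply Z9.ext <;> simp
  intCast_negSucc n := by apply Z9.ext <;> simp [Int.negSucc_eq]

/-- the ninth root of unity -/
def z : Z9 := ⟨0, 1, 0⟩

/-- the embedding of the Eisenstein integers -/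
def ι : Eis →+* Z9 where
  toFun x := ⟨x, 0, 0⟩
  map_one' := rfl
  map_mul' x y := by apply Z9.ext <;> simp
  map_zero' := rfl
  map_add' x y := by apply Z9.ext <;> simp

@[simp] theorem ι_a (x : Eis) : (ι x).a = x := rfl
@[simp] theorem ι_b (x : Eis) : (ι x).b = 0 := rfl
@[simp] theorem ι_c (x : Eis) : (ι x).c = 0 := rfl
@[simp] theorem z_a : z.a = 0 := rfl
@[simp] theorem z_b : z.b = 1 := rfl
@[simp] theorem z_c : z.c = 0 := rfl

theorem z_cube : z ^ 3 = ι w := by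
  have : z ^ 3 = z * z * z := by ring
  rw [this]
  apply Z9.ext <;> simp

theorem z_nine : z ^ 9 = 1 := by
  have : z ^ 9 = (z ^ 3) ^ 3 := by ring
  rw [this, z_cube, ← map_pow, w_cube, map_one]

/-- evaluation at a root of `X^3 = w` -/
def ev {R : Type*} [CommRing R] (φ : Eis →+* R) (t : R) (ht : t ^ 3 = φ w) : Z9 →+* R where
  toFun x := φ x.a + φ x.b * t + φ x.c * t ^ 2
  map_one' := by simp
  map_mul' x y := by
    simp only [mul_a, mul_b, mul_c, map_add, map_mul]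
    linear_combination (-(φ x.b * φ y.c + φ x.c * φ y.b) - φ x.c * φ y.c * t) * ht
  map_zero' := by simp
  map_add' x y := by simp only [add_a, add_b, add_c, map_add]; ring

theorem ev_apply {R : Type*} [CommRing R] (φ : Eis →+* R) (t : R) (ht : t ^ 3 = φ w) (x : Z9) :
    ev φ t ht x = φ x.a + φ x.b * t + φ x.c * t ^ 2 := rfl

theorem ev_ι {R : Type*} [CommRing R] (φ : Eis →+* R) (t : R) (ht : t ^ 3 = φ w) (x : Eis) :
    ev φ t ht (ι x) = φ x := by
  rw [ev_apply]; simp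

theorem ev_z {R : Type*} [CommRing R] (φ : Eis →+* R) (t : R) (ht : t ^ 3 = φ w) :
    ev φ t ht z = t := by
  rw [ev_apply]; simp

/-- the automorphism `z ↦ w z` -/
def σ : Z9 →+* Z9 := ev ι (ι w * z) (by
  rw [mul_pow, z_cube, ← map_pow, w_cube, map_one, one_mul])

theorem σ_apply (x : Z9) : σ x = ι x.a + ι x.b * (ι w * z) + ι x.c * (ι w * z) ^ 2 := rfl
theorem σ_a (x : Z9) : (σ x).a = x.a := by
  rw [σ_apply]; simp [pow_two]
theorem σ_b (x : Z9) : (σ x).b = w * x.b := by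
  rw [σ_apply]; simp [pow_two, mul_comm]
theorem σ_c (x : Z9) : (σ x).c = w ^ 2 * x.c := by
  rw [σ_apply]; simp [pow_two, mul_comm]

/-- complex conjugation -/
def bar : Z9 →+* Z9 := ev (ι.comp Eis.conj) (ι (w ^ 2) * z ^ 2) (by
  have : (ι (w ^ 2) * z ^ 2) ^ 3 = ι (w ^ 6) * (z ^ 3) ^ 2 := by
    rw [mul_pow, ← map_pow]; ring_nf
  rw [this, z_cube, ← map_pow, ← map_mul, RingHom.comp_apply, conj_w]
  have e : w ^ 6 * w ^ 2 = w ^ 2 := by
    have := w_cube
    linear_combination (w ^ 5 + w ^ 2) * this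
  rw [e])

theorem bar_apply (x : Z9) : bar x = ι (Eis.conj x.a) + ι (Eis.conj x.b) * (ι (w ^ 2) * z ^ 2) +
    ι (Eis.conj x.c) * (ι (w ^ 2) * z ^ 2) ^ 2 := rfl

theorem bar_a (x : Z9) : (bar x).a = Eis.conj x.a := by
  rw [bar_apply]; simp [pow_two]
theorem bar_b (x : Z9) : (bar x).b = w ^ 2 * Eis.conj x.c := by
  rw [bar_apply]; simp [pow_two]
  have := w_cube
  linear_combination (w ^ 2 * Eis.conj x.c) * this
theorem bar_c (x : Z9) : (bar x).c = w ^ 2 * Eis.conj x.b := by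
  rw [bar_apply]; simp [pow_two]; ring

theorem bar_z : bar z = z ^ 8 := by
  have : z ^ 8 = (z ^ 3) ^ 2 * z ^ 2 := by ring
  rw [this, z_cube, ← map_pow]
  apply Z9.ext
  · rw [bar_a]; simp [pow_two]
  · rw [bar_b]; simp [pow_two]
  · rw [bar_c]; simp [pow_two]

theorem σ_z : σ z = z ^ 4 := by
  have : z ^ 4 = z ^ 3 * z := by ring
  rw [this, z_cube]
  apply Z9.ext
  · rw [σ_a]; simp
  · rw [σ_b]; simp
  · rw [σ_c]; simp

/-- relative norm -/
def N (x : Z9) : Eis := x.a ^ 3 + w * x.b ^ 3 + w ^ 2 * x.c ^ 3 - 3 * w * (x.a * x.b * x.c)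

theorem N_def (x : Z9) :
    N x = x.a ^ 3 + w * x.b ^ 3 + w ^ 2 * x.c ^ 3 - 3 * w * (x.a * x.b * x.c) := rfl

theorem hom_N {R : Type*} [CommRing R] (φ : Eis →+* R) (t : R) (ht : t ^ 3 = φ w) (x : Z9) :
    φ (N x) = (φ x.a + φ x.b * t + φ x.c * t ^ 2) *
      (φ x.a + φ x.b * (φ w * t) + φ x.c * (φ w * t) ^ 2) *
      (φ x.a + φ x.b * (φ w ^ 2 * t) + φ x.c * (φ w ^ 2 * t) ^ 2) := by
  have h3 : φ 3 = 3 := hom_three φ
  have hw := hom_w φ
  rw [N_def, map_sub, map_add, map_add, map_mul, map_mul, map_mul, map_mul, map_mul, map_mul, h3]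
  simp only [map_pow]
  generalize φ x.a = a
  generalize φ x.b = b
  generalize φ x.c = c
  generalize φ w = W at *
  linear_combination (-(b ^ 3 + c ^ 3 * (t ^ 3 + W) - 3 * a * b * c)) * ht
    - (a ^ 2 * b * t + a ^ 2 * c * t ^ 2 * W ^ 2 - a ^ 2 * c * t ^ 2 * W + a ^ 2 * c * t ^ 2 + a * b ^ 2 * t ^ 2 * W + a * b * c * t ^ 3 * W ^ 3 + a * b * c * t ^ 3 * W ^ 2 - 2 * a * b * c * t ^ 3 * W + 3 * a * b * c * t ^ 3 + a * c ^ 2 * t ^ 4 * W ^ 4 - a * c ^ 2 * t ^ 4 * W ^ 3 + a * c ^ 2 * t ^ 4 * W ^ 2 + b ^ 3 * t ^ 3 * W - b ^ 3 * t ^ 3 + b ^ 2 * c * t ^ 4 * W ^ 3 + b * c ^ 2 * t ^ 5 * W ^ 4 + c ^ 3 * t ^ 6 * W ^ 4 - c ^ 3 * t ^ 6 * W ^ 3 + c ^ 3 * t ^ 6 * W - c ^ 3 * t ^ 6) * hw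

theorem eq_sum (x : Z9) : x = ι x.a + ι x.b * z + ι x.c * z ^ 2 := by
  apply Z9.ext <;> simp [pow_two]

theorem ι_injective : Function.Injective ι := fun _ _ h => congrArg Z9.a h

theorem ι_N (x : Z9) : ι (N x) = x * σ x * σ (σ x) := by
  have h := hom_N ι z z_cube x
  have e1 : ι x.a + ι x.b * z + ι x.c * z ^ 2 = x := (eq_sum x).symm
  have e2 : ι x.a + ι x.b * (ι w * z) + ι x.c * (ι w * z) ^ 2 = σ x := rfl
  have e3 : ι x.a + ι x.b * (ι w ^ 2 * z) + ι x.c * (ι w ^ 2 * z) ^ 2 = σ (σ x) := by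
    rw [σ_apply (σ x), σ_a, σ_b, σ_c]
    simp only [map_mul, map_pow]
    ring
  exact h.trans (congrArg₂ (· * ·) (congrArg₂ (· * ·) e1 e2) e3)

theorem N_mul (x y : Z9) : N (x * y) = N x * N y := by
  apply ι_injective
  rw [ι_N (x * y), map_mul ι (N x) (N y), ι_N x, ι_N y, map_mul σ x y, map_mul σ (σ x) (σ y)]
  ring

theorem N_ι (x : Eis) : N (ι x) = x ^ 3 := by
  rw [N_def]; simp

theorem N_natCast (n : ℕ) : N (n : Z9) = (n : Eis) ^ 3 := by
  rw [N_def]; simp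

theorem N_bar (x : Z9) : N (bar x) = Eis.conj (N x) := by
  rw [N_def, N_def, bar_a, bar_b, bar_c]
  have h3 : Eis.conj 3 = 3 := conj_natCast 3
  simp only [map_sub, map_add, map_mul, map_pow, conj_w, h3]
  have := w_cube
  linear_combination (w ^ 4 * Eis.conj x.c ^ 3 + w ^ 5 * Eis.conj x.b ^ 3
    + w ^ 2 * Eis.conj x.b ^ 3 - 3 * w ^ 2 * Eis.conj x.a * Eis.conj x.b * Eis.conj x.c) * this

theorem N_σ (x : Z9) : N (σ x) = N x := by
  rw [N_def, N_def, σ_a, σ_b, σ_c]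
  have := w_cube
  linear_combination (w * x.b ^ 3 + (w ^ 5 + w ^ 2) * x.c ^ 3
    - 3 * w * x.a * x.b * x.c) * this

/-- an embedding into the complex numbers -/
theorem exists_embedding : ∃ f : Z9 →+* ℂ, Function.Injective f := by
  have hz := Complex.isPrimitiveRoot_exp 9 (by norm_num)
  set ζ : ℂ := Complex.exp (2 * Real.pi * Complex.I / (9 : ℕ)) with hζ
  clear_value ζ
  have h9 := hz.pow_eq_one
  have h3 : ζ ^ 3 ≠ 1 := fun h => by
    have := hz.dvd_of_pow_eq_one 3 h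
    norm_num at this
  have ht : (ζ ^ 3) ^ 2 + ζ ^ 3 + 1 = 0 := by
    have h1 : (ζ ^ 3 - 1) * ((ζ ^ 3) ^ 2 + ζ ^ 3 + 1) = 0 := by linear_combination h9
    rcases mul_eq_zero.mp h1 with h | h
    · exact absurd (sub_eq_zero.mp h) h3
    · exact h
  let φ : Eis →+* ℂ := Eis.lift (ζ ^ 3) ht
  have hφw : ζ ^ 3 = φ w := by
    show ζ ^ 3 = ((0 : ℤ) : ℂ) + ((1 : ℤ) : ℂ) * ζ ^ 3
    push_cast; ring
  refine ⟨ev φ ζ hφw, ?_⟩
  rw [injective_iff_map_eq_zero]
  intro x hx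
  rw [ev_apply] at hx
  open Polynomial in
  let P : ℤ[X] := C x.a.re + C x.b.re * X + C x.c.re * X ^ 2 + C x.a.im * X ^ 3 +
    C x.b.im * X ^ 4 + C x.c.im * X ^ 5
  have hP : Polynomial.aeval ζ P = 0 := by
    rw [← hx]
    simp only [P, map_add, map_mul, map_pow, Polynomial.aeval_C, Polynomial.aeval_X,
      algebraMap_int_eq, Int.coe_castRingHom]
    show _ = ((x.a.re : ℂ) + (x.a.im : ℂ) * ζ ^ 3) + ((x.b.re : ℂ) + (x.b.im : ℂ) * ζ ^ 3) * ζ +
      ((x.c.re : ℂ) + (x.c.im : ℂ) * ζ ^ 3) * ζ ^ 2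
    ring
  have hint : IsIntegral ℤ ζ := hz.isIntegral (by norm_num)
  have hdvd := minpoly.isIntegrallyClosed_dvd hint hP
  rw [← Polynomial.cyclotomic_eq_minpoly hz (by norm_num)] at hdvd
  have hP0 : P = 0 := by
    by_contra hne
    have h1 := Polynomial.natDegree_le_of_dvd hdvd hne
    rw [Polynomial.natDegree_cyclotomic] at h1
    have h2 : P.natDegree ≤ 5 := by
      simp only [P]
      compute_degree
    have h4 : Nat.totient 9 = 6 := by decide
    omega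
  have hc : ∀ i, P.coeff i = 0 := fun i => by rw [hP0]; simp
  have c0 := hc 0
  have c1 := hc 1
  have c2 := hc 2
  have c3 := hc 3
  have c4 := hc 4
  have c5 := hc 5
  simp only [P, Polynomial.coeff_add, Polynomial.coeff_C_mul, Polynomial.coeff_X_pow,
    Polynomial.coeff_X, Polynomial.coeff_C] at c0 c1 c2 c3 c4 c5
  norm_num at c0 c1 c2 c3 c4 c5
  apply Z9.ext <;> apply Eis.ext <;> simp only [zero_a, zero_b, zero_c, zero_re, zero_im] <;>
    assumption

instance : IsDomain Z9 := by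
  obtain ⟨f, hf⟩ := exists_embedding
  exact hf.isDomain f

instance : CharZero Z9 := ⟨fun a b hab => by
  have h1 := congrArg Z9.a hab
  have h2 := congrArg Eis.re h1
  simpa using h2⟩

theorem z_primitive : IsPrimitiveRoot z 9 := by
  have h3 : ¬ z ^ 3 ^ 1 = 1 := by
    rw [pow_one, z_cube]
    intro h
    have h1 := congrArg Z9.a h
    have h2 := congrArg Eis.re h1
    simp at h2
  have := orderOf_eq_prime_pow (p := 3) (n := 1) h3 (by
    have : 3 ^ (1 + 1) = 9 := by norm_num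
    rw [this, z_nine])
  have h9 : orderOf z = 9 := by rw [this]; norm_num
  rw [← h9]
  exact IsPrimitiveRoot.orderOf z

end Z9

end Pool.Agent.Lib_helper18
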