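import Pool.Agent.Lib_helper18.Z9
import Pool.Agent.Lib_helper18.CaseI

/-!
# Jacobi sums of order nine
-/

namespace Pool.Agent.Lib_helper18

open Eis Z9

section fact

variable {p : ℕ} [hp : Fact p.Prime]

theorem fact_mul_fact (k : ℕ) (hk : k ≤ p - 1) :
    ((k.factorial : ℕ) : ZMod p) * (((p - 1 - k).factorial : ℕ) : ZMod p) = (-1) ^ (k + 1) := by
  have hp2 := hp.out.two_le
  induction k with
  | zero =>
    have := ZMod.wilsons_lemma p
    simp only [Nat.factorial_zero, Nat.cast_one, one_mul, Nat.sub_zero, zero_add, pow_one]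
    exact this
  | succ k ih =>
    have ih' := ih (by omega)
    have h1 : p - 1 - k = (p - 1 - (k + 1)) + 1 := by omega
    rw [h1, Nat.factorial_succ, ← h1] at ih'
    rw [Nat.factorial_succ]
    push_cast at ih' ⊢
    have h2 : ((p - 1 - k : ℕ) : ZMod p) = -((k : ZMod p) + 1) := by
      have h3 : ((p - 1 - k : ℕ) : ZMod p) + ((k : ZMod p) + 1) = 0 := by
        have : (p - 1 - k) + (k + 1) = p := by omega
        have := congrArg (Nat.cast : ℕ → ZMod p) this
        push_cast at this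
        rw [this]; simp
      linear_combination h3
    rw [h2] at ih'
    rw [pow_succ, ← ih']
    ring

theorem fact_ne_zero (k : ℕ) (hk : k < p) : ((k.factorial : ℕ) : ZMod p) ≠ 0 := by
  rw [Ne, ZMod.natCast_eq_zero_iff, hp.out.dvd_factorial]
  omega

theorem fact_mult {m : ℕ} (hm : ((9 * m + 1 : ℕ) : ZMod p) = 0) (j : ℕ) :
    (((3 * j).factorial : ℕ) : ZMod p) * (((3 * m).factorial : ℕ) : ZMod p) *
      (((6 * m).factorial : ℕ) : ZMod p) = 27 ^ j * ((j.factorial : ℕ) : ZMod p) *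
      (((3 * m + j).factorial : ℕ) : ZMod p) * (((6 * m + j).factorial : ℕ) : ZMod p) := by
  induction j with
  | zero => simp
  | succ j ih =>
    have e1 : (3 * (j + 1)).factorial =
        (3 * j + 3) * ((3 * j + 2) * ((3 * j + 1) * (3 * j).factorial)) := by
      have : 3 * (j + 1) = 3 * j + 3 := by ring
      rw [this, Nat.factorial_succ, Nat.factorial_succ, Nat.factorial_succ]
    have e2 : (3 * m + (j + 1)).factorial = (3 * m + j + 1) * (3 * m + j).factorial := by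
      rw [← add_assoc, Nat.factorial_succ]
    have e3 : (6 * m + (j + 1)).factorial = (6 * m + j + 1) * (6 * m + j).factorial := by
      rw [← add_assoc, Nat.factorial_succ]
    rw [e1, e2, e3, Nat.factorial_succ]
    push_cast at hm ih ⊢
    have h1 : 3 * (3 * (m : ZMod p) + j + 1) = 3 * j + 2 := by linear_combination hm
    have h2 : 3 * (6 * (m : ZMod p) + j + 1) = 3 * j + 1 := by linear_combination 2 * hm
    have h3 : (27 : ZMod p) ^ (j + 1) * (((j : ZMod p) + 1) * (j.factorial : ZMod p)) *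
        ((3 * m + j + 1) * ((3 * m + j).factorial : ZMod p)) *
        ((6 * m + j + 1) * ((6 * m + j).factorial : ZMod p)) =
        (3 * (3 * (m : ZMod p) + j + 1)) * (3 * (6 * (m : ZMod p) + j + 1)) * (3 * (j + 1)) *
        (27 ^ j * (j.factorial : ZMod p) * ((3 * m + j).factorial : ZMod p) *
          ((6 * m + j).factorial : ZMod p)) := by
      rw [pow_succ]; ring
    rw [h3, h1, h2, ← ih]; ring

/-- values of Jacobi sums modulo p -/
noncomputable def jv (p m r : ℕ) [Fact p.Prime] : ZMod p :=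
  ∑ x : ZMod p, x ^ (m * r) * (1 - x) ^ (m * r)

theorem jv_zero {m r : ℕ} (hm : p - 1 = 9 * m) (hr : 0 < r) (hr2 : r ≤ 4) : jv p m r = 0 := by
  have hp2 := hp.out.two_le
  have hm0 : 0 < m := by omega
  have h1 : m * r ≤ m * 4 := Nat.mul_le_mul_left _ hr2
  have h2 : 0 < m * r := Nat.mul_pos hm0 hr
  rw [jv, sum_pow_mul_pow _ h2 (by omega), if_neg (by omega)]

theorem m_even {m : ℕ} (hm : p - 1 = 9 * m) : Even m := by
  have hp2 := hp.out.two_le
  rcases hp.out.eq_two_or_odd with h2 | h2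
  · omega
  · rw [Nat.even_iff]; omega

theorem jv_eq {m r : ℕ} (hm : p - 1 = 9 * m) (hr : 5 ≤ r) (hr2 : r ≤ 8) :
    jv p m r = -(((r * m).choose ((9 - r) * m) : ℕ) : ZMod p) := by
  have hp2 := hp.out.two_le
  have hm0 : 0 < m := by omega
  have h1 : m * r ≤ m * 8 := Nat.mul_le_mul_left _ hr2
  have h2 : m * 5 ≤ m * r := Nat.mul_le_mul_left _ hr
  have h3 : p - 1 - m * r = (9 - r) * m := by
    rw [hm, Nat.sub_mul, mul_comm m r]
  rw [jv, sum_pow_mul_pow _ (by omega) (by omega), if_pos (by omega), h3,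
    ((m_even hm).mul_left _).neg_one_pow, one_mul, mul_comm m r]

theorem choose_eq {n k : ℕ} (hk : k ≤ n) :
    ((n.choose k : ℕ) : ZMod p) * ((k.factorial : ℕ) : ZMod p) *
      (((n - k).factorial : ℕ) : ZMod p) = ((n.factorial : ℕ) : ZMod p) := by
  have := Nat.choose_mul_factorial_mul_factorial hk
  rw [← this]; push_cast; ring

theorem jv_ne_zero {m r : ℕ} (hm : p - 1 = 9 * m) (hr : 5 ≤ r) (hr2 : r ≤ 8) :
    jv p m r ≠ 0 := by
  have hp2 := hp.out.two_le
  have hm0 : 0 < m := by omega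
  have h1 : m * r ≤ m * 8 := Nat.mul_le_mul_left _ hr2
  rw [jv_eq hm hr hr2, neg_ne_zero]
  intro h
  have h4 : (9 - r) * m ≤ r * m := Nat.mul_le_mul_right _ (by omega)
  have h3 := choose_eq (p := p) h4
  rw [h, zero_mul, zero_mul] at h3
  exact fact_ne_zero (p := p) (r * m) (by rw [mul_comm]; omega) h3.symm

/-- The ratio of two Jacobi sums modulo `p` in terms of `(3m)!`. -/
theorem jv_ratio {m : ℕ} (hm : p - 1 = 9 * m) :
    jv p m 8 * (((3 * m).factorial : ℕ) : ZMod p) =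
      -(((((4 * m).factorial : ℕ) : ZMod p) * 3 ^ m) ^ 3 * jv p m 5) := by
  have hp2 := hp.out.two_le
  have hm0 : 0 < m := by omega
  have hev := m_even hm
  have hp9 : ((9 * m + 1 : ℕ) : ZMod p) = 0 := by
    have : 9 * m + 1 = p := by omega
    rw [this]; simp
  have w1 := fact_mul_fact (p := p) m (by omega)
  have w3 := fact_mul_fact (p := p) (3 * m) (by omega)
  have w4 := fact_mul_fact (p := p) (4 * m) (by omega)
  have o1 : p - 1 - m = 8 * m := by omega
  have o3 : p - 1 - 3 * m = 6 * m := by omega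
  have o4 : p - 1 - 4 * m = 5 * m := by omega
  rw [o1, pow_succ, hev.neg_one_pow, one_mul] at w1
  rw [o3, pow_succ, (hev.mul_left 3).neg_one_pow, one_mul] at w3
  rw [o4, pow_succ, (hev.mul_left 4).neg_one_pow, one_mul] at w4
  have hmult := fact_mult hp9 m
  have o5 : 3 * m + m = 4 * m := by ring
  have o6 : 6 * m + m = 7 * m := by ring
  rw [o5, o6] at hmult
  have c8 := choose_eq (p := p) (n := 8 * m) (k := m) (by omega)
  have c5 := choose_eq (p := p) (n := 5 * m) (k := 4 * m) (by omega)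
  have o7 : 8 * m - m = 7 * m := by omega
  have o8 : 5 * m - 4 * m = m := by omega
  rw [o7] at c8
  rw [o8] at c5
  rw [jv_eq hm (by norm_num) (by norm_num), jv_eq hm (by norm_num) (by norm_num)]
  have o9 : (9 - 8) * m = m := by omega
  have o10 : (9 - 5) * m = 4 * m := by omega
  rw [o9, o10]
  have n1 := fact_ne_zero (p := p) m (by omega)
  have n4 := fact_ne_zero (p := p) (4 * m) (by omega)
  have n7 := fact_ne_zero (p := p) (7 * m) (by omega)
  generalize (((m).factorial : ℕ) : ZMod p) = f1 at *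
  generalize (((3 * m).factorial : ℕ) : ZMod p) = f3 at *
  generalize (((4 * m).factorial : ℕ) : ZMod p) = f4 at *
  generalize (((5 * m).factorial : ℕ) : ZMod p) = f5 at *
  generalize (((6 * m).factorial : ℕ) : ZMod p) = f6 at *
  generalize (((7 * m).factorial : ℕ) : ZMod p) = f7 at *
  generalize (((8 * m).factorial : ℕ) : ZMod p) = f8 at *
  generalize (((8 * m).choose m : ℕ) : ZMod p) = C8 at *
  generalize (((5 * m).choose (4 * m) : ℕ) : ZMod p) = C5 at *
  have h27 : (27 : ZMod p) ^ m = (3 ^ m) ^ 3 := by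
    rw [← pow_mul, mul_comm m 3, pow_mul]; norm_num
  rw [h27] at hmult
  generalize (3 : ZMod p) ^ m = T at *
  -- goal : -C8 * f3 = -((f4 * T)^3 * -C5)
  have hf3 : -f3 = T ^ 3 * f1 * f4 * f7 := by linear_combination hmult - f3 * w3
  apply mul_left_cancel₀ (mul_ne_zero (mul_ne_zero n1 n1) n7)
  -- f1^2 f7 C8 f3 = f1 f8 f3 = - f3
  have g1 : f1 * f1 * f7 * (-C8 * f3) = f3 := by
    linear_combination (-f1 * f3) * c8 - f3 * w1
  have g2 : f1 * f1 * f7 * (-((f4 * T) ^ 3 * -C5)) = f3 := by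
    linear_combination (f1 * f7 * f4 ^ 2 * T ^ 3) * c5 + (f1 * f7 * f4 * T ^ 3) * w4 + hf3
  rw [g1, g2]

/-- The middle Jacobi sum modulo `p`. -/
theorem jv_six {m : ℕ} (hm : p - 1 = 9 * m) :
    jv p m 6 * (((3 * m).factorial : ℕ) : ZMod p) ^ 3 = 1 := by
  have hp2 := hp.out.two_le
  have hm0 : 0 < m := by omega
  have hev := m_even hm
  have w3 := fact_mul_fact (p := p) (3 * m) (by omega)
  have o3 : p - 1 - 3 * m = 6 * m := by omega
  rw [o3, pow_succ, (hev.mul_left 3).neg_one_pow, one_mul] at w3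
  have c6 := choose_eq (p := p) (n := 6 * m) (k := 3 * m) (by omega)
  have o7 : 6 * m - 3 * m = 3 * m := by omega
  rw [o7] at c6
  rw [jv_eq hm (by norm_num) (by norm_num)]
  have o9 : (9 - 6) * m = 3 * m := by omega
  rw [o9]
  linear_combination (-(((3 * m).factorial : ℕ) : ZMod p)) * c6 - w3

end fact

section char

variable {p : ℕ} [hp : Fact p.Prime]

theorem root_primitive (hp9 : p % 9 = 1) (φ : Eis →+* ZMod p) {t : ZMod p}
    (ht : t ^ 3 = φ w) : IsPrimitiveRoot t 9 := by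
  have hw := hom_w_primitive (p := p) (by omega) φ
  have h3 : ¬ t ^ 3 ^ 1 = 1 := by
    rw [pow_one, ht]
    exact hw.ne_one (by norm_num)
  have := orderOf_eq_prime_pow (p := 3) (n := 1) h3 (by
    have : 3 ^ (1 + 1) = 3 * 3 := by norm_num
    rw [this, pow_mul, ht, hw.pow_eq_one])
  have h9 : orderOf t = 9 := by rw [this]; norm_num
  rw [← h9]
  exact IsPrimitiveRoot.orderOf t

/-- a character of order nine -/
def IsPsi (ψ : MulChar (ZMod p) Z9) (t : ZMod p) (m : ℕ) : Prop :=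
  (∀ x : ZMod p, x ≠ 0 → ∃ i : ℕ, ψ x = z ^ i ∧ t ^ i = x ^ m) ∧ ∃ x : ZMod p, x ≠ 0 ∧ ψ x = z

theorem exists_psi (hp9 : p % 9 = 1) {m : ℕ} (hm : p - 1 = 9 * m) (φ : Eis →+* ZMod p)
    {t : ZMod p} (ht : t ^ 3 = φ w) : ∃ ψ : MulChar (ZMod p) Z9, IsPsi ψ t m := by
  obtain ⟨ψ, h1, h2, h3⟩ := exists_mulChar (ev φ t ht) z z_nine
    (by rw [ev_z]; exact root_primitive hp9 φ ht) hm
  refine ⟨ψ, ?_, h3⟩
  intro x hx
  obtain ⟨i, hi⟩ := h2 x hx
  refine ⟨i, hi, ?_⟩
  rw [← h1 x hx, hi, map_pow, ev_z]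

variable {ψ : MulChar (ZMod p) Z9} {t : ZMod p} {m : ℕ}

theorem IsPsi.pow_nine (h : IsPsi ψ t m) : ψ ^ 9 = 1 := by
  refine MulChar.ext fun x => ?_
  rw [MulChar.pow_apply_coe]
  obtain ⟨i, hi, -⟩ := h.1 x x.ne_zero
  rw [hi, ← pow_mul, mul_comm, pow_mul, z_nine, one_pow, MulChar.one_apply_coe]

theorem IsPsi.orderOf (h : IsPsi ψ t m) : orderOf ψ = 9 := by
  have h3 : ¬ ψ ^ 3 ^ 1 = 1 := by
    rw [pow_one]
    intro h3
    obtain ⟨x, hx, hx2⟩ := h.2
    have h4 : (ψ ^ 3) x = 1 := by rw [h3]; exact MulChar.one_apply (isUnit_iff_ne_zero.mpr hx)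
    rw [MulChar.pow_apply' _ (by norm_num), hx2, z_cube] at h4
    have h1 := congrArg Z9.a h4
    have h2 := congrArg Eis.re h1
    simp at h2
  have := orderOf_eq_prime_pow (p := 3) (n := 1) h3 (by
    have : 3 ^ (1 + 1) = 9 := by norm_num
    rw [this, h.pow_nine])
  rw [this]; norm_num

/-- Jacobi sums of powers of `ψ` -/
noncomputable def JJ (ψ : MulChar (ZMod p) Z9) (a : ℕ) : Z9 := jacobiSum (ψ ^ a) (ψ ^ a)

theorem IsPsi.JJ_add_nine (h : IsPsi ψ t m) (a : ℕ) : JJ ψ (a + 9) = JJ ψ a := by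
  rw [JJ, JJ, pow_add, h.pow_nine, mul_one]

theorem IsPsi.ringHomComp (h : IsPsi ψ t m) (τ : Z9 →+* Z9) (j : ℕ) (hτ : τ z = z ^ j) :
    ψ.ringHomComp τ = ψ ^ j := by
  refine MulChar.ext fun x => ?_
  rw [MulChar.ringHomComp_apply, MulChar.pow_apply_coe]
  obtain ⟨i, hi, -⟩ := h.1 x x.ne_zero
  rw [hi, map_pow, hτ, ← pow_mul, ← pow_mul, mul_comm]

theorem IsPsi.map_JJ (h : IsPsi ψ t m) (τ : Z9 →+* Z9) (j : ℕ) (hτ : τ z = z ^ j) (a : ℕ) :
    τ (JJ ψ a) = JJ ψ (j * a) := by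
  rw [JJ, JJ, ← jacobiSum_ringHomComp, ← MulChar.ringHomComp_pow, h.ringHomComp τ j hτ, ← pow_mul]

theorem IsPsi.JJ_mul (h : IsPsi ψ t m) {a : ℕ} (ha : ¬ 3 ∣ a) :
    JJ ψ a * JJ ψ (8 * a) = (p : Z9) := by
  have hinv : (ψ ^ a)⁻¹ = ψ ^ (8 * a) := by
    rw [inv_eq_iff_mul_eq_one, ← pow_add]
    have : a + 8 * a = 9 * a := by ring
    rw [this, pow_mul, h.pow_nine, one_pow]
  rw [JJ, JJ, ← hinv]
  have hord := h.orderOf
  have hno : ∀ k, ¬ 9 ∣ k → ψ ^ k ≠ 1 := by
    intro k hk h1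
    rw [← orderOf_dvd_iff_pow_eq_one, hord] at h1
    exact hk h1
  apply jacobiSum_mul_inv
  · apply hno; omega
  · rw [← pow_add]; apply hno; omega

theorem IsPsi.JJ_mod (h : IsPsi ψ t m) (hm : p - 1 = 9 * m) (a : ℕ) :
    ∃ y : Z9, JJ ψ a = -1 + y * (z - 1) ^ 2 := by
  have h9 : (ψ ^ a) ^ 9 = 1 := by rw [← pow_mul, mul_comm, pow_mul, h.pow_nine, one_pow]
  have hdvd : 9 ∣ Fintype.card (ZMod p) - 1 := by rw [ZMod.card, hm]; exact dvd_mul_right _ _
  obtain ⟨y, -, hy⟩ := exists_jacobiSum_eq_neg_one_add (n := 9) (by norm_num : 2 < 9)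
    (χ := ψ ^ a) (ψ := ψ ^ a) (μ := z) h9 h9 hdvd z_primitive
  exact ⟨y, hy⟩

/-- evaluation of Jacobi sums modulo `p` -/
theorem IsPsi.ev_JJ (h : IsPsi ψ t m) (hm : p - 1 = 9 * m) (E : Z9 →+* ZMod p) {j : ℕ}
    (hE : E z = t ^ j) {a r : ℕ} (hr : (a * j) % 9 = r) (hr0 : 0 < r) :
    E (JJ ψ a) = jv p m r := by
  have hp2 := hp.out.two_le
  have hm0 : 0 < m := by omega
  have h1 : ∀ x : ZMod p, x ≠ 0 → E ((ψ ^ a) x) = x ^ (m * r) := by
    intro x hx
    obtain ⟨i, hi, hi2⟩ := h.1 x hx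
    have ha0 : a ≠ 0 := by rintro rfl; simp at hr; omega
    rw [MulChar.pow_apply' _ ha0, hi, map_pow, map_pow, hE]
    have e1 : (((t ^ j) ^ i) ^ a) = (t ^ i) ^ (a * j) := by
      rw [← pow_mul, ← pow_mul, ← pow_mul]; congr 1; ring
    rw [e1, hi2, ← pow_mul]
    conv_lhs => rw [← Nat.mod_add_div (a * j) 9, hr]
    rw [mul_add, pow_add, ← mul_assoc, mul_comm m 9, ← hm, pow_mul x (p - 1),
      ZMod.pow_card_sub_one_eq_one hx, one_pow, mul_one]
  rw [JJ, map_jacobiSum E (ψ ^ a) (m * r) (Nat.mul_pos hm0 hr0) h1]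
  rfl

end char

end Pool.Agent.Lib_helper18
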